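import Pool.Agent.helper85.L9.BnTab

/-!
# Root blocks: the enumeration theorem
-/

set_option linter.unusedSimpArgs false

namespace Helper85.Bn

open MvPolynomial Finset Helper42.L9 Helper19.Gadget Helper19.Kill Helper19.DN

variable {V : Type*} {n : ℕ} {c : V → ℕ}

open Classical in
/-- the vertices of `l` and the vertices `T` of the block -/
noncomputable def pre (g : Fin n → V) (T : Fin n → Prop) (l : List V) : Finset V :=
  l.toFinset ∪ (Finset.univ.filter fun i => T i).image g

theorem mem_pre {g : Fin n → V} {T : Fin n → Prop} {l : List V} {v : V} :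
    v ∈ pre g T l ↔ v ∈ l ∨ ∃ i, T i ∧ g i = v := by
  classical
  unfold pre
  simp

/-- hypotheses on the further edges `N` of a block `g`; `W`: outer vertices which are peeled after
the vertices `T` of the block -/
structure Ctx (g : Fin n → V) (T : Fin n → Prop) (W : List V) (N : Multiset (Sym2 V))
    (c : V → ℕ) : Prop where
  loopless : ∀ e ∈ N, ¬ e.IsDiag
  nodup : W.Nodup
  off : ∀ w ∈ W, ∀ i, g i ≠ w
  deg : ∀ v, (∀ i, g i ≠ v) → v ∉ W → dg N v ≤ 3 ∧ 2 ≤ c v
  peel : ∀ (l1 : List V) (w : V) (l2 : List V), W = l1 ++ w :: l2 →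
    dg (outt (pre g T l1) N) w ≤ c w
  noK4 : ∀ N' ≤ N, (∀ e ∈ N', ∀ i, g i ∉ e) → NoK4 N'

theorem outt_mono {A : Finset V} {M N : Multiset (Sym2 V)} (h : M ≤ N) : outt A M ≤ outt A N := by
  classical
  unfold outt
  exact Multiset.filter_le_filter _ h

theorem Ctx.mono {g : Fin n → V} {T : Fin n → Prop} {W : List V} {N N' : Multiset (Sym2 V)}
    (h : Ctx g T W N c) (hN : N' ≤ N) : Ctx g T W N' c :=
  ⟨fun e he => h.loopless e (Multiset.mem_of_le hN he), h.nodup, h.off,
    fun v h1 h2 => ⟨(dg_le_of_le hN v).trans (h.deg v h1 h2).1, (h.deg v h1 h2).2⟩,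
    fun l1 w l2 hw => (dg_le_of_le (outt_mono hN) w).trans (h.peel l1 w l2 hw),
    fun N'' h1 h2 => h.noK4 N'' (h1.trans hN) h2⟩

theorem Ctx.outer {g : Fin n → V} {T : Fin n → Prop} {W : List V} {L : List (Fin n × V)}
    {N0 : Multiset (Sym2 V)} (hg : Function.Injective g) (h : Ctx g T W (lkM g L + N0) c)
    (hL : ∀ e ∈ L, ∀ i, g i ≠ e.2) (h0 : ∀ e ∈ N0, ∀ i, g i ∉ e) : Outer g T W L N0 c := by
  classical
  have hle : N0 ≤ lkM g L + N0 := Multiset.le_add_left _ _
  refine ⟨hL, h0, fun e he => h.loopless e (Multiset.mem_of_le hle he), ?_, ?_,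
    h.noK4 N0 hle h0⟩
  · intro v h1 h2
    have h3 := h.deg v h1 h2
    rw [dg_add, dg_lkM_out L h1] at h3
    exact ⟨by omega, h3.2⟩
  · intro l1 w l2 hw
    have h3 := h.peel l1 w l2 hw
    have hwW : w ∈ W := by rw [hw]; simp
    have hoff := h.off w hwW
    have hnd := h.nodup
    rw [hw, List.nodup_append] at hnd
    have hwl : w ∉ l1 := fun h4 => hnd.2.2 w h4 w List.mem_cons_self rfl
    rw [outt_add, dg_add] at h3
    have e1 : outt (pre g T l1) N0 = outt (@List.toFinset V (Classical.decEq V) l1) N0 := by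
      unfold outt
      refine Multiset.filter_congr fun e he => ?_
      refine forall_congr' fun v => ?_
      refine forall_congr' fun hv => ?_
      rw [mem_pre, List.mem_toFinset]
      constructor
      · exact fun h4 h5 => h4 (Or.inl h5)
      · rintro h4 (h5 | ⟨i, _, rfl⟩)
        · exact h4 h5
        · exact h0 e he i hv
    have e2 : mU (fun i => ¬ T i) L w ≤ dg (outt (pre g T l1) (lkM g L)) w := by
      have h_off : ∀ i, g i ∉ l1 := fun i h5 => h.off (g i) (by rw [hw]; exact List.mem_append_left _ h5) i rfl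
      clear h3 h
      induction L with
      | nil => simp [mU]
      | cons e L ih =>
        have ih' := ih (fun e' he' => hL e' (List.mem_cons_of_mem _ he'))
          (Multiset.le_add_left _ _)
        rw [lkM_cons]
        by_cases hm : ¬ T e.1 ∧ e.2 = w
        · have e3 : mU (fun i => ¬ T i) (e :: L) w = mU (fun i => ¬ T i) L w + 1 := by
            unfold mU
            rw [List.countP_cons_of_pos]
            simpa using hm
          have e4 : outt (pre g T l1) (s(g e.1, e.2) ::ₘ lkM g L) =
              s(g e.1, e.2) ::ₘ outt (pre g T l1) (lkM g L) := by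
            unfold outt
            rw [Multiset.filter_cons_of_pos]
            intro v hv
            rw [Sym2.mem_iff] at hv
            rw [mem_pre]
            rcases hv with rfl | rfl
            · rintro (h5 | ⟨i, h5, h6⟩)
              · exact h_off e.1 h5
              · exact hm.1 (hg h6 ▸ h5)
            · rintro (h5 | ⟨i, _, h6⟩)
              · exact hwl (hm.2 ▸ h5)
              · exact hL e List.mem_cons_self i h6
          rw [e3, e4, dg_cons_pos (by rw [hm.2]; exact Sym2.mem_mk_right _ _)]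
          omega
        · have e3 : mU (fun i => ¬ T i) (e :: L) w = mU (fun i => ¬ T i) L w := by
            unfold mU
            rw [List.countP_cons_of_neg]
            simpa using hm
          rw [e3]
          refine ih'.trans (dg_le_of_le (outt_mono (Multiset.le_cons_self _ _)) w)
    rw [e1] at h3
    omega

/-- the outside can pay the links of an applicable entry -/
theorem exists_U {g : Fin n → V} {T : Fin n → Prop} {W : List V}
    {L : List (Fin n × V)} {N0 : Multiset (Sym2 V)} (O : Outer g T W L N0 c)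
    (Us : List (List Bool)) (hUs : ∀ U ∈ Us, ∀ i : Fin n, msk U i → ¬ T i) (r : List ℕ)
    (hr : r.length = n) (hc : ∀ i : Fin n, cl L i ≤ r.getD i 0) (h : leafOK Us r = true) :
    ∃ U ∈ Us, Sup (out (msk U) L * gp N0) c := by
  classical
  obtain ⟨U, hU, h1⟩ := leaf_sound (R := Reach (core W N0)) (fun a b h => h.symm)
    (fun a b d h h' => h.trans' h') L Us r hr hc h
  refine ⟨U, hU, ?_⟩
  by_contra hcon
  obtain ⟨v0, h2, h3, _⟩ := out_fail O (msk U) (hUs U hU) hcon
  exact h1 ⟨v0, h2, h3⟩

theorem outer_at {g : Fin n → V} {T : Fin n → Prop} {W : List V}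
    {L : List (Fin n × V)} {N0 : Multiset (Sym2 V)} (O : Outer g T W L N0 c) : AT N0 c := by
  classical
  by_contra hcon
  have h1 : ¬ Sup (out (fun _ : Fin n => False) L * gp N0) c := by
    have e1 : out (fun _ : Fin n => False) L = 1 := by
      unfold out
      rw [List.filter_eq_nil_iff.mpr (by simp)]
      simp
    rw [e1, one_mul]
    exact hcon
  obtain ⟨v0, h2, h3, _⟩ := out_fail O (fun _ : Fin n => False) (fun _ h => h.elim) h1
  have h4 : 0 < L.countP fun e => Reach (core W N0) v0 e.2 := by omega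
  obtain ⟨e, he, h5⟩ := List.countP_pos_iff.mp h4
  exact h2 e he (by simpa using h5)

/-- the leaf: no inner links -/
theorem leaf_at {g : Fin n → V} (hg : Function.Injective g) {cl' : List ℕ}
    (hc : ∀ i : Fin n, cp cl' i ≤ c (g i)) {T : List Bool} {W : List V}
    (F : List (Fin n × Fin n)) (r : List ℕ) (hrl : r.length = n) (N : Multiset (Sym2 V))
    (hN : ∀ i j, s(g i, g j) ∉ N) (hr : ∀ i : Fin n, dg N (g i) ≤ r.getD i 0)
    (C : Ctx g (msk T) W N c) (Us : List (List Bool))
    (hUs : ∀ U ∈ Us, (∀ i : Fin n, msk U i → ¬ msk T i) ∧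
      ∃ (Q : List (ℤ × (Fin n →₀ ℕ))) (D : ℤ), D ≠ 0 ∧
      (∀ q ∈ Q, ∀ i : Fin n, q.2 i ≤ cp cl' i) ∧
      Hp Q (ep F) (fun i => r.getD i 0) (msk U) D)
    (h : leafOK Us r = true) : AT (emb g F + N) c := by
  classical
  obtain ⟨L, N0, rfl, hL, h0⟩ := exists_links g N hN
  have O := C.outer hg hL h0
  have hcl : ∀ i : Fin n, cl L i ≤ r.getD i 0 := by
    intro i
    have := hr i
    rw [dg_add, dg_lkM hg L hL i] at this
    omega
  obtain ⟨U, hU, hS⟩ := exists_U O Us (fun U hU => (hUs U hU).1) r hrl hcl h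
  obtain ⟨_, Q, D, hD, hQ, H⟩ := hUs U hU
  exact at_of_pure hg F H hD (fun p hp i => (hQ p hp i).trans (hc i)) L hL hcl N0 h0 hS

/-- the leaf for a killer block -/
theorem leaf_kill {g : Fin n → V} (hg : Function.Injective g) {cl' : List ℕ}
    (h7 : ∀ i, cp cl' i ≤ 7) (hc : ∀ i : Fin n, cp cl' i ≤ c (g i)) {T : Fin n → Prop}
    {W : List V} (F : List (Fin n × Fin n)) (r : List ℕ) (N : Multiset (Sym2 V))
    (hN : ∀ i j, s(g i, g j) ∉ N) (hr : ∀ i : Fin n, dg N (g i) ≤ r.getD i 0)
    (C : Ctx g T W N c) (h : leaf n cl' r (fst (cp cl') (F.map vE)) = true) :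
    AT (emb g F + N) c := by
  classical
  rw [leaf, List.any_eq_true] at h
  obtain ⟨p, _, hp⟩ := h
  rw [Bool.and_eq_true, Bool.and_eq_true, decide_eq_true_eq, decide_eq_true_eq] at hp
  obtain ⟨⟨h1, h2⟩, h3⟩ := hp
  have hle : ∀ i : Fin n, dec n p.1 i + r.getD i 0 ≤ cp cl' i := fun i => by
    rw [dec_apply]; exact okl_spec h2 i i.2
  refine kill_leaf g hg F (dec n p.1) ?_ N hN ?_ ?_
  · rw [← cfL_fst (cp cl') h7 F (dec n p.1) fun i => (Nat.le_add_right _ _).trans (hle i),
      enc_dec n p.1 h1]
    exact h3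
  · intro i
    exact (Nat.add_le_add_left (hr i) _).trans ((hle i).trans (hc i))
  · obtain ⟨L, N0, rfl, hL, h0⟩ := exists_links g N hN
    have e1 : outt (Finset.univ.image g) (lkM g L + N0) = N0 := by
      rw [outt_add, outt_none, zero_add, outt_keep]
      · intro e he v hv hvA
        simp only [Finset.mem_image, Finset.mem_univ, true_and] at hvA
        obtain ⟨i, rfl⟩ := hvA
        exact h0 e he i hv
      · intro e he
        unfold lkM at he
        rw [Multiset.mem_coe, List.mem_map] at he
        obtain ⟨x, _, rfl⟩ := he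
        exact ⟨g x.1, Sym2.mem_mk_left _ _, by simp⟩
    have := outer_at (C.outer hg hL h0)
    convert this using 1

/-- **Enumeration.** -/
theorem enP_sound {g : Fin n → V} (hg : Function.Injective g) {cl' sl : List ℕ}
    (h7 : ∀ i, cp cl' i ≤ 7) (hc : ∀ i : Fin n, cp cl' i ≤ c (g i)) {T : List Bool}
    {W : List V} {E : List (Fin n × Fin n)} {tab : Tab} (htab : TabOK n cl' sl T E tab)
    {exc : List (List (ℕ × ℕ))} (hx : ∀ (J : List (Fin n × Fin n)) (r : List ℕ)
      (N : Multiset (Sym2 V)), J.map vE ∈ exc → r.length = n →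
      (∀ i : Fin n, r.getD i 0 + dj (J.map vE) i = sl.getD i 0) →
      (∀ i : Fin n, dg N (g i) ≤ r.getD i 0) → Ctx g (msk T) W N c →
      (∀ i j, s(g i, g j) ∉ N) → AT (emb g (J ++ E) + N) c) :
    ∀ (f : ℕ) (ps : List (ℕ × ℕ)) (J : List (Fin n × Fin n)) (P : PL) (r : List ℕ)
      (N : Multiset (Sym2 V)), r.length = n →
      (∀ i : Fin n, r.getD i 0 + dj (J.map vE) i = sl.getD i 0) →
      (∀ i : Fin n, dg N (g i) ≤ r.getD i 0) → Ctx g (msk T) W N c →
      (P = fst (cp cl') ((J ++ E).map vE) ∨ P = []) →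
      (∀ e ∈ ps, e.1 < e.2 ∧ e.2 < n) →
      (∀ i j : Fin n, i < j → s(g i, g j) ∈ N → ((i : ℕ), (j : ℕ)) ∈ ps) →
      enP n cl' tab exc f ps (J.map vE) P r = true → AT (emb g (J ++ E) + N) c := by
  classical
  intro f
  induction f with
  | zero => intro ps J P r N _ _ _ _ _ _ _ h; simp [enP] at h
  | succ f ih =>
    intro ps J P r N hrl hr hd C hP hps hin h
    cases ps with
    | nil =>
      have hN : ∀ i j, s(g i, g j) ∉ N := by
        intro i j hij
        have hne : i ≠ j := by
          rintro rfl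
          exact C.loopless _ hij (Sym2.mk_isDiag_iff.mpr rfl)
        rcases lt_or_gt_of_ne hne with h4 | h4
        · exact absurd (hin i j h4 hij) (by simp)
        · rw [Sym2.eq_swap] at hij
          exact absurd (hin j i h4 hij) (by simp)
      rw [enP, Bool.or_eq_true, Bool.or_eq_true] at h
      rcases h with (h | h) | h
      · rcases hP with rfl | rfl
        · exact leaf_kill hg h7 hc (J ++ E) r N hN hd C h
        · simp [leaf] at h
      · refine leaf_at hg hc (J ++ E) r hrl N hN hd C (appU tab (J.map vE)) ?_ h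
        intro U hU
        obtain ⟨h1, Q, D, h2, h3, h4⟩ := hp_app htab J (fun i => r.getD i 0) hr hU
        exact ⟨h1, Q, D, h2, h3, h4⟩
      · rw [List.any_eq_true] at h
        obtain ⟨X, hX, hXJ⟩ := h
        rw [decide_eq_true_eq] at hXJ
        exact hx J r N (hXJ ▸ hX) hrl hr hd C hN
    | cons e ps =>
      obtain ⟨a, b⟩ := e
      rw [enP, Bool.and_eq_true] at h
      obtain ⟨h1, h2⟩ := h
      obtain ⟨hab, hbn⟩ := hps _ List.mem_cons_self
      simp only at hab hbn
      by_cases hmem : s(g ⟨a, by omega⟩, g ⟨b, hbn⟩) ∈ N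
      · obtain ⟨N', rfl⟩ := Multiset.exists_cons_of_mem hmem
        have hne : (⟨a, by omega⟩ : Fin n) ≠ ⟨b, hbn⟩ := fun h => by
          have := congrArg Fin.val h; simp at this; omega
        have ha := hd ⟨a, by omega⟩
        have hb := hd ⟨b, hbn⟩
        rw [dg_cons_pos (Sym2.mem_mk_left _ _)] at ha
        rw [dg_cons_pos (Sym2.mem_mk_right _ _)] at hb
        simp only at ha hb
        have hcond : (Nat.ble 1 (r.getD a 0) && Nat.ble 1 (r.getD b 0)) = true := by
          rw [Bool.and_eq_true, Nat.ble_eq, Nat.ble_eq]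
          omega
        rw [if_pos hcond, frcL_eq] at h2
        have e1 : emb g (J ++ E) + s(g ⟨a, by omega⟩, g ⟨b, hbn⟩) ::ₘ N' =
            emb g (((⟨a, by omega⟩, ⟨b, hbn⟩) :: J) ++ E) + N' := by
          rw [Multiset.add_cons, List.cons_append]
          unfold emb
          rw [List.map_cons, ← Multiset.cons_coe, Multiset.cons_add]
        rw [e1]
        refine ih ((a, b) :: ps) ((⟨a, by omega⟩, ⟨b, hbn⟩) :: J) _
          (decAt (decAt r a) b) N' ?_ ?_ ?_ (C.mono (Multiset.le_cons_self _ _)) ?_ hps ?_ h2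
        · rw [length_decAt, length_decAt, hrl]
        · intro i
          have h3 := hr i
          have e2 : dj ((((⟨a, by omega⟩, ⟨b, hbn⟩) : Fin n × Fin n) :: J).map vE) i =
              dj (J.map vE) i + ((if a = i then 1 else 0) + (if b = i then 1 else 0)) := rfl
          have ha' : 1 ≤ r.getD a 0 := by omega
          have hb' : 1 ≤ r.getD b 0 := by omega
          rw [e2, getD_decAt, getD_decAt]
          by_cases h5 : a = (i : ℕ)
          · have h6 : b ≠ (i : ℕ) := by omega
            rw [if_neg h6, if_pos h5, if_pos h5, if_neg h6]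
            rw [h5] at ha'
            omega
          · by_cases h6 : b = (i : ℕ)
            · rw [if_pos h6, if_neg h5, if_neg h5, if_pos h6]
              rw [h6] at hb'
              omega
            · rw [if_neg h6, if_neg h5, if_neg h5, if_neg h6]
              omega
        · intro i
          rw [getD_decAt, getD_decAt]
          by_cases hia : i = ⟨a, by omega⟩
          · subst hia
            rw [if_neg (by simp only; omega), if_pos rfl]
            simp only
            omega
          · by_cases hib : i = ⟨b, hbn⟩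
            · subst hib
              rw [if_pos rfl, if_neg (by simp only; omega)]
              simp only
              omega
            · rw [if_neg fun h => hib (Fin.ext h.symm), if_neg fun h => hia (Fin.ext h.symm)]
              refine le_trans ?_ (hd i)
              rw [dg_cons_neg]
              rw [Sym2.mem_iff]
              rintro (h | h)
              · exact hia (hg h)
              · exact hib (hg h)
        · rcases hP with rfl | rfl
          · left; rfl
          · right
            simp [stp, sh, mrg]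
        · intro i j hij hm
          exact hin i j hij (Multiset.mem_cons_of_mem hm)
      · refine ih ps J P r N hrl hr hd C hP (fun e he => hps e (List.mem_cons_of_mem _ he)) ?_ h1
        intro i j hij hm
        rcases List.mem_cons.mp (hin i j hij hm) with h4 | h4
        · exfalso
          simp only [Prod.mk.injEq] at h4
          apply hmem
          have : i = ⟨a, by omega⟩ := Fin.ext h4.1
          have h5 : j = ⟨b, hbn⟩ := Fin.ext h4.2
          rw [← this, ← h5]; exact hm
        · exact h4

/-- fuel -/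
def fu (n : ℕ) (sl : List ℕ) : ℕ := n * n + sl.sum + 2

/-- the enumeration check; `kl`: carry the polynomial (killer leaves) -/
def chkEn (n : ℕ) (cl : List ℕ) (gE : List (ℕ × ℕ)) (sl : List ℕ) (tab : Tab)
    (exc : List (List (ℕ × ℕ))) (kl : Bool) : Bool :=
  if kl = true then fstC (cp cl) gE fun P => enP n cl tab exc (fu n sl) (prs n) [] P sl
  else enP n cl tab exc (fu n sl) (prs n) [] [] sl

/-- all groups of a table -/
def chkTab (n : ℕ) (cl : List ℕ) (gE : List (ℕ × ℕ)) (sl : List ℕ) (T : List Bool) (tab : Tab) :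
    Bool :=
  fstC (cp cl) gE fun P => tab.all fun grp => chkGrp n cl sl T P grp

/-- basic checks -/
def chk0 (n : ℕ) (cl sl : List ℕ) : Bool :=
  Nat.beq sl.length n && sl.all (· ≤ 7) && cl.all (· ≤ 7)

theorem cp_le7 {cl : List ℕ} (h7 : cl.all (· ≤ 7) = true) (i : ℕ) : cp cl i ≤ 7 := by
  unfold cp
  rw [List.getD_eq_getElem?_getD]
  rcases hi : cl[i]? with _ | x
  · simp
  · rw [List.all_eq_true] at h7
    have := h7 x (List.mem_of_getElem? hi)
    simpa using this

/-- **Root blocks**, with exceptional patterns. -/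
theorem bn_at_x {g : Fin n → V} (hg : Function.Injective g) (cl' sl : List ℕ) (T : List Bool)
    (E : List (Fin n × Fin n)) (gE : List (ℕ × ℕ)) (hE : E.map vE = gE) (tab : Tab)
    (exc : List (List (ℕ × ℕ))) (kl : Bool)
    (h0 : chk0 n cl' sl = true) (h1 : chkTab n cl' gE sl T tab = true)
    (h2 : chkEn n cl' gE sl tab exc kl = true) (hc : ∀ i : Fin n, cp cl' i ≤ c (g i))
    (W : List V) (N : Multiset (Sym2 V)) (hd : ∀ i : Fin n, dg N (g i) ≤ sl.getD i 0)
    (C : Ctx g (msk T) W N c) (hx : ∀ (J : List (Fin n × Fin n)) (r : List ℕ)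
      (N : Multiset (Sym2 V)), J.map vE ∈ exc → r.length = n →
      (∀ i : Fin n, r.getD i 0 + dj (J.map vE) i = sl.getD i 0) →
      (∀ i : Fin n, dg N (g i) ≤ r.getD i 0) → Ctx g (msk T) W N c →
      (∀ i j, s(g i, g j) ∉ N) → AT (emb g (J ++ E) + N) c) : AT (emb g E + N) c := by
  rw [chk0, Bool.and_eq_true, Bool.and_eq_true, Nat.beq_eq, List.all_eq_true] at h0
  obtain ⟨⟨hsl, hs7⟩, h7⟩ := h0
  have h7' := cp_le7 h7
  rw [chkTab, fstC_eq, List.all_eq_true, ← hE] at h1
  have htab := tabOK_of_chk cl' sl h7' hsl (fun x hx => by simpa using hs7 x hx) T E tab h1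
  have hz : ∀ i : Fin n, sl.getD i 0 + dj (([] : List (Fin n × Fin n)).map vE) i =
      sl.getD i 0 := fun i => rfl
  have hin : ∀ i j : Fin n, i < j → s(g i, g j) ∈ N → ((i : ℕ), (j : ℕ)) ∈ prs n :=
    fun i j hij _ => mem_prs hij j.2
  rw [chkEn] at h2
  split_ifs at h2
  · rw [fstC_eq, ← hE] at h2
    exact enP_sound hg h7' hc htab hx (fu n sl) (prs n) [] _ sl N hsl hz hd C (Or.inl rfl)
      prs_lt hin h2
  · exact enP_sound hg h7' hc htab hx (fu n sl) (prs n) [] [] sl N hsl hz hd C (Or.inr rfl)
      prs_lt hin h2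

/-- **Root blocks.** -/
theorem bn_at {g : Fin n → V} (hg : Function.Injective g) (cl' sl : List ℕ) (T : List Bool)
    (E : List (Fin n × Fin n)) (gE : List (ℕ × ℕ)) (hE : E.map vE = gE) (tab : Tab)
    (h0 : chk0 n cl' sl = true) (h1 : chkTab n cl' gE sl T tab = true)
    (h2 : chkEn n cl' gE sl tab [] false = true) (hc : ∀ i : Fin n, cp cl' i ≤ c (g i))
    (W : List V) (N : Multiset (Sym2 V)) (hd : ∀ i : Fin n, dg N (g i) ≤ sl.getD i 0)
    (C : Ctx g (msk T) W N c) : AT (emb g E + N) c :=
  bn_at_x hg cl' sl T E gE hE tab [] false h0 h1 h2 hc W N hd C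
    (fun J r N h => absurd h (by simp))

end Helper85.Bn
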