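import Pool.Agent.helper85.L9.BnZ

set_option maxRecDepth 100000

namespace Helper85.Bn

/-- ESS : x a a' b c -/
def cESS : List ℕ := [4, 3, 2, 2, 2]
def sESS : List ℕ := [0, 1, 2, 1, 1]
def tESS : List Bool := []
def gESS : List (ℕ × ℕ) := [(0, 1), (0, 3), (0, 4), (1, 3), (1, 4), (3, 4), (0, 2), (1, 2)]
def eESS : List (Fin 5 × Fin 5) := [(0, 1), (0, 3), (0, 4), (1, 3), (1, 4), (3, 4), (0, 2), (1, 2)]
def tabESS0 : Tab := [
  ([], [([false, true, true, false, false], -1, [(1, 5204), (-1, 8284)]),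
    ([false, false, true, true, false], -1, [(1, 5204), (1, 5148), (-1, 8284)]),
    ([false, true, false, true, true], 1, [(1, 5204), (1, 5148), (1, 5260)])])]

def stESS0 : List (List (ℕ × ℕ) × List (ℕ × ℕ)) :=
  [([(1, 2), (3, 4), (1, 4), (1, 3)], []), ([(0, 2), (0, 4), (0, 3), (0, 1)], [(0, 4)])]

def tabESS : Tab := tabESS0

theorem chk0ESS : chk0 5 cESS sESS = true := by decide +kernel
theorem chkTESS0 : chkTabS 5 cESS sESS tESS stESS0 tabESS0 = true := by decide +kernel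
theorem okESS : TabOK 5 cESS sESS tESS eESS tabESS :=
  tabOK_s chk0ESS chkTESS0
    [(1, 2), (3, 4), (1, 4), (1, 3), (0, 2), (0, 4), (0, 3), (0, 1)] rfl (by decide)
theorem chkEESS : chkEn 5 cESS gESS sESS tabESS [] false = true := by decide +kernel

/-- EES : x a a' b b' c -/
def cEES : List ℕ := [4, 3, 2, 3, 2, 2]
def sEES : List ℕ := [0, 1, 2, 1, 2, 1]
def tEES : List Bool := []
def gEES : List (ℕ × ℕ) := [(0, 1), (0, 3), (0, 5), (1, 3), (1, 5), (3, 5), (0, 2), (1, 2), (0, 4), (3, 4)]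
def eEES : List (Fin 6 × Fin 6) := [(0, 1), (0, 3), (0, 5), (1, 3), (1, 5), (3, 5), (0, 2), (1, 2), (0, 4), (3, 4)]
def tabEES0 : Tab := [
  ([(2, 5)], [([false, false, true, false, true, false], -1, [(1, 75284)])]),
  ([(2, 4)], [([false, false, true, false, true, true], -1, [(1, 66716)])]),
  ([(1, 5)], [([false, false, false, false, true, false], 1, [(1, 38556)])]),
  ([(1, 4)], [([false, false, false, false, true, true], -1, [(1, 42140), (-1, 74844)]),
    ([false, false, true, false, true, false], -1, [(1, 70748), (-1, 9372)])]),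
  ([(2, 3)], [([false, false, true, false, false, true], -1, [(1, 75348), (-1, 71316)])]),
  ([(4, 5)], [([false, false, true, true, false, false], 1, [(1, 71252)])]),
  ([], [([false, true, true, false, true, false], -1, [(1, 38428)]),
    ([false, false, true, true, true, false], 1, [(1, 34396)]),
    ([false, false, true, false, true, true], -1, [(1, 66652)]),
    ([false, true, true, true, false, true], -1, [(1, 42012), (1, 71300), (-1, 9812), (1, 71188), (1, 34396)]),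
    ([false, true, false, false, true, true], 6, [(1, 74892), (2, 74780), (1, 73884), (-2, 5788), (-3, 34460), (4, 71252), (1, 9372), (-1, 9876), (-2, 38548), (3, 71308), (-4, 42076), (-1, 38492), (-1, 9820), (1, 67220)])])]

def stEES0 : List (List (ℕ × ℕ) × List (ℕ × ℕ)) :=
  [([(3, 4), (1, 2), (1, 3), (1, 5), (3, 5)], []), ([(0, 4), (0, 2), (0, 5), (0, 3), (0, 1)], [(0, 4)])]

def tabEES : Tab := tabEES0

theorem chk0EES : chk0 6 cEES sEES = true := by decide +kernel
theorem chkTEES0 : chkTabS 6 cEES sEES tEES stEES0 tabEES0 = true := by decide +kernel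
theorem okEES : TabOK 6 cEES sEES tEES eEES tabEES :=
  tabOK_s chk0EES chkTEES0
    [(3, 4), (1, 2), (1, 3), (1, 5), (3, 5), (0, 4), (0, 2), (0, 5), (0, 3), (0, 1)] rfl (by decide)
theorem chkEEES : chkEn 6 cEES gEES sEES tabEES [] false = true := by decide +kernel

/-- SS|SS : x z a b c d -/
def cSSSS : List ℕ := [4, 4, 2, 2, 2, 2]
def sSSSS : List ℕ := [0, 0, 1, 1, 1, 1]
def tSSSS : List Bool := []
def gSSSS : List (ℕ × ℕ) := [(0, 1), (0, 2), (0, 3), (0, 4), (0, 5), (1, 2), (1, 3), (1, 4), (1, 5), (2, 3), (4, 5)]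
def eSSSS : List (Fin 6 × Fin 6) := [(0, 1), (0, 2), (0, 3), (0, 4), (0, 5), (1, 2), (1, 3), (1, 4), (1, 5), (2, 3), (4, 5)]
def tabSSSS0 : Tab := [
  ([], [([false, false, false, true, false, true], 1, [(1, 70748)]),
    ([false, false, true, false, false, true], -1, [(1, 70300)])])]

def stSSSS0 : List (List (ℕ × ℕ) × List (ℕ × ℕ)) :=
  [([(4, 5), (2, 3)], []), ([(1, 5), (1, 4), (1, 3), (1, 2)], [(1, 3)]), ([(0, 5), (0, 4), (0, 3), (0, 2), (0, 1)], [(0, 4)])]

def tabSSSS : Tab := tabSSSS0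

theorem chk0SSSS : chk0 6 cSSSS sSSSS = true := by decide +kernel
theorem chkTSSSS0 : chkTabS 6 cSSSS sSSSS tSSSS stSSSS0 tabSSSS0 = true := by decide +kernel
theorem okSSSS : TabOK 6 cSSSS sSSSS tSSSS eSSSS tabSSSS :=
  tabOK_s chk0SSSS chkTSSSS0
    [(4, 5), (2, 3), (1, 5), (1, 4), (1, 3), (1, 2), (0, 5), (0, 4), (0, 3), (0, 2), (0, 1)] rfl (by decide)
theorem chkESSSS : chkEn 6 cSSSS gSSSS sSSSS tabSSSS [] false = true := by decide +kernel

/-- ES|SS : x z a a' b c d -/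
def cESSS : List ℕ := [4, 4, 3, 2, 2, 2, 2]
def sESSS : List ℕ := [0, 0, 1, 2, 1, 1, 1]
def tESSS : List Bool := []
def gESSS : List (ℕ × ℕ) := [(0, 1), (0, 2), (0, 4), (0, 5), (0, 6), (1, 2), (1, 4), (1, 5), (1, 6), (2, 4), (5, 6), (0, 3), (2, 3)]
def eESSS : List (Fin 7 × Fin 7) := [(0, 1), (0, 2), (0, 4), (0, 5), (0, 6), (1, 2), (1, 4), (1, 5), (1, 6), (2, 4), (5, 6), (0, 3), (2, 3)]
def tabESSS0 : Tab := [
  ([], [([false, false, false, false, true, true, true], -1, [(1, 533668)]),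
    ([false, false, true, false, true, false, true], -1, [(1, 566372), (1, 565924)]),
    ([false, false, false, false, true, true, false], 1, [(1, 337060)]),
    ([false, false, true, false, true, true, false], 1, [(1, 336996), (1, 336548)]),
    ([false, false, true, true, false, true, false], -1, [(1, 332004)])])]

def stESSS0 : List (List (ℕ × ℕ) × List (ℕ × ℕ)) :=
  [([(2, 3), (2, 4), (5, 6)], []), ([(1, 6), (1, 5), (1, 4), (1, 2)], [(1, 4)]), ([(0, 3), (0, 6), (0, 5), (0, 4), (0, 2), (0, 1)], [(0, 4)])]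

def tabESSS : Tab := tabESSS0

theorem chk0ESSS : chk0 7 cESSS sESSS = true := by decide +kernel
theorem chkTESSS0 : chkTabS 7 cESSS sESSS tESSS stESSS0 tabESSS0 = true := by decide +kernel
theorem okESSS : TabOK 7 cESSS sESSS tESSS eESSS tabESSS :=
  tabOK_s chk0ESSS chkTESSS0
    [(2, 3), (2, 4), (5, 6), (1, 6), (1, 5), (1, 4), (1, 2), (0, 3), (0, 6), (0, 5), (0, 4), (0, 2), (0, 1)] rfl (by decide)
theorem chkEESSS : chkEn 7 cESSS gESSS sESSS tabESSS [] false = true := by decide +kernel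

/-- TS|SS : x z a a' b c d -/
def cTSSS : List ℕ := [4, 4, 3, 3, 2, 2, 2]
def sTSSS : List ℕ := [0, 0, 1, 2, 1, 1, 1]
def tTSSS : List Bool := [false, false, true, true, false, false, false]
def gTSSS : List (ℕ × ℕ) := [(0, 1), (0, 2), (0, 4), (0, 5), (0, 6), (1, 2), (1, 4), (1, 5), (1, 6), (2, 4), (5, 6), (0, 3), (2, 3)]
def eTSSS : List (Fin 7 × Fin 7) := [(0, 1), (0, 2), (0, 4), (0, 5), (0, 6), (1, 2), (1, 4), (1, 5), (1, 6), (2, 4), (5, 6), (0, 3), (2, 3)]
def tabTSSS0 : Tab := [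
  ([], [([false, false, false, false, true, true, true], -1, [(1, 533668)]),
    ([false, false, false, false, true, false, true], -1, [(1, 566436)]),
    ([false, false, false, false, true, true, false], 1, [(1, 337060)])]),
  ([(2, 3)], [([false, false, false, false, true, false, true], -1, [(1, 565924)]),
    ([false, false, false, false, false, true, true], 1, [(1, 530084)])])]

def stTSSS0 : List (List (ℕ × ℕ) × List (ℕ × ℕ)) :=
  [([(2, 3), (2, 4), (5, 6)], []), ([(1, 6), (1, 5), (1, 4), (1, 2)], [(1, 4)]), ([(0, 3), (0, 6), (0, 5), (0, 4), (0, 2), (0, 1)], [(0, 4)])]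

def tabTSSS : Tab := tabTSSS0

theorem chk0TSSS : chk0 7 cTSSS sTSSS = true := by decide +kernel
theorem chkTTSSS0 : chkTabS 7 cTSSS sTSSS tTSSS stTSSS0 tabTSSS0 = true := by decide +kernel
theorem okTSSS : TabOK 7 cTSSS sTSSS tTSSS eTSSS tabTSSS :=
  tabOK_s chk0TSSS chkTTSSS0
    [(2, 3), (2, 4), (5, 6), (1, 6), (1, 5), (1, 4), (1, 2), (0, 3), (0, 6), (0, 5), (0, 4), (0, 2), (0, 1)] rfl (by decide)
theorem chkETSSS : chkEn 7 cTSSS gTSSS sTSSS tabTSSS [] false = true := by decide +kernel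

/-- C1 : x z a m c b d -/
def cC1 : List ℕ := [4, 4, 3, 3, 3, 2, 2]
def sC1 : List ℕ := [0, 0, 0, 0, 0, 1, 1]
def tC1 : List Bool := []
def gC1 : List (ℕ × ℕ) := [(0, 1), (0, 2), (0, 5), (0, 4), (0, 6), (1, 2), (1, 5), (1, 4), (1, 6), (2, 5), (4, 6), (0, 3), (1, 3), (2, 3), (3, 4), (2, 4)]
def eC1 : List (Fin 7 × Fin 7) := [(0, 1), (0, 2), (0, 5), (0, 4), (0, 6), (1, 2), (1, 5), (1, 4), (1, 6), (2, 5), (4, 6), (0, 3), (1, 3), (2, 3), (3, 4), (2, 4)]
def tabC10 : Tab := [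
  ([], [([false, false, false, false, false, false, true], -1, [(1, 341603)])])]

def stC10 : List (List (ℕ × ℕ) × List (ℕ × ℕ)) :=
  [([(3, 4), (2, 3), (2, 4), (4, 6), (2, 5)], []), ([(1, 3), (1, 6), (1, 4), (1, 5), (1, 2)], [(1, 4)]), ([(0, 3), (0, 6), (0, 4), (0, 5), (0, 2), (0, 1)], [(0, 3)])]

def tabC1 : Tab := tabC10

theorem chk0C1 : chk0 7 cC1 sC1 = true := by decide +kernel
theorem chkTC10 : chkTabS 7 cC1 sC1 tC1 stC10 tabC10 = true := by decide +kernel
theorem okC1 : TabOK 7 cC1 sC1 tC1 eC1 tabC1 :=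
  tabOK_s chk0C1 chkTC10
    [(3, 4), (2, 3), (2, 4), (4, 6), (2, 5), (1, 3), (1, 6), (1, 4), (1, 5), (1, 2), (0, 3), (0, 6), (0, 4), (0, 5), (0, 2), (0, 1)] rfl (by decide)
theorem chkEC1 : chkEn 7 cC1 gC1 sC1 tabC1 [] false = true := by decide +kernel

end Helper85.Bn
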