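import Pool.Agent.helper85.L9.BnSpl

set_option maxRecDepth 100000

namespace Helper85.Bn

/-- EE|SS : x z a a' b b' c d -/
def cEESS : List ℕ := [4, 4, 3, 2, 3, 2, 2, 2]
def sEESS : List ℕ := [0, 0, 1, 2, 1, 2, 1, 1]
def tEESS : List Bool := []
def gEESS : List (ℕ × ℕ) := [(0, 1), (0, 2), (0, 4), (0, 6), (0, 7), (1, 2), (1, 4), (1, 6), (1, 7), (2, 4), (6, 7), (0, 3), (2, 3), (0, 5), (4, 5)]
def eEESS : List (Fin 8 × Fin 8) := [(0, 1), (0, 2), (0, 4), (0, 6), (0, 7), (1, 2), (1, 4), (1, 6), (1, 7), (2, 4), (6, 7), (0, 3), (2, 3), (0, 5), (4, 5)]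
def tabEESS0 : Tab := [
  ([(2, 3)], [([false, false, false, true, true, false, false, true], 1, [(1, 4531364), (1, 2176228), (1, 4530916)]),
    ([false, false, false, true, false, false, true, true], 1, [(1, 341220)]),
    ([false, false, false, true, true, false, true, false], -1, [(1, 2696356), (1, 2695908), (1, 341220)])]),
  ([(5, 7)], [([false, false, false, false, true, true, true, false], 1, [(1, 4732068)]),
    ([false, false, false, false, true, true, false, false], -1, [(1, 4273380), (1, 2696420), (-1, 4764836)])]),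
  ([(4, 5)], [([false, false, false, false, false, true, true, true], -1, [(1, 341220)]),
    ([false, false, false, false, false, false, true, true], 2, [(1, 2696420), (-1, 4273380), (1, 2667748)]),
    ([false, false, false, false, false, true, true, false], 1, [(1, 2696420), (1, 2667748)])]),
  ([(5, 6)], [([false, false, true, true, false, false, false, false], 1, [(1, 4792548)]),
    ([false, false, false, false, true, true, false, false], 1, [(1, 603364), (-1, 4764836), (1, 4531428)])]),
  ([(2, 5)], [([false, false, false, true, true, false, false, false], 1, [(1, 2699492)])]),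
  ([(6, 7)], [([false, false, false, false, true, true, false, false], 2, [(1, 4732068)])]),
  ([(3, 6)], [([false, false, true, true, false, false, false, false], -1, [(1, 603364), (1, 4535460), (-1, 4793060)])]),
  ([(3, 7)], [([false, false, true, true, false, false, false, false], 1, [(1, 4273380), (1, 2700452), (-1, 4793060)])]),
  ([(4, 6)], [([false, false, false, false, false, true, false, true], -1, [(1, 4732068)])]),
  ([(4, 7)], [([false, false, false, false, false, true, true, false], 1, [(1, 4732068)])]),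
  ([(3, 4)], [([false, false, false, false, false, false, true, true], -1, [(1, 2700452), (1, 4502756)])]),
  ([], [([false, false, true, true, true, true, false, false], -1, [(1, 4534372), (-1, 4526756)]),
    ([false, false, true, true, false, true, false, true], -1, [(1, 4526756), (1, 4268260), (1, 4269156), (1, 308388), (1, 2142948)]),
    ([false, false, true, true, false, true, true, false], -1, [(1, 2691300), (-1, 2171620), (-1, 307940), (-1, 599140), (1, 308388), (1, 2175204)]),
    ([false, false, false, true, true, true, false, true], -1, [(1, 4526756), (-1, 4468964), (1, 4268260), (1, 4269156), (1, 308388), (1, 2142948)])])]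


def tabEESS1 : Tab := [
  ([], [([false, false, false, true, true, true, true, false], 1, [(1, 2695836), (1, 602332), (-1, 598748), (-1, 337116)]),
    ([false, false, false, true, false, true, true, true], -1, [(1, 2695836), (-1, 2667612), (-1, 4530396), (1, 566492), (-1, 4465884), (1, 4498588)])])]


def tabEESS2 : Tab := [
  ([(6, 7)], [([false, false, false, true, false, false, false, false], -2, [(1, 4797596), (-1, 4789476), (-1, 4793060)])]),
  ([(2, 4)], [([false, false, false, false, false, false, true, true], 2, [(1, 2700508), (-2, 2700004), (1, 4273380), (2, 2696420)])]),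
  ([(4, 6)], [([false, false, false, true, false, false, false, false], 1, [(1, 4535516), (-1, 603364), (-1, 2700004), (1, 2667748)])]),
  ([(2, 6)], [([false, false, false, true, false, false, false, false], 1, [(1, 2700508), (1, 603364), (-1, 2700004), (-1, 4535012)])]),
  ([(2, 7)], [([false, false, false, true, false, false, false, false], -1, [(1, 4797596), (1, 4273380), (-1, 4535012), (-1, 2700004)])]),
  ([(4, 7)], [([false, false, false, true, false, false, false, false], -1, [(1, 2700508), (-1, 4273380), (-1, 4535012), (1, 4502756)])]),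
  ([(3, 5)], [([false, false, false, false, false, false, true, true], 2, [(1, 4535516), (-1, 4793508), (-1, 2700515), (1, 4797652), (1, 4531428), (1, 4535460)])]),
  ([], [([false, false, true, true, false, false, true, true], 1, [(1, 4502684), (1, 2143460), (-1, 340708), (1, 341156), (1, 2634972), (1, 2372836), (-1, 4469924)]),
    ([false, false, false, false, true, true, true, true], -1, [(1, 4530908), (1, 2175716), (-1, 308452), (-1, 4530404), (1, 4792484), (1, 337124), (1, 2699484)])])]


def tabEESS : Tab := tabEESS0 ++ tabEESS1 ++ tabEESS2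

theorem chk0EESS : chk0 8 cEESS sEESS = true := by decide +kernel
def stEESS_0 : List (List (ℕ × ℕ) × List (ℕ × ℕ)) :=
  [([(4, 5), (2, 3), (2, 4)], []), ([(0, 5), (0, 3), (0, 2), (0, 4), (0, 7), (6, 7), (0, 6)], [(0, 4)]), ([(1, 4), (1, 7), (1, 6), (1, 2), (0, 1)], [(1, 4)])]
theorem zEESS_0 : chkTabS 8 cEESS sEESS tEESS stEESS_0 (bnPk (bnFlt tabEESS) [0, 1, 2, 3, 4, 5, 6, 7, 8, 9]) = true := by
  decide +kernel
theorem oEESS_0 : TabOK 8 cEESS sEESS tEESS eEESS (bnPk (bnFlt tabEESS) [0, 1, 2, 3, 4, 5, 6, 7, 8, 9]) :=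
  tabOK_s chk0EESS zEESS_0
    [(4, 5), (2, 3), (2, 4), (0, 5), (0, 3), (0, 2), (0, 4), (0, 7), (6, 7), (0, 6), (1, 4), (1, 7), (1, 6), (1, 2), (0, 1)] rfl (by decide)
theorem zEESS_1 : chkTabS 8 cEESS sEESS tEESS stEESS_0 (bnPk (bnFlt tabEESS) [10, 11, 12, 13, 14, 15, 16, 17, 18, 19, 20]) = true := by
  decide +kernel
theorem oEESS_1 : TabOK 8 cEESS sEESS tEESS eEESS (bnPk (bnFlt tabEESS) [10, 11, 12, 13, 14, 15, 16, 17, 18, 19, 20]) :=
  tabOK_s chk0EESS zEESS_1
    [(4, 5), (2, 3), (2, 4), (0, 5), (0, 3), (0, 2), (0, 4), (0, 7), (6, 7), (0, 6), (1, 4), (1, 7), (1, 6), (1, 2), (0, 1)] rfl (by decide)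
def stEESS_1 : List (List (ℕ × ℕ) × List (ℕ × ℕ)) :=
  [([(2, 3), (4, 5), (2, 4)], []), ([(0, 5), (0, 3), (0, 4), (0, 2), (0, 7), (6, 7), (0, 6)], [(0, 4)]), ([(1, 2), (0, 1), (1, 7), (1, 6), (1, 4)], [(1, 3)])]
theorem zEESS_2 : chkTabS 8 cEESS sEESS tEESS stEESS_1 (bnPk (bnFlt tabEESS) [21, 22]) = true := by
  decide +kernel
theorem oEESS_2 : TabOK 8 cEESS sEESS tEESS eEESS (bnPk (bnFlt tabEESS) [21, 22]) :=
  tabOK_s chk0EESS zEESS_2
    [(2, 3), (4, 5), (2, 4), (0, 5), (0, 3), (0, 4), (0, 2), (0, 7), (6, 7), (0, 6), (1, 2), (0, 1), (1, 7), (1, 6), (1, 4)] rfl (by decide)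
def stEESS_2 : List (List (ℕ × ℕ) × List (ℕ × ℕ)) :=
  [([(4, 5), (2, 3), (1, 2), (1, 4), (2, 4)], []), ([(0, 4), (0, 2), (0, 5), (0, 3), (0, 1), (0, 7), (0, 6), (1, 6), (1, 7), (6, 7)], [(0, 4)])]
theorem zEESS_3 : chkTabS 8 cEESS sEESS tEESS stEESS_2 (bnPk (bnFlt tabEESS) [23]) = true := by
  decide +kernel
theorem oEESS_3 : TabOK 8 cEESS sEESS tEESS eEESS (bnPk (bnFlt tabEESS) [23]) :=
  tabOK_s chk0EESS zEESS_3
    [(4, 5), (2, 3), (1, 2), (1, 4), (2, 4), (0, 4), (0, 2), (0, 5), (0, 3), (0, 1), (0, 7), (0, 6), (1, 6), (1, 7), (6, 7)] rfl (by decide)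
theorem zEESS_4 : chkTabS 8 cEESS sEESS tEESS stEESS_2 (bnPk (bnFlt tabEESS) [24, 25]) = true := by
  decide +kernel
theorem oEESS_4 : TabOK 8 cEESS sEESS tEESS eEESS (bnPk (bnFlt tabEESS) [24, 25]) :=
  tabOK_s chk0EESS zEESS_4
    [(4, 5), (2, 3), (1, 2), (1, 4), (2, 4), (0, 4), (0, 2), (0, 5), (0, 3), (0, 1), (0, 7), (0, 6), (1, 6), (1, 7), (6, 7)] rfl (by decide)
theorem zEESS_5 : chkTabS 8 cEESS sEESS tEESS stEESS_2 (bnPk (bnFlt tabEESS) [26]) = true := by
  decide +kernel
theorem oEESS_5 : TabOK 8 cEESS sEESS tEESS eEESS (bnPk (bnFlt tabEESS) [26]) :=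
  tabOK_s chk0EESS zEESS_5
    [(4, 5), (2, 3), (1, 2), (1, 4), (2, 4), (0, 4), (0, 2), (0, 5), (0, 3), (0, 1), (0, 7), (0, 6), (1, 6), (1, 7), (6, 7)] rfl (by decide)
theorem zEESS_6 : chkTabS 8 cEESS sEESS tEESS stEESS_2 (bnPk (bnFlt tabEESS) [27]) = true := by
  decide +kernel
theorem oEESS_6 : TabOK 8 cEESS sEESS tEESS eEESS (bnPk (bnFlt tabEESS) [27]) :=
  tabOK_s chk0EESS zEESS_6
    [(4, 5), (2, 3), (1, 2), (1, 4), (2, 4), (0, 4), (0, 2), (0, 5), (0, 3), (0, 1), (0, 7), (0, 6), (1, 6), (1, 7), (6, 7)] rfl (by decide)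
theorem zEESS_7 : chkTabS 8 cEESS sEESS tEESS stEESS_2 (bnPk (bnFlt tabEESS) [28, 30]) = true := by
  decide +kernel
theorem oEESS_7 : TabOK 8 cEESS sEESS tEESS eEESS (bnPk (bnFlt tabEESS) [28, 30]) :=
  tabOK_s chk0EESS zEESS_7
    [(4, 5), (2, 3), (1, 2), (1, 4), (2, 4), (0, 4), (0, 2), (0, 5), (0, 3), (0, 1), (0, 7), (0, 6), (1, 6), (1, 7), (6, 7)] rfl (by decide)
theorem zEESS_8 : chkTabS 8 cEESS sEESS tEESS stEESS_2 (bnPk (bnFlt tabEESS) [31]) = true := by
  decide +kernel
theorem oEESS_8 : TabOK 8 cEESS sEESS tEESS eEESS (bnPk (bnFlt tabEESS) [31]) :=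
  tabOK_s chk0EESS zEESS_8
    [(4, 5), (2, 3), (1, 2), (1, 4), (2, 4), (0, 4), (0, 2), (0, 5), (0, 3), (0, 1), (0, 7), (0, 6), (1, 6), (1, 7), (6, 7)] rfl (by decide)
def stEESS_3 : List (List (ℕ × ℕ) × List (ℕ × ℕ)) :=
  [([(0, 5), (4, 5), (0, 3), (2, 3), (1, 4), (1, 2), (2, 4), (0, 2), (0, 4), (0, 1), (1, 7), (1, 6), (0, 7), (6, 7), (0, 6)], [])]
theorem zEESS_9 : chkTabS 8 cEESS sEESS tEESS stEESS_3 (bnPk (bnFlt tabEESS) [29]) = true := by
  decide +kernel
theorem oEESS_9 : TabOK 8 cEESS sEESS tEESS eEESS (bnPk (bnFlt tabEESS) [29]) :=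
  tabOK_s chk0EESS zEESS_9
    [(0, 5), (4, 5), (0, 3), (2, 3), (1, 4), (1, 2), (2, 4), (0, 2), (0, 4), (0, 1), (1, 7), (1, 6), (0, 7), (6, 7), (0, 6)] rfl (by decide)
theorem okEESS : TabOK 8 cEESS sEESS tEESS eEESS tabEESS :=
  bn_tabOK_flt (by decide +kernel) (bn_tabOK_pk ([0, 1, 2, 3, 4, 5, 6, 7, 8, 9] ++ ([10, 11, 12, 13, 14, 15, 16, 17, 18, 19, 20] ++ ([21, 22] ++ ([23] ++ ([24, 25] ++ ([26] ++ ([27] ++ ([28, 30] ++ ([31] ++ ([29])))))))))) (by decide +kernel)
    (bn_tabOK_pka oEESS_0 (bn_tabOK_pka oEESS_1 (bn_tabOK_pka oEESS_2 (bn_tabOK_pka oEESS_3 (bn_tabOK_pka oEESS_4 (bn_tabOK_pka oEESS_5 (bn_tabOK_pka oEESS_6 (bn_tabOK_pka oEESS_7 (bn_tabOK_pka oEESS_8 (oEESS_9)))))))))))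
theorem yEESS_0 : (((bnFrs 8 sEESS 5).take 1).all (bnEnS 8 cEESS tabEESS [])) = true := by
  decide +kernel
theorem yEESS_1 : (((bnFrs 8 sEESS 5).drop 1).all (bnEnS 8 cEESS tabEESS [])) = true := by
  decide +kernel
theorem chkEEESS : chkEn 8 cEESS gEESS sEESS tabEESS [] false = true :=
  bn_chkEn_frs 5 (bn_all_td 1 yEESS_0 (yEESS_1))

/-- ES|ES : x z a a' b c c' d -/
def cESES : List ℕ := [4, 4, 3, 2, 2, 3, 2, 2]
def sESES : List ℕ := [0, 0, 1, 2, 1, 1, 2, 1]
def tESES : List Bool := []
def gESES : List (ℕ × ℕ) := [(0, 1), (0, 2), (0, 4), (0, 5), (0, 7), (1, 2), (1, 4), (1, 5), (1, 7), (2, 4), (5, 7), (0, 3), (2, 3), (1, 6), (5, 6)]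
def eESES : List (Fin 8 × Fin 8) := [(0, 1), (0, 2), (0, 4), (0, 5), (0, 7), (1, 2), (1, 4), (1, 5), (1, 7), (2, 4), (5, 7), (0, 3), (2, 3), (1, 6), (5, 6)]
def tabESES0 : Tab := [
  ([(2, 3)], [([false, false, false, false, false, true, true, false], 3, [(2, 4564124), (1, 4560092)]),
    ([false, false, false, false, false, false, true, true], 6, [(4, 4564124), (3, 4302044), (2, 4560092)])]),
  ([(3, 5)], [([false, false, true, true, false, false, false, true], -1, [(1, 2696412), (1, 4818140), (1, 4826204)]),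
    ([false, false, false, true, false, false, true, true], -1, [(1, 369884), (1, 599260), (1, 4760732)])]),
  ([(3, 7)], [([false, false, true, true, true, false, false, false], 2, [(1, 4760796), (-1, 4818140), (-1, 4826204), (-1, 4793052)]),
    ([false, false, false, true, true, false, true, false], 1, [(1, 369884), (1, 4793436)])]),
  ([(5, 6)], [([false, false, true, true, false, false, false, false], 6, [(2, 4563676), (4, 4793052), (3, 2728668), (-3, 4825308)]),
    ([false, false, false, true, true, false, false, true], 2, [(1, 631516)])]),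
  ([(2, 7)], [([false, false, false, true, true, false, false, false], 2, [(1, 4825308), (-1, 632028), (1, 4818140)]),
    ([false, false, false, true, false, false, true, false], 1, [(1, 4563164), (-2, 2696348), (1, 4793436), (-1, 631516), (1, 4822108)])]),
  ([(3, 4)], [([false, false, false, true, false, true, true, false], -1, [(1, 2728604)]),
    ([false, false, false, false, false, true, true, true], -1, [(1, 4563612)]),
    ([false, false, false, true, false, false, true, true], 1, [(1, 4531356)])]),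
  ([(2, 4)], [([false, false, false, false, false, true, true, false], 2, [(2, 4564124), (1, 4563676)]),
    ([false, false, false, false, false, false, true, true], 2, [(2, 4564124), (1, 4302044), (1, 4563676)])]),
  ([(4, 7)], [([false, false, true, true, false, false, false, false], 1, [(1, 4826204), (-1, 632028)]),
    ([false, false, false, true, false, false, true, false], -1, [(1, 2728604), (-1, 4793436)])]),
  ([(4, 6)], [([false, false, true, true, false, false, false, true], 2, [(1, 631516), (-1, 2728156)]),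
    ([false, false, false, true, false, true, false, true], -2, [(1, 4821212), (-2, 599260), (-2, 4301980), (2, 2696348), (2, 2204892), (1, 4817628), (-1, 4728028)])]),
  ([(5, 7)], [([false, false, true, true, false, false, false, false], 2, [(2, 4793052), (-1, 4825308), (2, 4563676)]),
    ([false, false, false, true, true, false, false, false], 1, [(1, 4793052), (1, 4563676)])]),
  ([(4, 5)], [([false, false, true, true, false, false, false, false], 1, [(1, 4822172), (1, 4821724), (1, 4760796)]),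
    ([false, false, false, true, false, false, false, true], 1, [(1, 4821724), (-1, 4825308), (-1, 632028)])]),
  ([(2, 3), (3, 4)], [([false, false, false, false, false, false, true, false], 1, [(1, 2729116)])]),
  ([(3, 4), (3, 7)], [([false, false, true, false, false, false, false, false], 1, [(1, 4825820)])]),
  ([(2, 5)], [([false, false, false, true, true, false, false, false], -1, [(1, 4818140), (1, 4826204), (1, 4825308), (1, 2725084)]),
    ([false, false, false, true, false, false, true, false], 1, [(1, 2728604), (1, 4789404), (1, 4788956)])]),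
  ([(6, 7)], [([false, false, false, true, true, false, false, false], 1, [(1, 4793500), (1, 4793052), (1, 4531420), (1, 4789468)])]),
  ([(3, 4), (2, 5)], [([false, false, false, false, false, false, true, false], -1, [(1, 2729116)])]),
  ([(2, 5), (6, 7)], [([false, false, false, false, false, false, true, false], -1, [(1, 4822236)])]),
  ([], [([false, false, true, true, false, false, true, true], 1, [(1, 4756188), (1, 4817564)]),
    ([false, false, true, true, true, false, true, false], 1, [(1, 2728540), (-1, 2692252), (-1, 4817116)]),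
    ([false, false, false, true, true, true, true, false], 2, [(2, 2695836), (1, 4825628), (1, 2630876), (1, 4822044)]),
    ([false, false, false, true, false, true, true, true], -2, [(2, 627420), (1, 4821148), (2, 4756188), (-1, 566492), (-1, 4817116), (1, 4822044)]),
    ([false, false, true, false, true, true, true, true], 1, [(1, 4269212), (1, 2695388), (1, 627420), (-1, 4563548), (1, 2692252), (1, 4817116), (-1, 566492), (1, 4293852)]),
    ([false, false, true, true, true, true, false, false], -1, [(1, 2466524), (-2, 2728156), (2, 631516), (-2, 631964), (-1, 4555996), (-2, 627932), (-1, 4826140), (-2, 4728028), (-1, 2663644), (-1, 4563164), (-1, 4564060), (1, 4301532), (1, 369884), (-2, 4789404), (-1, 4269276), (1, 4792988)]),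
    ([false, false, false, true, true, false, true, true], 2, [(2, 2695836), (-2, 4301916), (1, 4825628), (1, 2630876), (1, 4822044)]),
    ([false, false, true, true, false, true, false, true], -2, [(2, 4564060), (4, 2728156), (-4, 631516), (-2, 2466524), (4, 631964), (-2, 4785372), (2, 4563164), (4, 627932), (-2, 599260), (2, 4269276), (2, 2695900), (1, 4817628), (3, 4728028), (2, 4789404), (-2, 369884), (-1, 4821212), (-2, 4825244), (-2, 4301532), (2, 4555996), (-2, 4793436), (-2, 4792988)])]),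
  ([(3, 6)], [([false, false, true, false, true, true, false, true], -4, [(2, 4818076), (1, 4825244), (-1, 631516), (2, 4817628), (-1, 4564060), (1, 4728028), (1, 2204892), (-2, 4785372)])]),
  ([(2, 6)], [([false, false, false, true, true, false, false, true], 2, [(1, 631516)])])]


def tabESES : Tab := tabESES0

theorem chk0ESES : chk0 8 cESES sESES = true := by decide +kernel
def stESES_0 : List (List (ℕ × ℕ) × List (ℕ × ℕ)) :=
  [([(5, 6), (2, 3), (5, 7), (2, 4)], []), ([(1, 6), (1, 7), (1, 5), (1, 4), (1, 2)], [(1, 3)]), ([(0, 3), (0, 7), (0, 5), (0, 4), (0, 2), (0, 1)], [(0, 4)])]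
theorem zESES_0 : chkTabS 8 cESES sESES tESES stESES_0 (bnPk (bnFlt tabESES) [0, 1, 2, 3, 4, 5, 6]) = true := by
  decide +kernel
theorem oESES_0 : TabOK 8 cESES sESES tESES eESES (bnPk (bnFlt tabESES) [0, 1, 2, 3, 4, 5, 6]) :=
  tabOK_s chk0ESES zESES_0
    [(5, 6), (2, 3), (5, 7), (2, 4), (1, 6), (1, 7), (1, 5), (1, 4), (1, 2), (0, 3), (0, 7), (0, 5), (0, 4), (0, 2), (0, 1)] rfl (by decide)
theorem zESES_1 : chkTabS 8 cESES sESES tESES stESES_0 (bnPk (bnFlt tabESES) [7, 8, 9, 10, 11, 12, 13, 14, 15, 16]) = true := by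
  decide +kernel
theorem oESES_1 : TabOK 8 cESES sESES tESES eESES (bnPk (bnFlt tabESES) [7, 8, 9, 10, 11, 12, 13, 14, 15, 16]) :=
  tabOK_s chk0ESES zESES_1
    [(5, 6), (2, 3), (5, 7), (2, 4), (1, 6), (1, 7), (1, 5), (1, 4), (1, 2), (0, 3), (0, 7), (0, 5), (0, 4), (0, 2), (0, 1)] rfl (by decide)
theorem zESES_2 : chkTabS 8 cESES sESES tESES stESES_0 (bnPk (bnFlt tabESES) [17, 18, 19, 20, 21, 22, 23]) = true := by
  decide +kernel
theorem oESES_2 : TabOK 8 cESES sESES tESES eESES (bnPk (bnFlt tabESES) [17, 18, 19, 20, 21, 22, 23]) :=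
  tabOK_s chk0ESES zESES_2
    [(5, 6), (2, 3), (5, 7), (2, 4), (1, 6), (1, 7), (1, 5), (1, 4), (1, 2), (0, 3), (0, 7), (0, 5), (0, 4), (0, 2), (0, 1)] rfl (by decide)
theorem zESES_3 : chkTabS 8 cESES sESES tESES stESES_0 (bnPk (bnFlt tabESES) [24, 25, 26, 27, 28, 29, 30, 31, 32]) = true := by
  decide +kernel
theorem oESES_3 : TabOK 8 cESES sESES tESES eESES (bnPk (bnFlt tabESES) [24, 25, 26, 27, 28, 29, 30, 31, 32]) :=
  tabOK_s chk0ESES zESES_3
    [(5, 6), (2, 3), (5, 7), (2, 4), (1, 6), (1, 7), (1, 5), (1, 4), (1, 2), (0, 3), (0, 7), (0, 5), (0, 4), (0, 2), (0, 1)] rfl (by decide)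
theorem zESES_4 : chkTabS 8 cESES sESES tESES stESES_0 (bnPk (bnFlt tabESES) [33, 34, 35, 36]) = true := by
  decide +kernel
theorem oESES_4 : TabOK 8 cESES sESES tESES eESES (bnPk (bnFlt tabESES) [33, 34, 35, 36]) :=
  tabOK_s chk0ESES zESES_4
    [(5, 6), (2, 3), (5, 7), (2, 4), (1, 6), (1, 7), (1, 5), (1, 4), (1, 2), (0, 3), (0, 7), (0, 5), (0, 4), (0, 2), (0, 1)] rfl (by decide)
theorem zESES_5 : chkTabS 8 cESES sESES tESES stESES_0 (bnPk (bnFlt tabESES) [37, 38, 39]) = true := by
  decide +kernel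
theorem oESES_5 : TabOK 8 cESES sESES tESES eESES (bnPk (bnFlt tabESES) [37, 38, 39]) :=
  tabOK_s chk0ESES zESES_5
    [(5, 6), (2, 3), (5, 7), (2, 4), (1, 6), (1, 7), (1, 5), (1, 4), (1, 2), (0, 3), (0, 7), (0, 5), (0, 4), (0, 2), (0, 1)] rfl (by decide)
theorem okESES : TabOK 8 cESES sESES tESES eESES tabESES :=
  bn_tabOK_flt (by decide +kernel) (bn_tabOK_pk ([0, 1, 2, 3, 4, 5, 6] ++ ([7, 8, 9, 10, 11, 12, 13, 14, 15, 16] ++ ([17, 18, 19, 20, 21, 22, 23] ++ ([24, 25, 26, 27, 28, 29, 30, 31, 32] ++ ([33, 34, 35, 36] ++ ([37, 38, 39])))))) (by decide +kernel)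
    (bn_tabOK_pka oESES_0 (bn_tabOK_pka oESES_1 (bn_tabOK_pka oESES_2 (bn_tabOK_pka oESES_3 (bn_tabOK_pka oESES_4 (oESES_5)))))))
theorem yESES_0 : (((bnFrs 8 sESES 5).take 1).all (bnEnS 8 cESES tabESES [])) = true := by
  decide +kernel
theorem yESES_1 : (((bnFrs 8 sESES 5).drop 1).all (bnEnS 8 cESES tabESES [])) = true := by
  decide +kernel
theorem chkEESES : chkEn 8 cESES gESES sESES tabESES [] false = true :=
  bn_chkEn_frs 5 (bn_all_td 1 yESES_0 (yESES_1))

/-- TS|ES : x z a a' b c c' d -/
def cTSES : List ℕ := [4, 4, 3, 3, 2, 3, 2, 2]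
def sTSES : List ℕ := [0, 0, 1, 2, 1, 1, 2, 1]
def tTSES : List Bool := [false, false, true, true, false, false, false, false]
def gTSES : List (ℕ × ℕ) := [(0, 1), (0, 2), (0, 4), (0, 5), (0, 7), (1, 2), (1, 4), (1, 5), (1, 7), (2, 4), (5, 7), (0, 3), (2, 3), (1, 6), (5, 6)]
def eTSES : List (Fin 8 × Fin 8) := [(0, 1), (0, 2), (0, 4), (0, 5), (0, 7), (1, 2), (1, 4), (1, 5), (1, 7), (2, 4), (5, 7), (0, 3), (2, 3), (1, 6), (5, 6)]
def tabTSES0 : Tab := [
  ([], [([false, false, false, false, true, true, true, false], 1, [(1, 2205348)]),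
    ([false, false, false, false, true, false, true, true], -1, [(1, 4269732)]),
    ([false, false, false, false, true, true, false, true], -1, [(1, 4531876), (1, 4761252)]),
    ([false, false, false, false, false, true, true, true], -1, [(1, 370340), (1, 4499108)]),
    ([false, false, false, false, true, false, false, true], -1, [(1, 4794020)])]),
  ([(2, 3)], [([false, false, false, false, false, false, true, true], -1, [(1, 4527780), (1, 4789412)]),
    ([false, false, false, false, true, false, false, true], -1, [(1, 4793508)]),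
    ([false, false, false, false, true, true, false, true], 2, [(1, 4761188), (-2, 4531364)]),
    ([false, false, false, false, true, true, true, false], 1, [(1, 2204836)])]),
  ([(2, 6)], [([false, false, false, false, true, false, false, true], -1, [(1, 4531876)])]),
  ([(2, 3), (4, 5), (3, 6)], [([false, false, false, false, false, false, false, true], 1, [(1, 4531364)])]),
  ([(3, 6)], [([false, false, false, false, true, false, false, true], -1, [(1, 4531876)])]),
  ([(4, 7)], [([false, false, false, false, false, false, true, false], 1, [(1, 2467492), (-1, 632484)])])]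


def tabTSES : Tab := tabTSES0

theorem chk0TSES : chk0 8 cTSES sTSES = true := by decide +kernel
def stTSES_0 : List (List (ℕ × ℕ) × List (ℕ × ℕ)) :=
  [([(5, 6), (2, 3), (5, 7), (2, 4)], []), ([(1, 6), (1, 7), (1, 5), (1, 4), (1, 2)], [(1, 4)]), ([(0, 3), (0, 7), (0, 5), (0, 4), (0, 2), (0, 1)], [(0, 4)])]
theorem zTSES_0 : chkTabS 8 cTSES sTSES tTSES stTSES_0 (bnPk (bnFlt tabTSES) [0, 1, 2, 3, 4, 5, 6, 7, 8, 9, 10, 11, 12]) = true := by
  decide +kernel
theorem oTSES_0 : TabOK 8 cTSES sTSES tTSES eTSES (bnPk (bnFlt tabTSES) [0, 1, 2, 3, 4, 5, 6, 7, 8, 9, 10, 11, 12]) :=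
  tabOK_s chk0TSES zTSES_0
    [(5, 6), (2, 3), (5, 7), (2, 4), (1, 6), (1, 7), (1, 5), (1, 4), (1, 2), (0, 3), (0, 7), (0, 5), (0, 4), (0, 2), (0, 1)] rfl (by decide)
theorem okTSES : TabOK 8 cTSES sTSES tTSES eTSES tabTSES :=
  bn_tabOK_flt (by decide +kernel) (bn_tabOK_pk ([0, 1, 2, 3, 4, 5, 6, 7, 8, 9, 10, 11, 12]) (by decide +kernel)
    (oTSES_0))
theorem chkETSES : chkEn 8 cTSES gTSES sTSES tabTSES [] false = true := by decide +kernel

end Helper85.Bn
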