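import Pool.Agent.helper85.L9.BnSpl

set_option maxRecDepth 100000

namespace Helper85.Bn

/-- TS|TS : x z a a' b c c' d -/
def cTSTS : List ℕ := [4, 4, 3, 3, 2, 3, 3, 2]
def sTSTS : List ℕ := [0, 0, 1, 2, 1, 1, 2, 1]
def tTSTS : List Bool := [false, false, true, true, false, true, true, false]
def gTSTS : List (ℕ × ℕ) := [(0, 1), (0, 2), (0, 4), (0, 5), (0, 7), (1, 2), (1, 4), (1, 5), (1, 7), (2, 4), (5, 7), (0, 3), (2, 3), (1, 6), (5, 6)]
def eTSTS : List (Fin 8 × Fin 8) := [(0, 1), (0, 2), (0, 4), (0, 5), (0, 7), (1, 2), (1, 4), (1, 5), (1, 7), (2, 4), (5, 7), (0, 3), (2, 3), (1, 6), (5, 6)]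
def tabTSTS0 : Tab := [
  ([], [([false, false, false, false, true, false, false, true], -1, [(1, 4794020)])]),
  ([(3, 6)], [([false, false, false, false, true, false, false, true], -1, [(1, 4531876)]),
    ([false, false, false, false, false, false, false, true], 2, [(1, 890596)])]),
  ([(3, 5)], [([false, false, false, false, true, false, false, true], -1, [(1, 4761252)]),
    ([false, false, false, false, true, false, false, false], -1, [(1, 2959012)])]),
  ([(5, 6)], [([false, false, false, false, true, false, false, true], -1, [(1, 4531876)]),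
    ([false, false, false, false, false, false, false, true], 1, [(1, 894628)])]),
  ([(2, 6)], [([false, false, false, false, true, false, false, true], -1, [(1, 4531876)]),
    ([false, false, false, false, false, false, false, true], -1, [(1, 5052068)])]),
  ([(2, 3)], [([false, false, false, false, true, false, false, true], -1, [(1, 4793508)]),
    ([false, false, false, false, false, false, false, true], -1, [(1, 890596)])]),
  ([(2, 5)], [([false, false, false, false, true, false, false, true], -1, [(1, 4761252)]),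
    ([false, false, false, false, false, false, false, true], -1, [(1, 894628)])]),
  ([(3, 6), (3, 6)], [([false, false, false, false, true, false, false, true], -1, [(1, 4269732)]),
    ([false, false, false, false, false, false, false, true], 3, [(1, 628452)])]),
  ([(2, 5), (3, 6)], [([false, false, false, false, true, false, false, true], -1, [(1, 4499108)]),
    ([false, false, false, false, false, false, false, true], -2, [(1, 4789924)])]),
  ([(2, 3), (3, 6)], [([false, false, false, false, true, false, false, true], -1, [(1, 4531364)]),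
    ([false, false, false, false, false, false, false, true], -2, [(1, 4789924)])]),
  ([(5, 6), (3, 6)], [([false, false, false, false, true, false, false, true], -1, [(1, 4269732)]),
    ([false, false, false, false, false, false, false, true], -2, [(1, 890532)])]),
  ([(2, 3), (5, 6)], [([false, false, false, false, true, false, false, true], -1, [(1, 4531364)]),
    ([false, false, false, false, false, false, false, true], 1, [(1, 894116)])]),
  ([(3, 6), (2, 6)], [([false, false, false, false, true, false, false, true], -1, [(1, 4269732)]),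
    ([false, false, false, false, false, false, false, true], -2, [(1, 4789924)])]),
  ([(3, 5), (2, 6)], [([false, false, false, false, true, false, false, true], -1, [(1, 4499108)]),
    ([false, false, false, false, true, false, false, false], -1, [(1, 2696868)])]),
  ([(3, 5), (3, 6)], [([false, false, false, false, true, false, false, true], -1, [(1, 4499108)]),
    ([false, false, false, false, false, false, false, true], 2, [(1, 890532)])]),
  ([(5, 6), (2, 6)], [([false, false, false, false, true, false, false, true], -1, [(1, 4269732)]),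
    ([false, false, false, false, true, false, false, false], -2, [(1, 2467492)])]),
  ([(2, 3), (3, 5)], [([false, false, false, false, true, false, false, true], -1, [(1, 4760740)]),
    ([false, false, false, false, false, false, false, true], -2, [(1, 4757220)])]),
  ([(2, 5), (3, 6), (3, 6)], [([false, false, false, false, false, false, false, true], -1, [(1, 4265700)])]),
  ([(2, 3), (5, 6), (3, 6)], [([false, false, false, false, false, false, false, true], -2, [(1, 4265700)])]),
  ([(3, 5), (3, 6), (2, 6)], [([false, false, false, false, false, false, false, true], 1, [(1, 4265700)])]),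
  ([(4, 7)], [([false, false, false, false, false, false, false, false], 1, [(1, 2991780)])])]


def tabTSTS : Tab := tabTSTS0

theorem chk0TSTS : chk0 8 cTSTS sTSTS = true := by decide +kernel
def stTSTS_0 : List (List (ℕ × ℕ) × List (ℕ × ℕ)) :=
  [([(5, 6), (2, 3), (5, 7), (2, 4)], []), ([(1, 6), (1, 7), (1, 5), (1, 4), (1, 2)], [(1, 4)]), ([(0, 3), (0, 7), (0, 5), (0, 4), (0, 2), (0, 1)], [(0, 4)])]
theorem zTSTS_0 : chkTabS 8 cTSTS sTSTS tTSTS stTSTS_0 (bnPk (bnFlt tabTSTS) [0, 1, 2, 3, 4, 5, 6, 7, 8, 9, 10, 11, 12, 13]) = true := by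
  decide +kernel
theorem oTSTS_0 : TabOK 8 cTSTS sTSTS tTSTS eTSTS (bnPk (bnFlt tabTSTS) [0, 1, 2, 3, 4, 5, 6, 7, 8, 9, 10, 11, 12, 13]) :=
  tabOK_s chk0TSTS zTSTS_0
    [(5, 6), (2, 3), (5, 7), (2, 4), (1, 6), (1, 7), (1, 5), (1, 4), (1, 2), (0, 3), (0, 7), (0, 5), (0, 4), (0, 2), (0, 1)] rfl (by decide)
theorem zTSTS_1 : chkTabS 8 cTSTS sTSTS tTSTS stTSTS_0 (bnPk (bnFlt tabTSTS) [14, 15, 16, 17, 18, 19, 20, 21]) = true := by
  decide +kernel
theorem oTSTS_1 : TabOK 8 cTSTS sTSTS tTSTS eTSTS (bnPk (bnFlt tabTSTS) [14, 15, 16, 17, 18, 19, 20, 21]) :=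
  tabOK_s chk0TSTS zTSTS_1
    [(5, 6), (2, 3), (5, 7), (2, 4), (1, 6), (1, 7), (1, 5), (1, 4), (1, 2), (0, 3), (0, 7), (0, 5), (0, 4), (0, 2), (0, 1)] rfl (by decide)
theorem zTSTS_2 : chkTabS 8 cTSTS sTSTS tTSTS stTSTS_0 (bnPk (bnFlt tabTSTS) [22, 23, 24, 25, 26, 27, 28]) = true := by
  decide +kernel
theorem oTSTS_2 : TabOK 8 cTSTS sTSTS tTSTS eTSTS (bnPk (bnFlt tabTSTS) [22, 23, 24, 25, 26, 27, 28]) :=
  tabOK_s chk0TSTS zTSTS_2
    [(5, 6), (2, 3), (5, 7), (2, 4), (1, 6), (1, 7), (1, 5), (1, 4), (1, 2), (0, 3), (0, 7), (0, 5), (0, 4), (0, 2), (0, 1)] rfl (by decide)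
theorem zTSTS_3 : chkTabS 8 cTSTS sTSTS tTSTS stTSTS_0 (bnPk (bnFlt tabTSTS) [29, 30, 31, 32, 33, 34, 35, 36]) = true := by
  decide +kernel
theorem oTSTS_3 : TabOK 8 cTSTS sTSTS tTSTS eTSTS (bnPk (bnFlt tabTSTS) [29, 30, 31, 32, 33, 34, 35, 36]) :=
  tabOK_s chk0TSTS zTSTS_3
    [(5, 6), (2, 3), (5, 7), (2, 4), (1, 6), (1, 7), (1, 5), (1, 4), (1, 2), (0, 3), (0, 7), (0, 5), (0, 4), (0, 2), (0, 1)] rfl (by decide)
theorem okTSTS : TabOK 8 cTSTS sTSTS tTSTS eTSTS tabTSTS :=
  bn_tabOK_flt (by decide +kernel) (bn_tabOK_pk ([0, 1, 2, 3, 4, 5, 6, 7, 8, 9, 10, 11, 12, 13] ++ ([14, 15, 16, 17, 18, 19, 20, 21] ++ ([22, 23, 24, 25, 26, 27, 28] ++ ([29, 30, 31, 32, 33, 34, 35, 36])))) (by decide +kernel)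
    (bn_tabOK_pka oTSTS_0 (bn_tabOK_pka oTSTS_1 (bn_tabOK_pka oTSTS_2 (oTSTS_3)))))
theorem chkETSTS : chkEn 8 cTSTS gTSTS sTSTS tabTSTS [] false = true := by decide +kernel

end Helper85.Bn
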