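import Pool.Agent.helper85.L9.BnSpl

set_option maxRecDepth 100000

namespace Helper85.Bn

/-- EE|ED : x z a a' b b' c c' d -/
def cEEED : List ℕ := [4, 4, 3, 2, 3, 2, 3, 2, 2]
def sEEED : List ℕ := [0, 0, 1, 2, 1, 2, 1, 2, 0]
def tEEED : List Bool := []
def gEEED : List (ℕ × ℕ) := [(0, 1), (0, 2), (0, 4), (0, 6), (0, 8), (1, 2), (1, 4), (1, 6), (1, 8), (2, 4), (6, 8), (0, 3), (2, 3), (0, 5), (4, 5), (1, 7), (6, 7)]
def eEEED : List (Fin 9 × Fin 9) := [(0, 1), (0, 2), (0, 4), (0, 6), (0, 8), (1, 2), (1, 4), (1, 6), (1, 8), (2, 4), (6, 8), (0, 3), (2, 3), (0, 5), (4, 5), (1, 7), (6, 7)]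
def tabEEED0 : Tab := [
  ([], [([false, false, false, true, true, true, false, false, false], 1, [(1, 38580388), (1, 38576356), (-1, 36483300)]),
    ([false, false, true, true, false, true, false, false, false], -1, [(1, 38544100), (1, 38548132), (-1, 36451044)]),
    ([false, false, true, true, false, false, true, true, false], 1, [(1, 36516388), (-1, 34419300)]),
    ([false, false, false, false, true, true, true, true, false], 1, [(1, 36443364), (-1, 34350308)]),
    ([false, false, true, true, true, false, false, true, false], 1, [(1, 34156772), (1, 37823204), (-1, 35730148), (1, 36512804), (-1, 34411236), (1, 35988196)]),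
    ([false, false, false, true, false, true, false, true, false], -1, [(1, 34156772), (1, 37823204), (-1, 35730148), (1, 36512804), (-2, 34411236), (1, 35988196), (1, 34418852), (-1, 34386148), (-1, 34411684)]),
    ([false, false, true, false, false, true, true, true, false], -1, [(1, 36451428), (1, 33895588), (-1, 34378980), (-1, 38548516), (-1, 35927268), (-1, 34387044), (1, 36504740), (1, 35730148), (1, 36515940), (-1, 34418852)]),
    ([false, false, false, true, true, false, true, true, false], -1, [(1, 34156772), (1, 35726564), (1, 36515940), (-1, 34418852), (-1, 34411236), (-2, 34411684), (-1, 36512804), (-1, 36484132), (1, 34387044)]),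
    ([false, false, true, false, true, true, false, true, false], 1, [(1, 37762276), (1, 35697892), (-1, 37794980), (-1, 38540452), (1, 33895588), (-1, 38548516), (1, 38024356), (1, 34387044), (-1, 36443364), (1, 34350308), (-1, 34411684)])]),
  ([(3, 5)], [([false, false, false, true, true, true, false, false, false], -1, [(1, 38609124), (1, 38613156), (-1, 36516068)]),
    ([false, false, false, false, true, false, true, true, false], -1, [(1, 36504804), (-1, 34411748)]),
    ([false, false, true, false, false, true, false, true, false], 1, [(1, 34415332), (-1, 34418916), (-1, 34411748)]),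
    ([false, false, true, false, false, false, false, true, false], -5, [(1, 34387172), (-1, 34419428), (-1, 34415844), (-4, 34419876)])]),
  ([(2, 7)], [([false, false, false, true, false, false, true, false, false], -1, [(1, 38613156)]),
    ([false, false, false, false, false, true, true, false, false], -1, [(1, 38286564), (1, 38548196)])]),
  ([(4, 5)], [([false, false, true, false, false, false, false, true, false], 2, [(1, 34419428), (1, 34419876)])]),
  ([(5, 7)], [([false, false, false, true, false, false, false, true, false], -1, [(1, 36516068), (1, 38580452)])]),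
  ([(4, 7)], [([false, false, false, false, false, true, false, true, false], 1, [(1, 34387172), (1, 34415844)]),
    ([false, false, false, false, false, false, true, true, false], 1, [(1, 36484324), (1, 36512996), (-1, 38548708)])]),
  ([(2, 3)], [([false, false, false, true, false, true, false, false, false], -3, [(2, 38548196), (1, 38548644)]),
    ([false, false, false, false, false, false, false, true, false], -2, [(1, 34419940)])]),
  ([(3, 4)], [([false, false, true, false, false, false, false, true, false], -1, [(1, 36516964), (1, 36516516), (1, 36516068)])]),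
  ([(3, 6)], [([false, false, false, true, false, true, false, false, false], 1, [(1, 38548644), (1, 36451556), (1, 38548196)]),
    ([false, false, false, false, false, true, false, true, false], 1, [(1, 34354404)])]),
  ([(2, 4)], [([false, false, false, false, false, false, false, true, false], -2, [(1, 34419940)])]),
  ([(5, 6)], [([false, false, true, true, false, false, false, false, false], -1, [(1, 38613156), (-2, 36516068)])]),
  ([(3, 4), (3, 5)], [([false, false, false, false, false, true, false, true, false], -1, [(1, 36451492)])]),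
  ([(2, 5), (5, 7)], [([false, false, false, false, true, false, false, true, false], 1, [(1, 34419876)])]),
  ([(4, 6)], [([false, false, false, false, false, true, false, false, false], 1, [(1, 38548708)])]),
  ([(2, 6)], [([false, false, false, true, false, false, false, false, false], -1, [(1, 38613220)])]),
  ([(6, 7)], [([false, false, true, true, false, false, false, false, false], 1, [(1, 36516516), (-1, 34419428), (1, 38609124), (-1, 34419876), (1, 36516964), (1, 36516068)]),
    ([false, false, false, true, true, true, false, false, false], -2, [(2, 38547620), (-1, 35992228), (-2, 38605860)])])]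


def tabEEED : Tab := tabEEED0

theorem chk0EEED : chk0 9 cEEED sEEED = true := by decide +kernel
def stEEED_0 : List (List (ℕ × ℕ) × List (ℕ × ℕ)) :=
  [([(6, 7), (4, 5), (2, 3), (2, 4)], []), ([(0, 5), (0, 3), (0, 6), (0, 4), (0, 2)], [(0, 4)]), ([(1, 7), (1, 6), (1, 4), (1, 2), (0, 1)], [(1, 4)]), ([(6, 8), (1, 8), (0, 8)], [(8, 2)])]
theorem zEEED_0 : chkTabS 9 cEEED sEEED tEEED stEEED_0 (bnPk (bnFlt tabEEED) [0, 1, 2, 3, 4, 5, 6, 7]) = true := by
  decide +kernel
theorem oEEED_0 : TabOK 9 cEEED sEEED tEEED eEEED (bnPk (bnFlt tabEEED) [0, 1, 2, 3, 4, 5, 6, 7]) :=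
  tabOK_s chk0EEED zEEED_0
    [(6, 7), (4, 5), (2, 3), (2, 4), (0, 5), (0, 3), (0, 6), (0, 4), (0, 2), (1, 7), (1, 6), (1, 4), (1, 2), (0, 1), (6, 8), (1, 8), (0, 8)] rfl (by decide)
theorem zEEED_1 : chkTabS 9 cEEED sEEED tEEED stEEED_0 (bnPk (bnFlt tabEEED) [8, 9, 10, 11, 12]) = true := by
  decide +kernel
theorem oEEED_1 : TabOK 9 cEEED sEEED tEEED eEEED (bnPk (bnFlt tabEEED) [8, 9, 10, 11, 12]) :=
  tabOK_s chk0EEED zEEED_1
    [(6, 7), (4, 5), (2, 3), (2, 4), (0, 5), (0, 3), (0, 6), (0, 4), (0, 2), (1, 7), (1, 6), (1, 4), (1, 2), (0, 1), (6, 8), (1, 8), (0, 8)] rfl (by decide)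
theorem zEEED_2 : chkTabS 9 cEEED sEEED tEEED stEEED_0 (bnPk (bnFlt tabEEED) [13, 14, 15, 16, 17, 18, 19, 20, 21, 22, 23, 24, 25]) = true := by
  decide +kernel
theorem oEEED_2 : TabOK 9 cEEED sEEED tEEED eEEED (bnPk (bnFlt tabEEED) [13, 14, 15, 16, 17, 18, 19, 20, 21, 22, 23, 24, 25]) :=
  tabOK_s chk0EEED zEEED_2
    [(6, 7), (4, 5), (2, 3), (2, 4), (0, 5), (0, 3), (0, 6), (0, 4), (0, 2), (1, 7), (1, 6), (1, 4), (1, 2), (0, 1), (6, 8), (1, 8), (0, 8)] rfl (by decide)
theorem zEEED_3 : chkTabS 9 cEEED sEEED tEEED stEEED_0 (bnPk (bnFlt tabEEED) [26, 27, 28, 29, 30, 31]) = true := by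
  decide +kernel
theorem oEEED_3 : TabOK 9 cEEED sEEED tEEED eEEED (bnPk (bnFlt tabEEED) [26, 27, 28, 29, 30, 31]) :=
  tabOK_s chk0EEED zEEED_3
    [(6, 7), (4, 5), (2, 3), (2, 4), (0, 5), (0, 3), (0, 6), (0, 4), (0, 2), (1, 7), (1, 6), (1, 4), (1, 2), (0, 1), (6, 8), (1, 8), (0, 8)] rfl (by decide)
theorem okEEED : TabOK 9 cEEED sEEED tEEED eEEED tabEEED :=
  bn_tabOK_flt (by decide +kernel) (bn_tabOK_pk ([0, 1, 2, 3, 4, 5, 6, 7] ++ ([8, 9, 10, 11, 12] ++ ([13, 14, 15, 16, 17, 18, 19, 20, 21, 22, 23, 24, 25] ++ ([26, 27, 28, 29, 30, 31])))) (by decide +kernel)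
    (bn_tabOK_pka oEEED_0 (bn_tabOK_pka oEEED_1 (bn_tabOK_pka oEEED_2 (oEEED_3)))))
theorem yEEED_0 : (((bnFrs 9 sEEED 5).take 1).all (bnEnS 9 cEEED tabEEED [])) = true := by
  decide +kernel
theorem yEEED_1 : ((((bnFrs 9 sEEED 5).drop 1).take 4).all (bnEnS 9 cEEED tabEEED [])) = true := by
  decide +kernel
theorem yEEED_2 : (((((bnFrs 9 sEEED 5).drop 1).drop 4).take 9).all (bnEnS 9 cEEED tabEEED [])) = true := by
  decide +kernel
theorem yEEED_3 : (((((bnFrs 9 sEEED 5).drop 1).drop 4).drop 9).all (bnEnS 9 cEEED tabEEED [])) = true := by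
  decide +kernel
theorem chkEEEED : chkEn 9 cEEED gEEED sEEED tabEEED [] false = true :=
  bn_chkEn_frs 5 (bn_all_td 1 yEEED_0 (bn_all_td 4 yEEED_1 (bn_all_td 9 yEEED_2 (yEEED_3))))

end Helper85.Bn
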