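import Pool.Agent.helper85.L9.BnSpl

set_option maxRecDepth 100000

namespace Helper85.Bn

/-- EE|TD : x z a a' b b' c c' d -/
def cEETD : List ℕ := [4, 4, 3, 2, 3, 2, 3, 3, 2]
def sEETD : List ℕ := [0, 0, 1, 2, 1, 2, 1, 2, 0]
def tEETD : List Bool := [false, false, false, false, false, false, true, true, false]
def gEETD : List (ℕ × ℕ) := [(0, 1), (0, 2), (0, 4), (0, 6), (0, 8), (1, 2), (1, 4), (1, 6), (1, 8), (2, 4), (6, 8), (0, 3), (2, 3), (0, 5), (4, 5), (1, 7), (6, 7)]
def eEETD : List (Fin 9 × Fin 9) := [(0, 1), (0, 2), (0, 4), (0, 6), (0, 8), (1, 2), (1, 4), (1, 6), (1, 8), (2, 4), (6, 8), (0, 3), (2, 3), (0, 5), (4, 5), (1, 7), (6, 7)]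
def tabEETD0 : Tab := [
  ([], [([false, false, false, true, true, true, false, false, false], -1, [(1, 36483300), (1, 40153316)]),
    ([false, false, true, true, false, true, false, false, false], 1, [(1, 38318308), (-1, 40698084), (1, 40644772), (-1, 40677924)]),
    ([false, false, true, true, true, false, false, false, false], -1, [(2, 40440996), (1, 39924452), (-1, 40444132), (-1, 40645284), (2, 40449060), (-1, 40645732), (-1, 40641700), (1, 40383652), (1, 38548644), (-1, 36516068), (1, 38605988), (-1, 34415844), (-1, 35992804), (-1, 34419876), (1, 38614052), (1, 38613156), (-1, 39924900), (1, 40699044)]),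
    ([false, false, false, true, false, true, false, false, false], 1, [(1, 40440996), (1, 40449060), (-1, 39892196), (-1, 36222180), (1, 40383652), (1, 40678436), (-1, 40154276), (-1, 38601956), (1, 38548644), (-1, 40186084), (-1, 36516068), (-1, 36451556), (1, 40415908), (-2, 40645732), (-2, 40641700), (-2, 40637668)]),
    ([false, false, true, false, true, true, false, false, false], 1, [(2, 40445028), (-1, 38548644), (-1, 40383652), (1, 39892196), (2, 40436964), (1, 38601956), (-1, 40121572), (-1, 40673508), (1, 40444132), (1, 38610020), (1, 40707108), (-1, 38613156), (-1, 35992804), (-1, 34419876), (-1, 34415844), (-1, 39920868), (-1, 40710692), (-1, 36451556), (1, 36516068)])]),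
  ([(6, 7)], [([false, false, false, false, true, true, false, false, false], -1, [(1, 40637668)]),
    ([false, false, false, true, false, true, false, false, false], -1, [(1, 40640740)]),
    ([false, false, true, true, false, false, false, false, false], 1, [(1, 40710244)]),
    ([false, false, true, false, false, true, false, false, false], 2, [(2, 40645284), (-1, 40379620)]),
    ([false, false, false, true, true, false, false, false, false], 2, [(1, 40448164), (-2, 40673508)])]),
  ([(3, 5)], [([false, false, true, true, true, true, false, false, false], -1, [(1, 40383588), (1, 40375524)])]),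
  ([(3, 7)], [([false, false, false, false, true, true, false, false, false], 2, [(1, 40383652)])]),
  ([(2, 3)], [([false, false, false, false, false, true, false, false, false], -2, [(1, 40641764)])]),
  ([(3, 4)], [([false, false, false, false, false, true, false, false, false], -1, [(1, 40645796)])]),
  ([(3, 6)], [([false, false, false, false, true, true, false, false, false], 2, [(1, 40637668)])]),
  ([(2, 4)], [([false, false, false, false, false, true, false, false, false], -1, [(1, 40645796)])])]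


def tabEETD : Tab := tabEETD0

theorem chk0EETD : chk0 9 cEETD sEETD = true := by decide +kernel
def stEETD_0 : List (List (ℕ × ℕ) × List (ℕ × ℕ)) :=
  [([(6, 7), (4, 5), (2, 3), (2, 4)], []), ([(0, 5), (0, 3), (0, 6), (0, 4), (0, 2)], [(0, 4)]), ([(1, 7), (1, 6), (1, 4), (1, 2), (0, 1)], [(1, 4)]), ([(6, 8), (1, 8), (0, 8)], [(8, 2)])]
theorem zEETD_0 : chkTabS 9 cEETD sEETD tEETD stEETD_0 (bnPk (bnFlt tabEETD) [0, 1, 2]) = true := by
  decide +kernel
theorem oEETD_0 : TabOK 9 cEETD sEETD tEETD eEETD (bnPk (bnFlt tabEETD) [0, 1, 2]) :=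
  tabOK_s chk0EETD zEETD_0
    [(6, 7), (4, 5), (2, 3), (2, 4), (0, 5), (0, 3), (0, 6), (0, 4), (0, 2), (1, 7), (1, 6), (1, 4), (1, 2), (0, 1), (6, 8), (1, 8), (0, 8)] rfl (by decide)
theorem zEETD_1 : chkTabS 9 cEETD sEETD tEETD stEETD_0 (bnPk (bnFlt tabEETD) [3, 4, 5]) = true := by
  decide +kernel
theorem oEETD_1 : TabOK 9 cEETD sEETD tEETD eEETD (bnPk (bnFlt tabEETD) [3, 4, 5]) :=
  tabOK_s chk0EETD zEETD_1
    [(6, 7), (4, 5), (2, 3), (2, 4), (0, 5), (0, 3), (0, 6), (0, 4), (0, 2), (1, 7), (1, 6), (1, 4), (1, 2), (0, 1), (6, 8), (1, 8), (0, 8)] rfl (by decide)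
theorem zEETD_2 : chkTabS 9 cEETD sEETD tEETD stEETD_0 (bnPk (bnFlt tabEETD) [6, 7, 8, 9, 10, 11, 12, 13, 14, 15]) = true := by
  decide +kernel
theorem oEETD_2 : TabOK 9 cEETD sEETD tEETD eEETD (bnPk (bnFlt tabEETD) [6, 7, 8, 9, 10, 11, 12, 13, 14, 15]) :=
  tabOK_s chk0EETD zEETD_2
    [(6, 7), (4, 5), (2, 3), (2, 4), (0, 5), (0, 3), (0, 6), (0, 4), (0, 2), (1, 7), (1, 6), (1, 4), (1, 2), (0, 1), (6, 8), (1, 8), (0, 8)] rfl (by decide)
theorem okEETD : TabOK 9 cEETD sEETD tEETD eEETD tabEETD :=
  bn_tabOK_flt (by decide +kernel) (bn_tabOK_pk ([0, 1, 2] ++ ([3, 4, 5] ++ ([6, 7, 8, 9, 10, 11, 12, 13, 14, 15]))) (by decide +kernel)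
    (bn_tabOK_pka oEETD_0 (bn_tabOK_pka oEETD_1 (oEETD_2))))
theorem yEETD_0 : (((bnFrs 9 sEETD 5).take 8).all (bnEnS 9 cEETD tabEETD [])) = true := by
  decide +kernel
theorem yEETD_1 : (((bnFrs 9 sEETD 5).drop 8).all (bnEnS 9 cEETD tabEETD [])) = true := by
  decide +kernel
theorem chkEEETD : chkEn 9 cEETD gEETD sEETD tabEETD [] false = true :=
  bn_chkEn_frs 5 (bn_all_td 8 yEETD_0 (yEETD_1))

end Helper85.Bn
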