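import Pool.Agent.helper85.L9.BnEEE
import Pool.Agent.helper85.L9.BnD1
import Pool.Agent.helper85.L9.BnD2
import Pool.Agent.helper85.L9.BnD3
import Pool.Agent.helper85.L9.BnD4
import Pool.Agent.helper85.L9.BnD5

/-!
# Root blocks: all types

Every theorem: a block `g` with the block edges `e...`, caps at least `c...`, at most `s...` further
edges at the vertices of the block (all further edges are in `N`), `Ctx` for the outside.

* one root `x` : `ESS` (x a a' b c), `EES` (x a a' b b' c), `EEE` (x a a' b b' c c');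
* two adjacent roots `x z` : `SSSS` (x z a b c d), `ESSS` (x z a a' b c d),
  `EESS` (x z a a' b b' c d), `ESES` (x z a a' b c c' d), `EEED` (x z a a' b b' c c' d),
  with tails `TSSS` (x z a a' b c d), `TSES` (x z a a' b c c' d), `TSTS` (x z a a' b c c' d),
  `EETD` (x z a a' b b' c c' d), and `C1` (x z a m c b d).
-/

set_option linter.unusedSimpArgs false

namespace Helper85.Bn

open Finset Helper42.L9 Helper19.Gadget Helper19.Kill Helper19.DN

variable {V : Type*} {c : V → ℕ} {W : List V} {N : Multiset (Sym2 V)}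

theorem at_ESS {g : Fin 5 → V} (hg : Function.Injective g) (hc : ∀ i : Fin 5, cp cESS i ≤ c (g i))
    (hd : ∀ i : Fin 5, dg N (g i) ≤ sESS.getD i 0) (C : Ctx g (msk tESS) W N c) :
    AT (emb g eESS + N) c :=
  bn_ok hg chk0ESS okESS chkEESS hc hd C

theorem at_EES {g : Fin 6 → V} (hg : Function.Injective g) (hc : ∀ i : Fin 6, cp cEES i ≤ c (g i))
    (hd : ∀ i : Fin 6, dg N (g i) ≤ sEES.getD i 0) (C : Ctx g (msk tEES) W N c) :
    AT (emb g eEES + N) c :=
  bn_ok hg chk0EES okEES chkEEES hc hd C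

theorem at_SSSS {g : Fin 6 → V} (hg : Function.Injective g)
    (hc : ∀ i : Fin 6, cp cSSSS i ≤ c (g i)) (hd : ∀ i : Fin 6, dg N (g i) ≤ sSSSS.getD i 0)
    (C : Ctx g (msk tSSSS) W N c) : AT (emb g eSSSS + N) c :=
  bn_ok hg chk0SSSS okSSSS chkESSSS hc hd C

theorem at_ESSS {g : Fin 7 → V} (hg : Function.Injective g)
    (hc : ∀ i : Fin 7, cp cESSS i ≤ c (g i)) (hd : ∀ i : Fin 7, dg N (g i) ≤ sESSS.getD i 0)
    (C : Ctx g (msk tESSS) W N c) : AT (emb g eESSS + N) c :=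
  bn_ok hg chk0ESSS okESSS chkEESSS hc hd C

theorem at_EESS {g : Fin 8 → V} (hg : Function.Injective g)
    (hc : ∀ i : Fin 8, cp cEESS i ≤ c (g i)) (hd : ∀ i : Fin 8, dg N (g i) ≤ sEESS.getD i 0)
    (C : Ctx g (msk tEESS) W N c) : AT (emb g eEESS + N) c :=
  bn_ok hg chk0EESS okEESS chkEEESS hc hd C

theorem at_ESES {g : Fin 8 → V} (hg : Function.Injective g)
    (hc : ∀ i : Fin 8, cp cESES i ≤ c (g i)) (hd : ∀ i : Fin 8, dg N (g i) ≤ sESES.getD i 0)
    (C : Ctx g (msk tESES) W N c) : AT (emb g eESES + N) c :=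
  bn_ok hg chk0ESES okESES chkEESES hc hd C

theorem at_EEED {g : Fin 9 → V} (hg : Function.Injective g)
    (hc : ∀ i : Fin 9, cp cEEED i ≤ c (g i)) (hd : ∀ i : Fin 9, dg N (g i) ≤ sEEED.getD i 0)
    (C : Ctx g (msk tEEED) W N c) : AT (emb g eEEED + N) c :=
  bn_ok hg chk0EEED okEEED chkEEEED hc hd C

theorem at_TSSS {g : Fin 7 → V} (hg : Function.Injective g)
    (hc : ∀ i : Fin 7, cp cTSSS i ≤ c (g i)) (hd : ∀ i : Fin 7, dg N (g i) ≤ sTSSS.getD i 0)
    (C : Ctx g (msk tTSSS) W N c) : AT (emb g eTSSS + N) c :=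
  bn_ok hg chk0TSSS okTSSS chkETSSS hc hd C

theorem at_TSES {g : Fin 8 → V} (hg : Function.Injective g)
    (hc : ∀ i : Fin 8, cp cTSES i ≤ c (g i)) (hd : ∀ i : Fin 8, dg N (g i) ≤ sTSES.getD i 0)
    (C : Ctx g (msk tTSES) W N c) : AT (emb g eTSES + N) c :=
  bn_ok hg chk0TSES okTSES chkETSES hc hd C

theorem at_TSTS {g : Fin 8 → V} (hg : Function.Injective g)
    (hc : ∀ i : Fin 8, cp cTSTS i ≤ c (g i)) (hd : ∀ i : Fin 8, dg N (g i) ≤ sTSTS.getD i 0)
    (C : Ctx g (msk tTSTS) W N c) : AT (emb g eTSTS + N) c :=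
  bn_ok hg chk0TSTS okTSTS chkETSTS hc hd C

theorem at_EETD {g : Fin 9 → V} (hg : Function.Injective g)
    (hc : ∀ i : Fin 9, cp cEETD i ≤ c (g i)) (hd : ∀ i : Fin 9, dg N (g i) ≤ sEETD.getD i 0)
    (C : Ctx g (msk tEETD) W N c) : AT (emb g eEETD + N) c :=
  bn_ok hg chk0EETD okEETD chkEEETD hc hd C

theorem at_C1 {g : Fin 7 → V} (hg : Function.Injective g)
    (hc : ∀ i : Fin 7, cp cC1 i ≤ c (g i)) (hd : ∀ i : Fin 7, dg N (g i) ≤ sC1.getD i 0)
    (C : Ctx g (msk tC1) W N c) : AT (emb g eC1 + N) c :=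
  bn_ok hg chk0C1 okC1 chkEC1 hc hd C

/-- no block: a list of vertices which can be peeled, the others are cubic -/
theorem at_peeled (hl : ∀ e ∈ N, ¬ e.IsDiag)
    (h3 : ∀ v, v ∉ W → dg N v ≤ 3 ∧ 2 ≤ c v)
    (hW : ∀ (l1 : List V) (w : V) (l2 : List V), W = l1 ++ w :: l2 →
      dg (outt (@List.toFinset V (Classical.decEq V) l1) N) w ≤ c w)
    (hK : NoK4 N) : AT N c := by
  classical
  have O : Outer (Fin.elim0 : Fin 0 → V) (fun _ => False) W [] N c := by
    refine ⟨by simp, fun e _ i => i.elim0, hl, fun v _ hv => ?_, fun l1 w l2 hw => ?_, hK⟩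
    · simpa [mU] using h3 v hv
    · simpa [mU] using hW l1 w l2 hw
  exact outer_at O

end Helper85.Bn
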