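import Pool.Agent.helper85.L9.BnGrow

/-!
# Blocks with all hypotheses, growing by outer vertices
-/

set_option linter.unusedSimpArgs false

namespace Helper85.Bn

open MvPolynomial Finset Helper42.L9 Helper19.Gadget Helper19.Kill Helper19.DN

variable {V : Type*} {n : ℕ} {c : V → ℕ}

/-- block with caps `cl` and at most `sl` further edges -/
structure Blk (g : Fin n → V) (cl' sl : List ℕ) (N : Multiset (Sym2 V)) (c : V → ℕ) : Prop where
  inj : Function.Injective g
  len : cl'.length = n
  len' : sl.length = n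
  cap : ∀ i : Fin n, cp cl' i ≤ c (g i)
  slot : ∀ i : Fin n, dg N (g i) ≤ sl.getD i 0
  ctx : Ctx g (msk []) [] N c

theorem getD_app_lt {l l' : List ℕ} {i d : ℕ} (h : i < l.length) :
    (l ++ l').getD i d = l.getD i d := by
  rw [List.getD_eq_getElem?_getD, List.getD_eq_getElem?_getD, List.getElem?_append_left h]

theorem getD_app_eq {l : List ℕ} {k d : ℕ} : (l ++ [k]).getD l.length d = k := by
  rw [List.getD_eq_getElem?_getD, List.getElem?_append_right le_rfl]
  simp

theorem cp_append_lt {l : List ℕ} {k i : ℕ} (h : i < l.length) : cp (l ++ [k]) i = cp l i := by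
  unfold cp
  exact getD_app_lt h

theorem cp_append_eq {l : List ℕ} {k : ℕ} : cp (l ++ [k]) l.length = k := by
  unfold cp
  exact getD_app_eq

/-- one more vertex -/
theorem Blk.grow {g : Fin n → V} {cl' sl : List ℕ} {N : Multiset (Sym2 V)}
    (h : Blk g cl' sl N c) {o : V} (ho : ∀ i, g i ≠ o) (k : ℕ) (hk : dg N o ≤ k) :
    Blk (ext1 g o) (cl' ++ [2]) (sl ++ [k]) N c := by
  refine ⟨ext1_inj h.inj ho, by simp [h.len], by simp [h.len'], ?_, ?_, h.ctx.ext⟩
  · intro i
    by_cases hi : (i : ℕ) < n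
    · rw [ext1_lt g o i hi, cp_append_lt (by rw [h.len]; exact hi)]
      exact h.cap ⟨i, hi⟩
    · have hi' : (i : ℕ) = n := by omega
      have e1 : (i : ℕ) = cl'.length := by rw [h.len]; exact hi'
      rw [ext1_last g o i hi', e1, cp_append_eq]
      exact (h.ctx.deg o ho (by simp)).2
  · intro i
    by_cases hi : (i : ℕ) < n
    · rw [ext1_lt g o i hi, getD_app_lt (by rw [h.len']; exact hi)]
      exact h.slot ⟨i, hi⟩
    · have hi' : (i : ℕ) = n := by omega
      have e1 : (i : ℕ) = sl.length := by rw [h.len']; exact hi'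
      rw [ext1_last g o i hi', e1, getD_app_eq]
      exact hk

/-- the table theorem -/
theorem Blk.at {g : Fin n → V} {cl' sl : List ℕ} {N : Multiset (Sym2 V)}
    (h : Blk g cl' sl N c) (E : List (Fin n × Fin n)) (gE : List (ℕ × ℕ)) (hE : E.map vE = gE)
    (tab : Tab) (h0 : chk0 n cl' sl = true) (h1 : chkTab n cl' gE sl [] tab = true)
    (h2 : chkEn n cl' gE sl tab [] false = true) : AT (emb g E + N) c :=
  bn_at h.inj cl' sl [] E gE hE tab h0 h1 h2 h.cap [] N h.slot h.ctx

/-- edges seen by a bigger block -/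
theorem emb_lift {m : ℕ} {g : Fin n → V} {h : Fin m → V}
    (hgh : ∀ (i : Fin n) (j : Fin m), (j : ℕ) = i → h j = g i) :
    ∀ (E : List (Fin n × Fin n)) (E' : List (Fin m × Fin m)), E'.map vE = E.map vE →
    emb h E' = emb g E
  | [], [], _ => rfl
  | [], _ :: _, h => by simp at h
  | _ :: _, [], h => by simp at h
  | e :: E, e' :: E', hh => by
    rw [List.map_cons, List.map_cons, List.cons.injEq] at hh
    have ih := emb_lift hgh E E' hh.2
    have h1 := hh.1
    unfold vE at h1
    rw [Prod.mk.injEq] at h1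
    have e1 : emb h (e' :: E') = s(h e'.1, h e'.2) ::ₘ emb h E' := rfl
    have e2 : emb g (e :: E) = s(g e.1, g e.2) ::ₘ emb g E := rfl
    rw [e1, e2, ih, hgh e.1 e'.1 h1.1, hgh e.2 e'.2 h1.2]

/-- take a link -/
theorem take_link {L : List (Fin n × V)} {i : Fin n} (h : 1 ≤ cl L i) :
    ∃ o L', L.Perm ((i, o) :: L') := by
  unfold cl at h
  obtain ⟨e, he⟩ := List.exists_mem_of_length_pos h
  rw [List.mem_filter, decide_eq_true_eq] at he
  obtain ⟨s, t, rfl⟩ := List.append_of_mem he.1
  obtain ⟨i', o⟩ := e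
  have : i' = i := he.2
  subst this
  exact ⟨o, s ++ t, List.perm_middle⟩

theorem cl_perm {L L' : List (Fin n × V)} (h : L.Perm L') (i : Fin n) : cl L i = cl L' i := by
  unfold cl
  exact (h.filter _).length_eq

theorem lkM_perm (g : Fin n → V) {L L' : List (Fin n × V)} (h : L.Perm L') :
    lkM g L = lkM g L' := by
  unfold lkM
  exact Quot.sound (h.map _)

theorem sum_cl (L : List (Fin n × V)) : ∑ i, cl L i = L.length := by
  classical
  induction L with
  | nil => simp [cl]
  | cons e L ih =>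
    simp only [cl_cons, Finset.sum_add_distrib, ih, List.length_cons]
    rw [Finset.sum_ite_eq Finset.univ e.1 fun _ => 1, if_pos (mem_univ _)]

theorem nil_of_cl {L : List (Fin n × V)} (h : ∀ i, cl L i = 0) : L = [] := by
  have := sum_cl L
  rw [Finset.sum_eq_zero fun i _ => h i] at this
  exact List.length_eq_zero_iff.mp this.symm

/-- a block `g` with edges at outer vertices -/
structure Pre (g : Fin n → V) (cl' : List ℕ) (L : List (Fin n × V)) (N0 : Multiset (Sym2 V))
    (c : V → ℕ) : Prop where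
  inj : Function.Injective g
  len : cl'.length = n
  cap : ∀ i : Fin n, cp cl' i ≤ c (g i)
  hL : ∀ e ∈ L, ∀ i, g i ≠ e.2
  h0 : ∀ e ∈ N0, ∀ i, g i ∉ e
  ctx : Ctx g (msk []) [] (lkM g L + N0) c

/-- a block with remaining links `L` -/
theorem Pre.blk {g : Fin n → V} {cl' : List ℕ} {X L : List (Fin n × V)}
    {N0 : Multiset (Sym2 V)} (h : Pre g cl' (X ++ L) N0 c) (sl : List ℕ) (hlen : sl.length = n)
    (hs : ∀ i : Fin n, cl L i ≤ sl.getD i 0) (N1 : Multiset (Sym2 V)) (hN1 : N1 ≤ N0) :
    Blk g cl' sl (lkM g L + N1) c := by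
  refine ⟨h.inj, h.len, hlen, h.cap, fun i => ?_, h.ctx.mono ?_⟩
  · rw [dg_add, dg_lkM h.inj L (fun e he => h.hL e (List.mem_append_right _ he)) i,
      dg_zero_of_fr (fun e he => h.h0 e (Multiset.mem_of_le hN1 he)) i]
    exact hs i
  · have e1 : lkM g (X ++ L) = lkM g X + lkM g L := by
      unfold lkM
      rw [List.map_append, ← Multiset.coe_add]
    rw [e1, add_assoc]
    exact (add_le_add_right hN1 _).trans (Multiset.le_add_left _ _)

/-- the degree of an outer vertex after removing its links in `X` -/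
theorem Pre.dg_o {g : Fin n → V} {cl' : List ℕ} {X L : List (Fin n × V)}
    {N0 : Multiset (Sym2 V)} (h : Pre g cl' (X ++ L) N0 c) {o : V} (ho : ∀ i, g i ≠ o)
    (k : ℕ) (hk : k ≤ mU (fun _ => True) X o) (N1 : Multiset (Sym2 V)) (hN1 : N1 ≤ N0) :
    dg (lkM g L + N1) o + k ≤ 3 := by
  have h1 := (h.ctx.deg o ho (by simp)).1
  have e1 : lkM g (X ++ L) = lkM g X + lkM g L := by
    unfold lkM
    rw [List.map_append, ← Multiset.coe_add]
  rw [e1, dg_add, dg_add, dg_lkM_out X ho] at h1
  rw [dg_add]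
  have := dg_le_of_le hN1 o
  omega

end Helper85.Bn
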