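import Pool.Agent.helper85.L9.BnSpl

set_option maxRecDepth 100000

namespace Helper85.Bn

/-- EEE : x a a' b b' c c' -/
def cEEE : List ℕ := [4, 3, 2, 3, 2, 3, 2]
def sEEE : List ℕ := [0, 1, 2, 1, 2, 1, 2]
def tEEE : List Bool := []
def gEEE : List (ℕ × ℕ) := [(0, 1), (0, 3), (0, 5), (1, 3), (1, 5), (3, 5), (0, 2), (1, 2), (0, 4), (3, 4), (0, 6), (5, 6)]
def eEEE : List (Fin 7 × Fin 7) := [(0, 1), (0, 3), (0, 5), (1, 3), (1, 5), (3, 5), (0, 2), (1, 2), (0, 4), (3, 4), (0, 6), (5, 6)]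
def tabEEE0 : Tab := [
  ([(2, 3)], [([false, false, true, false, false, true, true], 1, [(1, 337556), (-1, 366228)])]),
  ([(3, 6)], [([false, true, true, false, false, false, true], 1, [(1, 599636), (-1, 595548)])]),
  ([(1, 4)], [([false, false, true, false, true, true, false], 1, [(1, 631444), (-1, 632340), (-2, 631836), (-1, 595548), (-1, 624276), (-2, 591516), (2, 369756), (-1, 365724), (1, 566932), (1, 627804), (-2, 623772)]),
    ([false, false, false, false, true, true, true], -1, [(1, 369756), (-1, 365724)])]),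
  ([(1, 2)], [([false, false, true, true, false, false, true], -1, [(2, 333468), (-1, 591516), (3, 624276), (2, 595548), (5, 599580), (-1, 75420)])]),
  ([(4, 5)], [([false, true, true, false, true, false, false], 1, [(1, 627804), (-1, 369756)])]),
  ([(4, 6), (2, 6)], [([false, true, false, false, true, true, false], -1, [(1, 337052), (-1, 369756)])]),
  ([(2, 5)], [([false, false, true, true, true, false, false], -1, [(1, 627860), (-1, 366228)])]),
  ([(2, 4), (5, 6)], [([false, true, true, false, false, false, true], -2, [(1, 365724), (-1, 623772), (1, 599580)])]),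
  ([(1, 6)], [([false, false, false, true, true, false, true], -1, [(1, 333468), (-1, 595548)])]),
  ([(4, 5), (3, 6)], [([false, true, true, false, false, false, false], -1, [(1, 599692), (2, 627860), (1, 75420), (1, 591516)]),
    ([false, false, true, false, false, false, false], 1, [(1, 631900)])]),
  ([(3, 4), (2, 6)], [([false, false, false, false, true, true, true], 2, [(1, 108180), (1, 107676), (1, 624276)])]),
  ([(2, 3), (4, 6)], [([false, false, true, false, true, false, true], 3, [(1, 566932), (-1, 632340), (2, 366228)])]),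
  ([(5, 6), (2, 6)], [([false, true, true, false, false, false, false], 18, [(9, 631900), (3, 369820), (-2, 627868)])]),
  ([(1, 2), (4, 5)], [([false, false, true, false, true, false, false], -2, [(1, 631956), (-1, 369820)])]),
  ([(2, 4), (2, 4)], [([false, false, false, false, false, true, true], 2, [(1, 108180), (-1, 366228), (-1, 632340)])]),
  ([(2, 6), (2, 6)], [([false, false, false, true, true, false, false], 2, [(1, 628308), (-1, 624276), (1, 370260)])]),
  ([(3, 4), (2, 4)], [([false, true, true, false, false, false, false], -18, [(3, 595612), (9, 599644), (-2, 337564)])]),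
  ([(5, 6), (4, 6)], [([false, true, false, false, true, false, false], -2, [(2, 369820), (-1, 628372), (-4, 599644), (-1, 370324)])]),
  ([(1, 2), (4, 6), (3, 6)], [([false, false, true, false, false, true, false], 2, [(1, 562844)])]),
  ([(4, 6), (4, 6)], [([false, true, true, false, false, false, false], -2, [(1, 369756), (-1, 631836), (1, 623772)])]),
  ([(1, 2), (2, 3)], [([false, false, false, false, false, false, true], 1, [(1, 370324)])]),
  ([(2, 4), (3, 5)], [([false, false, true, false, true, false, false], 2, [(1, 632404), (-1, 370324)])]),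
  ([(5, 6), (1, 6)], [([false, false, false, false, true, false, false], -1, [(1, 595612)])]),
  ([(3, 6), (2, 6)], [([false, true, true, false, false, false, false], 2, [(1, 599700), (-1, 595612)])]),
  ([(2, 4), (4, 5)], [([false, true, true, false, false, false, false], 2, [(1, 631956), (-1, 369820)])]),
  ([(1, 3), (2, 6)], [([false, false, true, false, false, false, true], -2, [(1, 337564), (-1, 595612)])]),
  ([(2, 4), (1, 5)], [([false, false, true, false, true, false, false], -2, [(1, 369820), (-1, 627868)])]),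
  ([(3, 4), (4, 6)], [([false, false, false, false, false, true, true], -18, [(3, 628372), (-2, 632404), (9, 370324)])]),
  ([(2, 5), (1, 6)], [([false, false, false, false, true, false, false], -1, [(1, 628372)])]),
  ([(1, 2), (2, 6)], [([false, false, false, false, false, true, true], 18, [(3, 631900), (9, 369820), (-2, 627868)])]),
  ([(4, 6), (1, 6)], [([false, false, false, true, true, false, false], -2, [(1, 599196), (-1, 599644)])]),
  ([(2, 3), (2, 6)], [([false, false, false, false, false, true, true], -2, [(1, 632404), (-1, 628372)])]),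
  ([(2, 4), (2, 5)], [([false, false, false, true, true, false, false], 2, [(1, 631956), (-1, 370324)])]),
  ([(1, 2), (2, 4)], [([false, false, false, true, true, false, false], -18, [(9, 595612), (-2, 337564), (3, 599644)])]),
  ([], [([false, true, true, true, true, false, false], -5, [(1, 369804), (-2, 333460), (1, 337436), (2, 591452), (-1, 599684), (1, 595540), (-1, 75356), (-3, 595484), (-1, 624268), (-1, 628244), (-2, 624212), (1, 628356), (-1, 108172), (-1, 361628), (-2, 104084), (-1, 362132), (-1, 108116), (-1, 103580), (-1, 333404), (-1, 329372), (1, 598172), (-1, 632332), (1, 71324)]),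
    ([false, false, false, true, true, true, true], -5, [(1, 598620), (3, 591452), (2, 595484), (-1, 333460), (3, 329372), (5, 624212), (4, 623708), (4, 558748), (-2, 630932), (-2, 628244), (-1, 104084), (2, 599684), (-1, 369748), (-4, 337436), (-1, 107612), (-4, 108172), (2, 631940), (-2, 71324), (2, 632332), (2, 272028), (-2, 627740), (-1, 103580), (-3, 362132), (-1, 595036), (1, 534108), (-1, 108116)]),
    ([false, true, true, false, false, true, true], -5, [(1, 598620), (-3, 337436), (-1, 370308), (-4, 627740), (-3, 107612), (-3, 631324), (-2, 369748), (1, 108172), (-1, 361628), (-1, 595484), (1, 631940), (1, 365716), (-1, 566812), (-1, 628244), (2, 623708), (3, 108116), (-2, 533660), (1, 71324), (-1, 370196), (-1, 534164), (1, 272028), (1, 558748), (1, 623260), (1, 591452), (1, 362132), (1, 365660), (1, 333404), (2, 103580)]),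
    ([false, true, true, false, true, true, false], -5, [(1, 369804), (-2, 333460), (-5, 623708), (-7, 624212), (-1, 362132), (-1, 599684), (1, 337436), (1, 595540), (-1, 75356), (-5, 365716), (-1, 329372), (4, 103580), (-1, 628244), (-3, 595484), (1, 71324), (-3, 591452), (-1, 108116), (1, 598172), (-1, 632332), (3, 104084), (1, 628356), (-1, 333404), (-1, 108172), (-1, 361628), (-1, 624268)]),
    ([false, true, true, true, false, false, true], -30, [(6, 369804), (13, 534164), (-9, 329372), (13, 42652), (16, 108172), (18, 104084), (-1, 595484), (2, 623708), (7, 103580), (11, 623260), (1, 591452), (8, 631324), (-8, 599684), (-2, 362132), (23, 337436), (23, 369692), (11, 361628), (13, 71324), (22, 75356), (21, 107612), (15, 627740), (18, 333460), (21, 370196), (24, 108116), (24, 624268), (9, 630932), (9, 628244), (6, 628356), (-6, 369748), (6, 365660)]),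
    ([false, false, true, true, true, true, false], -5, [(1, 369804), (-2, 333460), (-1, 333404), (-6, 108116), (-1, 362132), (2, 591452), (-1, 599684), (-1, 103580), (-1, 75356), (-2, 104084), (-5, 366164), (-4, 595540), (4, 628244), (-5, 107612), (-3, 595484), (-4, 337436), (-5, 369692), (-1, 624268), (1, 628356), (-1, 108172), (-1, 361628), (-2, 624212), (1, 598172), (-1, 329372), (-1, 632332), (1, 71324)]),
    ([false, true, false, false, true, true, true], -5, [(1, 598620), (3, 591452), (-1, 333460), (5, 361628), (5, 624212), (8, 329372), (4, 623708), (4, 558748), (2, 362132), (-7, 627740), (-2, 630932), (-2, 628244), (4, 595036), (-1, 104084), (2, 599684), (-1, 369748), (-4, 337436), (-1, 107612), (-4, 108172), (2, 631940), (-2, 71324), (2, 632332), (2, 272028), (-1, 103580), (-3, 595484), (1, 534108), (-1, 108116)]),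
    ([false, true, false, true, true, false, true], -5, [(1, 598620), (3, 591452), (-1, 369748), (2, 595484), (4, 108116), (3, 329372), (-1, 103580), (4, 107612), (2, 631940), (5, 624212), (2, 632332), (4, 623708), (2, 272028), (-4, 108172), (4, 558748), (-1, 595036), (-2, 627740), (5, 369692), (-2, 630932), (1, 534108), (-2, 628244), (-1, 104084), (-7, 71324), (5, 333404), (1, 337436), (2, 599684), (-3, 362132), (4, 333460)]),
    ([false, false, true, true, false, true, true], -5, [(1, 598620), (-5, 329372), (-4, 362132), (-1, 370308), (-5, 104084), (-4, 627740), (-4, 333404), (-2, 108116), (-3, 631324), (3, 369748), (-6, 370196), (-4, 365660), (1, 108172), (-3, 103580), (-1, 361628), (-1, 595484), (-8, 337436), (1, 631940), (-5, 369692), (-8, 107612), (1, 365716), (-1, 566812), (-1, 628244), (2, 623708), (-2, 533660), (1, 71324), (-1, 534164), (1, 272028), (1, 558748), (1, 623260), (1, 591452)])]),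
  ([(1, 3)], [([false, false, true, false, true, false, false], -4, [(1, 595548), (-1, 591516), (-1, 599580)]),
    ([false, false, true, false, false, false, true], 8, [(1, 595548), (13, 599580), (-11, 591516), (2, 75420), (-6, 337500), (2, 333468)])]),
  ([(3, 4)], [([false, true, false, false, true, false, true], 1, [(2, 337500), (5, 591516), (3, 631836), (2, 595548), (-1, 75420), (-1, 599580)])]),
  ([(3, 5)], [([false, false, false, false, true, false, true], -4, [(1, 366228), (-1, 108180), (-1, 624276)]),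
    ([false, false, true, false, true, false, false], -1, [(1, 628308), (1, 595548), (1, 599580), (-1, 624276), (1, 108180), (1, 591516)])]),
  ([(1, 5)], [([false, false, true, false, false, false, true], 4, [(1, 369756), (-1, 107676), (-1, 631836)]),
    ([false, false, true, false, true, false, false], 1, [(1, 595548), (1, 599580), (-1, 631836), (1, 591516), (1, 107676), (1, 627804)])]),
  ([(5, 6)], [([false, true, false, false, true, false, true], -1, [(2, 627804), (5, 107676), (3, 599580), (2, 369756), (-1, 631836), (-1, 623772)])])]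


def tabEEE1 : Tab := [
  ([(2, 3), (1, 4), (4, 5)], [([false, false, false, false, false, false, true], -1, [(1, 631444)])]),
  ([(2, 5), (3, 6), (1, 6)], [([false, false, false, false, true, false, false], -1, [(1, 566932)])]),
  ([(1, 4), (4, 5), (2, 6)], [([false, false, true, false, false, false, true], -1, [(1, 566428)])]),
  ([(2, 3), (2, 5), (1, 6)], [([false, false, false, false, true, false, false], 1, [(1, 566932)])]),
  ([(2, 4), (3, 6), (1, 6)], [([false, false, true, false, true, false, false], 2, [(1, 75420)])]),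
  ([(2, 3), (1, 4), (2, 5)], [([false, false, false, false, false, false, true], 1, [(1, 631948)])]),
  ([], [([false, false, true, false, true, false, true], 4, [(2, 562843), (5, 599579), (2, 104091), (-5, 628251), (-4, 107675), (-3, 329372), (-1, 108116), (3, 103580), (-4, 370196), (-1, 107612), (-1, 534164), (1, 624212), (1, 591452), (-2, 362132), (2, 104084), (-3, 566875), (-3, 369755), (-3, 631835), (3, 595547), (-1, 627859), (1, 627740), (1, 595484), (1, 369748), (1, 366164), (-1, 365716), (1, 333404), (1, 333460)])])]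


def tabEEE : Tab := tabEEE0 ++ tabEEE1

def xEEE : List (List (ℕ × ℕ)) := [[(2, 3), (2, 4), (1, 4)], [(1, 4), (4, 5)], [(2, 3), (2, 5)], [(4, 5), (4, 6), (3, 6)], [(3, 6), (1, 6)], [(2, 5), (2, 6), (1, 6)]]

theorem chk0EEE : chk0 7 cEEE sEEE = true := by decide +kernel
def stEEE_0 : List (List (ℕ × ℕ) × List (ℕ × ℕ)) :=
  [([(5, 6), (1, 2), (3, 4), (1, 5), (3, 5), (1, 3)], []), ([(0, 6), (0, 3), (0, 4), (0, 5), (0, 2), (0, 1)], [(0, 4)])]
theorem zEEE_0 : chkTabS 7 cEEE sEEE tEEE stEEE_0 (bnPk (bnFlt tabEEE) [0, 1, 2, 3, 4, 5]) = true := by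
  decide +kernel
theorem oEEE_0 : TabOK 7 cEEE sEEE tEEE eEEE (bnPk (bnFlt tabEEE) [0, 1, 2, 3, 4, 5]) :=
  tabOK_s chk0EEE zEEE_0
    [(5, 6), (1, 2), (3, 4), (1, 5), (3, 5), (1, 3), (0, 6), (0, 3), (0, 4), (0, 5), (0, 2), (0, 1)] rfl (by decide)
theorem zEEE_1 : chkTabS 7 cEEE sEEE tEEE stEEE_0 (bnPk (bnFlt tabEEE) [6, 7, 8, 9, 10, 11]) = true := by
  decide +kernel
theorem oEEE_1 : TabOK 7 cEEE sEEE tEEE eEEE (bnPk (bnFlt tabEEE) [6, 7, 8, 9, 10, 11]) :=
  tabOK_s chk0EEE zEEE_1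
    [(5, 6), (1, 2), (3, 4), (1, 5), (3, 5), (1, 3), (0, 6), (0, 3), (0, 4), (0, 5), (0, 2), (0, 1)] rfl (by decide)
theorem zEEE_2 : chkTabS 7 cEEE sEEE tEEE stEEE_0 (bnPk (bnFlt tabEEE) [12, 13, 14, 15, 16, 17]) = true := by
  decide +kernel
theorem oEEE_2 : TabOK 7 cEEE sEEE tEEE eEEE (bnPk (bnFlt tabEEE) [12, 13, 14, 15, 16, 17]) :=
  tabOK_s chk0EEE zEEE_2
    [(5, 6), (1, 2), (3, 4), (1, 5), (3, 5), (1, 3), (0, 6), (0, 3), (0, 4), (0, 5), (0, 2), (0, 1)] rfl (by decide)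
theorem zEEE_3 : chkTabS 7 cEEE sEEE tEEE stEEE_0 (bnPk (bnFlt tabEEE) [18, 19, 20, 21]) = true := by
  decide +kernel
theorem oEEE_3 : TabOK 7 cEEE sEEE tEEE eEEE (bnPk (bnFlt tabEEE) [18, 19, 20, 21]) :=
  tabOK_s chk0EEE zEEE_3
    [(5, 6), (1, 2), (3, 4), (1, 5), (3, 5), (1, 3), (0, 6), (0, 3), (0, 4), (0, 5), (0, 2), (0, 1)] rfl (by decide)
theorem zEEE_4 : chkTabS 7 cEEE sEEE tEEE stEEE_0 (bnPk (bnFlt tabEEE) [22, 23, 24, 25, 26]) = true := by
  decide +kernel
theorem oEEE_4 : TabOK 7 cEEE sEEE tEEE eEEE (bnPk (bnFlt tabEEE) [22, 23, 24, 25, 26]) :=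
  tabOK_s chk0EEE zEEE_4
    [(5, 6), (1, 2), (3, 4), (1, 5), (3, 5), (1, 3), (0, 6), (0, 3), (0, 4), (0, 5), (0, 2), (0, 1)] rfl (by decide)
theorem zEEE_5 : chkTabS 7 cEEE sEEE tEEE stEEE_0 (bnPk (bnFlt tabEEE) [27, 28, 29]) = true := by
  decide +kernel
theorem oEEE_5 : TabOK 7 cEEE sEEE tEEE eEEE (bnPk (bnFlt tabEEE) [27, 28, 29]) :=
  tabOK_s chk0EEE zEEE_5
    [(5, 6), (1, 2), (3, 4), (1, 5), (3, 5), (1, 3), (0, 6), (0, 3), (0, 4), (0, 5), (0, 2), (0, 1)] rfl (by decide)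
theorem zEEE_6 : chkTabS 7 cEEE sEEE tEEE stEEE_0 (bnPk (bnFlt tabEEE) [30, 31, 32, 33, 34, 35]) = true := by
  decide +kernel
theorem oEEE_6 : TabOK 7 cEEE sEEE tEEE eEEE (bnPk (bnFlt tabEEE) [30, 31, 32, 33, 34, 35]) :=
  tabOK_s chk0EEE zEEE_6
    [(5, 6), (1, 2), (3, 4), (1, 5), (3, 5), (1, 3), (0, 6), (0, 3), (0, 4), (0, 5), (0, 2), (0, 1)] rfl (by decide)
theorem zEEE_7 : chkTabS 7 cEEE sEEE tEEE stEEE_0 (bnPk (bnFlt tabEEE) [36]) = true := by
  decide +kernel
theorem oEEE_7 : TabOK 7 cEEE sEEE tEEE eEEE (bnPk (bnFlt tabEEE) [36]) :=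
  tabOK_s chk0EEE zEEE_7
    [(5, 6), (1, 2), (3, 4), (1, 5), (3, 5), (1, 3), (0, 6), (0, 3), (0, 4), (0, 5), (0, 2), (0, 1)] rfl (by decide)
theorem zEEE_8 : chkTabS 7 cEEE sEEE tEEE stEEE_0 (bnPk (bnFlt tabEEE) [37]) = true := by
  decide +kernel
theorem oEEE_8 : TabOK 7 cEEE sEEE tEEE eEEE (bnPk (bnFlt tabEEE) [37]) :=
  tabOK_s chk0EEE zEEE_8
    [(5, 6), (1, 2), (3, 4), (1, 5), (3, 5), (1, 3), (0, 6), (0, 3), (0, 4), (0, 5), (0, 2), (0, 1)] rfl (by decide)
theorem zEEE_9 : chkTabS 7 cEEE sEEE tEEE stEEE_0 (bnPk (bnFlt tabEEE) [38]) = true := by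
  decide +kernel
theorem oEEE_9 : TabOK 7 cEEE sEEE tEEE eEEE (bnPk (bnFlt tabEEE) [38]) :=
  tabOK_s chk0EEE zEEE_9
    [(5, 6), (1, 2), (3, 4), (1, 5), (3, 5), (1, 3), (0, 6), (0, 3), (0, 4), (0, 5), (0, 2), (0, 1)] rfl (by decide)
theorem zEEE_10 : chkTabS 7 cEEE sEEE tEEE stEEE_0 (bnPk (bnFlt tabEEE) [39]) = true := by
  decide +kernel
theorem oEEE_10 : TabOK 7 cEEE sEEE tEEE eEEE (bnPk (bnFlt tabEEE) [39]) :=
  tabOK_s chk0EEE zEEE_10
    [(5, 6), (1, 2), (3, 4), (1, 5), (3, 5), (1, 3), (0, 6), (0, 3), (0, 4), (0, 5), (0, 2), (0, 1)] rfl (by decide)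
theorem zEEE_11 : chkTabS 7 cEEE sEEE tEEE stEEE_0 (bnPk (bnFlt tabEEE) [40]) = true := by
  decide +kernel
theorem oEEE_11 : TabOK 7 cEEE sEEE tEEE eEEE (bnPk (bnFlt tabEEE) [40]) :=
  tabOK_s chk0EEE zEEE_11
    [(5, 6), (1, 2), (3, 4), (1, 5), (3, 5), (1, 3), (0, 6), (0, 3), (0, 4), (0, 5), (0, 2), (0, 1)] rfl (by decide)
theorem zEEE_12 : chkTabS 7 cEEE sEEE tEEE stEEE_0 (bnPk (bnFlt tabEEE) [41]) = true := by
  decide +kernel
theorem oEEE_12 : TabOK 7 cEEE sEEE tEEE eEEE (bnPk (bnFlt tabEEE) [41]) :=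
  tabOK_s chk0EEE zEEE_12
    [(5, 6), (1, 2), (3, 4), (1, 5), (3, 5), (1, 3), (0, 6), (0, 3), (0, 4), (0, 5), (0, 2), (0, 1)] rfl (by decide)
theorem zEEE_13 : chkTabS 7 cEEE sEEE tEEE stEEE_0 (bnPk (bnFlt tabEEE) [42]) = true := by
  decide +kernel
theorem oEEE_13 : TabOK 7 cEEE sEEE tEEE eEEE (bnPk (bnFlt tabEEE) [42]) :=
  tabOK_s chk0EEE zEEE_13
    [(5, 6), (1, 2), (3, 4), (1, 5), (3, 5), (1, 3), (0, 6), (0, 3), (0, 4), (0, 5), (0, 2), (0, 1)] rfl (by decide)
theorem zEEE_14 : chkTabS 7 cEEE sEEE tEEE stEEE_0 (bnPk (bnFlt tabEEE) [43]) = true := by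
  decide +kernel
theorem oEEE_14 : TabOK 7 cEEE sEEE tEEE eEEE (bnPk (bnFlt tabEEE) [43]) :=
  tabOK_s chk0EEE zEEE_14
    [(5, 6), (1, 2), (3, 4), (1, 5), (3, 5), (1, 3), (0, 6), (0, 3), (0, 4), (0, 5), (0, 2), (0, 1)] rfl (by decide)
theorem zEEE_15 : chkTabS 7 cEEE sEEE tEEE stEEE_0 (bnPk (bnFlt tabEEE) [44]) = true := by
  decide +kernel
theorem oEEE_15 : TabOK 7 cEEE sEEE tEEE eEEE (bnPk (bnFlt tabEEE) [44]) :=
  tabOK_s chk0EEE zEEE_15
    [(5, 6), (1, 2), (3, 4), (1, 5), (3, 5), (1, 3), (0, 6), (0, 3), (0, 4), (0, 5), (0, 2), (0, 1)] rfl (by decide)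
theorem zEEE_16 : chkTabS 7 cEEE sEEE tEEE stEEE_0 (bnPk (bnFlt tabEEE) [45]) = true := by
  decide +kernel
theorem oEEE_16 : TabOK 7 cEEE sEEE tEEE eEEE (bnPk (bnFlt tabEEE) [45]) :=
  tabOK_s chk0EEE zEEE_16
    [(5, 6), (1, 2), (3, 4), (1, 5), (3, 5), (1, 3), (0, 6), (0, 3), (0, 4), (0, 5), (0, 2), (0, 1)] rfl (by decide)
theorem zEEE_17 : chkTabS 7 cEEE sEEE tEEE stEEE_0 (bnPk (bnFlt tabEEE) [46]) = true := by
  decide +kernel
theorem oEEE_17 : TabOK 7 cEEE sEEE tEEE eEEE (bnPk (bnFlt tabEEE) [46]) :=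
  tabOK_s chk0EEE zEEE_17
    [(5, 6), (1, 2), (3, 4), (1, 5), (3, 5), (1, 3), (0, 6), (0, 3), (0, 4), (0, 5), (0, 2), (0, 1)] rfl (by decide)
theorem zEEE_18 : chkTabS 7 cEEE sEEE tEEE stEEE_0 (bnPk (bnFlt tabEEE) [47]) = true := by
  decide +kernel
theorem oEEE_18 : TabOK 7 cEEE sEEE tEEE eEEE (bnPk (bnFlt tabEEE) [47]) :=
  tabOK_s chk0EEE zEEE_18
    [(5, 6), (1, 2), (3, 4), (1, 5), (3, 5), (1, 3), (0, 6), (0, 3), (0, 4), (0, 5), (0, 2), (0, 1)] rfl (by decide)
theorem zEEE_19 : chkTabS 7 cEEE sEEE tEEE stEEE_0 (bnPk (bnFlt tabEEE) [48]) = true := by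
  decide +kernel
theorem oEEE_19 : TabOK 7 cEEE sEEE tEEE eEEE (bnPk (bnFlt tabEEE) [48]) :=
  tabOK_s chk0EEE zEEE_19
    [(5, 6), (1, 2), (3, 4), (1, 5), (3, 5), (1, 3), (0, 6), (0, 3), (0, 4), (0, 5), (0, 2), (0, 1)] rfl (by decide)
theorem zEEE_20 : chkTabS 7 cEEE sEEE tEEE stEEE_0 (bnPk (bnFlt tabEEE) [49]) = true := by
  decide +kernel
theorem oEEE_20 : TabOK 7 cEEE sEEE tEEE eEEE (bnPk (bnFlt tabEEE) [49]) :=
  tabOK_s chk0EEE zEEE_20
    [(5, 6), (1, 2), (3, 4), (1, 5), (3, 5), (1, 3), (0, 6), (0, 3), (0, 4), (0, 5), (0, 2), (0, 1)] rfl (by decide)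
theorem zEEE_21 : chkTabS 7 cEEE sEEE tEEE stEEE_0 (bnPk (bnFlt tabEEE) [50]) = true := by
  decide +kernel
theorem oEEE_21 : TabOK 7 cEEE sEEE tEEE eEEE (bnPk (bnFlt tabEEE) [50]) :=
  tabOK_s chk0EEE zEEE_21
    [(5, 6), (1, 2), (3, 4), (1, 5), (3, 5), (1, 3), (0, 6), (0, 3), (0, 4), (0, 5), (0, 2), (0, 1)] rfl (by decide)
theorem zEEE_22 : chkTabS 7 cEEE sEEE tEEE stEEE_0 (bnPk (bnFlt tabEEE) [51]) = true := by
  decide +kernel
theorem oEEE_22 : TabOK 7 cEEE sEEE tEEE eEEE (bnPk (bnFlt tabEEE) [51]) :=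
  tabOK_s chk0EEE zEEE_22
    [(5, 6), (1, 2), (3, 4), (1, 5), (3, 5), (1, 3), (0, 6), (0, 3), (0, 4), (0, 5), (0, 2), (0, 1)] rfl (by decide)
theorem zEEE_23 : chkTabS 7 cEEE sEEE tEEE stEEE_0 (bnPk (bnFlt tabEEE) [52]) = true := by
  decide +kernel
theorem oEEE_23 : TabOK 7 cEEE sEEE tEEE eEEE (bnPk (bnFlt tabEEE) [52]) :=
  tabOK_s chk0EEE zEEE_23
    [(5, 6), (1, 2), (3, 4), (1, 5), (3, 5), (1, 3), (0, 6), (0, 3), (0, 4), (0, 5), (0, 2), (0, 1)] rfl (by decide)
theorem zEEE_24 : chkTabS 7 cEEE sEEE tEEE stEEE_0 (bnPk (bnFlt tabEEE) [53]) = true := by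
  decide +kernel
theorem oEEE_24 : TabOK 7 cEEE sEEE tEEE eEEE (bnPk (bnFlt tabEEE) [53]) :=
  tabOK_s chk0EEE zEEE_24
    [(5, 6), (1, 2), (3, 4), (1, 5), (3, 5), (1, 3), (0, 6), (0, 3), (0, 4), (0, 5), (0, 2), (0, 1)] rfl (by decide)
theorem zEEE_25 : chkTabS 7 cEEE sEEE tEEE stEEE_0 (bnPk (bnFlt tabEEE) [54]) = true := by
  decide +kernel
theorem oEEE_25 : TabOK 7 cEEE sEEE tEEE eEEE (bnPk (bnFlt tabEEE) [54]) :=
  tabOK_s chk0EEE zEEE_25
    [(5, 6), (1, 2), (3, 4), (1, 5), (3, 5), (1, 3), (0, 6), (0, 3), (0, 4), (0, 5), (0, 2), (0, 1)] rfl (by decide)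
theorem zEEE_26 : chkTabS 7 cEEE sEEE tEEE stEEE_0 (bnPk (bnFlt tabEEE) [55]) = true := by
  decide +kernel
theorem oEEE_26 : TabOK 7 cEEE sEEE tEEE eEEE (bnPk (bnFlt tabEEE) [55]) :=
  tabOK_s chk0EEE zEEE_26
    [(5, 6), (1, 2), (3, 4), (1, 5), (3, 5), (1, 3), (0, 6), (0, 3), (0, 4), (0, 5), (0, 2), (0, 1)] rfl (by decide)
theorem zEEE_27 : chkTabS 7 cEEE sEEE tEEE stEEE_0 (bnPk (bnFlt tabEEE) [56, 57, 58]) = true := by
  decide +kernel
theorem oEEE_27 : TabOK 7 cEEE sEEE tEEE eEEE (bnPk (bnFlt tabEEE) [56, 57, 58]) :=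
  tabOK_s chk0EEE zEEE_27
    [(5, 6), (1, 2), (3, 4), (1, 5), (3, 5), (1, 3), (0, 6), (0, 3), (0, 4), (0, 5), (0, 2), (0, 1)] rfl (by decide)
def stEEE_1 : List (List (ℕ × ℕ) × List (ℕ × ℕ)) :=
  [([(0, 2), (1, 2), (0, 4), (0, 6), (5, 6), (3, 4), (1, 5), (3, 5), (0, 5), (0, 3), (1, 3), (0, 1)], [])]
theorem zEEE_28 : chkTabS 7 cEEE sEEE tEEE stEEE_1 (bnPk (bnFlt tabEEE) [59]) = true := by
  decide +kernel
theorem oEEE_28 : TabOK 7 cEEE sEEE tEEE eEEE (bnPk (bnFlt tabEEE) [59]) :=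
  tabOK_s chk0EEE zEEE_28
    [(0, 2), (1, 2), (0, 4), (0, 6), (5, 6), (3, 4), (1, 5), (3, 5), (0, 5), (0, 3), (1, 3), (0, 1)] rfl (by decide)
theorem okEEE : TabOK 7 cEEE sEEE tEEE eEEE tabEEE :=
  bn_tabOK_flt (by decide +kernel) (bn_tabOK_pk ([0, 1, 2, 3, 4, 5] ++ ([6, 7, 8, 9, 10, 11] ++ ([12, 13, 14, 15, 16, 17] ++ ([18, 19, 20, 21] ++ ([22, 23, 24, 25, 26] ++ ([27, 28, 29] ++ ([30, 31, 32, 33, 34, 35] ++ ([36] ++ ([37] ++ ([38] ++ ([39] ++ ([40] ++ ([41] ++ ([42] ++ ([43] ++ ([44] ++ ([45] ++ ([46] ++ ([47] ++ ([48] ++ ([49] ++ ([50] ++ ([51] ++ ([52] ++ ([53] ++ ([54] ++ ([55] ++ ([56, 57, 58] ++ ([59]))))))))))))))))))))))))))))) (by decide +kernel)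
    (bn_tabOK_pka oEEE_0 (bn_tabOK_pka oEEE_1 (bn_tabOK_pka oEEE_2 (bn_tabOK_pka oEEE_3 (bn_tabOK_pka oEEE_4 (bn_tabOK_pka oEEE_5 (bn_tabOK_pka oEEE_6 (bn_tabOK_pka oEEE_7 (bn_tabOK_pka oEEE_8 (bn_tabOK_pka oEEE_9 (bn_tabOK_pka oEEE_10 (bn_tabOK_pka oEEE_11 (bn_tabOK_pka oEEE_12 (bn_tabOK_pka oEEE_13 (bn_tabOK_pka oEEE_14 (bn_tabOK_pka oEEE_15 (bn_tabOK_pka oEEE_16 (bn_tabOK_pka oEEE_17 (bn_tabOK_pka oEEE_18 (bn_tabOK_pka oEEE_19 (bn_tabOK_pka oEEE_20 (bn_tabOK_pka oEEE_21 (bn_tabOK_pka oEEE_22 (bn_tabOK_pka oEEE_23 (bn_tabOK_pka oEEE_24 (bn_tabOK_pka oEEE_25 (bn_tabOK_pka oEEE_26 (bn_tabOK_pka oEEE_27 (oEEE_28))))))))))))))))))))))))))))))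
theorem vEEE_0 : (((bnFr2 7 sEEE 5 5).take 1).all (bnEnS 7 cEEE tabEEE xEEE)) = true := by
  decide +kernel
theorem vEEE_1 : (((bnFr2 7 sEEE 5 5).drop 1).all (bnEnS 7 cEEE tabEEE xEEE)) = true := by
  decide +kernel
theorem yEEE_1 : ((((bnFrs 7 sEEE 5).drop 1).take 3).all (bnEnS 7 cEEE tabEEE xEEE)) = true := by
  decide +kernel
theorem yEEE_2 : (((((bnFrs 7 sEEE 5).drop 1).drop 3).take 5).all (bnEnS 7 cEEE tabEEE xEEE)) = true := by
  decide +kernel
theorem yEEE_3 : (((((bnFrs 7 sEEE 5).drop 1).drop 3).drop 5).all (bnEnS 7 cEEE tabEEE xEEE)) = true := by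
  decide +kernel
theorem chkEEEE : chkEn 7 cEEE gEEE sEEE tabEEE xEEE false = true :=
  bn_chkEn_frs 5 (bn_all_td 1 (bn_all_fr2 (bn_all_td 1 vEEE_0 (vEEE_1))) (bn_all_td 3 yEEE_1 (bn_all_td 5 yEEE_2 (yEEE_3))))

end Helper85.Bn
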