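import Pool.Agent.helper85.L9.BnSpl

set_option maxRecDepth 100000

namespace Helper85.Bn

/-- J1x : x a a' b b' c c' o -/
def cJ1x : List ℕ := [4, 3, 2, 3, 2, 3, 2, 2]
def sJ1x : List ℕ := [0, 1, 0, 0, 0, 0, 0, 1]
def tJ1x : List Bool := []
def gJ1x : List (ℕ × ℕ) := [(2, 7), (2, 7), (3, 6), (4, 5), (4, 6), (0, 1), (0, 3), (0, 5), (1, 3), (1, 5), (3, 5), (0, 2), (1, 2), (0, 4), (3, 4), (0, 6), (5, 6)]
def eJ1x : List (Fin 8 × Fin 8) := [(2, 7), (2, 7), (3, 6), (4, 5), (4, 6), (0, 1), (0, 3), (0, 5), (1, 3), (1, 5), (3, 5), (0, 2), (1, 2), (0, 4), (3, 4), (0, 6), (5, 6)]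
def tabJ1x : Tab := [
  ([(1, 7)], [([false, false, false, false, false, false, false, false], 1, [(1, 4301980)])]),
  ([], [([false, true, false, false, false, false, false, true], -2, [(1, 2204828)])])]

theorem chk0J1x : chk0 8 cJ1x sJ1x = true := by decide +kernel
def stJ1x_0 : List (List (ℕ × ℕ) × List (ℕ × ℕ)) :=
  [([(1, 2), (2, 7), (2, 7)], [(2, 2)]), ([(0, 1), (0, 2)], [(0, 4)]), ([(1, 5)], [(5, 3)]), ([(1, 3), (0, 5), (0, 3), (3, 5)], [(3, 2)]), ([(4, 5), (3, 4), (0, 4)], [(4, 2)]), ([(4, 6), (3, 6), (5, 6), (0, 6)], [(6, 0)])]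
theorem zJ1x_0 : chkTabS 8 cJ1x sJ1x tJ1x stJ1x_0 (bnPk (bnFlt tabJ1x) [0, 1]) = true := by
  decide +kernel
theorem oJ1x_0 : TabOK 8 cJ1x sJ1x tJ1x eJ1x (bnPk (bnFlt tabJ1x) [0, 1]) :=
  tabOK_s chk0J1x zJ1x_0
    [(1, 2), (2, 7), (2, 7), (0, 1), (0, 2), (1, 5), (1, 3), (0, 5), (0, 3), (3, 5), (4, 5), (3, 4), (0, 4), (4, 6), (3, 6), (5, 6), (0, 6)] rfl (by decide)
theorem okJ1x : TabOK 8 cJ1x sJ1x tJ1x eJ1x tabJ1x :=
  bn_tabOK_flt (by decide +kernel) (bn_tabOK_pk ([0, 1]) (by decide +kernel)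
    (oJ1x_0))
theorem chkEJ1x : chkEn 8 cJ1x gJ1x sJ1x tabJ1x [] false = true := by decide +kernel

/-- J1y : x a a' b b' c c' o -/
def cJ1y : List ℕ := [4, 3, 2, 3, 2, 3, 2, 2]
def sJ1y : List ℕ := [0, 0, 1, 0, 0, 0, 0, 1]
def tJ1y : List Bool := []
def gJ1y : List (ℕ × ℕ) := [(1, 7), (2, 7), (3, 6), (4, 5), (4, 6), (0, 1), (0, 3), (0, 5), (1, 3), (1, 5), (3, 5), (0, 2), (1, 2), (0, 4), (3, 4), (0, 6), (5, 6)]
def eJ1y : List (Fin 8 × Fin 8) := [(1, 7), (2, 7), (3, 6), (4, 5), (4, 6), (0, 1), (0, 3), (0, 5), (1, 3), (1, 5), (3, 5), (0, 2), (1, 2), (0, 4), (3, 4), (0, 6), (5, 6)]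
def tabJ1y : Tab := [
  ([], [([false, false, false, false, false, false, false, true], 1, [(1, 4301980)])])]

theorem chk0J1y : chk0 8 cJ1y sJ1y = true := by decide +kernel
def stJ1y_0 : List (List (ℕ × ℕ) × List (ℕ × ℕ)) :=
  [([(2, 7)], []), ([(1, 2), (1, 7)], [(1, 3)]), ([(0, 1), (0, 2)], [(0, 4)]), ([(1, 5)], [(5, 3)]), ([(1, 3), (0, 3), (0, 5), (3, 5)], [(3, 2)]), ([(0, 4), (3, 4), (4, 5)], [(4, 2)]), ([(3, 6), (4, 6), (5, 6), (0, 6)], [(6, 0)])]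
theorem zJ1y_0 : chkTabS 8 cJ1y sJ1y tJ1y stJ1y_0 (bnPk (bnFlt tabJ1y) [0]) = true := by
  decide +kernel
theorem oJ1y_0 : TabOK 8 cJ1y sJ1y tJ1y eJ1y (bnPk (bnFlt tabJ1y) [0]) :=
  tabOK_s chk0J1y zJ1y_0
    [(2, 7), (1, 2), (1, 7), (0, 1), (0, 2), (1, 5), (1, 3), (0, 3), (0, 5), (3, 5), (0, 4), (3, 4), (4, 5), (3, 6), (4, 6), (5, 6), (0, 6)] rfl (by decide)
theorem okJ1y : TabOK 8 cJ1y sJ1y tJ1y eJ1y tabJ1y :=
  bn_tabOK_flt (by decide +kernel) (bn_tabOK_pk ([0]) (by decide +kernel)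
    (oJ1y_0))
theorem chkEJ1y : chkEn 8 cJ1y gJ1y sJ1y tabJ1y [] false = true := by decide +kernel

/-- J1z : x a a' b b' c c' o0 o1 o2 -/
def cJ1z : List ℕ := [4, 3, 2, 3, 2, 3, 2, 2, 2, 2]
def sJ1z : List ℕ := [0, 0, 0, 0, 0, 0, 0, 2, 2, 2]
def tJ1z : List Bool := []
def gJ1z : List (ℕ × ℕ) := [(2, 7), (2, 8), (1, 9), (3, 6), (4, 5), (4, 6), (0, 1), (0, 3), (0, 5), (1, 3), (1, 5), (3, 5), (0, 2), (1, 2), (0, 4), (3, 4), (0, 6), (5, 6)]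
def eJ1z : List (Fin 10 × Fin 10) := [(2, 7), (2, 8), (1, 9), (3, 6), (4, 5), (4, 6), (0, 1), (0, 3), (0, 5), (1, 3), (1, 5), (3, 5), (0, 2), (1, 2), (0, 4), (3, 4), (0, 6), (5, 6)]
def tabJ1z : Tab := [
  ([(7, 9)], [([false, false, false, false, false, false, false, false, true, false], 2, [(1, 289998492), (-1, 306807900)])]),
  ([], [([false, false, false, false, false, false, false, true, false, true], -1, [(1, 170493084), (1, 172009116), (1, 304448668)]),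
    ([false, false, false, false, false, false, false, false, true, true], -1, [(1, 155264668), (1, 172009116), (1, 289482388)]),
    ([false, false, false, false, false, false, false, true, true, false], -1, [(1, 287937180), (1, 289482388), (1, 304448668)])]),
  ([(8, 9)], [([false, false, false, false, false, false, false, true, false, false], 2, [(1, 304678556), (-1, 306807900)])])]

theorem chk0J1z : chk0 10 cJ1z sJ1z = true := by decide +kernel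
def stJ1z_0 : List (List (ℕ × ℕ) × List (ℕ × ℕ)) :=
  [([(2, 7), (2, 8)], []), ([(1, 9), (1, 2), (1, 5), (1, 3)], [(1, 3)]), ([(0, 1), (0, 2), (0, 3), (3, 5), (0, 5)], [(0, 4)]), ([(0, 6), (3, 6), (5, 6)], [(6, 2)]), ([(4, 5), (4, 6), (0, 4), (3, 4)], [(4, 0)])]
theorem zJ1z_0 : chkTabS 10 cJ1z sJ1z tJ1z stJ1z_0 (bnPk (bnFlt tabJ1z) [0, 4]) = true := by
  decide +kernel
theorem oJ1z_0 : TabOK 10 cJ1z sJ1z tJ1z eJ1z (bnPk (bnFlt tabJ1z) [0, 4]) :=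
  tabOK_s chk0J1z zJ1z_0
    [(2, 7), (2, 8), (1, 9), (1, 2), (1, 5), (1, 3), (0, 1), (0, 2), (0, 3), (3, 5), (0, 5), (0, 6), (3, 6), (5, 6), (4, 5), (4, 6), (0, 4), (3, 4)] rfl (by decide)
def stJ1z_1 : List (List (ℕ × ℕ) × List (ℕ × ℕ)) :=
  [([(2, 7), (2, 8)], [(2, 2)]), ([(1, 2), (1, 9), (1, 3), (1, 5)], [(1, 3)]), ([(0, 2), (0, 1), (0, 6), (0, 4), (0, 3), (0, 5), (3, 5), (4, 5), (5, 6), (3, 4), (4, 6), (3, 6)], [(0, 4)])]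
theorem zJ1z_1 : chkTabS 10 cJ1z sJ1z tJ1z stJ1z_1 (bnPk (bnFlt tabJ1z) [1]) = true := by
  decide +kernel
theorem oJ1z_1 : TabOK 10 cJ1z sJ1z tJ1z eJ1z (bnPk (bnFlt tabJ1z) [1]) :=
  tabOK_s chk0J1z zJ1z_1
    [(2, 7), (2, 8), (1, 2), (1, 9), (1, 3), (1, 5), (0, 2), (0, 1), (0, 6), (0, 4), (0, 3), (0, 5), (3, 5), (4, 5), (5, 6), (3, 4), (4, 6), (3, 6)] rfl (by decide)
def stJ1z_2 : List (List (ℕ × ℕ) × List (ℕ × ℕ)) :=
  [([(1, 9), (1, 5)], []), ([(2, 8), (1, 2), (2, 7)], [(2, 2)]), ([(0, 2), (0, 1)], [(0, 4)]), ([(1, 3), (0, 3), (3, 5), (0, 5)], [(3, 3)]), ([(4, 5), (3, 4), (0, 4)], [(4, 2)]), ([(4, 6), (3, 6), (5, 6), (0, 6)], [(6, 0)])]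
theorem zJ1z_2 : chkTabS 10 cJ1z sJ1z tJ1z stJ1z_2 (bnPk (bnFlt tabJ1z) [2]) = true := by
  decide +kernel
theorem oJ1z_2 : TabOK 10 cJ1z sJ1z tJ1z eJ1z (bnPk (bnFlt tabJ1z) [2]) :=
  tabOK_s chk0J1z zJ1z_2
    [(1, 9), (1, 5), (2, 8), (1, 2), (2, 7), (0, 2), (0, 1), (1, 3), (0, 3), (3, 5), (0, 5), (4, 5), (3, 4), (0, 4), (4, 6), (3, 6), (5, 6), (0, 6)] rfl (by decide)
def stJ1z_3 : List (List (ℕ × ℕ) × List (ℕ × ℕ)) :=
  [([(1, 9)], []), ([(2, 8), (2, 7), (1, 2), (1, 5), (1, 3)], [(2, 2)]), ([(0, 2), (0, 1), (0, 4), (0, 6), (0, 3), (0, 5), (3, 5), (3, 6), (3, 4), (5, 6), (4, 6), (4, 5)], [(0, 4)])]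
theorem zJ1z_3 : chkTabS 10 cJ1z sJ1z tJ1z stJ1z_3 (bnPk (bnFlt tabJ1z) [3]) = true := by
  decide +kernel
theorem oJ1z_3 : TabOK 10 cJ1z sJ1z tJ1z eJ1z (bnPk (bnFlt tabJ1z) [3]) :=
  tabOK_s chk0J1z zJ1z_3
    [(1, 9), (2, 8), (2, 7), (1, 2), (1, 5), (1, 3), (0, 2), (0, 1), (0, 4), (0, 6), (0, 3), (0, 5), (3, 5), (3, 6), (3, 4), (5, 6), (4, 6), (4, 5)] rfl (by decide)
theorem okJ1z : TabOK 10 cJ1z sJ1z tJ1z eJ1z tabJ1z :=
  bn_tabOK_flt (by decide +kernel) (bn_tabOK_pk ([0, 4] ++ ([1] ++ ([2] ++ ([3])))) (by decide +kernel)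
    (bn_tabOK_pka oJ1z_0 (bn_tabOK_pka oJ1z_1 (bn_tabOK_pka oJ1z_2 (oJ1z_3)))))
theorem chkEJ1z : chkEn 10 cJ1z gJ1z sJ1z tabJ1z [] false = true := by decide +kernel

/-- J2a : x a a' b b' c c' o -/
def cJ2a : List ℕ := [4, 3, 2, 3, 2, 3, 2, 2]
def sJ2a : List ℕ := [0, 0, 0, 1, 0, 0, 2, 1]
def tJ2a : List Bool := []
def gJ2a : List (ℕ × ℕ) := [(2, 7), (2, 7), (1, 4), (4, 5), (0, 1), (0, 3), (0, 5), (1, 3), (1, 5), (3, 5), (0, 2), (1, 2), (0, 4), (3, 4), (0, 6), (5, 6)]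
def eJ2a : List (Fin 8 × Fin 8) := [(2, 7), (2, 7), (1, 4), (4, 5), (0, 1), (0, 3), (0, 5), (1, 3), (1, 5), (3, 5), (0, 2), (1, 2), (0, 4), (3, 4), (0, 6), (5, 6)]
def tabJ2a : Tab := [
  ([], [([false, false, false, false, false, false, true, false], -2, [(1, 4825748)]),
    ([false, false, false, false, false, false, true, true], -2, [(1, 2728596)])])]

theorem chk0J2a : chk0 8 cJ2a sJ2a = true := by decide +kernel
def stJ2a_0 : List (List (ℕ × ℕ) × List (ℕ × ℕ)) :=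
  [([(2, 7), (2, 7)], [(2, 2)]), ([(0, 6), (0, 2)], [(0, 4)]), ([(5, 6), (0, 3), (3, 5), (0, 5)], [(5, 3)]), ([(1, 2), (1, 5), (1, 3), (0, 1)], [(1, 2)]), ([(3, 4), (0, 4), (1, 4), (4, 5)], [(4, 2)])]
theorem zJ2a_0 : chkTabS 8 cJ2a sJ2a tJ2a stJ2a_0 (bnPk (bnFlt tabJ2a) [0, 1]) = true := by
  decide +kernel
theorem oJ2a_0 : TabOK 8 cJ2a sJ2a tJ2a eJ2a (bnPk (bnFlt tabJ2a) [0, 1]) :=
  tabOK_s chk0J2a zJ2a_0
    [(2, 7), (2, 7), (0, 6), (0, 2), (5, 6), (0, 3), (3, 5), (0, 5), (1, 2), (1, 5), (1, 3), (0, 1), (3, 4), (0, 4), (1, 4), (4, 5)] rfl (by decide)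
theorem okJ2a : TabOK 8 cJ2a sJ2a tJ2a eJ2a tabJ2a :=
  bn_tabOK_flt (by decide +kernel) (bn_tabOK_pk ([0, 1]) (by decide +kernel)
    (oJ2a_0))
theorem chkEJ2a : chkEn 8 cJ2a gJ2a sJ2a tabJ2a [] false = true := by decide +kernel

/-- J2c : x a a' b b' c c' o -/
def cJ2c : List ℕ := [4, 3, 2, 3, 2, 3, 2, 2]
def sJ2c : List ℕ := [0, 0, 2, 1, 0, 0, 0, 1]
def tJ2c : List Bool := []
def gJ2c : List (ℕ × ℕ) := [(6, 7), (6, 7), (1, 4), (4, 5), (0, 1), (0, 3), (0, 5), (1, 3), (1, 5), (3, 5), (0, 2), (1, 2), (0, 4), (3, 4), (0, 6), (5, 6)]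
def eJ2c : List (Fin 8 × Fin 8) := [(6, 7), (6, 7), (1, 4), (4, 5), (0, 1), (0, 3), (0, 5), (1, 3), (1, 5), (3, 5), (0, 2), (1, 2), (0, 4), (3, 4), (0, 6), (5, 6)]
def tabJ2c : Tab := [
  ([], [([false, false, true, false, false, false, false, false], -2, [(1, 4760732)]),
    ([false, false, true, true, false, false, false, false], 2, [(1, 4756636)])])]

theorem chk0J2c : chk0 8 cJ2c sJ2c = true := by decide +kernel
def stJ2c_0 : List (List (ℕ × ℕ) × List (ℕ × ℕ)) :=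
  [([(6, 7), (6, 7)], [(6, 2)]), ([(5, 6)], [(5, 1)]), ([(0, 2), (0, 6), (0, 3), (0, 5), (3, 5)], [(0, 4)]), ([(1, 2), (1, 3), (0, 1), (1, 5)], [(1, 3)]), ([(3, 4), (0, 4), (1, 4), (4, 5)], [(4, 2)])]
theorem zJ2c_0 : chkTabS 8 cJ2c sJ2c tJ2c stJ2c_0 (bnPk (bnFlt tabJ2c) [0]) = true := by
  decide +kernel
theorem oJ2c_0 : TabOK 8 cJ2c sJ2c tJ2c eJ2c (bnPk (bnFlt tabJ2c) [0]) :=
  tabOK_s chk0J2c zJ2c_0
    [(6, 7), (6, 7), (5, 6), (0, 2), (0, 6), (0, 3), (0, 5), (3, 5), (1, 2), (1, 3), (0, 1), (1, 5), (3, 4), (0, 4), (1, 4), (4, 5)] rfl (by decide)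
def stJ2c_1 : List (List (ℕ × ℕ) × List (ℕ × ℕ)) :=
  [([(6, 7), (6, 7)], [(6, 2)]), ([(0, 6)], [(0, 4)]), ([(1, 2), (0, 2), (0, 3), (0, 1), (1, 3)], [(1, 3)]), ([(5, 6), (1, 5), (0, 5), (3, 5)], [(5, 1)]), ([(3, 4), (1, 4), (4, 5), (0, 4)], [(4, 1)])]
theorem zJ2c_1 : chkTabS 8 cJ2c sJ2c tJ2c stJ2c_1 (bnPk (bnFlt tabJ2c) [1]) = true := by
  decide +kernel
theorem oJ2c_1 : TabOK 8 cJ2c sJ2c tJ2c eJ2c (bnPk (bnFlt tabJ2c) [1]) :=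
  tabOK_s chk0J2c zJ2c_1
    [(6, 7), (6, 7), (0, 6), (1, 2), (0, 2), (0, 3), (0, 1), (1, 3), (5, 6), (1, 5), (0, 5), (3, 5), (3, 4), (1, 4), (4, 5), (0, 4)] rfl (by decide)
theorem okJ2c : TabOK 8 cJ2c sJ2c tJ2c eJ2c tabJ2c :=
  bn_tabOK_flt (by decide +kernel) (bn_tabOK_pk ([0] ++ ([1])) (by decide +kernel)
    (bn_tabOK_pka oJ2c_0 (oJ2c_1)))
theorem chkEJ2c : chkEn 8 cJ2c gJ2c sJ2c tabJ2c [] false = true := by decide +kernel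

/-- J2m : x a a' b b' c c' o -/
def cJ2m : List ℕ := [4, 3, 2, 3, 2, 3, 2, 2]
def sJ2m : List ℕ := [0, 0, 1, 1, 0, 0, 1, 1]
def tJ2m : List Bool := []
def gJ2m : List (ℕ × ℕ) := [(2, 7), (6, 7), (1, 4), (4, 5), (0, 1), (0, 3), (0, 5), (1, 3), (1, 5), (3, 5), (0, 2), (1, 2), (0, 4), (3, 4), (0, 6), (5, 6)]
def eJ2m : List (Fin 8 × Fin 8) := [(2, 7), (6, 7), (1, 4), (4, 5), (0, 1), (0, 3), (0, 5), (1, 3), (1, 5), (3, 5), (0, 2), (1, 2), (0, 4), (3, 4), (0, 6), (5, 6)]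
def tabJ2m : Tab := [
  ([], [([false, false, true, false, false, false, true, true], -1, [(1, 2728596)]),
    ([false, false, true, true, false, false, false, true], -1, [(1, 2664084), (1, 4825236)])]),
  ([(2, 6)], [([false, false, false, false, false, false, false, true], 1, [(1, 4757148)])]),
  ([(6, 7)], [([false, false, true, false, false, false, false, false], 1, [(1, 4825748)])]),
  ([(2, 7)], [([false, false, false, true, false, false, false, false], 2, [(1, 4761236)])])]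

theorem chk0J2m : chk0 8 cJ2m sJ2m = true := by decide +kernel
def stJ2m_0 : List (List (ℕ × ℕ) × List (ℕ × ℕ)) :=
  [([(2, 7), (6, 7)], []), ([(0, 6), (0, 2), (0, 3)], [(0, 4)]), ([(5, 6), (3, 5), (0, 5)], [(5, 3)]), ([(1, 2), (1, 5), (1, 3), (0, 1)], [(1, 2)]), ([(3, 4), (0, 4), (4, 5), (1, 4)], [(4, 2)])]
theorem zJ2m_0 : chkTabS 8 cJ2m sJ2m tJ2m stJ2m_0 (bnPk (bnFlt tabJ2m) [0, 3]) = true := by
  decide +kernel
theorem oJ2m_0 : TabOK 8 cJ2m sJ2m tJ2m eJ2m (bnPk (bnFlt tabJ2m) [0, 3]) :=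
  tabOK_s chk0J2m zJ2m_0
    [(2, 7), (6, 7), (0, 6), (0, 2), (0, 3), (5, 6), (3, 5), (0, 5), (1, 2), (1, 5), (1, 3), (0, 1), (3, 4), (0, 4), (4, 5), (1, 4)] rfl (by decide)
def stJ2m_1 : List (List (ℕ × ℕ) × List (ℕ × ℕ)) :=
  [([(2, 7), (6, 7), (5, 6)], []), ([(0, 6), (0, 2), (0, 3), (0, 5), (3, 5)], [(0, 4)]), ([(1, 2), (0, 1), (1, 3), (1, 5)], [(1, 2)]), ([(4, 5), (3, 4), (0, 4), (1, 4)], [(4, 2)])]
theorem zJ2m_1 : chkTabS 8 cJ2m sJ2m tJ2m stJ2m_1 (bnPk (bnFlt tabJ2m) [1]) = true := by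
  decide +kernel
theorem oJ2m_1 : TabOK 8 cJ2m sJ2m tJ2m eJ2m (bnPk (bnFlt tabJ2m) [1]) :=
  tabOK_s chk0J2m zJ2m_1
    [(2, 7), (6, 7), (5, 6), (0, 6), (0, 2), (0, 3), (0, 5), (3, 5), (1, 2), (0, 1), (1, 3), (1, 5), (4, 5), (3, 4), (0, 4), (1, 4)] rfl (by decide)
def stJ2m_2 : List (List (ℕ × ℕ) × List (ℕ × ℕ)) :=
  [([(6, 7), (2, 7)], []), ([(0, 6), (0, 2), (0, 3)], [(0, 4)]), ([(1, 2), (1, 3), (0, 1)], [(1, 3)]), ([(5, 6), (3, 5), (1, 5), (0, 5)], [(5, 1)]), ([(3, 4), (0, 4), (4, 5), (1, 4)], [(4, 1)])]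
theorem zJ2m_2 : chkTabS 8 cJ2m sJ2m tJ2m stJ2m_2 (bnPk (bnFlt tabJ2m) [2]) = true := by
  decide +kernel
theorem oJ2m_2 : TabOK 8 cJ2m sJ2m tJ2m eJ2m (bnPk (bnFlt tabJ2m) [2]) :=
  tabOK_s chk0J2m zJ2m_2
    [(6, 7), (2, 7), (0, 6), (0, 2), (0, 3), (1, 2), (1, 3), (0, 1), (5, 6), (3, 5), (1, 5), (0, 5), (3, 4), (0, 4), (4, 5), (1, 4)] rfl (by decide)
def stJ2m_3 : List (List (ℕ × ℕ) × List (ℕ × ℕ)) :=
  [([(6, 7), (2, 7)], []), ([(0, 6), (0, 2), (0, 3)], [(0, 4)]), ([(5, 6), (3, 5), (0, 5)], [(5, 1)]), ([(1, 2), (1, 5), (1, 3), (0, 1)], [(1, 2)]), ([(3, 4), (0, 4), (4, 5), (1, 4)], [(4, 2)])]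
theorem zJ2m_3 : chkTabS 8 cJ2m sJ2m tJ2m stJ2m_3 (bnPk (bnFlt tabJ2m) [4]) = true := by
  decide +kernel
theorem oJ2m_3 : TabOK 8 cJ2m sJ2m tJ2m eJ2m (bnPk (bnFlt tabJ2m) [4]) :=
  tabOK_s chk0J2m zJ2m_3
    [(6, 7), (2, 7), (0, 6), (0, 2), (0, 3), (5, 6), (3, 5), (0, 5), (1, 2), (1, 5), (1, 3), (0, 1), (3, 4), (0, 4), (4, 5), (1, 4)] rfl (by decide)
theorem okJ2m : TabOK 8 cJ2m sJ2m tJ2m eJ2m tabJ2m :=
  bn_tabOK_flt (by decide +kernel) (bn_tabOK_pk ([0, 3] ++ ([1] ++ ([2] ++ ([4])))) (by decide +kernel)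
    (bn_tabOK_pka oJ2m_0 (bn_tabOK_pka oJ2m_1 (bn_tabOK_pka oJ2m_2 (oJ2m_3)))))
theorem chkEJ2m : chkEn 8 cJ2m gJ2m sJ2m tabJ2m [] false = true := by decide +kernel

/-- J2t : x a a' b b' c c' o0 o1 -/
def cJ2t : List ℕ := [4, 3, 2, 3, 2, 3, 2, 2, 2]
def sJ2t : List ℕ := [0, 0, 1, 1, 0, 0, 1, 1, 1]
def tJ2t : List Bool := []
def gJ2t : List (ℕ × ℕ) := [(2, 7), (6, 8), (7, 8), (1, 4), (4, 5), (0, 1), (0, 3), (0, 5), (1, 3), (1, 5), (3, 5), (0, 2), (1, 2), (0, 4), (3, 4), (0, 6), (5, 6)]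
def eJ2t : List (Fin 9 × Fin 9) := [(2, 7), (6, 8), (7, 8), (1, 4), (4, 5), (0, 1), (0, 3), (0, 5), (1, 3), (1, 5), (3, 5), (0, 2), (1, 2), (0, 4), (3, 4), (0, 6), (5, 6)]
def tabJ2t : Tab := [
  ([], [([false, false, true, false, false, false, false, true, true], 1, [(1, 21537948), (1, 38113948)]),
    ([false, false, true, false, false, false, true, false, true], 1, [(1, 21537948), (1, 36218012)])]),
  ([(2, 8)], [([false, false, false, true, false, false, false, true, false], 1, [(1, 21538452)]),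
    ([false, false, false, false, false, false, true, true, false], 1, [(1, 36275356)])]),
  ([(2, 7), (6, 8)], [([false, false, false, true, false, false, false, false, false], 4, [(1, 21538452)])]),
  ([(2, 6), (7, 8)], [([false, false, false, true, false, false, false, false, false], 3, [(1, 21538452)])])]

theorem chk0J2t : chk0 9 cJ2t sJ2t = true := by decide +kernel
def stJ2t_0 : List (List (ℕ × ℕ) × List (ℕ × ℕ)) :=
  [([(7, 8), (6, 8), (5, 6), (2, 7)], []), ([(0, 6), (0, 2), (0, 4), (0, 5), (0, 3), (3, 5), (4, 5), (3, 4)], [(0, 4)]), ([(1, 3), (1, 4), (1, 5), (1, 2), (0, 1)], [(1, 3)])]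
theorem zJ2t_0 : chkTabS 9 cJ2t sJ2t tJ2t stJ2t_0 (bnPk (bnFlt tabJ2t) [0]) = true := by
  decide +kernel
theorem oJ2t_0 : TabOK 9 cJ2t sJ2t tJ2t eJ2t (bnPk (bnFlt tabJ2t) [0]) :=
  tabOK_s chk0J2t zJ2t_0
    [(7, 8), (6, 8), (5, 6), (2, 7), (0, 6), (0, 2), (0, 4), (0, 5), (0, 3), (3, 5), (4, 5), (3, 4), (1, 3), (1, 4), (1, 5), (1, 2), (0, 1)] rfl (by decide)
def stJ2t_1 : List (List (ℕ × ℕ) × List (ℕ × ℕ)) :=
  [([(7, 8), (6, 8), (2, 7)], []), ([(0, 6), (0, 2), (0, 3)], [(0, 4)]), ([(5, 6), (3, 5), (0, 5)], [(5, 1)]), ([(1, 2), (1, 5), (1, 3), (0, 1)], [(1, 3)]), ([(3, 4), (0, 4), (4, 5), (1, 4)], [(4, 2)])]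
theorem zJ2t_1 : chkTabS 9 cJ2t sJ2t tJ2t stJ2t_1 (bnPk (bnFlt tabJ2t) [1]) = true := by
  decide +kernel
theorem oJ2t_1 : TabOK 9 cJ2t sJ2t tJ2t eJ2t (bnPk (bnFlt tabJ2t) [1]) :=
  tabOK_s chk0J2t zJ2t_1
    [(7, 8), (6, 8), (2, 7), (0, 6), (0, 2), (0, 3), (5, 6), (3, 5), (0, 5), (1, 2), (1, 5), (1, 3), (0, 1), (3, 4), (0, 4), (4, 5), (1, 4)] rfl (by decide)
def stJ2t_2 : List (List (ℕ × ℕ) × List (ℕ × ℕ)) :=
  [([(7, 8), (6, 8), (2, 7)], []), ([(0, 6), (0, 2), (0, 3)], [(0, 4)]), ([(5, 6), (3, 5), (0, 5)], [(5, 1)]), ([(1, 2), (1, 5), (1, 3), (0, 1)], [(1, 2)]), ([(3, 4), (0, 4), (4, 5), (1, 4)], [(4, 2)])]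
theorem zJ2t_2 : chkTabS 9 cJ2t sJ2t tJ2t stJ2t_2 (bnPk (bnFlt tabJ2t) [2, 4, 5]) = true := by
  decide +kernel
theorem oJ2t_2 : TabOK 9 cJ2t sJ2t tJ2t eJ2t (bnPk (bnFlt tabJ2t) [2, 4, 5]) :=
  tabOK_s chk0J2t zJ2t_2
    [(7, 8), (6, 8), (2, 7), (0, 6), (0, 2), (0, 3), (5, 6), (3, 5), (0, 5), (1, 2), (1, 5), (1, 3), (0, 1), (3, 4), (0, 4), (4, 5), (1, 4)] rfl (by decide)
def stJ2t_3 : List (List (ℕ × ℕ) × List (ℕ × ℕ)) :=
  [([(7, 8), (6, 8), (2, 7)], []), ([(0, 6), (0, 2), (0, 3)], [(0, 4)]), ([(5, 6), (3, 5), (0, 5)], [(5, 3)]), ([(1, 2), (1, 5), (1, 3), (0, 1)], [(1, 3)]), ([(3, 4), (0, 4), (4, 5), (1, 4)], [(4, 0)])]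
theorem zJ2t_3 : chkTabS 9 cJ2t sJ2t tJ2t stJ2t_3 (bnPk (bnFlt tabJ2t) [3]) = true := by
  decide +kernel
theorem oJ2t_3 : TabOK 9 cJ2t sJ2t tJ2t eJ2t (bnPk (bnFlt tabJ2t) [3]) :=
  tabOK_s chk0J2t zJ2t_3
    [(7, 8), (6, 8), (2, 7), (0, 6), (0, 2), (0, 3), (5, 6), (3, 5), (0, 5), (1, 2), (1, 5), (1, 3), (0, 1), (3, 4), (0, 4), (4, 5), (1, 4)] rfl (by decide)
theorem okJ2t : TabOK 9 cJ2t sJ2t tJ2t eJ2t tabJ2t :=
  bn_tabOK_flt (by decide +kernel) (bn_tabOK_pk ([0] ++ ([1] ++ ([2, 4, 5] ++ ([3])))) (by decide +kernel)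
    (bn_tabOK_pka oJ2t_0 (bn_tabOK_pka oJ2t_1 (bn_tabOK_pka oJ2t_2 (oJ2t_3)))))
theorem chkEJ2t : chkEn 9 cJ2t gJ2t sJ2t tabJ2t [] false = true := by decide +kernel

/-- J2z : x a a' b b' c c' o0 o1 o2 o3 -/
def cJ2z : List ℕ := [4, 3, 2, 3, 2, 3, 2, 2, 2, 2, 2]
def sJ2z : List ℕ := [0, 0, 0, 1, 0, 0, 0, 2, 2, 2, 2]
def tJ2z : List Bool := []
def gJ2z : List (ℕ × ℕ) := [(2, 7), (2, 8), (6, 9), (6, 10), (1, 4), (4, 5), (0, 1), (0, 3), (0, 5), (1, 3), (1, 5), (3, 5), (0, 2), (1, 2), (0, 4), (3, 4), (0, 6), (5, 6)]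
def eJ2z : List (Fin 11 × Fin 11) := [(2, 7), (2, 8), (6, 9), (6, 10), (1, 4), (4, 5), (0, 1), (0, 3), (0, 5), (1, 3), (1, 5), (3, 5), (0, 2), (1, 2), (0, 4), (3, 4), (0, 6), (5, 6)]
def tabJ2z : Tab := [
  ([], [([false, false, false, true, false, false, false, true, false, true, false], -1, [(1, 2317952652), (-1, 2320016980), (1, 2452166284), (-1, 2453968532)]),
    ([false, false, false, true, false, false, false, false, true, true, false], -1, [(1, 2303272588), (1, 2437228172), (-1, 2320016980), (-1, 2453968532)]),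
    ([false, false, false, true, false, false, false, false, true, false, true], 1, [(1, 1363715732), (-1, 2437228172), (1, 2453968532), (-1, 1380488348)]),
    ([false, false, false, true, false, false, false, true, false, false, true], -1, [(1, 1378428556), (1, 1380488348), (1, 2452166284), (-1, 2453968532)]),
    ([false, false, false, false, false, false, false, true, true, true, false], 1, [(1, 2301174428), (-1, 2435158684)]),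
    ([false, false, false, false, false, false, false, true, true, false, true], 1, [(1, 1361650332), (-1, 2435158684)]),
    ([false, false, false, false, false, false, false, true, false, true, true], -1, [(1, 1244242580), (-1, 1246241948)]),
    ([false, false, false, false, false, false, false, false, true, true, true], 1, [(1, 1229563020), (1, 1246241948)])]),
  ([(8, 9)], [([false, false, false, true, false, false, false, true, false, false, false], 1, [(1, 2452137620), (1, 2454234708)]),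
    ([false, false, false, true, false, false, false, false, false, false, true], -1, [(1, 1380492948), (1, 2454295692)])]),
  ([(8, 10)], [([false, false, false, true, false, false, false, true, false, false, false], 1, [(1, 2452137620), (1, 2454234708)]),
    ([false, false, false, true, false, false, false, false, false, true, false], -1, [(1, 2320017044), (1, 2454295692)]),
    ([false, false, false, true, false, false, false, false, false, true, true], 1, [(1, 2303272588), (-1, 2185799316), (1, 2437424788)])]),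
  ([(7, 10)], [([false, false, false, true, false, false, false, false, false, true, false], -1, [(1, 2320017044), (1, 2454295692)]),
    ([false, false, false, true, false, false, false, false, true, false, false], 1, [(1, 2437457556), (1, 2454234708)])]),
  ([(7, 9)], [([false, false, false, true, false, false, false, false, false, false, true], -1, [(1, 1380492948), (1, 2454295692)]),
    ([false, false, false, true, false, false, false, false, true, false, false], 1, [(1, 2437457556), (1, 2454234708)])]),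
  ([(3, 9)], [([false, false, false, false, false, false, false, false, true, true, false], -1, [(1, 2437518988), (-2, 2437522068), (-1, 2454292052), (-2, 2454299220)])]),
  ([(3, 10)], [([false, false, false, false, false, false, false, true, false, false, true], -1, [(1, 2452199052), (1, 2454234708), (-1, 2454299220), (-2, 2452202132)])]),
  ([(3, 7)], [([false, false, false, false, false, false, false, true, false, false, true], -1, [(1, 1380492948), (-1, 1380492444), (-1, 2454291604), (-2, 2454299220)])]),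
  ([(3, 8)], [([false, false, false, false, false, false, false, false, true, false, true], 1, [(1, 1380488860), (1, 2454299276), (2, 2454299220), (2, 1380492444)])]),
  ([(7, 9), (7, 9)], [([false, false, false, false, false, false, false, false, true, false, false], 2, [(1, 2437457052)])]),
  ([(9, 10), (9, 10)], [([false, false, false, false, false, false, false, true, false, false, false], -2, [(1, 2452198044), (2, 1380553372)])]),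
  ([(7, 8), (7, 8)], [([false, false, false, false, false, false, false, false, false, true, false], 2, [(1, 2320041628), (-1, 2453968540)])]),
  ([(8, 9), (8, 9)], [([false, false, false, false, false, false, false, false, false, false, true], 2, [(1, 1380557460)])]),
  ([(7, 10), (7, 10)], [([false, false, false, true, false, false, false, false, false, false, false], -2, [(1, 2454234772)])]),
  ([(8, 10), (8, 10)], [([false, false, false, false, false, false, false, true, false, false, false], 2, [(1, 2452137116)])])]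

theorem chk0J2z : chk0 11 cJ2z sJ2z = true := by decide +kernel
def stJ2z_0 : List (List (ℕ × ℕ) × List (ℕ × ℕ)) :=
  [([(2, 8), (2, 7), (1, 2), (6, 10), (6, 9), (5, 6)], []), ([(0, 6), (0, 2), (0, 4), (0, 5), (0, 1), (0, 3), (1, 3), (3, 5), (3, 4), (1, 5), (4, 5), (1, 4)], [(0, 4)])]
theorem zJ2z_0 : chkTabS 11 cJ2z sJ2z tJ2z stJ2z_0 (bnPk (bnFlt tabJ2z) [0, 1]) = true := by
  decide +kernel
theorem oJ2z_0 : TabOK 11 cJ2z sJ2z tJ2z eJ2z (bnPk (bnFlt tabJ2z) [0, 1]) :=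
  tabOK_s chk0J2z zJ2z_0
    [(2, 8), (2, 7), (1, 2), (6, 10), (6, 9), (5, 6), (0, 6), (0, 2), (0, 4), (0, 5), (0, 1), (0, 3), (1, 3), (3, 5), (3, 4), (1, 5), (4, 5), (1, 4)] rfl (by decide)
def stJ2z_1 : List (List (ℕ × ℕ) × List (ℕ × ℕ)) :=
  [([(6, 10), (6, 9), (5, 6)], []), ([(2, 8), (2, 7), (1, 2)], [(2, 2)]), ([(0, 2), (0, 6), (0, 4), (0, 3), (0, 1), (0, 5), (1, 3), (3, 5), (3, 4), (4, 5), (1, 4), (1, 5)], [(0, 4)])]
theorem zJ2z_1 : chkTabS 11 cJ2z sJ2z tJ2z stJ2z_1 (bnPk (bnFlt tabJ2z) [2, 3]) = true := by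
  decide +kernel
theorem oJ2z_1 : TabOK 11 cJ2z sJ2z tJ2z eJ2z (bnPk (bnFlt tabJ2z) [2, 3]) :=
  tabOK_s chk0J2z zJ2z_1
    [(6, 10), (6, 9), (5, 6), (2, 8), (2, 7), (1, 2), (0, 2), (0, 6), (0, 4), (0, 3), (0, 1), (0, 5), (1, 3), (3, 5), (3, 4), (4, 5), (1, 4), (1, 5)] rfl (by decide)
def stJ2z_2 : List (List (ℕ × ℕ) × List (ℕ × ℕ)) :=
  [([(6, 9), (6, 10), (5, 6)], []), ([(2, 8), (2, 7)], [(2, 2)]), ([(0, 2), (0, 6), (0, 4), (0, 5), (0, 3), (3, 5), (3, 4), (4, 5)], [(0, 4)]), ([(1, 3), (1, 2), (0, 1), (1, 4), (1, 5)], [(1, 3)])]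
theorem zJ2z_2 : chkTabS 11 cJ2z sJ2z tJ2z stJ2z_2 (bnPk (bnFlt tabJ2z) [4, 5, 23]) = true := by
  decide +kernel
theorem oJ2z_2 : TabOK 11 cJ2z sJ2z tJ2z eJ2z (bnPk (bnFlt tabJ2z) [4, 5, 23]) :=
  tabOK_s chk0J2z zJ2z_2
    [(6, 9), (6, 10), (5, 6), (2, 8), (2, 7), (0, 2), (0, 6), (0, 4), (0, 5), (0, 3), (3, 5), (3, 4), (4, 5), (1, 3), (1, 2), (0, 1), (1, 4), (1, 5)] rfl (by decide)
def stJ2z_3 : List (List (ℕ × ℕ) × List (ℕ × ℕ)) :=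
  [([(2, 7), (2, 8), (1, 2)], [(2, 2)]), ([(6, 10), (6, 9), (5, 6)], [(6, 2)]), ([(0, 6), (0, 2), (0, 1), (1, 3), (1, 5), (3, 5), (0, 5), (0, 3)], [(0, 4)]), ([(3, 4), (4, 5), (0, 4), (1, 4)], [(4, 2)])]
theorem zJ2z_3 : chkTabS 11 cJ2z sJ2z tJ2z stJ2z_3 (bnPk (bnFlt tabJ2z) [6, 7, 12]) = true := by
  decide +kernel
theorem oJ2z_3 : TabOK 11 cJ2z sJ2z tJ2z eJ2z (bnPk (bnFlt tabJ2z) [6, 7, 12]) :=
  tabOK_s chk0J2z zJ2z_3
    [(2, 7), (2, 8), (1, 2), (6, 10), (6, 9), (5, 6), (0, 6), (0, 2), (0, 1), (1, 3), (1, 5), (3, 5), (0, 5), (0, 3), (3, 4), (4, 5), (0, 4), (1, 4)] rfl (by decide)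
def stJ2z_4 : List (List (ℕ × ℕ) × List (ℕ × ℕ)) :=
  [([(2, 7), (2, 8)], []), ([(6, 9), (6, 10)], [(6, 2)]), ([(0, 2), (0, 6)], [(0, 4)]), ([(5, 6), (0, 3), (0, 5), (3, 5)], [(5, 1)]), ([(1, 2), (1, 5), (0, 1), (1, 3)], [(1, 2)]), ([(3, 4), (1, 4), (0, 4), (4, 5)], [(4, 2)])]
theorem zJ2z_4 : chkTabS 11 cJ2z sJ2z tJ2z stJ2z_4 (bnPk (bnFlt tabJ2z) [8, 10, 14, 16]) = true := by
  decide +kernel
theorem oJ2z_4 : TabOK 11 cJ2z sJ2z tJ2z eJ2z (bnPk (bnFlt tabJ2z) [8, 10, 14, 16]) :=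
  tabOK_s chk0J2z zJ2z_4
    [(2, 7), (2, 8), (6, 9), (6, 10), (0, 2), (0, 6), (5, 6), (0, 3), (0, 5), (3, 5), (1, 2), (1, 5), (0, 1), (1, 3), (3, 4), (1, 4), (0, 4), (4, 5)] rfl (by decide)
def stJ2z_5 : List (List (ℕ × ℕ) × List (ℕ × ℕ)) :=
  [([(6, 10), (6, 9), (5, 6)], [(6, 2)]), ([(2, 7), (2, 8), (1, 2)], [(2, 2)]), ([(0, 6), (0, 2), (0, 4), (0, 1), (0, 5), (0, 3), (3, 5), (1, 3), (3, 4), (1, 4), (1, 5), (4, 5)], [(0, 4)])]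
theorem zJ2z_5 : chkTabS 11 cJ2z sJ2z tJ2z stJ2z_5 (bnPk (bnFlt tabJ2z) [9, 11, 13, 15]) = true := by
  decide +kernel
theorem oJ2z_5 : TabOK 11 cJ2z sJ2z tJ2z eJ2z (bnPk (bnFlt tabJ2z) [9, 11, 13, 15]) :=
  tabOK_s chk0J2z zJ2z_5
    [(6, 10), (6, 9), (5, 6), (2, 7), (2, 8), (1, 2), (0, 6), (0, 2), (0, 4), (0, 1), (0, 5), (0, 3), (3, 5), (1, 3), (3, 4), (1, 4), (1, 5), (4, 5)] rfl (by decide)
def stJ2z_6 : List (List (ℕ × ℕ) × List (ℕ × ℕ)) :=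
  [([(2, 7), (2, 8), (1, 2)], []), ([(6, 10), (6, 9)], [(6, 2)]), ([(0, 2), (0, 6), (0, 4), (0, 1), (0, 3), (1, 3), (1, 4), (3, 4)], [(0, 4)]), ([(1, 5), (5, 6), (3, 5), (0, 5), (4, 5)], [(5, 3)])]
theorem zJ2z_6 : chkTabS 11 cJ2z sJ2z tJ2z stJ2z_6 (bnPk (bnFlt tabJ2z) [17]) = true := by
  decide +kernel
theorem oJ2z_6 : TabOK 11 cJ2z sJ2z tJ2z eJ2z (bnPk (bnFlt tabJ2z) [17]) :=
  tabOK_s chk0J2z zJ2z_6
    [(2, 7), (2, 8), (1, 2), (6, 10), (6, 9), (0, 2), (0, 6), (0, 4), (0, 1), (0, 3), (1, 3), (1, 4), (3, 4), (1, 5), (5, 6), (3, 5), (0, 5), (4, 5)] rfl (by decide)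
def stJ2z_7 : List (List (ℕ × ℕ) × List (ℕ × ℕ)) :=
  [([(2, 8), (2, 7), (1, 2)], []), ([(6, 10), (6, 9), (5, 6)], [(6, 2)]), ([(0, 6), (0, 2), (0, 4), (0, 5), (0, 3), (0, 1), (3, 5), (1, 5), (4, 5), (1, 4), (1, 3), (3, 4)], [(0, 4)])]
theorem zJ2z_7 : chkTabS 11 cJ2z sJ2z tJ2z stJ2z_7 (bnPk (bnFlt tabJ2z) [18, 19, 20]) = true := by
  decide +kernel
theorem oJ2z_7 : TabOK 11 cJ2z sJ2z tJ2z eJ2z (bnPk (bnFlt tabJ2z) [18, 19, 20]) :=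
  tabOK_s chk0J2z zJ2z_7
    [(2, 8), (2, 7), (1, 2), (6, 10), (6, 9), (5, 6), (0, 6), (0, 2), (0, 4), (0, 5), (0, 3), (0, 1), (3, 5), (1, 5), (4, 5), (1, 4), (1, 3), (3, 4)] rfl (by decide)
def stJ2z_8 : List (List (ℕ × ℕ) × List (ℕ × ℕ)) :=
  [([(6, 10), (6, 9)], [(6, 2)]), ([(5, 6)], [(5, 1)]), ([(0, 6)], [(0, 4)]), ([(2, 8), (2, 7), (0, 2), (0, 5), (0, 3), (3, 5)], [(2, 2)]), ([(1, 2), (1, 5), (0, 1), (1, 3)], [(1, 3)]), ([(3, 4), (4, 5), (1, 4), (0, 4)], [(4, 2)])]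
theorem zJ2z_8 : chkTabS 11 cJ2z sJ2z tJ2z stJ2z_8 (bnPk (bnFlt tabJ2z) [21, 26]) = true := by
  decide +kernel
theorem oJ2z_8 : TabOK 11 cJ2z sJ2z tJ2z eJ2z (bnPk (bnFlt tabJ2z) [21, 26]) :=
  tabOK_s chk0J2z zJ2z_8
    [(6, 10), (6, 9), (5, 6), (0, 6), (2, 8), (2, 7), (0, 2), (0, 5), (0, 3), (3, 5), (1, 2), (1, 5), (0, 1), (1, 3), (3, 4), (4, 5), (1, 4), (0, 4)] rfl (by decide)
def stJ2z_9 : List (List (ℕ × ℕ) × List (ℕ × ℕ)) :=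
  [([(6, 9), (6, 10)], [(6, 2)]), ([(2, 8), (2, 7)], [(2, 2)]), ([(0, 2), (0, 6)], [(0, 4)]), ([(5, 6)], [(5, 3)]), ([(1, 2), (0, 3), (0, 1), (0, 5), (1, 3), (3, 5), (1, 5)], [(1, 3)]), ([(3, 4), (4, 5), (0, 4), (1, 4)], [(4, 1)])]
theorem zJ2z_9 : chkTabS 11 cJ2z sJ2z tJ2z stJ2z_9 (bnPk (bnFlt tabJ2z) [22]) = true := by
  decide +kernel
theorem oJ2z_9 : TabOK 11 cJ2z sJ2z tJ2z eJ2z (bnPk (bnFlt tabJ2z) [22]) :=
  tabOK_s chk0J2z zJ2z_9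
    [(6, 9), (6, 10), (2, 8), (2, 7), (0, 2), (0, 6), (5, 6), (1, 2), (0, 3), (0, 1), (0, 5), (1, 3), (3, 5), (1, 5), (3, 4), (4, 5), (0, 4), (1, 4)] rfl (by decide)
def stJ2z_10 : List (List (ℕ × ℕ) × List (ℕ × ℕ)) :=
  [([(2, 7), (2, 8)], [(2, 2)]), ([(0, 2)], [(0, 4)]), ([(6, 9), (6, 10), (0, 6)], [(6, 2)]), ([(5, 6), (0, 5), (0, 3), (3, 5)], [(5, 3)]), ([(1, 2), (1, 3), (0, 1), (1, 5)], [(1, 2)]), ([(4, 5), (0, 4), (1, 4), (3, 4)], [(4, 2)])]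
theorem zJ2z_10 : chkTabS 11 cJ2z sJ2z tJ2z stJ2z_10 (bnPk (bnFlt tabJ2z) [24]) = true := by
  decide +kernel
theorem oJ2z_10 : TabOK 11 cJ2z sJ2z tJ2z eJ2z (bnPk (bnFlt tabJ2z) [24]) :=
  tabOK_s chk0J2z zJ2z_10
    [(2, 7), (2, 8), (0, 2), (6, 9), (6, 10), (0, 6), (5, 6), (0, 5), (0, 3), (3, 5), (1, 2), (1, 3), (0, 1), (1, 5), (4, 5), (0, 4), (1, 4), (3, 4)] rfl (by decide)
def stJ2z_11 : List (List (ℕ × ℕ) × List (ℕ × ℕ)) :=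
  [([(6, 9), (6, 10)], [(6, 2)]), ([(2, 7), (2, 8)], [(2, 2)]), ([(0, 2), (0, 6)], [(0, 4)]), ([(5, 6), (0, 3), (3, 5), (0, 5)], [(5, 1)]), ([(1, 2), (1, 5), (1, 3), (0, 1)], [(1, 2)]), ([(4, 5), (3, 4), (1, 4), (0, 4)], [(4, 2)])]
theorem zJ2z_11 : chkTabS 11 cJ2z sJ2z tJ2z stJ2z_11 (bnPk (bnFlt tabJ2z) [25]) = true := by
  decide +kernel
theorem oJ2z_11 : TabOK 11 cJ2z sJ2z tJ2z eJ2z (bnPk (bnFlt tabJ2z) [25]) :=
  tabOK_s chk0J2z zJ2z_11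
    [(6, 9), (6, 10), (2, 7), (2, 8), (0, 2), (0, 6), (5, 6), (0, 3), (3, 5), (0, 5), (1, 2), (1, 5), (1, 3), (0, 1), (4, 5), (3, 4), (1, 4), (0, 4)] rfl (by decide)
theorem okJ2z : TabOK 11 cJ2z sJ2z tJ2z eJ2z tabJ2z :=
  bn_tabOK_flt (by decide +kernel) (bn_tabOK_pk ([0, 1] ++ ([2, 3] ++ ([4, 5, 23] ++ ([6, 7, 12] ++ ([8, 10, 14, 16] ++ ([9, 11, 13, 15] ++ ([17] ++ ([18, 19, 20] ++ ([21, 26] ++ ([22] ++ ([24] ++ ([25])))))))))))) (by decide +kernel)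
    (bn_tabOK_pka oJ2z_0 (bn_tabOK_pka oJ2z_1 (bn_tabOK_pka oJ2z_2 (bn_tabOK_pka oJ2z_3 (bn_tabOK_pka oJ2z_4 (bn_tabOK_pka oJ2z_5 (bn_tabOK_pka oJ2z_6 (bn_tabOK_pka oJ2z_7 (bn_tabOK_pka oJ2z_8 (bn_tabOK_pka oJ2z_9 (bn_tabOK_pka oJ2z_10 (oJ2z_11)))))))))))))
theorem yJ2z_0 : (((bnFrs 11 sJ2z 5).take 1).all (bnEnS 11 cJ2z tabJ2z [])) = true := by
  decide +kernel
theorem yJ2z_1 : ((((bnFrs 11 sJ2z 5).drop 1).take 5).all (bnEnS 11 cJ2z tabJ2z [])) = true := by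
  decide +kernel
theorem yJ2z_2 : (((((bnFrs 11 sJ2z 5).drop 1).drop 5).take 11).all (bnEnS 11 cJ2z tabJ2z [])) = true := by
  decide +kernel
theorem yJ2z_3 : (((((bnFrs 11 sJ2z 5).drop 1).drop 5).drop 11).all (bnEnS 11 cJ2z tabJ2z [])) = true := by
  decide +kernel
theorem chkEJ2z : chkEn 11 cJ2z gJ2z sJ2z tabJ2z [] false = true :=
  bn_chkEn_frs 5 (bn_all_td 1 yJ2z_0 (bn_all_td 5 yJ2z_1 (bn_all_td 11 yJ2z_2 (yJ2z_3))))

/-- J1 : x a a' b b' c c' -/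
def cJ1 : List ℕ := [4, 3, 2, 3, 2, 3, 2]
def sJ1 : List ℕ := [0, 1, 2, 0, 0, 0, 0]
def tJ1 : List Bool := []
def gJ1 : List (ℕ × ℕ) := [(3, 6), (4, 5), (4, 6), (0, 1), (0, 3), (0, 5), (1, 3), (1, 5), (3, 5), (0, 2), (1, 2), (0, 4), (3, 4), (0, 6), (5, 6)]
def eJ1 : List (Fin 7 × Fin 7) := [(3, 6), (4, 5), (4, 6), (0, 1), (0, 3), (0, 5), (1, 3), (1, 5), (3, 5), (0, 2), (1, 2), (0, 4), (3, 4), (0, 6), (5, 6)]
def tabJ1 : Tab := [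
  ([], [([false, true, true, false, false, false, false], -1, [(1, 42652)])])]

theorem chk0J1 : chk0 7 cJ1 sJ1 = true := by decide +kernel
def stJ1_0 : List (List (ℕ × ℕ) × List (ℕ × ℕ)) :=
  [([(1, 2)], []), ([(0, 2), (0, 1)], [(0, 4)]), ([(1, 3)], [(3, 3)]), ([(1, 5), (0, 5), (3, 5), (0, 3)], [(5, 1)]), ([(0, 4), (4, 5), (3, 4)], [(4, 2)]), ([(3, 6), (4, 6), (0, 6), (5, 6)], [(6, 0)])]
theorem zJ1_0 : chkTabS 7 cJ1 sJ1 tJ1 stJ1_0 (bnPk (bnFlt tabJ1) [0]) = true := by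
  decide +kernel
theorem oJ1_0 : TabOK 7 cJ1 sJ1 tJ1 eJ1 (bnPk (bnFlt tabJ1) [0]) :=
  tabOK_s chk0J1 zJ1_0
    [(1, 2), (0, 2), (0, 1), (1, 3), (1, 5), (0, 5), (3, 5), (0, 3), (0, 4), (4, 5), (3, 4), (3, 6), (4, 6), (0, 6), (5, 6)] rfl (by decide)
theorem okJ1 : TabOK 7 cJ1 sJ1 tJ1 eJ1 tabJ1 :=
  bn_tabOK_flt (by decide +kernel) (bn_tabOK_pk ([0]) (by decide +kernel)
    (oJ1_0))

/-- J2 : x a a' b b' c c' -/
def cJ2 : List ℕ := [4, 3, 2, 3, 2, 3, 2]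
def sJ2 : List ℕ := [0, 0, 2, 1, 0, 0, 2]
def tJ2 : List Bool := []
def gJ2 : List (ℕ × ℕ) := [(1, 4), (4, 5), (0, 1), (0, 3), (0, 5), (1, 3), (1, 5), (3, 5), (0, 2), (1, 2), (0, 4), (3, 4), (0, 6), (5, 6)]
def eJ2 : List (Fin 7 × Fin 7) := [(1, 4), (4, 5), (0, 1), (0, 3), (0, 5), (1, 3), (1, 5), (3, 5), (0, 2), (1, 2), (0, 4), (3, 4), (0, 6), (5, 6)]
def tabJ2 : Tab := [
  ([], [([false, false, true, false, false, false, true], 1, [(1, 304284)])])]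

theorem chk0J2 : chk0 7 cJ2 sJ2 = true := by decide +kernel
def stJ2_0 : List (List (ℕ × ℕ) × List (ℕ × ℕ)) :=
  [([(0, 6), (0, 2), (0, 3)], [(0, 4)]), ([(5, 6), (3, 5), (0, 5)], [(5, 1)]), ([(1, 2), (1, 5), (1, 3), (0, 1)], [(1, 3)]), ([(3, 4), (0, 4), (4, 5), (1, 4)], [(4, 2)])]
theorem zJ2_0 : chkTabS 7 cJ2 sJ2 tJ2 stJ2_0 (bnPk (bnFlt tabJ2) [0]) = true := by
  decide +kernel
theorem oJ2_0 : TabOK 7 cJ2 sJ2 tJ2 eJ2 (bnPk (bnFlt tabJ2) [0]) :=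
  tabOK_s chk0J2 zJ2_0
    [(0, 6), (0, 2), (0, 3), (5, 6), (3, 5), (0, 5), (1, 2), (1, 5), (1, 3), (0, 1), (3, 4), (0, 4), (4, 5), (1, 4)] rfl (by decide)
theorem okJ2 : TabOK 7 cJ2 sJ2 tJ2 eJ2 tabJ2 :=
  bn_tabOK_flt (by decide +kernel) (bn_tabOK_pk ([0]) (by decide +kernel)
    (oJ2_0))

end Helper85.Bn
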