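import Pool.Agent.helper85.L9.BnExc
import Pool.Agent.helper85.L9.BnD6

/-!
# The spider with three long legs
-/

set_option linter.unusedSimpArgs false

namespace Helper85.Bn

open MvPolynomial Finset Helper42.L9 Helper19.Gadget Helper19.Kill Helper19.DN

variable {V : Type*} {c : V → ℕ}

theorem exc_at (σ : Fin 7 ≃ Fin 7) {J eJ : List (Fin 7 × Fin 7)} {cJ sJ : List ℕ}
    (hlen : cJ.length = 7)
    (hE : mE (J ++ eEEE) = (mE eJ).map (Sym2.map σ))
    (hcap : ∀ i : Fin 7, cp cJ i ≤ cp cEEE (σ i))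
    (hsl : ∀ i : Fin 7, sEEE.getD (σ i : ℕ) 0 - dj (J.map vE) (σ i) ≤ sJ.getD i 0)
    (main : ∀ {g : Fin 7 → V} {L : List (Fin 7 × V)} {N0 : Multiset (Sym2 V)},
      Pre g cJ L N0 c → (∀ i : Fin 7, cl L i ≤ sJ.getD i 0) → AT (emb g eJ + (lkM g L + N0)) c)
    {g : Fin 7 → V} (hg : Function.Injective g) (hc : ∀ i : Fin 7, cp cEEE i ≤ c (g i))
    {r : List ℕ} {N : Multiset (Sym2 V)}
    (hr : ∀ i : Fin 7, r.getD i 0 + dj (J.map vE) i = sEEE.getD i 0)
    (hd : ∀ i : Fin 7, dg N (g i) ≤ r.getD i 0) (C : Ctx g (msk []) [] N c)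
    (hN : ∀ i j, s(g i, g j) ∉ N) : AT (emb g (J ++ eEEE) + N) c := by
  have hg' : Function.Injective (g ∘ σ) := hg.comp σ.injective
  rw [emb_symm hE]
  obtain ⟨L, N0, rfl, hL, h0⟩ := exists_links (g ∘ σ) N fun i j => hN (σ i) (σ j)
  refine main ⟨hg', hlen, fun i => (hcap i).trans (hc (σ i)), hL, h0, C.comp σ⟩ fun i => ?_
  have h1 := hd (σ i)
  have h2 := hr (σ i)
  have h3 := hsl i
  have h4 := dg_lkM hg' L hL i
  simp only [Function.comp] at h4
  rw [dg_add] at h1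
  have h5 : dg (lkM (g ∘ σ) L) (g (σ i)) = cl L i := h4
  omega

theorem map_vE_inj {n : ℕ} {J J' : List (Fin n × Fin n)} (h : J.map vE = J'.map vE) : J = J' :=
  List.map_injective_iff.mpr vE_inj h

def sab : Fin 7 ≃ Fin 7 := (Equiv.swap 1 3).trans (Equiv.swap 2 4)
def sac : Fin 7 ≃ Fin 7 := (Equiv.swap 1 5).trans (Equiv.swap 2 6)
def sbc : Fin 7 ≃ Fin 7 := (Equiv.swap 3 5).trans (Equiv.swap 4 6)

/-- **Spider with three long legs.** -/
theorem at_EEE {g : Fin 7 → V} (hg : Function.Injective g)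
    (hc : ∀ i : Fin 7, cp cEEE i ≤ c (g i)) (N : Multiset (Sym2 V))
    (hd : ∀ i : Fin 7, dg N (g i) ≤ sEEE.getD i 0) (C : Ctx g (msk []) [] N c) :
    AT (emb g eEEE + N) c := by
  refine bn_ok_x hg chk0EEE okEEE chkEEEE hc hd C ?_
  intro J r N hJ hrl hr hd C hN
  simp only [xEEE, List.mem_cons, List.not_mem_nil, or_false] at hJ
  rcases hJ with hJ | hJ | hJ | hJ | hJ | hJ
  · have : J = [(2, 3), (2, 4), (1, 4)] := map_vE_inj hJ
    subst this
    exact exc_at sac (eJ := eJ1) (cJ := cJ1) (sJ := sJ1) rfl (by decide) (by decide) (by decide)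
      (fun h hs => J1_at h hs) hg hc hr hd C hN
  · have : J = [(1, 4), (4, 5)] := map_vE_inj hJ
    subst this
    exact exc_at (Equiv.refl _) (eJ := eJ2) (cJ := cJ2) (sJ := sJ2) rfl (by decide) (by decide)
      (by decide) (fun h hs => J2_at h hs) hg hc hr hd C hN
  · have : J = [(2, 3), (2, 5)] := map_vE_inj hJ
    subst this
    exact exc_at sab (eJ := eJ2) (cJ := cJ2) (sJ := sJ2) rfl (by decide) (by decide) (by decide)
      (fun h hs => J2_at h hs) hg hc hr hd C hN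
  · have : J = [(4, 5), (4, 6), (3, 6)] := map_vE_inj hJ
    subst this
    exact exc_at (Equiv.refl _) (eJ := eJ1) (cJ := cJ1) (sJ := sJ1) rfl (by decide) (by decide)
      (by decide) (fun h hs => J1_at h hs) hg hc hr hd C hN
  · have : J = [(3, 6), (1, 6)] := map_vE_inj hJ
    subst this
    exact exc_at sbc (eJ := eJ2) (cJ := cJ2) (sJ := sJ2) rfl (by decide) (by decide) (by decide)
      (fun h hs => J2_at h hs) hg hc hr hd C hN
  · have : J = [(2, 5), (2, 6), (1, 6)] := map_vE_inj hJ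
    subst this
    exact exc_at sab (eJ := eJ1) (cJ := cJ1) (sJ := sJ1) rfl (by decide) (by decide) (by decide)
      (fun h hs => J1_at h hs) hg hc hr hd C hN

end Helper85.Bn
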