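import Pool.Agent.helper85.L9.BnBlk
import Pool.Agent.helper85.L9.BnD7

/-!
# The exceptional patterns of the spider with three long legs
-/

set_option linter.unusedSimpArgs false

namespace Helper85.Bn

open MvPolynomial Finset Helper42.L9 Helper19.Gadget Helper19.Kill Helper19.DN

variable {V : Type*} {n : ℕ} {c : V → ℕ}

/-- the certificate of the only entry of a table, no inner links -/
theorem hp_one {cl' sl : List ℕ} {E : List (Fin n × Fin n)} {tab : Tab}
    (h1 : TabOK n cl' sl [] E tab) {U : List Bool} (hU : U ∈ appU tab []) :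
    ∃ (Q : List (ℤ × (Fin n →₀ ℕ))) (D : ℤ), D ≠ 0 ∧
      (∀ q ∈ Q, ∀ i : Fin n, q.2 i ≤ cp cl' i) ∧
      Hp Q (ep E) (fun i => sl.getD i 0) (msk U) D :=
  (hp_app h1 [] (fun i => sl.getD i 0) (fun _ => rfl) hU).2

/-- the table theorem, from the verified table -/
theorem Blk.atOK {g : Fin n → V} {cl' sl : List ℕ} {N : Multiset (Sym2 V)}
    (h : Blk g cl' sl N c) {E : List (Fin n × Fin n)} {gE : List (ℕ × ℕ)}
    {tab : Tab} (h0 : chk0 n cl' sl = true) (h1 : TabOK n cl' sl [] E tab)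
    (h2 : chkEn n cl' gE sl tab [] false = true) : AT (emb g E + N) c :=
  bn_ok h.inj h0 h1 h2 h.cap h.slot h.ctx

theorem pre_perm {g : Fin n → V} {cl' : List ℕ} {L L' : List (Fin n × V)}
    {N0 : Multiset (Sym2 V)} (h : Pre g cl' L N0 c) (hp : L.Perm L') : Pre g cl' L' N0 c := by
  refine ⟨h.inj, h.len, h.cap, fun e he => h.hL e (hp.symm.subset he), h.h0, ?_⟩
  rw [← lkM_perm g hp]
  exact h.ctx

open Classical in
/-- if the pure certificate fails: a class with at least three links, all from `U` -/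
theorem pure_or {g : Fin n → V} {cl' sl : List ℕ} {L : List (Fin n × V)}
    {N0 : Multiset (Sym2 V)} (hP : Pre g cl' L N0 c)
    {E : List (Fin n × Fin n)} {tab : Tab}
    (h1 : TabOK n cl' sl [] E tab) {U : List Bool} (hU : U ∈ appU tab [])
    (hs : ∀ i : Fin n, cl L i ≤ sl.getD i 0) :
    AT (emb g E + (lkM g L + N0)) c ∨
    ∃ K : V → Prop, (∀ e ∈ L, K e.2 → msk U e.1) ∧ 3 ≤ (L.countP fun e => K e.2) ∧
      (4 ≤ (L.countP fun e => K e.2) ∨ ∀ a b, K a → K b → a ≠ b → s(a, b) ∈ N0) := by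
  obtain ⟨Q, D, hD, hQ, H⟩ := hp_one h1 hU
  by_cases hS : Sup (out (msk U) L * gp N0) c
  · left
    exact at_of_pure hP.inj E H hD (fun p hp i => (hQ p hp i).trans (hP.cap i)) L hP.hL hs N0
      hP.h0 hS
  · right
    have O := hP.ctx.outer hP.inj hP.hL hP.h0
    obtain ⟨v0, h2, h3, h4⟩ := out_fail O (msk U) (by
      intro i _ h
      unfold msk at h
      simp at h) hS
    refine ⟨Reach (core [] N0) v0, h2, h3, ?_⟩
    rcases h4 with h4 | h4
    · exact Or.inl h4
    · right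
      intro a b ha hb hab
      exact Multiset.mem_of_le (outt_le _ _) (h4 a b ha hb hab)

theorem ineq_ext {g : Fin n → V} {o o' : V} (h : ∀ i, g i ≠ o') (ho : o ≠ o') :
    ∀ i, ext1 g o i ≠ o' := off_ext1 h ho

/-- values of an extended block -/
theorem hgh1 (g : Fin 7 → V) (o : V) (i : Fin 7) (j : Fin 8) (h : (j : ℕ) = i) :
    ext1 g o j = g i := by
  rw [ext1_lt g o j (by omega)]
  exact congrArg g (Fin.ext h)

theorem hgh2 (g : Fin 7 → V) (o o' : V) (i : Fin 7) (j : Fin 9) (h : (j : ℕ) = i) :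
    ext1 (ext1 g o) o' j = g i := by
  rw [ext1_lt _ _ j (by omega)]
  exact hgh1 g o i _ h

theorem hgh3 (g : Fin 7 → V) (o o' o'' : V) (i : Fin 7) (j : Fin 10) (h : (j : ℕ) = i) :
    ext1 (ext1 (ext1 g o) o') o'' j = g i := by
  rw [ext1_lt _ _ j (by omega)]
  exact hgh2 g o o' i _ h

theorem hgh4 (g : Fin 7 → V) (o o' o'' p : V) (i : Fin 7) (j : Fin 11) (h : (j : ℕ) = i) :
    ext1 (ext1 (ext1 (ext1 g o) o') o'') p j = g i := by
  rw [ext1_lt _ _ j (by omega)]
  exact hgh3 g o o' o'' i _ h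

/-- drop the first edges -/
theorem emb_cons2 {m : ℕ} (h : Fin m → V) (a b : Fin m × Fin m) (E : List (Fin m × Fin m)) :
    emb h (a :: b :: E) = s(h a.1, h a.2) ::ₘ s(h b.1, h b.2) ::ₘ emb h E := rfl

theorem emb_cons3 {m : ℕ} (h : Fin m → V) (a b d : Fin m × Fin m) (E : List (Fin m × Fin m)) :
    emb h (a :: b :: d :: E) =
      s(h a.1, h a.2) ::ₘ s(h b.1, h b.2) ::ₘ s(h d.1, h d.2) ::ₘ emb h E := rfl

theorem emb_cons4 {m : ℕ} (h : Fin m → V) (a b d e : Fin m × Fin m)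
    (E : List (Fin m × Fin m)) : emb h (a :: b :: d :: e :: E) =
      s(h a.1, h a.2) ::ₘ s(h b.1, h b.2) ::ₘ s(h d.1, h d.2) ::ₘ s(h e.1, h e.2) ::ₘ
        emb h E := rfl

section
variable {g : Fin 7 → V} {N0 : Multiset (Sym2 V)} {L : List (Fin 7 × V)}

/-- one new vertex `o` with two links from `i`, `j` -/
theorem two_at {cl' sl : List ℕ} {i j : Fin 7} {o : V} (h : Pre g cl' ((i, o) :: (j, o) :: L) N0 c)
    (hlen : sl.length = 7) (hs : ∀ k : Fin 7, cl L k ≤ sl.getD k 0)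
    (E : List (Fin 7 × Fin 7)) (E8 : List (Fin 8 × Fin 8)) (i8 j8 : Fin 8)
    (hi8 : (i8 : ℕ) = i) (hj8 : (j8 : ℕ) = j) (gE : List (ℕ × ℕ)) (tab : Tab)
    (hE : E8.map vE = E.map vE)
    (h0 : chk0 8 (cl' ++ [2]) (sl ++ [1]) = true)
    (h1 : TabOK 8 (cl' ++ [2]) (sl ++ [1]) [] ((i8, 7) :: (j8, 7) :: E8) tab)
    (h2 : chkEn 8 (cl' ++ [2]) gE (sl ++ [1]) tab [] false = true) :
    AT (emb g E + (lkM g ((i, o) :: (j, o) :: L) + N0)) c := by
  classical
  have ho : ∀ i, g i ≠ o := h.hL (i, o) (by simp)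
  have hb := h.blk (X := [(i, o), (j, o)]) (L := L) sl hlen hs N0 le_rfl
  have hk := h.dg_o (X := [(i, o), (j, o)]) (L := L) ho 2 (by simp [mU]) N0 le_rfl
  have hB := hb.grow ho 1 (by omega)
  have := hB.atOK h0 h1 h2
  rw [emb_cons2, emb_lift (hgh1 g o) E E8 hE, hgh1 g o i i8 hi8, hgh1 g o j j8 hj8,
    ext1_last g o 7 rfl] at this
  convert this using 1
  rw [lkM_cons, lkM_cons]
  simp only [Multiset.cons_add, Multiset.add_cons]

/-! ### pattern J1 -/

/-- all links of `a`, `a'` go to different vertices -/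
theorem J1z_at {o o' p : V} (h : Pre g cJ1 [(2, o), (2, o'), (1, p)] N0 c) (h1 : o ≠ o')
    (h2 : o ≠ p) (h3 : o' ≠ p) :
    AT (emb g eJ1 + (lkM g [(2, o), (2, o'), (1, p)] + N0)) c := by
  classical
  have ho : ∀ i, g i ≠ o := h.hL (2, o) (by simp)
  have ho' : ∀ i, g i ≠ o' := h.hL (2, o') (by simp)
  have hp : ∀ i, g i ≠ p := h.hL (1, p) (by simp)
  have hb := h.blk (X := [(2, o), (2, o'), (1, p)]) (L := []) [0, 0, 0, 0, 0, 0, 0] rfl
    (by intro i; simp [cl]) N0 le_rfl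
  have k1 := h.dg_o (X := [(2, o), (2, o'), (1, p)]) (L := []) ho 1 (by simp [mU, h1, h2]) N0 le_rfl
  have k2 := h.dg_o (X := [(2, o), (2, o'), (1, p)]) (L := []) ho' 1 (by simp [mU, h1, h3]) N0 le_rfl
  have k3 := h.dg_o (X := [(2, o), (2, o'), (1, p)]) (L := []) hp 1 (by simp [mU, h2, h3]) N0 le_rfl
  have hB := ((hb.grow ho 2 (by omega)).grow (off_ext1 ho' h1) 2 (by omega)).grow
    (off_ext1 (off_ext1 hp h2) h3) 2 (by omega)
  have := hB.atOK chk0J1z okJ1z chkEJ1z
  have e2 : eJ1z = (2, 7) :: (2, 8) :: (1, 9) :: eJ1z.drop 3 := rfl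
  rw [e2, emb_cons3, emb_lift (hgh3 g o o' p) eJ1 (eJ1z.drop 3) rfl, hgh3 g o o' p 2 2 rfl,
    hgh3 g o o' p 1 1 rfl] at this
  have v7 : ext1 (ext1 (ext1 g o) o') p 7 = o := by
    rw [ext1_lt _ _ 7 (by decide), ext1_lt _ _ _ (by decide), ext1_last _ _ _ rfl]
  have v8 : ext1 (ext1 (ext1 g o) o') p 8 = o' := by
    rw [ext1_lt _ _ 8 (by decide), ext1_last _ _ _ rfl]
  have v9 : ext1 (ext1 (ext1 g o) o') p 9 = p := ext1_last _ _ _ rfl
  rw [v7, v8, v9] at this
  convert this using 1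
  rw [lkM_cons, lkM_cons, lkM_cons]
  have : lkM g [] = 0 := rfl
  simp only [Multiset.cons_add, Multiset.add_cons]

theorem J1_three {o o' p : V} (h : Pre g cJ1 [(2, o), (2, o'), (1, p)] N0 c) :
    AT (emb g eJ1 + (lkM g [(2, o), (2, o'), (1, p)] + N0)) c := by
  classical
  by_cases h1 : o = o'
  · subst h1
    exact two_at h (sl := [0, 1, 0, 0, 0, 0, 0]) rfl
      (by intro i; rw [cl_cons]; fin_cases i <;> simp [cl]) eJ1 (eJ1x.drop 2) 2 2 rfl rfl gJ1x
      tabJ1x rfl chk0J1x okJ1x chkEJ1x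
  · by_cases h2 : o = p
    · subst h2
      have hp : [((2 : Fin 7), o), (2, o'), (1, o)].Perm [(1, o), (2, o), (2, o')] :=
        ((List.Perm.swap _ _ _).cons _).trans (List.Perm.swap _ _ _)
      rw [lkM_perm g hp]
      exact two_at (pre_perm h hp) (sl := [0, 0, 1, 0, 0, 0, 0]) rfl
        (by intro i; rw [cl_cons]; fin_cases i <;> simp [cl]) eJ1 (eJ1y.drop 2) 1 2 rfl rfl gJ1y
        tabJ1y rfl chk0J1y okJ1y chkEJ1y
    · by_cases h3 : o' = p
      · subst h3
        have hp : [((2 : Fin 7), o), (2, o'), (1, o')].Perm [(1, o'), (2, o'), (2, o)] :=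
          (((List.Perm.swap _ _ _).cons _).trans (List.Perm.swap _ _ _)).trans
            ((List.Perm.swap _ _ _).cons _)
        rw [lkM_perm g hp]
        exact two_at (pre_perm h hp) (sl := [0, 0, 1, 0, 0, 0, 0]) rfl
          (by intro i; rw [cl_cons]; fin_cases i <;> simp [cl]) eJ1 (eJ1y.drop 2) 1 2 rfl rfl
          gJ1y tabJ1y rfl chk0J1y okJ1y chkEJ1y
      · exact J1z_at h h1 h2 h3

/-- the numbers of links, `n = 7` -/
theorem sum_cl7 (L : List (Fin 7 × V)) : cl L 0 + cl L 1 + cl L 2 + cl L 3 + cl L 4 + cl L 5 +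
    cl L 6 = L.length := by
  have hsum := sum_cl L
  simp only [Fin.sum_univ_succ, Fin.sum_univ_zero] at hsum
  have hsum' : cl L 0 + (cl L 1 + (cl L 2 + (cl L 3 + (cl L 4 + (cl L 5 + (cl L 6)))))) =
      L.length := hsum
  omega

theorem cl_cons_self (i : Fin 7) (o : V) (L : List (Fin 7 × V)) :
    cl ((i, o) :: L) i = cl L i + 1 := by rw [cl_cons, if_pos rfl]

theorem cl_cons_ne {i j : Fin 7} (h : i ≠ j) (o : V) (L : List (Fin 7 × V)) :
    cl ((i, o) :: L) j = cl L j := by rw [cl_cons, if_neg h, add_zero]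

theorem J1_at (h : Pre g cJ1 L N0 c) (hs : ∀ i : Fin 7, cl L i ≤ sJ1.getD i 0) :
    AT (emb g eJ1 + (lkM g L + N0)) c := by
  classical
  rcases pure_or h (E := eJ1) okJ1 (U := [false, true, true, false, false, false,
    false]) (by decide) hs with hA | ⟨K, h1, h2, h3⟩
  · exact hA
  · have hlen : 3 ≤ L.length := h2.trans List.countP_le_length
    have hsum := sum_cl7 L
    have s0 : cl L 0 ≤ 0 := hs 0
    have s1 : cl L 1 ≤ 1 := hs 1
    have s2 : cl L 2 ≤ 2 := hs 2
    have s3 : cl L 3 ≤ 0 := hs 3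
    have s4 : cl L 4 ≤ 0 := hs 4
    have s5 : cl L 5 ≤ 0 := hs 5
    have s6 : cl L 6 ≤ 0 := hs 6
    obtain ⟨o, L1, p1⟩ := take_link (L := L) (i := 2) (by omega)
    have e1 := cl_perm p1 2
    rw [cl_cons_self] at e1
    obtain ⟨o', L2, p2⟩ := take_link (L := L1) (i := 2) (by omega)
    have e2 := cl_perm p2 2
    rw [cl_cons_self] at e2
    have e3 := cl_perm p1 1
    rw [cl_cons_ne (by decide)] at e3
    have e4 := cl_perm p2 1
    rw [cl_cons_ne (by decide)] at e4
    obtain ⟨p, L3, p3⟩ := take_link (L := L2) (i := 1) (by omega)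
    have hl1 := p1.length_eq
    have hl2 := p2.length_eq
    have hl3 := p3.length_eq
    rw [List.length_cons] at hl1 hl2 hl3
    have hL3 : L3 = [] := List.length_eq_zero_iff.mp (by omega)
    subst hL3
    have hp : L.Perm [(2, o), (2, o'), (1, p)] := p1.trans ((p2.trans (p3.cons _)).cons _)
    rw [lkM_perm g hp]
    exact J1_three (pre_perm h hp)

/-! ### pattern J2 -/

theorem J2z_at {p p' q q' : V} (h : Pre g cJ2 ((2, p) :: (2, p') :: (6, q) :: (6, q') :: L) N0 c)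
    (h1 : p ≠ p') (h2 : q ≠ q') (h3 : p ≠ q) (h4 : p ≠ q') (h5 : p' ≠ q) (h6 : p' ≠ q')
    (hs : ∀ i : Fin 7, cl L i ≤ [0, 0, 0, 1, 0, 0, 0].getD i 0) :
    AT (emb g eJ2 + (lkM g ((2, p) :: (2, p') :: (6, q) :: (6, q') :: L) + N0)) c := by
  classical
  have k0 : ∀ i, g i ≠ p := h.hL (2, p) (by simp)
  have k0' : ∀ i, g i ≠ p' := h.hL (2, p') (by simp)
  have l0 : ∀ i, g i ≠ q := h.hL (6, q) (by simp)
  have l0' : ∀ i, g i ≠ q' := h.hL (6, q') (by simp)
  have hb := h.blk (X := [(2, p), (2, p'), (6, q), (6, q')]) (L := L) [0, 0, 0, 1, 0, 0, 0] rfl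
    hs N0 le_rfl
  have k1 := h.dg_o (X := [(2, p), (2, p'), (6, q), (6, q')]) (L := L) k0 1
    (by simp [mU, h1, h2, h3, h4, h5, h6]) N0 le_rfl
  have k2 := h.dg_o (X := [(2, p), (2, p'), (6, q), (6, q')]) (L := L) k0' 1
    (by simp [mU, h1, h2, h3, h4, h5, h6]) N0 le_rfl
  have k3 := h.dg_o (X := [(2, p), (2, p'), (6, q), (6, q')]) (L := L) l0 1
    (by simp [mU, h1, h2, h3, h4, h5, h6]) N0 le_rfl
  have k4 := h.dg_o (X := [(2, p), (2, p'), (6, q), (6, q')]) (L := L) l0' 1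
    (by simp [mU, h1, h2, h3, h4, h5, h6]) N0 le_rfl
  have hB := (((hb.grow k0 2 (by omega)).grow (off_ext1 k0' h1) 2 (by omega)).grow
    (off_ext1 (off_ext1 l0 h3) h5) 2 (by omega)).grow
    (off_ext1 (off_ext1 (off_ext1 l0' h4) h6) h2) 2 (by omega)
  have := hB.atOK chk0J2z okJ2z chkEJ2z
  have e2 : eJ2z = (2, 7) :: (2, 8) :: (6, 9) :: (6, 10) :: eJ2z.drop 4 := rfl
  rw [e2, emb_cons4, emb_lift (hgh4 g p p' q q') eJ2 (eJ2z.drop 4) rfl,
    hgh4 g p p' q q' 2 2 rfl, hgh4 g p p' q q' 6 6 rfl] at this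
  have v7 : ext1 (ext1 (ext1 (ext1 g p) p') q) q' 7 = p := by
    rw [ext1_lt _ _ 7 (by decide), ext1_lt _ _ _ (by decide), ext1_lt _ _ _ (by decide),
      ext1_last _ _ _ rfl]
  have v8 : ext1 (ext1 (ext1 (ext1 g p) p') q) q' 8 = p' := by
    rw [ext1_lt _ _ 8 (by decide), ext1_lt _ _ _ (by decide), ext1_last _ _ _ rfl]
  have v9 : ext1 (ext1 (ext1 (ext1 g p) p') q) q' 9 = q := by
    rw [ext1_lt _ _ 9 (by decide), ext1_last _ _ _ rfl]
  have v10 : ext1 (ext1 (ext1 (ext1 g p) p') q) q' 10 = q' := ext1_last _ _ _ rfl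
  rw [v7, v8, v9, v10] at this
  convert this using 1
  rw [lkM_cons, lkM_cons, lkM_cons, lkM_cons]
  simp only [Multiset.cons_add, Multiset.add_cons]

theorem J2t_at {p q : V} (h : Pre g cJ2 ((2, p) :: (6, q) :: L) N0 c) (hpq : p ≠ q)
    (hN : s(p, q) ∈ N0) (hs : ∀ i : Fin 7, cl L i ≤ [0, 0, 1, 1, 0, 0, 1].getD i 0) :
    AT (emb g eJ2 + (lkM g ((2, p) :: (6, q) :: L) + N0)) c := by
  classical
  obtain ⟨N1, rfl⟩ := Multiset.exists_cons_of_mem hN
  have k0 : ∀ i, g i ≠ p := h.hL (2, p) (by simp)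
  have l0 : ∀ i, g i ≠ q := h.hL (6, q) (by simp)
  have hb := h.blk (X := [(2, p), (6, q)]) (L := L) [0, 0, 1, 1, 0, 0, 1] rfl hs N1
    (Multiset.le_cons_self _ _)
  have k1 := h.dg_o (X := [(2, p), (6, q)]) (L := L) k0 1 (by simp [mU]) _ le_rfl
  have k2 := h.dg_o (X := [(2, p), (6, q)]) (L := L) l0 1 (by simp [mU]) _ le_rfl
  rw [Multiset.add_cons, dg_cons_pos (Sym2.mem_mk_left _ _)] at k1
  rw [Multiset.add_cons, dg_cons_pos (Sym2.mem_mk_right _ _)] at k2
  have hB := (hb.grow k0 1 (by omega)).grow (off_ext1 l0 hpq) 1 (by omega)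
  have := hB.atOK chk0J2t okJ2t chkEJ2t
  have e2 : eJ2t = (2, 7) :: (6, 8) :: (7, 8) :: eJ2t.drop 3 := rfl
  rw [e2, emb_cons3, emb_lift (hgh2 g p q) eJ2 (eJ2t.drop 3) rfl, hgh2 g p q 2 2 rfl,
    hgh2 g p q 6 6 rfl] at this
  have v7 : ext1 (ext1 g p) q 7 = p := by
    rw [ext1_lt _ _ 7 (by decide), ext1_last _ _ _ rfl]
  have v8 : ext1 (ext1 g p) q 8 = q := ext1_last _ _ _ rfl
  rw [v7, v8] at this
  convert this using 1
  rw [lkM_cons, lkM_cons]
  simp only [Multiset.cons_add, Multiset.add_cons]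
  rw [Multiset.cons_swap s(g 6, q) s(p, q), Multiset.cons_swap s(g 2, p) s(p, q)]

/-- double link of `a'` -/
theorem J2a_at {o : V} (h : Pre g cJ2 ((2, o) :: (2, o) :: L) N0 c)
    (hs : ∀ i : Fin 7, cl L i ≤ [0, 0, 0, 1, 0, 0, 2].getD i 0) :
    AT (emb g eJ2 + (lkM g ((2, o) :: (2, o) :: L) + N0)) c :=
  two_at h (sl := [0, 0, 0, 1, 0, 0, 2]) rfl hs eJ2 (eJ2a.drop 2) 2 2 rfl rfl gJ2a
    tabJ2a rfl chk0J2a okJ2a chkEJ2a

/-- double link of `c'` -/
theorem J2c_at {o : V} (h : Pre g cJ2 ((6, o) :: (6, o) :: L) N0 c)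
    (hs : ∀ i : Fin 7, cl L i ≤ [0, 0, 2, 1, 0, 0, 0].getD i 0) :
    AT (emb g eJ2 + (lkM g ((6, o) :: (6, o) :: L) + N0)) c :=
  two_at h (sl := [0, 0, 2, 1, 0, 0, 0]) rfl hs eJ2 (eJ2c.drop 2) 6 6 rfl rfl gJ2c
    tabJ2c rfl chk0J2c okJ2c chkEJ2c

/-- common neighbour of `a'` and `c'` -/
theorem J2m_at {o : V} (h : Pre g cJ2 ((2, o) :: (6, o) :: L) N0 c)
    (hs : ∀ i : Fin 7, cl L i ≤ [0, 0, 1, 1, 0, 0, 1].getD i 0) :
    AT (emb g eJ2 + (lkM g ((2, o) :: (6, o) :: L) + N0)) c :=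
  two_at h (sl := [0, 0, 1, 1, 0, 0, 1]) rfl hs eJ2 (eJ2m.drop 2) 2 6 rfl rfl gJ2m
    tabJ2m rfl chk0J2m okJ2m chkEJ2m

/-- numbers of links of a list -/
def le7 (L : List (Fin 7 × V)) (a b d : ℕ) : Prop :=
  cl L 0 = 0 ∧ cl L 1 = 0 ∧ cl L 2 ≤ a ∧ cl L 3 ≤ b ∧ cl L 4 = 0 ∧ cl L 5 = 0 ∧ cl L 6 ≤ d

theorem le7.slots {a b d : ℕ} (h : le7 L a b d) (i : Fin 7) :
    cl L i ≤ [0, 0, a, b, 0, 0, d].getD i 0 := by
  obtain ⟨h0, h1, h2, h3, h4, h5, h6⟩ := h
  fin_cases i
  · exact h0.le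
  · exact h1.le
  · exact h2
  · exact h3
  · exact h4.le
  · exact h5.le
  · exact h6

theorem le7.mono {a b d a' b' d' : ℕ} (h : le7 L a b d) (ha : a ≤ a') (hb : b ≤ b')
    (hd : d ≤ d') : le7 L a' b' d' :=
  ⟨h.1, h.2.1, h.2.2.1.trans ha, h.2.2.2.1.trans hb, h.2.2.2.2.1, h.2.2.2.2.2.1,
    h.2.2.2.2.2.2.trans hd⟩

theorem le7.perm {L' : List (Fin 7 × V)} {a b d : ℕ} (h : le7 L a b d) (hp : L.Perm L') :
    le7 L' a b d := by
  unfold le7 at h ⊢
  simp only [← cl_perm hp]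
  exact h

theorem le7.c2 {o : V} {a b d : ℕ} (h : le7 ((2, o) :: L) (a + 1) b d) : le7 L a b d := by
  obtain ⟨h0, h1, h2, h3, h4, h5, h6⟩ := h
  rw [cl_cons_ne (by decide)] at h0 h1 h3 h4 h5 h6
  rw [cl_cons_self] at h2
  exact ⟨h0, h1, by omega, h3, h4, h5, h6⟩

theorem le7.c6 {o : V} {a b d : ℕ} (h : le7 ((6, o) :: L) a b (d + 1)) : le7 L a b d := by
  obtain ⟨h0, h1, h2, h3, h4, h5, h6⟩ := h
  rw [cl_cons_ne (by decide)] at h0 h1 h2 h3 h4 h5
  rw [cl_cons_self] at h6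
  exact ⟨h0, h1, h2, h3, h4, h5, by omega⟩

theorem le7.to2 {o : V} {a b d : ℕ} (h : le7 L a b d) : le7 ((2, o) :: L) (a + 1) b d := by
  obtain ⟨h0, h1, h2, h3, h4, h5, h6⟩ := h
  refine ⟨?_, ?_, ?_, ?_, ?_, ?_, ?_⟩ <;>
    first | (rw [cl_cons_ne (by decide)]; assumption) | (rw [cl_cons_self]; omega)

theorem le7.to6 {o : V} {a b d : ℕ} (h : le7 L a b d) : le7 ((6, o) :: L) a b (d + 1) := by
  obtain ⟨h0, h1, h2, h3, h4, h5, h6⟩ := h
  refine ⟨?_, ?_, ?_, ?_, ?_, ?_, ?_⟩ <;>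
    first | (rw [cl_cons_ne (by decide)]; assumption) | (rw [cl_cons_self]; omega)

/-- transport along a permutation -/
theorem at_perm {L' : List (Fin 7 × V)} {E : List (Fin 7 × Fin 7)} (hp : L.Perm L')
    (h : AT (emb g E + (lkM g L' + N0)) c) : AT (emb g E + (lkM g L + N0)) c := by
  rw [lkM_perm g hp]; exact h

/-- four links at `a'`, `c'` -/
theorem J2_four {p p' q q' : V}
    (h : Pre g cJ2 ((2, p) :: (2, p') :: (6, q) :: (6, q') :: L) N0 c) (hs : le7 L 0 1 0) :
    AT (emb g eJ2 + (lkM g ((2, p) :: (2, p') :: (6, q) :: (6, q') :: L) + N0)) c := by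
  classical
  by_cases h1 : p = p'
  · subst h1
    exact J2a_at h (hs.to6.to6).slots
  by_cases h2 : q = q'
  · subst h2
    have hp : ((2, p) :: (2, p') :: (6, q) :: (6, q) :: L : List (Fin 7 × V)).Perm
        ((6, q) :: (6, q) :: (2, p) :: (2, p') :: L) := by
      have : (([(2, p), (2, p')] ++ [(6, q), (6, q)]) ++ L : List (Fin 7 × V)).Perm
          (([(6, q), (6, q)] ++ [(2, p), (2, p')]) ++ L) := List.perm_append_comm.append_right L
      exact this
    exact at_perm hp (J2c_at (pre_perm h hp) (hs.to2.to2).slots)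
  have key : ∀ {o x y : V}, Pre g cJ2 ((2, o) :: (6, o) :: (2, x) :: (6, y) :: L) N0 c →
      AT (emb g eJ2 + (lkM g ((2, o) :: (6, o) :: (2, x) :: (6, y) :: L) + N0)) c :=
    fun hh => J2m_at hh (hs.to6.to2).slots
  by_cases h3 : p = q
  · subst h3
    have hp : ((2, p) :: (2, p') :: (6, p) :: (6, q') :: L : List (Fin 7 × V)).Perm
        ((2, p) :: (6, p) :: (2, p') :: (6, q') :: L) := (List.Perm.swap _ _ _).cons _
    exact at_perm hp (key (pre_perm h hp))
  by_cases h4 : p = q'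
  · subst h4
    have hp : ((2, p) :: (2, p') :: (6, q) :: (6, p) :: L : List (Fin 7 × V)).Perm
        ((2, p) :: (6, p) :: (2, p') :: (6, q) :: L) :=
      (((List.Perm.swap _ _ _).cons _).cons _).trans ((List.Perm.swap _ _ _).cons _)
    exact at_perm hp (key (pre_perm h hp))
  by_cases h5 : p' = q
  · subst h5
    have hp : ((2, p) :: (2, p') :: (6, p') :: (6, q') :: L : List (Fin 7 × V)).Perm
        ((2, p') :: (6, p') :: (2, p) :: (6, q') :: L) :=
      (List.Perm.swap _ _ _).trans ((List.Perm.swap _ _ _).cons _)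
    exact at_perm hp (key (pre_perm h hp))
  by_cases h6 : p' = q'
  · subst h6
    have hp : ((2, p) :: (2, p') :: (6, q) :: (6, p') :: L : List (Fin 7 × V)).Perm
        ((2, p') :: (6, p') :: (2, p) :: (6, q) :: L) :=
      ((((List.Perm.swap _ _ _).cons _).cons _).trans (List.Perm.swap _ _ _)).trans
        ((List.Perm.swap _ _ _).cons _)
    exact at_perm hp (key (pre_perm h hp))
  exact J2z_at h h1 h2 h3 h4 h5 h6 hs.slots

open Classical in
/-- all links of the list end in the class -/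
theorem all_K {A L : List (Fin 7 × V)} {K : V → Prop} (h2 : A.length ≤ (A ++ L).countP fun e => K e.2)
    (h3 : ∀ e ∈ L, ¬ K e.2) : ∀ e ∈ A, K e.2 := by
  rw [List.countP_append] at h2
  have h4 : (L.countP fun e => K e.2) = 0 := by
    rw [List.countP_eq_zero]
    intro e he
    simpa using h3 e he
  have h5 : (A.countP fun e => K e.2) = A.length :=
    le_antisymm List.countP_le_length (by omega)
  rw [List.countP_eq_length] at h5
  intro e he
  simpa using h5 e he

/-- three links at `a'`, `c'`: two of `a'` -/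
theorem J2_three {p p' q : V}
    (h : Pre g cJ2 ((2, p) :: (2, p') :: (6, q) :: L) N0 c) (hs : le7 L 0 1 0)
    (hadj : p ≠ q → s(p, q) ∈ N0) :
    AT (emb g eJ2 + (lkM g ((2, p) :: (2, p') :: (6, q) :: L) + N0)) c := by
  classical
  by_cases h1 : p = p'
  · subst h1
    exact J2a_at h (hs.to6.mono (by omega) le_rfl (by omega)).slots
  have hp : ((2, p) :: (2, p') :: (6, q) :: L : List (Fin 7 × V)).Perm
      ((2, p) :: (6, q) :: (2, p') :: L) := (List.Perm.swap _ _ _).cons _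
  by_cases h3 : p = q
  · subst h3
    exact at_perm hp (J2m_at (pre_perm h hp) (hs.to2.mono le_rfl le_rfl (by omega)).slots)
  · exact at_perm hp (J2t_at (pre_perm h hp) h3 (hadj h3)
      (hs.to2.mono le_rfl le_rfl (by omega)).slots)

/-- three links at `a'`, `c'`: two of `c'` -/
theorem J2_three' {p q q' : V}
    (h : Pre g cJ2 ((2, p) :: (6, q) :: (6, q') :: L) N0 c) (hs : le7 L 0 1 0)
    (hadj : p ≠ q → s(p, q) ∈ N0) :
    AT (emb g eJ2 + (lkM g ((2, p) :: (6, q) :: (6, q') :: L) + N0)) c := by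
  classical
  by_cases h1 : q = q'
  · subst h1
    have hp : ((2, p) :: (6, q) :: (6, q) :: L : List (Fin 7 × V)).Perm
        ((6, q) :: (6, q) :: (2, p) :: L) :=
      (List.Perm.swap _ _ _).trans ((List.Perm.swap _ _ _).cons _)
    exact at_perm hp (J2c_at (pre_perm h hp) (hs.to2.mono (by omega) le_rfl le_rfl).slots)
  by_cases h3 : p = q
  · subst h3
    exact J2m_at h (hs.to6.mono (by omega) le_rfl le_rfl).slots
  · exact J2t_at h h3 (hadj h3) (hs.to6.mono (by omega) le_rfl le_rfl).slots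

theorem J2_at (h : Pre g cJ2 L N0 c) (hs : ∀ i : Fin 7, cl L i ≤ sJ2.getD i 0) :
    AT (emb g eJ2 + (lkM g L + N0)) c := by
  classical
  rcases pure_or h (E := eJ2) okJ2 (U := [false, false, true, false, false, false,
    true]) (by decide) hs with hA | ⟨K, h1, h2, h3⟩
  · exact hA
  · have s0 : cl L 0 ≤ 0 := hs 0
    have s1 : cl L 1 ≤ 0 := hs 1
    have s2 : cl L 2 ≤ 2 := hs 2
    have s3 : cl L 3 ≤ 1 := hs 3
    have s4 : cl L 4 ≤ 0 := hs 4
    have s5 : cl L 5 ≤ 0 := hs 5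
    have s6 : cl L 6 ≤ 2 := hs 6
    have hl7 : le7 L 2 1 2 := ⟨by omega, by omega, s2, s3, by omega, by omega, s6⟩
    -- links in the class come from 2 and 6
    have hcount : (L.countP fun e => K e.2) ≤ cl L 2 + cl L 6 := by
      have e1 : (L.countP fun e => K e.2) ≤ L.countP fun e => e.1 = 2 ∨ e.1 = 6 := by
        apply List.countP_mono_left
        intro e he hK
        simp only [decide_eq_true_eq] at hK ⊢
        have h5 := h1 e he hK
        obtain ⟨i, o⟩ := e
        unfold msk at h5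
        fin_cases i <;> simp at h5 ⊢
      have e2 : ∀ M : List (Fin 7 × V), (M.countP fun e => e.1 = 2 ∨ e.1 = 6) ≤
          cl M 2 + cl M 6 := by
        intro M
        induction M with
        | nil => simp
        | cons e M ih =>
          rw [cl_cons, cl_cons]
          by_cases h6 : e.1 = 2 ∨ e.1 = 6
          · rw [List.countP_cons_of_pos (by simpa using h6)]
            rcases h6 with h6 | h6 <;> simp only [h6, if_true] <;> omega
          · rw [List.countP_cons_of_neg (by simpa using h6)]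
            omega
      exact e1.trans (e2 L)
    have hrest : ∀ L' : List (Fin 7 × V), (∀ e ∈ L', e ∈ L) → le7 L' 0 1 0 →
        ∀ e ∈ L', ¬ K e.2 := by
      intro L' hsub hl e he hK
      have h5 := h1 e (hsub e he) hK
      have h6 : 1 ≤ cl L' e.1 := by
        unfold cl
        exact List.length_pos_of_mem (List.mem_filter.mpr ⟨he, by simp⟩)
      obtain ⟨i, o⟩ := e
      obtain ⟨y0, y1, y2, y3, y4, y5, y6⟩ := hl
      unfold msk at h5
      simp only at h5 h6
      fin_cases i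
      · exact absurd h5 (by decide)
      · exact absurd h5 (by decide)
      · have : 1 ≤ cl L' 2 := h6
        omega
      · exact absurd h5 (by decide)
      · exact absurd h5 (by decide)
      · exact absurd h5 (by decide)
      · have : 1 ≤ cl L' 6 := h6
        omega
    have c2 : 1 ≤ cl L 2 := by omega
    have c6 : 1 ≤ cl L 6 := by omega
    obtain ⟨p, L1, p1⟩ := take_link c2
    have l1 := (hl7.perm p1).c2
    have d6 : 1 ≤ cl L1 6 := by
      have := cl_perm p1 6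
      rw [cl_cons_ne (by decide)] at this
      omega
    obtain ⟨q, L2, p2⟩ := take_link d6
    have l2 := (l1.perm p2).c6
    have hpq : L.Perm ((2, p) :: (6, q) :: L2) := p1.trans (p2.cons _)
    have e2 := cl_perm hpq 2
    have e6 := cl_perm hpq 6
    rw [cl_cons_self, cl_cons_ne (by decide)] at e2
    rw [cl_cons_ne (by decide), cl_cons_self] at e6
    have h34 : ∀ {a b : V}, K a → K b → (cl L 2 + cl L 6 = 3) → a ≠ b → s(a, b) ∈ N0 := by
      intro a b ha hb h5 hab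
      rcases h3 with h3 | h3
      · omega
      · exact h3 a b ha hb hab
    by_cases f2 : 1 ≤ cl L2 2
    · obtain ⟨p', L3, p3⟩ := take_link f2
      have l3 := (l2.perm p3).c2
      by_cases f6 : 1 ≤ cl L3 6
      · obtain ⟨q', L4, p4⟩ := take_link f6
        have l4 := (l3.perm p4).c6
        have hp : L.Perm ((2, p) :: (2, p') :: (6, q) :: (6, q') :: L4) :=
          (hpq.trans (((p3.trans (p4.cons _)).cons _).cons _)).trans
            ((List.Perm.swap _ _ _).cons _)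
        exact at_perm hp (J2_four (pre_perm h hp) l4)
      · have l3' : le7 L3 0 1 0 := by
          obtain ⟨y0, y1, y2, y3, y4, y5, y6⟩ := l3
          exact ⟨y0, y1, y2, y3, y4, y5, by omega⟩
        have hp : L.Perm ((2, p) :: (2, p') :: (6, q) :: L3) :=
          (hpq.trans ((p3.cons _).cons _)).trans ((List.Perm.swap _ _ _).cons _)
        have hall := all_K (A := [(2, p), (2, p'), (6, q)]) (L := L3) (K := K) (by
          have : (L.countP fun e => K e.2) =
            (((2, p) :: (2, p') :: (6, q) :: L3 : List (Fin 7 × V)).countP fun e => K e.2) :=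
            hp.countP_eq _
          rw [this] at h2
          exact h2) (hrest L3 (fun e he => hp.symm.subset (by simp [he])) l3')
        have g2 := cl_perm p3 2
        have g6 := cl_perm p3 6
        rw [cl_cons_self] at g2
        rw [cl_cons_ne (by decide)] at g6
        have y2 := l3'.2.2.1
        have y6 := l3'.2.2.2.2.2.2
        exact at_perm hp (J2_three (pre_perm h hp) l3'
          (h34 (hall (2, p) (by simp)) (hall (6, q) (by simp)) (by omega)))
    · have f6 : 1 ≤ cl L2 6 := by omega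
      obtain ⟨q', L3, p3⟩ := take_link f6
      have l3 := (l2.perm p3).c6
      have g2 := cl_perm p3 2
      have g6 := cl_perm p3 6
      rw [cl_cons_ne (by decide)] at g2
      rw [cl_cons_self] at g6
      have l3' : le7 L3 0 1 0 := by
        obtain ⟨y0, y1, y2, y3, y4, y5, y6⟩ := l3
        exact ⟨y0, y1, by omega, y3, y4, y5, y6⟩
      have hp : L.Perm ((2, p) :: (6, q) :: (6, q') :: L3) := hpq.trans ((p3.cons _).cons _)
      have hall := all_K (A := [(2, p), (6, q), (6, q')]) (L := L3) (K := K) (by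
          have : (L.countP fun e => K e.2) =
            (((2, p) :: (6, q) :: (6, q') :: L3 : List (Fin 7 × V)).countP fun e => K e.2) :=
            hp.countP_eq _
          rw [this] at h2
          exact h2) (hrest L3 (fun e he => hp.symm.subset (by simp [he])) l3')
      have y2 := l3'.2.2.1
      have y6 := l3'.2.2.2.2.2.2
      exact at_perm hp (J2_three' (pre_perm h hp) l3'
        (h34 (hall (2, p) (by simp)) (hall (6, q) (by simp)) (by omega)))

end

end Helper85.Bn
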