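import Pool.Agent.helper85.L9.BnNum

/-!
# Families of classes

`fam Us ch r` : whatever the classes of the links are (disjoint classes of size at least three, the
sizes bounded by the slots `r`), not every `U` of the list `Us` contains all the ends of a class.
-/

set_option linter.unusedSimpArgs false

namespace Helper85.Bn

open Finset Helper42.L9 Helper19.Gadget Helper19.Kill

variable {V : Type*} {n : ℕ}

/-- all vectors below `r` supported in `U` -/
def vecs : List Bool → List ℕ → List (List ℕ)
  | _, [] => [[]]
  | [], _ :: rs => (vecs [] rs).map (0 :: ·)
  | b :: U, r :: rs => (vecs U rs).flatMap fun k =>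
      (List.range (if b then r + 1 else 1)).map (· :: k)

/-- difference -/
def sub2 (r k : List ℕ) : List ℕ := List.zipWith (· - ·) r k

/-- support in `U` -/
def supIn (U : List Bool) (k : List ℕ) : Bool := (a0L U k).all (Nat.beq 0)

/-- the family check -/
def fam : List (List Bool) → List (List ℕ) → List ℕ → Bool
  | [], _, _ => false
  | U :: Us, ch, r => (if ch.any (supIn U) = true then fam Us ch r else true) &&
      ((vecs U r).filter fun k => Nat.ble 3 k.sum).all fun k => fam Us (k :: ch) (sub2 r k)

theorem mem_vecs : ∀ (U : List Bool) (r k : List ℕ), k.length = r.length →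
    (∀ i, k.getD i 0 ≤ r.getD i 0) → (∀ i, U.getD i false = false → k.getD i 0 = 0) →
    k ∈ vecs U r
  | U, [], k, h, _, _ => by
    have : k = [] := List.length_eq_zero_iff.mp (by simpa using h)
    subst this
    cases U <;> simp [vecs]
  | [], r :: rs, [], h, _, _ => by simp at h
  | [], r :: rs, a :: k, h, h1, h2 => by
    have h3 := h2 0 (by simp)
    simp only [List.getD_cons_zero] at h3
    subst h3
    have ih := mem_vecs [] rs k (by simpa using h)
      (fun i => by simpa using h1 (i + 1)) (fun i _ => by simpa using h2 (i + 1) (by simp))
    simp only [vecs, List.mem_map]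
    exact ⟨k, ih, rfl⟩
  | b :: U, r :: rs, [], h, _, _ => by simp at h
  | b :: U, r :: rs, a :: k, h, h1, h2 => by
    have ih := mem_vecs U rs k (by simpa using h)
      (fun i => by simpa using h1 (i + 1)) (fun i hi => by simpa using h2 (i + 1) (by simpa using hi))
    simp only [vecs, List.mem_flatMap, List.mem_map, List.mem_range]
    refine ⟨k, ih, a, ?_, rfl⟩
    have h3 := h1 0
    simp only [List.getD_cons_zero] at h3
    cases b with
    | true => simp; omega
    | false =>
      have := h2 0 (by simp)
      simp only [List.getD_cons_zero] at this
      subst this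
      simp

theorem getD_sub2 : ∀ (r k : List ℕ) (i : ℕ), k.length = r.length →
    (sub2 r k).getD i 0 = r.getD i 0 - k.getD i 0
  | [], k, i, h => by simp [sub2]
  | r :: rs, [], i, h => by simp at h
  | r :: rs, a :: k, 0, h => by simp [sub2]
  | r :: rs, a :: k, i + 1, h => by
    have := getD_sub2 rs k i (by simpa using h)
    simpa [sub2] using this

theorem length_sub2 (r k : List ℕ) (h : k.length = r.length) : (sub2 r k).length = r.length := by
  simp [sub2, h]

theorem getD_ofFn (f : Fin n → ℕ) (i : ℕ) (hi : i < n) : (List.ofFn f).getD i 0 = f ⟨i, hi⟩ := by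
  rw [List.getD_eq_getElem?_getD, List.getElem?_ofFn, dif_pos hi]; rfl

theorem getD_ofFn_out (f : Fin n → ℕ) (i : ℕ) (hi : ¬ i < n) : (List.ofFn f).getD i 0 = 0 := by
  rw [List.getD_eq_getElem?_getD, List.getElem?_ofFn, dif_neg hi]; rfl

open Classical in
/-- number of links from `i` to the class of `v` -/
noncomputable def vc (R : V → V → Prop) (L : List (Fin n × V)) (v : V) (i : Fin n) : ℕ :=
  L.countP fun e => e.1 = i ∧ R v e.2

open Classical in
theorem sum_vc (R : V → V → Prop) (L : List (Fin n × V)) (v : V) :
    ∑ i, vc R L v i = L.countP fun e => R v e.2 := by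
  induction L with
  | nil => simp [vc]
  | cons e L ih =>
    by_cases h : R v e.2
    · rw [List.countP_cons_of_pos (by simpa using h), ← ih]
      have : ∀ i, vc R (e :: L) v i = vc R L v i + if i = e.1 then 1 else 0 := by
        intro i
        unfold vc
        by_cases hi : i = e.1
        · rw [if_pos hi, List.countP_cons_of_pos]
          simp only [decide_eq_true_eq]; exact ⟨hi.symm, h⟩
        · rw [if_neg hi, List.countP_cons_of_neg, add_zero]
          simp only [decide_eq_true_eq, not_and]; exact fun h2 => absurd h2.symm hi
      simp only [this]
      rw [Finset.sum_add_distrib, Finset.sum_ite_eq' Finset.univ e.1 fun _ => 1, if_pos (mem_univ _)]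
    · rw [List.countP_cons_of_neg (by simpa using h), ← ih]
      refine Finset.sum_congr rfl fun i _ => ?_
      unfold vc
      rw [List.countP_cons_of_neg]
      simp only [decide_eq_true_eq, not_and]; exact fun _ => h

open Classical in
theorem sum_classes {R : V → V → Prop} (hs : ∀ a b, R a b → R b a)
    (ht : ∀ a b c, R a b → R b c → R a c) (L : List (Fin n × V)) (reps : List V)
    (hp : reps.Pairwise fun a b => ¬ R a b) (i : Fin n) :
    (reps.map fun v => vc R L v i).sum ≤ cl L i := by
  induction L with
  | nil => simp [vc]
  | cons e L ih =>
    rw [cl_cons]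
    by_cases h : e.1 = i
    · rw [if_pos h]
      have h1 : (reps.map fun v => vc R (e :: L) v i).sum =
          (reps.map fun v => vc R L v i).sum + reps.countP fun v => R v e.2 := by
        clear hp ih
        induction reps with
        | nil => simp
        | cons v reps ih2 =>
          rw [List.map_cons, List.sum_cons, ih2, List.map_cons, List.sum_cons]
          by_cases hv : R v e.2
          · rw [List.countP_cons_of_pos (by simpa using hv)]
            have : vc R (e :: L) v i = vc R L v i + 1 := by
              unfold vc
              rw [List.countP_cons_of_pos]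
              simp only [decide_eq_true_eq]; exact ⟨h, hv⟩
            omega
          · rw [List.countP_cons_of_neg (by simpa using hv)]
            have : vc R (e :: L) v i = vc R L v i := by
              unfold vc
              rw [List.countP_cons_of_neg]
              simp only [decide_eq_true_eq, not_and]; exact fun _ => hv
            omega
      have h2 : (reps.countP fun v => R v e.2) ≤ 1 := by
        clear h1 ih
        induction reps with
        | nil => simp
        | cons v reps ih2 =>
          rw [List.pairwise_cons] at hp
          by_cases hv : R v e.2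
          · rw [List.countP_cons_of_pos (by simpa using hv)]
            have : (reps.countP fun v => R v e.2) = 0 := by
              rw [List.countP_eq_zero]
              intro w hw
              simp only [decide_eq_true_eq]
              intro hw2
              exact hp.1 w hw (ht _ _ _ hv (hs _ _ hw2))
            omega
          · rw [List.countP_cons_of_neg (by simpa using hv)]
            exact ih2 hp.2
      omega
    · rw [if_neg h, add_zero]
      refine le_trans (le_of_eq ?_) ih
      congr 1
      refine List.map_congr_left fun v _ => ?_
      unfold vc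
      rw [List.countP_cons_of_neg]
      simp only [decide_eq_true_eq, not_and]; exact fun h2 => absurd h2 h

open Classical in
/-- `U` fails -/
def Fails (R : V → V → Prop) (L : List (Fin n × V)) (U : Fin n → Prop) : Prop :=
  ∃ v0, (∀ e ∈ L, R v0 e.2 → U e.1) ∧ 3 ≤ L.countP fun e => R v0 e.2

open Classical in
theorem fam_sound {R : V → V → Prop} (hs : ∀ a b, R a b → R b a)
    (ht : ∀ a b c, R a b → R b c → R a c) (L : List (Fin n × V)) :
    ∀ (Us : List (List Bool)) (reps : List V) (r : List ℕ), r.length = n →
      reps.Pairwise (fun a b => ¬ R a b) →
      (∀ i : Fin n, cl L i ≤ (reps.map fun v => vc R L v i).sum + r.getD i 0) →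
      fam Us (reps.map fun v => List.ofFn (vc R L v)) r = true →
      (∀ U ∈ Us, Fails R L (msk U)) → False := by
  intro Us
  induction Us with
  | nil => intro reps r _ _ _ h; simp [fam] at h
  | cons U Us ih =>
    intro reps r hr hp hc h hf
    rw [fam, Bool.and_eq_true] at h
    obtain ⟨h1, h2⟩ := h
    obtain ⟨v0, hU, h3⟩ := hf U List.mem_cons_self
    have hf' : ∀ U ∈ Us, Fails R L (msk U) := fun U' hU' => hf U' (List.mem_cons_of_mem _ hU')
    have hz : ∀ i : Fin n, U.getD i false = false → vc R L v0 i = 0 := by
      intro i hi
      unfold vc
      rw [List.countP_eq_zero]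
      intro e he
      simp only [decide_eq_true_eq, not_and]
      intro h4 h5
      have := hU e he h5
      unfold msk at this
      rw [h4, hi] at this
      exact Bool.noConfusion this
    by_cases hex : ∃ w ∈ reps, R w v0
    · obtain ⟨w, hw, hwv⟩ := hex
      have h4 : ((reps.map fun v => List.ofFn (vc R L v)).any (supIn U)) = true := by
        rw [List.any_eq_true]
        refine ⟨List.ofFn (vc R L w), List.mem_map.mpr ⟨w, hw, rfl⟩, ?_⟩
        unfold supIn
        rw [List.all_eq_true]
        intro x hx
        rw [Nat.beq_eq]
        obtain ⟨i, hi, rfl⟩ := List.mem_iff_getElem.mp hx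
        have e1 : (a0L U (List.ofFn (vc R L w)))[i] = (a0L U (List.ofFn (vc R L w))).getD i 0 := by
          rw [List.getD_eq_getElem?_getD, List.getElem?_eq_getElem hi]; rfl
        rw [e1, getD_a0L]
        split_ifs with h5
        · rfl
        · by_cases hin : i < n
          · rw [getD_ofFn _ i hin]
            have h6 : vc R L w ⟨i, hin⟩ = vc R L v0 ⟨i, hin⟩ := by
              unfold vc
              apply List.countP_congr
              intro e _
              simp only [decide_eq_true_eq]
              constructor
              · exact fun h => ⟨h.1, ht _ _ _ (hs _ _ hwv) h.2⟩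
              · exact fun h => ⟨h.1, ht _ _ _ hwv h.2⟩
            rw [h6, hz ⟨i, hin⟩ (by simpa using h5)]
          · rw [getD_ofFn_out _ i hin]
      rw [if_pos h4] at h1
      exact ih reps r hr hp hc h1 hf'
    · push Not at hex
      have hp' : (v0 :: reps).Pairwise fun a b => ¬ R a b := by
        rw [List.pairwise_cons]
        exact ⟨fun w hw h => hex w hw (hs _ _ h), hp⟩
      have hle : ∀ i : Fin n, vc R L v0 i ≤ r.getD i 0 := by
        intro i
        have h4 := sum_classes hs ht L (v0 :: reps) hp' i
        rw [List.map_cons, List.sum_cons] at h4
        have h5 := hc i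
        omega
      have hlen : (List.ofFn (vc R L v0)).length = r.length := by rw [List.length_ofFn, hr]
      have hmem : List.ofFn (vc R L v0) ∈ (vecs U r).filter fun k => Nat.ble 3 k.sum := by
        rw [List.mem_filter]
        refine ⟨mem_vecs U r _ hlen ?_ ?_, ?_⟩
        · intro i
          by_cases hi : i < n
          · rw [getD_ofFn _ i hi]; exact hle ⟨i, hi⟩
          · rw [getD_ofFn_out _ i hi]; omega
        · intro i hi
          by_cases hin : i < n
          · rw [getD_ofFn _ i hin]; exact hz ⟨i, hin⟩ hi
          · rw [getD_ofFn_out _ i hin]
        · rw [Nat.ble_eq, List.sum_ofFn, sum_vc]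
          exact h3
      rw [List.all_eq_true] at h2
      have h6 := h2 _ hmem
      refine ih (v0 :: reps) (sub2 r (List.ofFn (vc R L v0))) ?_ hp' ?_ ?_ hf'
      · rw [length_sub2 _ _ hlen, hr]
      · intro i
        rw [getD_sub2 _ _ _ hlen, getD_ofFn _ _ i.2, List.map_cons, List.sum_cons]
        have := hc i
        have := hle i
        simp only [Fin.eta] at *
        omega
      · rw [List.map_cons]; exact h6

/-- `U` is small -/
def small (r : List ℕ) (U : List Bool) : Bool := Nat.ble r.sum ((a0L U r).sum + 2)

/-- the check of a leaf -/
def leafOK (Us : List (List Bool)) (r : List ℕ) : Bool := Us.any (small r) || fam Us [] r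

theorem sum_getD (l : List ℕ) (hl : l.length = n) : l.sum = ∑ i : Fin n, l.getD i 0 := by
  subst hl
  rw [← List.sum_ofFn]
  congr 1
  apply List.ext_getElem
  · simp
  · intro i h1 h2
    rw [List.getElem_ofFn, List.getD_eq_getElem?_getD, List.getElem?_eq_getElem h1]; rfl

open Classical in
theorem leaf_sound {R : V → V → Prop} (hs : ∀ a b, R a b → R b a)
    (ht : ∀ a b c, R a b → R b c → R a c) (L : List (Fin n × V)) (Us : List (List Bool))
    (r : List ℕ) (hr : r.length = n) (hc : ∀ i : Fin n, cl L i ≤ r.getD i 0)
    (h : leafOK Us r = true) : ∃ U ∈ Us, ¬ Fails R L (msk U) := by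
  by_contra hcon
  push Not at hcon
  rw [leafOK, Bool.or_eq_true, List.any_eq_true] at h
  rcases h with ⟨U, hU, h⟩ | h
  · obtain ⟨v0, h1, h2⟩ := hcon U hU
    unfold small at h
    rw [Nat.ble_eq, sum_getD r hr, sum_getD (a0L U r) (by rw [length_a0L, hr])] at h
    rw [← sum_vc] at h2
    have h3 : ∀ i : Fin n, vc R L v0 i + (a0L U r).getD i 0 ≤ r.getD i 0 := by
      intro i
      rw [getD_a0L]
      have h4 : vc R L v0 i ≤ cl L i := by
        unfold vc cl
        rw [← List.countP_eq_length_filter]
        apply List.countP_mono_left
        intro e _ he
        simp only [decide_eq_true_eq] at he ⊢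
        exact he.1
      split_ifs with h5
      · exact (h4.trans (hc i))
      · have h6 : vc R L v0 i = 0 := by
          unfold vc
          rw [List.countP_eq_zero]
          intro e he
          simp only [decide_eq_true_eq, not_and]
          intro h6 h7
          have := h1 e he h7
          unfold msk at this
          rw [h6] at this
          exact h5 this
        omega
    have h4 := Finset.sum_le_sum fun i (_ : i ∈ Finset.univ) => h3 i
    rw [Finset.sum_add_distrib] at h4
    omega
  · exact fam_sound hs ht L Us [] r hr List.Pairwise.nil (fun i => by simpa using hc i)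
      (by simpa using h) hcon

end Helper85.Bn
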