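import Pool.Agent.helper85.L9.BnMain

/-!
# Growing a block, and symmetries
-/

set_option linter.unusedSimpArgs false

namespace Helper85.Bn

open MvPolynomial Finset Helper42.L9 Helper19.Gadget Helper19.Kill Helper19.DN

variable {V : Type*} {n : ℕ} {c : V → ℕ}

/-- one more vertex -/
def ext1 (g : Fin n → V) (o : V) (i : Fin (n + 1)) : V :=
  if h : (i : ℕ) < n then g ⟨i, h⟩ else o

theorem ext1_lt (g : Fin n → V) (o : V) (i : Fin (n + 1)) (h : (i : ℕ) < n) :
    ext1 g o i = g ⟨i, h⟩ := dif_pos h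

theorem ext1_last (g : Fin n → V) (o : V) (i : Fin (n + 1)) (h : (i : ℕ) = n) :
    ext1 g o i = o := dif_neg (by omega)

theorem ext1_inj {g : Fin n → V} (hg : Function.Injective g) {o : V} (ho : ∀ i, g i ≠ o) :
    Function.Injective (ext1 g o) := by
  intro i j h
  unfold ext1 at h
  split_ifs at h with h1 h2 h2
  · have := congrArg Fin.val (hg h)
    exact Fin.ext this
  · exact absurd h (ho _)
  · exact absurd h.symm (ho _)
  · exact Fin.ext (by omega)

theorem ext1_off {g : Fin n → V} {o : V} {v : V} (h : ∀ i, ext1 g o i ≠ v) :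
    (∀ i, g i ≠ v) ∧ o ≠ v := by
  constructor
  · intro i hi
    have := h ⟨i, by omega⟩
    rw [ext1_lt g o ⟨i, by omega⟩ i.2] at this
    exact this hi
  · have := h ⟨n, by omega⟩
    rw [ext1_last g o ⟨n, by omega⟩ rfl] at this
    exact this

theorem off_ext1 {g : Fin n → V} {o : V} {v : V} (h : ∀ i, g i ≠ v) (ho : o ≠ v) :
    ∀ i, ext1 g o i ≠ v := by
  intro i
  unfold ext1
  split_ifs with h1
  · exact h _
  · exact ho

theorem emb_ext1 (g : Fin n → V) (o : V) : ∀ (E : List (Fin n × Fin n))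
    (E' : List (Fin (n + 1) × Fin (n + 1))), E'.map vE = E.map vE →
    emb (ext1 g o) E' = emb g E
  | [], [], _ => rfl
  | [], _ :: _, h => by simp at h
  | _ :: _, [], h => by simp at h
  | e :: E, e' :: E', h => by
    rw [List.map_cons, List.map_cons, List.cons.injEq] at h
    have ih := emb_ext1 g o E E' h.2
    have h1 := h.1
    unfold vE at h1
    rw [Prod.mk.injEq] at h1
    have e1 : emb (ext1 g o) (e' :: E') =
        s(ext1 g o e'.1, ext1 g o e'.2) ::ₘ emb (ext1 g o) E' := rfl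
    have e2 : emb g (e :: E) = s(g e.1, g e.2) ::ₘ emb g E := rfl
    have l1 : (e'.1 : ℕ) < n := by rw [h1.1]; exact e.1.2
    have l2 : (e'.2 : ℕ) < n := by rw [h1.2]; exact e.2.2
    have e3 : (⟨(e'.1 : ℕ), l1⟩ : Fin n) = e.1 := Fin.ext h1.1
    have e4 : (⟨(e'.2 : ℕ), l2⟩ : Fin n) = e.2 := Fin.ext h1.2
    rw [e1, e2, ih, ext1_lt g o e'.1 l1, ext1_lt g o e'.2 l2, e3, e4]

theorem Ctx.ext {g : Fin n → V} {N : Multiset (Sym2 V)} {o : V}
    (h : Ctx g (msk []) [] N c) : Ctx (ext1 g o) (msk []) [] N c := by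
  refine ⟨h.loopless, List.nodup_nil, by simp, ?_, ?_, ?_⟩
  · intro v hv _
    exact h.deg v (ext1_off hv).1 (by simp)
  · intro l1 w l2 hw
    exact absurd hw (by simp)
  · intro N' h1 h2
    refine h.noK4 N' h1 fun e he i hi => h2 e he ⟨i, by omega⟩ ?_
    rw [ext1_lt g o ⟨i, by omega⟩ i.2]
    exact hi

/-- edges as a multiset of pairs -/
def mE (E : List (Fin n × Fin n)) : Multiset (Sym2 (Fin n)) :=
  ((E.map fun e => s(e.1, e.2) : List (Sym2 (Fin n))) : Multiset (Sym2 (Fin n)))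

theorem emb_eq_map (g : Fin n → V) (E : List (Fin n × Fin n)) :
    emb g E = (mE E).map (Sym2.map g) := by
  unfold emb mE
  rw [Multiset.map_coe, List.map_map]
  rfl

/-- symmetry -/
theorem emb_symm {g : Fin n → V} {σ : Fin n → Fin n} {E E' : List (Fin n × Fin n)}
    (h : mE E' = (mE E).map (Sym2.map σ)) : emb g E' = emb (g ∘ σ) E := by
  rw [emb_eq_map, emb_eq_map, h, Multiset.map_map]
  congr 1
  funext e
  simp only [Function.comp, Sym2.map_map]

theorem Ctx.comp {g : Fin n → V} {N : Multiset (Sym2 V)} (σ : Fin n ≃ Fin n)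
    (h : Ctx g (msk []) [] N c) : Ctx (g ∘ σ) (msk []) [] N c := by
  refine ⟨h.loopless, List.nodup_nil, by simp, ?_, ?_, ?_⟩
  · intro v hv _
    refine h.deg v (fun i hi => hv (σ.symm i) ?_) (by simp)
    simpa using hi
  · intro l1 w l2 hw
    exact absurd hw (by simp)
  · intro N' h1 h2
    refine h.noK4 N' h1 fun e he i hi => h2 e he (σ.symm i) ?_
    simpa using hi

end Helper85.Bn
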