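import Pool.Agent.helper85.L9.BnPure

/-!
# Kernel check of pure certificates
-/

set_option linter.unusedSimpArgs false

namespace Helper85.Bn

open MvPolynomial Finset Helper42.L9 Helper19.Gadget Helper19.Kill

variable {n : ℕ}

/-- digits of `p` between `m - r` and `m` -/
def bx : ℕ → ℕ → ℕ → ℕ → Bool
  | 0, _, _, p => Nat.beq p 0
  | n + 1, m, r, p => Nat.ble (p % 8) (m % 8) && Nat.ble (m % 8) (p % 8 + r % 8) &&
      bx n (m / 8) (r / 8) (p / 8)

theorem bx_spec {n m r p : ℕ} : bx n m r p = true ↔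
    p < 8 ^ n ∧ ∀ i, i < n → p / 8 ^ i % 8 ≤ m / 8 ^ i % 8 ∧
      m / 8 ^ i % 8 ≤ p / 8 ^ i % 8 + r / 8 ^ i % 8 := by
  induction n generalizing m r p with
  | zero =>
    rw [bx, Nat.beq_eq]
    constructor
    · rintro rfl; exact ⟨by simp, by intro i hi; omega⟩
    · rintro ⟨h, _⟩; simpa using h
  | succ n ih =>
    rw [bx, Bool.and_eq_true, Bool.and_eq_true, Nat.ble_eq, Nat.ble_eq, ih]
    constructor
    · rintro ⟨⟨h1, h2⟩, h3, h4⟩
      refine ⟨by rw [pow_succ]; omega, ?_⟩
      intro i hi
      cases i with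
      | zero => simpa using ⟨h1, h2⟩
      | succ i =>
        have := h4 i (by omega)
        simp only [Nat.div_div_eq_div_mul] at this
        rw [pow_succ, mul_comm (8 ^ i) 8]
        exact this
    · rintro ⟨h1, h2⟩
      have h3 := h2 0 (by omega)
      simp only [pow_zero, Nat.div_one] at h3
      refine ⟨h3, by rw [pow_succ] at h1; omega, ?_⟩
      intro i hi
      have := h2 (i + 1) (by omega)
      rw [pow_succ, mul_comm (8 ^ i) 8] at this
      simp only [Nat.div_div_eq_div_mul]
      exact this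

/-- differences `m - p` -/
def sel (n m r : ℕ) (s : ℤ) : PL → PL → PL
  | [], acc => acc
  | p :: P, acc => if bx n m r p.1 = true then sel n m r s P ((m - p.1, s * p.2) :: acc)
      else sel n m r s P acc

theorem enc_add' (a b : Fin n →₀ ℕ) : enc (a + b) = enc a + enc b := by
  unfold enc
  simp only [Finsupp.coe_add, Pi.add_apply, add_mul, Finset.sum_add_distrib]

theorem enc_inj' {a b : Fin n →₀ ℕ} (ha : ∀ i, a i ≤ 7) (hb : ∀ i, b i ≤ 7)
    (h : enc a = enc b) : a = b := by
  rw [← dec_enc a ha, ← dec_enc b hb, h]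

theorem dec_apply (m : ℕ) (i : Fin n) : dec n m i = m / 8 ^ (i : ℕ) % 8 := by
  rw [dec, Finsupp.equivFunOnFinite_symm_apply_apply]

theorem dec_le (m : ℕ) (i : Fin n) : dec n m i ≤ 7 := by
  rw [dec_apply]; omega

theorem cfL_sel (m r : ℕ) (hm : m < 8 ^ n) (s : ℤ) (a : Fin n →₀ ℕ)
    (ha : ∀ i, a i ≤ dec n r i) (P acc : PL) :
    cfL (enc a) (sel n m r s P acc) =
      cfL (enc a) acc + s * (if a ≤ dec n m then cfL (enc (dec n m - a)) P else 0) := by
  induction P generalizing acc with
  | nil => rw [sel, cfL]; split_ifs <;> ring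
  | cons p P ih =>
    have key : (bx n m r p.1 = true ∧ m - p.1 = enc a) ↔
        (a ≤ dec n m ∧ p.1 = enc (dec n m - a)) := by
      rw [bx_spec]
      constructor
      · rintro ⟨⟨h1, h2⟩, h3⟩
        have e1 : enc (dec n p.1) = p.1 := enc_dec n p.1 h1
        have hle : dec n p.1 ≤ dec n m := by
          intro i
          rw [dec_apply, dec_apply]
          exact (h2 i i.2).1
        have e2 : dec n m = dec n p.1 + (dec n m - dec n p.1) := (add_tsub_cancel_of_le hle).symm
        have e3 : m = p.1 + enc (dec n m - dec n p.1) := by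
          conv_lhs => rw [← enc_dec n m hm, e2, enc_add', e1]
        have e4 : enc a = enc (dec n m - dec n p.1) := by omega
        have e5 : a = dec n m - dec n p.1 := by
          refine enc_inj' (fun i => (ha i).trans (dec_le _ _)) (fun i => ?_) e4
          rw [Finsupp.tsub_apply]
          have := dec_le (n := n) m i
          omega
        refine ⟨by rw [e5]; exact tsub_le_self, ?_⟩
        rw [e5, tsub_tsub_cancel_of_le hle, e1]
      · rintro ⟨h1, h2⟩
        have e2 : dec n m = (dec n m - a) + a := (tsub_add_cancel_of_le h1).symm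
        have e3 : m = p.1 + enc a := by
          conv_lhs => rw [← enc_dec n m hm, e2, enc_add', ← h2]
        have h7 : ∀ i, (dec n m - a) i ≤ 7 := by
          intro i
          rw [Finsupp.tsub_apply]
          have := dec_le (n := n) m i
          omega
        refine ⟨⟨by rw [h2]; exact enc_lt _ h7, ?_⟩, by omega⟩
        intro i hi
        have e4 : p.1 / 8 ^ i % 8 = (dec n m - a) ⟨i, hi⟩ := by
          rw [h2, enc_div _ h7 ⟨i, hi⟩]
        have e5 : dec n m ⟨i, hi⟩ = m / 8 ^ i % 8 := dec_apply m ⟨i, hi⟩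
        have e6 : dec n r ⟨i, hi⟩ = r / 8 ^ i % 8 := dec_apply r ⟨i, hi⟩
        have h8 := ha ⟨i, hi⟩
        have h9 := h1 ⟨i, hi⟩
        rw [Finsupp.tsub_apply] at e4
        rw [e4, ← e5, ← e6]
        omega
    rw [sel]
    by_cases hb : bx n m r p.1 = true
    · rw [if_pos hb, ih, cfL, cfL]
      by_cases he : m - p.1 = enc a
      · obtain ⟨h1, h2⟩ := key.mp ⟨hb, he⟩
        rw [if_pos he, if_pos h1, if_pos h2, if_pos h1]
        ring
      · have h1 : ¬ (a ≤ dec n m ∧ p.1 = enc (dec n m - a)) := fun h => he (key.mpr h).2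
        simp only [if_neg he]
        by_cases h2 : a ≤ dec n m
        · rw [if_pos h2, if_pos h2, if_neg fun h => h1 ⟨h2, h⟩]
          ring
        · rw [if_neg h2, if_neg h2]
          ring
    · rw [if_neg hb, ih, cfL]
      have h1 : ¬ (a ≤ dec n m ∧ p.1 = enc (dec n m - a)) := fun h => hb (key.mpr h).1
      by_cases h2 : a ≤ dec n m
      · rw [if_pos h2, if_pos h2, if_neg fun h => h1 ⟨h2, h⟩]
        ring
      · rw [if_neg h2, if_neg h2]

/-- the sum over the certificate -/
def tot (n r : ℕ) (P : PL) : List (ℤ × ℕ) → PL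
  | [] => []
  | q :: Q => mrg (2 * P.length) (sel n q.2 r q.1 P []) (tot n r P Q)

theorem cfL_tot (r : ℕ) (P : PL) (Q : List (ℤ × ℕ)) (hQ : ∀ q ∈ Q, q.2 < 8 ^ n)
    (a : Fin n →₀ ℕ) (ha : ∀ i, a i ≤ dec n r i) :
    cfL (enc a) (tot n r P Q) = (Q.map fun q =>
      q.1 * (if a ≤ dec n q.2 then cfL (enc (dec n q.2 - a)) P else 0)).sum := by
  induction Q with
  | nil => rfl
  | cons q Q ih =>
    rw [tot, cfL_mrg, cfL_sel q.2 r (hQ q List.mem_cons_self) q.1 a ha,
      ih fun q' hq' => hQ q' (List.mem_cons_of_mem _ hq'), List.map_cons, List.sum_cons]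
    simp [cfL]

/-- the certificate as exponent vectors -/
noncomputable def decQ (n : ℕ) (Q : List (ℤ × ℕ)) : List (ℤ × (Fin n →₀ ℕ)) :=
  Q.map fun q => (q.1, dec n q.2)

theorem fn_decQ (cl : List ℕ) (h7 : ∀ i, cp cl i ≤ 7) (E : List (Fin n × Fin n)) (r : ℕ)
    (Q : List (ℤ × ℕ)) (hQ : ∀ q ∈ Q, q.2 < 8 ^ n ∧ ∀ i : Fin n, dec n q.2 i ≤ cp cl i)
    (a : Fin n →₀ ℕ) (ha : ∀ i, a i ≤ dec n r i) :
    fn (decQ n Q) (ep E * monomial a 1) =
      cfL (enc a) (tot n r (fst (cp cl) (E.map fun e => ((e.1 : ℕ), (e.2 : ℕ)))) Q) := by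
  rw [cfL_tot r _ Q (fun q hq => (hQ q hq).1) a ha]
  unfold fn decQ
  rw [List.map_map]
  congr 1
  refine List.map_congr_left fun q hq => ?_
  simp only [Function.comp]
  rw [coeff_mul_monomial', mul_one]
  congr 1
  split_ifs with h
  · rw [cfL_fst (cp cl) h7 E]
    intro i
    rw [Finsupp.tsub_apply]
    have := (hQ q hq).2 i
    omega
  · rfl

/-- code of a list of digits -/
def cd : List ℕ → ℕ
  | [] => 0
  | a :: l => a + 8 * cd l

theorem cd_div : ∀ (l : List ℕ), (∀ x ∈ l, x ≤ 7) → ∀ i, cd l / 8 ^ i % 8 = l.getD i 0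
  | [], _, i => by simp [cd]
  | a :: l, h, 0 => by
    have := h a List.mem_cons_self
    simp only [cd, pow_zero, Nat.div_one, List.getD_cons_zero]
    omega
  | a :: l, h, i + 1 => by
    have h1 := h a List.mem_cons_self
    have h2 := cd_div l (fun x hx => h x (List.mem_cons_of_mem _ hx)) i
    rw [List.getD_cons_succ, ← h2, cd, pow_succ, mul_comm (8 ^ i) 8, ← Nat.div_div_eq_div_mul]
    congr 2
    omega

theorem cd_lt : ∀ (l : List ℕ), (∀ x ∈ l, x ≤ 7) → cd l < 8 ^ l.length
  | [], _ => by simp [cd]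
  | a :: l, h => by
    have h1 := h a List.mem_cons_self
    have h2 := cd_lt l fun x hx => h x (List.mem_cons_of_mem _ hx)
    rw [cd, List.length_cons, pow_succ]
    omega

/-- the exponents paid by the block, as a list -/
def a0L : List Bool → List ℕ → List ℕ
  | _, [] => []
  | [], r :: rs => r :: a0L [] rs
  | b :: U, r :: rs => (if b then 0 else r) :: a0L U rs

theorem getD_a0L : ∀ (U : List Bool) (r : List ℕ) (i : ℕ),
    (a0L U r).getD i 0 = if U.getD i false = true then 0 else r.getD i 0
  | U, [], i => by cases U <;> simp [a0L]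
  | [], r :: rs, 0 => by simp [a0L]
  | [], r :: rs, i + 1 => by
    have := getD_a0L [] rs i
    simpa [a0L] using this
  | b :: U, r :: rs, 0 => by simp [a0L]
  | b :: U, r :: rs, i + 1 => by
    have := getD_a0L U rs i
    simpa [a0L] using this

theorem length_a0L : ∀ (U : List Bool) (r : List ℕ), (a0L U r).length = r.length
  | U, [] => by cases U <;> simp [a0L]
  | [], r :: rs => by simp [a0L, length_a0L [] rs]
  | b :: U, r :: rs => by simp [a0L, length_a0L U rs]

/-- the predicate of a mask -/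
def msk (U : List Bool) (i : Fin n) : Prop := U.getD i false = true

instance (U : List Bool) : DecidablePred (msk (n := n) U) := fun _ => by
  unfold msk; infer_instance

/-- numeric check of a certificate: `F` is the evaluated sum -/
def finOK (U : List Bool) (r : List ℕ) (D : ℤ) (F : PL) : Bool :=
  match F with
  | [p] => Nat.beq p.1 (cd (a0L U r)) && decide (p.2 = D)
  | _ => false

/-- digits of the certificate -/
def okQ (n : ℕ) (cl : List ℕ) (Q : List (ℤ × ℕ)) : Bool :=
  Q.all fun q => decide (q.2 < 8 ^ n) && okc cl n q.2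

/-- forced version -/
def totC (n r : ℕ) (P : PL) : List (ℤ × ℕ) → (PL → Bool) → Bool
  | [], f => f []
  | q :: Q, f => totC n r P Q fun T => frcL (sel n q.2 r q.1 P []) fun S =>
      frcL (mrg (2 * P.length) S T) f

theorem totC_eq (n r : ℕ) (P : PL) (Q : List (ℤ × ℕ)) (f : PL → Bool) :
    totC n r P Q f = f (tot n r P Q) := by
  induction Q generalizing f with
  | nil => rfl
  | cons q Q ih => rw [totC, ih, frcL_eq, frcL_eq, tot]

theorem hp_of_num (cl : List ℕ) (h7 : ∀ i, cp cl i ≤ 7) (E : List (Fin n × Fin n))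
    (r : List ℕ) (hrl : r.length = n) (hr : ∀ x ∈ r, x ≤ 7) (U : List Bool) (D : ℤ)
    (Q : List (ℤ × ℕ))
    (hQ : okQ n cl Q = true)
    (h : finOK U r D (tot n (cd r) (fst (cp cl) (E.map fun e => ((e.1 : ℕ), (e.2 : ℕ)))) Q) =
      true) :
    Hp (decQ n Q) (ep E) (fun i => r.getD i 0) (msk U) D := by
  intro a ha
  have hr' : ∀ i : Fin n, dec n (cd r) i = r.getD i 0 := fun i => by
    rw [dec_apply, cd_div r hr]
  have hr7 : ∀ i : ℕ, r.getD i 0 ≤ 7 := by
    intro i
    rw [List.getD_eq_getElem?_getD]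
    rcases hi : r[i]? with _ | x
    · simp
    · exact hr x (List.mem_of_getElem? hi)
  rw [fn_decQ cl h7 E (cd r) Q ?_ a (fun i => by rw [hr']; exact ha i)]
  · set F := tot n (cd r) (fst (cp cl) (E.map fun e => ((e.1 : ℕ), (e.2 : ℕ)))) Q with hF
    clear_value F
    unfold finOK at h
    split at h
    · next p =>
      rw [Bool.and_eq_true, Nat.beq_eq, decide_eq_true_eq] at h
      obtain ⟨h1, h2⟩ := h
      have hz : ∀ x ∈ a0L U r, x ≤ 7 := by
        intro x hx
        obtain ⟨i, hi, rfl⟩ := List.mem_iff_getElem.mp hx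
        have e1 : (a0L U r)[i] = (a0L U r).getD i 0 := by
          rw [List.getD_eq_getElem?_getD, List.getElem?_eq_getElem hi]; rfl
        rw [e1, getD_a0L]
        split_ifs
        · omega
        · exact hr7 i
      have ha7 : ∀ i, a i ≤ 7 := fun i => (ha i).trans (hr7 i)
      have hlt : cd (a0L U r) < 8 ^ n := by
        have := cd_lt _ hz
        rw [length_a0L, hrl] at this
        exact this
      have key : (p.1 = enc a) ↔ (∀ i, a i = a0 (fun i => r.getD (i : ℕ) 0) (msk U) i) := by
        rw [h1]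
        constructor
        · intro h3 i
          have h5 : dec n (cd (a0L U r)) = a := by rw [h3, dec_enc a ha7]
          rw [← h5, dec_apply, cd_div _ hz, getD_a0L]
          rfl
        · intro h3
          rw [← enc_dec n _ hlt]
          congr 1
          ext i
          rw [h3 i, dec_apply, cd_div _ hz, getD_a0L]
          rfl
      rw [cfL, cfL, add_zero]
      by_cases h5 : p.1 = enc a
      · rw [if_pos h5, if_pos (key.mp h5), h2]
      · rw [if_neg h5, if_neg fun h6 => h5 (key.mpr h6)]
    · exact absurd h (by simp)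
  · intro q hq
    unfold okQ at hQ
    rw [List.all_eq_true] at hQ
    have := hQ q hq
    rw [Bool.and_eq_true, decide_eq_true_eq] at this
    refine ⟨this.1, fun i => ?_⟩
    rw [dec_apply]
    exact okc_spec this.2 i i.2

end Helper85.Bn
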