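import Pool.Agent.helper19.L9.Kill

/-!
# Pure certificates for root blocks

`Hp Q P r U D` : the functional `∑ q * coeff μ` (over the list `Q`) sees, among all the products
`P * X ^ a` with `a ≤ r`, only the one in which the vertices of `U` pay nothing and the others pay
everything.  It is stable under inner links which are cut by `U`, under dead slots, and it gives
the Alon-Tarsi property when the outside can pay the links of `U` (`Hp.at`).
-/

set_option linter.unusedSimpArgs false

namespace Helper85.Bn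

open MvPolynomial Finset Helper42.L9 Helper19.Gadget Helper19.Kill

variable {V : Type*} {n : ℕ} {c : V → ℕ}

/-- the functional -/
noncomputable def fn (Q : List (ℤ × (Fin n →₀ ℕ))) (P : MvPolynomial (Fin n) ℤ) : ℤ :=
  (Q.map fun p => p.1 * coeff p.2 P).sum

theorem fn_sub (Q : List (ℤ × (Fin n →₀ ℕ))) (P P' : MvPolynomial (Fin n) ℤ) :
    fn Q (P - P') = fn Q P - fn Q P' := by
  unfold fn
  induction Q with
  | nil => simp
  | cons p Q ih =>
    simp only [List.map_cons, List.sum_cons] at ih ⊢
    rw [ih, coeff_sub]; ring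

/-- the exponents paid by the block -/
def a0 (r : Fin n → ℕ) (U : Fin n → Prop) [DecidablePred U] (i : Fin n) : ℕ :=
  if U i then 0 else r i

/-- pure certificate -/
def Hp (Q : List (ℤ × (Fin n →₀ ℕ))) (P : MvPolynomial (Fin n) ℤ) (r : Fin n → ℕ)
    (U : Fin n → Prop) [DecidablePred U] (D : ℤ) : Prop :=
  ∀ a : Fin n →₀ ℕ, (∀ i, a i ≤ r i) →
    fn Q (P * monomial a 1) = if (∀ i, a i = a0 r U i) then D else 0

variable {Q : List (ℤ × (Fin n →₀ ℕ))} {P : MvPolynomial (Fin n) ℤ} {r : Fin n → ℕ}
  {U : Fin n → Prop} [DecidablePred U] {D : ℤ}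

theorem mul_X_monomial (P : MvPolynomial (Fin n) ℤ) (i : Fin n) (a : Fin n →₀ ℕ) :
    P * X i * monomial a 1 = P * monomial (a + Finsupp.single i 1) 1 := by
  rw [mul_assoc]
  congr 1
  rw [X, monomial_mul, one_mul, add_comm]

/-- dead slot of a vertex of `U` -/
theorem Hp.deadU (h : Hp Q P r U D) (j : Fin n) (hj : U j) (r' : Fin n → ℕ)
    (hr : ∀ i, i ≠ j → r' i = r i) (hr' : r' j ≤ r j) : Hp Q P r' U D := by
  intro a ha
  rw [h a fun i => by
    by_cases hi : i = j
    · subst hi; exact (ha i).trans hr'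
    · rw [← hr i hi]; exact ha i]
  congr 1
  apply propext
  refine forall_congr' fun i => ?_
  unfold a0
  by_cases hi : i = j
  · subst hi; rw [if_pos hj, if_pos hj]
  · rw [hr i hi]

/-- one slot of a vertex outside `U` pays -/
theorem Hp.payX (h : Hp Q P r U D) (j : Fin n) (hj : ¬ U j) (r' : Fin n → ℕ)
    (hr : ∀ i, i ≠ j → r' i = r i) (hr' : r' j + 1 = r j) : Hp Q (P * X j) r' U D := by
  intro a ha
  rw [mul_X_monomial, h (a + Finsupp.single j 1) fun i => by
    rw [Finsupp.add_apply, Finsupp.single_apply]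
    by_cases hi : j = i
    · subst hi; rw [if_pos rfl, ← hr']; exact Nat.succ_le_succ (ha j)
    · rw [if_neg hi, add_zero, ← hr i (Ne.symm hi)]; exact ha i]
  congr 1
  apply propext
  refine forall_congr' fun i => ?_
  unfold a0
  rw [Finsupp.add_apply, Finsupp.single_apply]
  by_cases hi : j = i
  · subst hi; rw [if_pos rfl, if_neg hj, if_neg hj, ← hr']; omega
  · rw [if_neg hi, add_zero, hr i (Ne.symm hi)]

/-- one slot of a vertex of `U` cannot pay -/
theorem Hp.payU (h : Hp Q P r U D) (j : Fin n) (hj : U j) (a : Fin n →₀ ℕ)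
    (ha : ∀ i, i ≠ j → a i ≤ r i) (ha' : a j + 1 ≤ r j) :
    fn Q (P * X j * monomial a 1) = 0 := by
  rw [mul_X_monomial, h (a + Finsupp.single j 1) fun i => by
    rw [Finsupp.add_apply, Finsupp.single_apply]
    by_cases hi : j = i
    · subst hi; rw [if_pos rfl]; exact ha'
    · rw [if_neg hi, add_zero]; exact ha i (Ne.symm hi)]
  rw [if_neg]
  intro hall
  have := hall j
  unfold a0 at this
  rw [if_pos hj, Finsupp.add_apply, Finsupp.single_apply, if_pos rfl] at this
  omega

/-- a slot of a vertex outside `U` must pay -/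
theorem Hp.notPay (h : Hp Q P r U D) (j : Fin n) (hj : ¬ U j) (a : Fin n →₀ ℕ)
    (ha : ∀ i, a i ≤ r i) (ha' : a j + 1 ≤ r j) :
    fn Q (P * monomial a 1) = 0 := by
  rw [h a ha, if_neg]
  intro hall
  have := hall j
  unfold a0 at this
  rw [if_neg hj] at this
  omega

/-- inner link, cut by `U` -/
theorem Hp.cut (h : Hp Q P r U D) (i j : Fin n) (hi : U i) (hj : ¬ U j) (r' : Fin n → ℕ)
    (hr : ∀ k, k ≠ i → k ≠ j → r' k = r k) (hri : r' i + 1 = r i) (hrj : r' j + 1 = r j) :
    Hp Q (P * (X i - X j)) r' U (-D) := by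
  have hij : i ≠ j := by rintro rfl; exact hj hi
  intro a ha
  rw [mul_sub, sub_mul, fn_sub]
  have h1 : fn Q (P * X i * monomial a 1) = 0 := by
    refine h.payU i hi a (fun k hk => ?_) (by rw [← hri]; exact Nat.succ_le_succ (ha i))
    by_cases hkj : k = j
    · subst hkj; have := ha k; omega
    · rw [← hr k hk hkj]; exact ha k
  have h2 := (h.payX j hj (fun k => if k = j then r' j else r k)
    (fun k hk => by simp only [if_neg hk]) (by simp only [if_pos]; exact hrj)) a (fun k => by
      simp only
      split_ifs with hk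
      · subst hk; exact ha k
      · by_cases hki : k = i
        · subst hki; have := ha k; omega
        · rw [← hr k hki hk]; exact ha k)
  rw [h1, h2, zero_sub]
  have key : (∀ k, a k = a0 (fun k => if k = j then r' j else r k) U k) ↔
      (∀ k, a k = a0 r' U k) := by
    refine forall_congr' fun k => ?_
    unfold a0
    by_cases hk : k = j
    · subst hk; simp only [if_pos]
    · by_cases hki : k = i
      · subst hki; rw [if_pos hi, if_pos hi]
      · simp only [if_neg hk]; rw [hr k hki hk]
  by_cases hc : ∀ k, a k = a0 r' U k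
  · rw [if_pos (key.mpr hc), if_pos hc]
  · rw [if_neg (fun h' => hc (key.mp h')), if_neg hc, neg_zero]

/-! ### links -/

/-- number of links at `i` -/
def cl (L : List (Fin n × V)) (i : Fin n) : ℕ := (L.filter fun e => e.1 = i).length

theorem cl_cons (e : Fin n × V) (L : List (Fin n × V)) (i : Fin n) :
    cl (e :: L) i = cl L i + if e.1 = i then 1 else 0 := by
  unfold cl
  by_cases h : e.1 = i
  · rw [List.filter_cons_of_pos (by simpa using h), List.length_cons, if_pos h]
  · rw [List.filter_cons_of_neg (by simpa using h), if_neg h, add_zero]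

/-- polynomial of the links -/
noncomputable def lkp (g : Fin n → V) (L : List (Fin n × V)) : MvPolynomial V ℤ :=
  (L.map fun e => X (g e.1) - X e.2).prod

/-- the monomial paid outside -/
noncomputable def out (U : Fin n → Prop) [DecidablePred U] (L : List (Fin n × V)) :
    MvPolynomial V ℤ :=
  ((L.filter fun e => U e.1).map fun e => (X e.2 : MvPolynomial V ℤ)).prod

/-- coefficient sum -/
noncomputable def cs (g : Fin n → V) (Q : List (ℤ × (Fin n →₀ ℕ))) (t : V →₀ ℕ)
    (R : MvPolynomial V ℤ) : ℤ :=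
  (Q.map fun p => p.1 * coeff (Finsupp.mapDomain g p.2 + t) R).sum

theorem cs_sub (g : Fin n → V) (Q : List (ℤ × (Fin n →₀ ℕ))) (t : V →₀ ℕ)
    (R R' : MvPolynomial V ℤ) : cs g Q t (R - R') = cs g Q t R - cs g Q t R' := by
  unfold cs
  induction Q with
  | nil => simp
  | cons p Q ih =>
    simp only [List.map_cons, List.sum_cons] at ih ⊢
    rw [ih, coeff_sub]; ring

theorem cs_base {g : Fin n → V} (hg : Function.Injective g) (Q : List (ℤ × (Fin n →₀ ℕ)))
    (P : MvPolynomial (Fin n) ℤ) {G : MvPolynomial V ℤ} (hG : ∀ i, Fr (g i) G) {t : V →₀ ℕ}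
    (ht : ∀ i, t (g i) = 0) : cs g Q t (rename g P * G) = fn Q P * coeff t G := by
  unfold cs fn
  induction Q with
  | nil => simp
  | cons p Q ih =>
    simp only [List.map_cons, List.sum_cons, ih]
    rw [coeff_rename_mul hg P hG p.2 ht]; ring

theorem cs_step (g : Fin n → V) (Q : List (ℤ × (Fin n →₀ ℕ))) (t : V →₀ ℕ)
    (P : MvPolynomial (Fin n) ℤ) (e : Fin n × V) (L : List (Fin n × V)) (G : MvPolynomial V ℤ) :
    cs g Q t (rename g P * (lkp g (e :: L) * G)) =
      cs g Q t (rename g (P * X e.1) * (lkp g L * G)) -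
      cs g Q t (rename g P * (lkp g L * (X e.2 * G))) := by
  rw [← cs_sub]
  congr 1
  unfold lkp
  rw [List.map_cons, List.prod_cons, map_mul, rename_X]
  ring

theorem cs_zero {g : Fin n → V} (hg : Function.Injective g) {t : V →₀ ℕ}
    (ht : ∀ i, t (g i) = 0) : ∀ (L : List (Fin n × V)) (P : MvPolynomial (Fin n) ℤ)
      (G : MvPolynomial V ℤ), (∀ e ∈ L, ∀ i, g i ≠ e.2) → (∀ i, Fr (g i) G) →
      (∀ a : Fin n →₀ ℕ, (∀ i, a i ≤ cl L i) → fn Q (P * monomial a 1) = 0) →
      cs g Q t (rename g P * (lkp g L * G)) = 0 := by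
  intro L
  induction L with
  | nil =>
    intro P G _ hG h
    have h0 := h 0 fun i => Nat.zero_le _
    have e1 : P * monomial 0 1 = P := by
      rw [show (monomial (0 : Fin n →₀ ℕ) (1 : ℤ)) = 1 from rfl, mul_one]
    rw [e1] at h0
    unfold lkp
    rw [List.map_nil, List.prod_nil, one_mul, cs_base hg Q P hG ht, h0, zero_mul]
  | cons e L ih =>
    intro P G hL hG h
    rw [cs_step]
    rw [ih (P * X e.1) G (fun e' he' => hL e' (List.mem_cons_of_mem _ he')) hG ?_,
      ih P (X e.2 * G) (fun e' he' => hL e' (List.mem_cons_of_mem _ he')) ?_ ?_, sub_zero]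
    · intro i
      exact (fr_X (Ne.symm (hL e List.mem_cons_self i))).mul (hG i)
    · intro a ha
      exact h a fun i => (ha i).trans (by rw [cl_cons]; omega)
    · intro a ha
      rw [mul_X_monomial]
      refine h _ fun i => ?_
      rw [cl_cons, Finsupp.add_apply, Finsupp.single_apply]
      have := ha i
      omega

theorem cs_pure {g : Fin n → V} (hg : Function.Injective g) {t : V →₀ ℕ}
    (ht : ∀ i, t (g i) = 0) : ∀ (L : List (Fin n × V)) (P : MvPolynomial (Fin n) ℤ) (D : ℤ)
      (G : MvPolynomial V ℤ), (∀ e ∈ L, ∀ i, g i ≠ e.2) → (∀ i, Fr (g i) G) →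
      Hp Q P (cl L) U D →
      ∃ s : ℤ, (s = 1 ∨ s = -1) ∧
        cs g Q t (rename g P * (lkp g L * G)) = s * (D * coeff t (out U L * G)) := by
  intro L
  induction L with
  | nil =>
    intro P D G _ hG h
    refine ⟨1, Or.inl rfl, ?_⟩
    have h0 := h 0 fun i => Nat.zero_le _
    have e1 : P * monomial 0 1 = P := by
      rw [show (monomial (0 : Fin n →₀ ℕ) (1 : ℤ)) = 1 from rfl, mul_one]
    rw [e1, if_pos] at h0
    · unfold lkp out
      rw [List.map_nil, List.prod_nil, one_mul, cs_base hg Q P hG ht, h0, List.filter_nil,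
        List.map_nil, List.prod_nil, one_mul, one_mul]
    · intro i
      unfold a0 cl
      simp
  | cons e L ih =>
    intro P D G hL hG h
    have hL' : ∀ e' ∈ L, ∀ i, g i ≠ e'.2 := fun e' he' => hL e' (List.mem_cons_of_mem _ he')
    have hG' : ∀ i, Fr (g i) (X e.2 * G) := fun i =>
      (fr_X (Ne.symm (hL e List.mem_cons_self i))).mul (hG i)
    rw [cs_step]
    by_cases hU : U e.1
    · have h1 : cs g Q t (rename g (P * X e.1) * (lkp g L * G)) = 0 := by
        refine cs_zero hg ht L _ G hL' hG fun a ha => ?_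
        refine h.payU e.1 hU a (fun i hi => (ha i).trans (by rw [cl_cons]; omega)) ?_
        rw [cl_cons, if_pos rfl]
        exact Nat.succ_le_succ (ha e.1)
      obtain ⟨s, hs, hs'⟩ := ih P D (X e.2 * G) hL' hG' (h.deadU e.1 hU (cl L)
        (fun i hi => by rw [cl_cons, if_neg (Ne.symm hi), add_zero]) (by rw [cl_cons]; omega))
      refine ⟨-s, by rcases hs with rfl | rfl <;> simp, ?_⟩
      have e2 : out U (e :: L) * G = out U L * (X e.2 * G) := by
        unfold out
        rw [List.filter_cons_of_pos (by simpa using hU), List.map_cons, List.prod_cons]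
        ring
      rw [h1, hs', e2]; ring
    · have h1 : cs g Q t (rename g P * (lkp g L * (X e.2 * G))) = 0 := by
        refine cs_zero hg ht L _ _ hL' hG' fun a ha => ?_
        refine h.notPay e.1 hU a (fun i => (ha i).trans (by rw [cl_cons]; omega)) ?_
        rw [cl_cons, if_pos rfl]
        exact Nat.succ_le_succ (ha e.1)
      obtain ⟨s, hs, hs'⟩ := ih (P * X e.1) D G hL' hG (h.payX e.1 hU (cl L)
        (fun i hi => by rw [cl_cons, if_neg (Ne.symm hi), add_zero])
        (by rw [cl_cons, if_pos rfl]))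
      refine ⟨s, hs, ?_⟩
      have e2 : out U (e :: L) = out U L := by
        unfold out
        rw [List.filter_cons_of_neg (by simpa using hU)]
      rw [h1, hs', e2, sub_zero]

/-- fewer links than slots -/
theorem Hp.pad (h : Hp Q P r U D) (r' : Fin n → ℕ) (hr : ∀ i, r' i ≤ r i) :
    ∃ S : MvPolynomial (Fin n) ℤ, Hp Q (P * S) r' U D := by
  classical
  refine ⟨monomial (Finsupp.equivFunOnFinite.symm fun i => if U i then 0 else r i - r' i) 1, ?_⟩
  intro a ha
  rw [mul_assoc, monomial_mul, one_mul, h]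
  · congr 1
    apply propext
    refine forall_congr' fun i => ?_
    have h1 := hr i
    have h2 := ha i
    unfold a0
    rw [Finsupp.add_apply, Finsupp.equivFunOnFinite_symm_apply_apply]
    split_ifs with hU
    · rw [zero_add]
    · omega
  · intro i
    have h1 := hr i
    have h2 := ha i
    rw [Finsupp.add_apply, Finsupp.equivFunOnFinite_symm_apply_apply]
    split_ifs with hU
    · omega
    · omega

theorem exists_of_cs {g : Fin n → V} {t : V →₀ ℕ} {R : MvPolynomial V ℤ} (h : cs g Q t R ≠ 0) :
    ∃ p ∈ Q, coeff (Finsupp.mapDomain g p.2 + t) R ≠ 0 := by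
  unfold cs at h
  by_contra hcon
  push Not at hcon
  apply h
  apply List.sum_eq_zero
  intro x hx
  obtain ⟨p, hp, rfl⟩ := List.mem_map.mp hx
  rw [hcon p hp, mul_zero]

theorem fr_out {g : Fin n → V} (L : List (Fin n × V)) (hL : ∀ e ∈ L, ∀ i, g i ≠ e.2) (i : Fin n) :
    Fr (g i) (out U L) := by
  induction L with
  | nil => simpa [out] using fr_one (g i)
  | cons e L ih =>
    have ih' := ih fun e' he' => hL e' (List.mem_cons_of_mem _ he')
    unfold out at ih' ⊢
    by_cases hU : U e.1
    · rw [List.filter_cons_of_pos (by simpa using hU), List.map_cons, List.prod_cons]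
      exact (fr_X (Ne.symm (hL e List.mem_cons_self i))).mul ih'
    · rw [List.filter_cons_of_neg (by simpa using hU)]
      exact ih'

/-- **Pure certificates give Alon-Tarsi monomials.** -/
theorem sup_of_pure {g : Fin n → V} (hg : Function.Injective g) (H : Hp Q P r U D) (hD : D ≠ 0)
    (hQ : ∀ p ∈ Q, ∀ i, p.2 i ≤ c (g i)) (L : List (Fin n × V))
    (hL : ∀ e ∈ L, ∀ i, g i ≠ e.2) (hr : ∀ i, cl L i ≤ r i) {G : MvPolynomial V ℤ}
    (hG : ∀ i, Fr (g i) G) (hs : Sup (out U L * G) c) :
    Sup (rename g P * (lkp g L * G)) c := by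
  classical
  obtain ⟨S, hS⟩ := H.pad (cl L) hr
  obtain ⟨t, ht, hne⟩ := hs
  have ht0 : ∀ i, t (g i) = 0 := fun i => ((fr_out L hL i).mul (hG i)) t hne
  obtain ⟨s, hs, hs'⟩ := cs_pure hg ht0 L (P * S) D G hL hG hS
  have h1 : cs g Q t (rename g (P * S) * (lkp g L * G)) ≠ 0 := by
    rw [hs']
    rcases hs with rfl | rfl
    · rw [one_mul]; exact mul_ne_zero hD hne
    · rw [neg_one_mul, neg_ne_zero]; exact mul_ne_zero hD hne
  obtain ⟨p, hp, hp'⟩ := exists_of_cs h1
  have h2 : Sup (rename g (P * S) * (lkp g L * G)) c := by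
    refine ⟨Finsupp.mapDomain g p.2 + t, fun v => ?_, hp'⟩
    rw [Finsupp.add_apply]
    by_cases hv : ∃ i, g i = v
    · obtain ⟨i, rfl⟩ := hv
      rw [Finsupp.mapDomain_apply hg, ht0 i, add_zero]
      exact hQ p hp i
    · rw [Finsupp.mapDomain_of_notMem_range, zero_add]
      · exact ht v
      · rintro ⟨i, hi⟩; exact hv ⟨i, hi⟩
  have e1 : rename g (P * S) * (lkp g L * G) = rename g P * (lkp g L * G) * rename g S := by
    rw [map_mul]; ring
  rw [e1] at h2
  exact h2.of_mul

open Classical in
/-- number of links from `U` to `v` -/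
noncomputable def mU (U : Fin n → Prop) (L : List (Fin n × V)) (v : V) : ℕ :=
  L.countP fun e => U e.1 ∧ e.2 = v

theorem sup_out {G : MvPolynomial V ℤ} {c₀ : V → ℕ} (h : Sup G c₀) (L : List (Fin n × V)) :
    ∀ c : V → ℕ, (∀ v, c₀ v + mU U L v ≤ c v) → Sup (out U L * G) c := by
  classical
  induction L with
  | nil =>
    intro c hc
    unfold out
    rw [List.filter_nil, List.map_nil, List.prod_nil, one_mul]
    exact h.mono fun v => (Nat.le_add_right _ _).trans (hc v)
  | cons e L ih =>
    intro c hc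
    by_cases hU : U e.1
    · have e2 : out U (e :: L) * G = X e.2 * (out U L * G) := by
        unfold out
        rw [List.filter_cons_of_pos (by simpa using hU), List.map_cons, List.prod_cons]
        ring
      rw [e2]
      refine (ih (fun v => c₀ v + mU U L v) fun v => le_rfl).X_mul e.2 c (fun w hw => ?_) ?_
      · refine le_trans ?_ (hc w)
        unfold mU
        rw [List.countP_cons_of_neg]
        simp only [decide_eq_true_eq, not_and]
        exact fun _ h => hw h.symm
      · refine le_trans ?_ (hc e.2)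
        unfold mU
        rw [List.countP_cons_of_pos]
        · omega
        · simpa using hU
    · have e2 : out U (e :: L) = out U L := by
        unfold out
        rw [List.filter_cons_of_neg (by simpa using hU)]
      rw [e2]
      refine ih c fun v => le_trans ?_ (hc v)
      unfold mU
      rw [List.countP_cons_of_neg]
      simp only [decide_eq_true_eq, not_and]
      exact fun h => absurd h hU

/-! ### multigraph form -/

/-- the links as edges -/
def lkM (g : Fin n → V) (L : List (Fin n × V)) : Multiset (Sym2 V) :=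
  ((L.map fun e => s(g e.1, e.2) : List (Sym2 V)) : Multiset (Sym2 V))

theorem lkM_cons (g : Fin n → V) (e : Fin n × V) (L : List (Fin n × V)) :
    lkM g (e :: L) = s(g e.1, e.2) ::ₘ lkM g L := rfl

theorem gp_lkM (g : Fin n → V) (L : List (Fin n × V)) :
    gp (lkM g L) = lkp g L ∨ gp (lkM g L) = -lkp g L := by
  induction L with
  | nil => left; simp [lkM, lkp]
  | cons e L ih =>
    rw [lkM_cons]
    have e1 : lkp g (e :: L) = (X (g e.1) - X e.2) * lkp g L := by
      unfold lkp; rw [List.map_cons, List.prod_cons]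
    rcases gp_cons_mk (g e.1) e.2 (lkM g L) with h | h <;> rcases ih with h' | h'
    · left; rw [h, h', e1]
    · right; rw [h, h', e1]; ring
    · right; rw [h, h', e1]
    · left; rw [h, h', e1]; ring

/-- the links of a block without inner links -/
theorem exists_links (g : Fin n → V) (N : Multiset (Sym2 V))
    (hN : ∀ i j, s(g i, g j) ∉ N) :
    ∃ (L : List (Fin n × V)) (N0 : Multiset (Sym2 V)), N = lkM g L + N0 ∧
      (∀ e ∈ L, ∀ i, g i ≠ e.2) ∧ (∀ e ∈ N0, ∀ i, g i ∉ e) := by
  classical
  induction N using Multiset.induction_on with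
  | empty => exact ⟨[], 0, by simp [lkM], by simp, by simp⟩
  | cons e N ih =>
    obtain ⟨L, N0, rfl, h1, h2⟩ := ih fun i j h => hN i j (Multiset.mem_cons_of_mem h)
    by_cases he : ∃ i, g i ∈ e
    · obtain ⟨i, hi⟩ := he
      obtain ⟨o, rfl⟩ := hi
      refine ⟨(i, o) :: L, N0, by rw [lkM_cons, Multiset.cons_add], ?_, h2⟩
      intro e he j
      rcases List.mem_cons.mp he with rfl | he
      · rintro rfl
        exact hN i j (Multiset.mem_cons_self _ _)
      · exact h1 e he j
    · push Not at he
      refine ⟨L, e ::ₘ N0, by rw [Multiset.add_cons], h1, ?_⟩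
      intro e' he' j
      rcases Multiset.mem_cons.mp he' with rfl | he'
      · exact he j
      · exact h2 e' he' j

theorem dg_lkM {g : Fin n → V} (hg : Function.Injective g) (L : List (Fin n × V))
    (hL : ∀ e ∈ L, ∀ i, g i ≠ e.2) (i : Fin n) : dg (lkM g L) (g i) = cl L i := by
  classical
  induction L with
  | nil => simp [lkM, cl, dg]
  | cons e L ih =>
    have ih' := ih fun e' he' => hL e' (List.mem_cons_of_mem _ he')
    rw [lkM_cons, cl_cons]
    by_cases h : e.1 = i
    · rw [dg_cons_pos (by rw [h]; exact Sym2.mem_mk_left _ _), ih', if_pos h]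
    · rw [dg_cons_neg, ih', if_neg h, add_zero]
      rw [Sym2.mem_iff]
      rintro (h2 | h2)
      · exact h (hg h2.symm)
      · exact hL e List.mem_cons_self i h2

theorem dg_zero_of_fr {g : Fin n → V} {N0 : Multiset (Sym2 V)} (h : ∀ e ∈ N0, ∀ i, g i ∉ e)
    (i : Fin n) : dg N0 (g i) = 0 := by
  classical
  unfold dg
  rw [Multiset.countP_eq_zero]
  exact fun e he => h e he i

/-- the degree outside of the block -/
theorem dg_lkM_out {g : Fin n → V} (L : List (Fin n × V)) {v : V} (hv : ∀ i, g i ≠ v) :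
    dg (lkM g L) v = mU (fun _ => True) L v := by
  classical
  induction L with
  | nil => simp [lkM, mU, dg]
  | cons e L ih =>
    rw [lkM_cons]
    unfold mU at ih ⊢
    by_cases h : e.2 = v
    · rw [dg_cons_pos (by rw [h]; exact Sym2.mem_mk_right _ _), ih, List.countP_cons_of_pos]
      simpa using h
    · rw [dg_cons_neg, ih, List.countP_cons_of_neg]
      · simpa using h
      · rw [Sym2.mem_iff]
        rintro (h2 | h2)
        · exact hv _ h2.symm
        · exact h h2.symm

theorem at_of_pure {g : Fin n → V} (hg : Function.Injective g) (E : List (Fin n × Fin n))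
    (H : Hp Q (ep E) r U D) (hD : D ≠ 0)
    (hQ : ∀ p ∈ Q, ∀ i, p.2 i ≤ c (g i)) (L : List (Fin n × V))
    (hL : ∀ e ∈ L, ∀ i, g i ≠ e.2) (hr : ∀ i, cl L i ≤ r i) (N0 : Multiset (Sym2 V))
    (h0 : ∀ e ∈ N0, ∀ i, g i ∉ e) (hs : Sup (out U L * gp N0) c) :
    AT (emb g E + (lkM g L + N0)) c := by
  have h1 := sup_of_pure hg H hD hQ L hL hr (G := gp N0) (fun i => fr_gp fun e he => h0 e he i) hs
  unfold AT
  rw [gp_add, gp_add]
  have e0 : emb g E = blE g E := rfl
  rw [e0]
  rcases gp_blE g E with h2 | h2 <;> rcases gp_lkM g L with h3 | h3 <;> rw [h2, h3]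
  · exact h1
  · rw [neg_mul, mul_neg]; exact h1.neg
  · rw [neg_mul]; exact h1.neg
  · rw [neg_mul, neg_mul, mul_neg, neg_neg]; exact h1

end Helper85.Bn
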