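import Pool.Agent.helper2.L9.AtG
import Pool.Agent.helper85.L9.BnPure
import Pool.Agent.helper19.L9.Net

/-!
# The outside of a root block

If the outside cannot pay the links of `U`, then there is a class `K` of outer vertices (a component
of the outer graph) with at least three links, all from `U` (`out_fail`).
-/

set_option linter.unusedSimpArgs false

namespace Helper85.Bn

open MvPolynomial Finset Helper42.L9 Helper19.Gadget Helper19.Kill

variable {V : Type*} {n : ℕ} {c : V → ℕ}

/-- peel a list of vertices -/
theorem at_peel_list : ∀ (W : List V) (M : Multiset (Sym2 V)), (∀ e ∈ M, ¬ e.IsDiag) →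
    (∀ (l1 : List V) (w : V) (l2 : List V), W = l1 ++ w :: l2 →
      dg (outt (@List.toFinset V (Classical.decEq V) l1) M) w ≤ c w) →
    AT (outt (@List.toFinset V (Classical.decEq V) W) M) c → AT M c := by
  classical
  intro W
  induction W with
  | nil =>
    intro M _ _ h
    have e1 : (@List.toFinset V (Classical.decEq V) []) = ∅ := rfl
    rw [e1, Helper19.DN.outt_empty] at h
    exact h
  | cons w W ih =>
    intro M hl hW h
    have h1 := hW [] w W rfl
    have e1 : (@List.toFinset V (Classical.decEq V) []) = ∅ := rfl
    rw [e1, Helper19.DN.outt_empty] at h1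
    refine AT.peel w M c hl h1 (ih (outt {w} M)
      (fun e he => hl e (Multiset.mem_of_le (outt_le _ _) he)) ?_ ?_)
    · intro l1 x l2 hx
      have h2 := hW (w :: l1) x l2 (by rw [hx]; rfl)
      rw [Helper19.DN.outt_outt]
      have e2 : (@List.toFinset V (Classical.decEq V) (w :: l1)) =
          @List.toFinset V (Classical.decEq V) l1 ∪ {w} := by
        ext y; simp [or_comm]
      rw [e2] at h2
      convert h2
    · rw [Helper19.DN.outt_outt]
      have e2 : (@List.toFinset V (Classical.decEq V) (w :: W)) =
          @List.toFinset V (Classical.decEq V) W ∪ {w} := by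
        ext y; simp [or_comm]
      rw [e2] at h
      convert h

variable {M : Multiset (Sym2 V)}

theorem reach_iso {v w : V} (h : dg M v = 0) (hr : Reach M v w) : w = v := by
  induction hr with
  | refl => rfl
  | tail _ hbc ih =>
    subst ih
    exact absurd (Sym2.mem_mk_left _ _) (Helper19.DN.notMem_of_dg h _ hbc)

/-- `slots4` for a component without double edges -/
theorem slots4c (hl : ∀ e ∈ M, ¬ e.IsDiag) {v : V} (hv : dg M v ≠ 0)
    (hno : ∀ a l, IsCyc M a l → Reach M v a → ¬ Odd l.length)
    (hd : ∀ a b, Reach M v a → ¬ ({s(a, b), s(a, b)} : Multiset (Sym2 V)) ≤ M) :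
    (∃ A : Finset V, (∀ a ∈ A, Reach M v a) ∧ 4 ≤ ∑ a ∈ A, (3 - dg M a)) ∨
      (∃ a b d, Reach M v a ∧ Reach M v b ∧ Reach M v d ∧ s(a, b) ∈ M ∧ s(b, d) ∈ M ∧
        s(a, d) ∈ M ∧ a ≠ b ∧ b ≠ d ∧ a ≠ d ∧ dg M a = 2 ∧ dg M b = 2 ∧ dg M d = 2) := by
  classical
  set N := M.filter (fun e => ∀ u ∈ e, Reach M v u) with hN
  have hle : N ≤ M := Multiset.filter_le _ _
  have hmem : ∀ a b, Reach M v a → s(a, b) ∈ M → s(a, b) ∈ N := by
    intro a b ha hab
    rw [hN, Multiset.mem_filter]
    refine ⟨hab, fun u hu => ?_⟩
    rw [Sym2.mem_iff] at hu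
    rcases hu with rfl | rfl
    · exact ha
    · exact ha.tail hab
  have hdg : ∀ a, Reach M v a → dg N a = dg M a := by
    intro a ha
    unfold dg
    rw [hN, Multiset.countP_filter]
    refine Multiset.countP_congr rfl fun e he => ?_
    apply propext
    constructor
    · exact fun h => h.1
    · intro h
      refine ⟨h, ?_⟩
      obtain ⟨b, rfl⟩ := Sym2.mem_iff_exists.mp h
      have := hmem a b ha he
      rw [hN, Multiset.mem_filter] at this
      exact this.2
  have hre : ∀ a, Reach N v a → Reach M v a := fun a h => h.mono hle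
  have hnd : N.Nodup := by
    rw [Multiset.nodup_iff_le]
    intro e h
    induction e with
    | _ a b =>
      have h1 : s(a, b) ∈ N := Multiset.mem_of_le h (by simp)
      rw [hN, Multiset.mem_filter] at h1
      exact hd a b (h1.2 a (Sym2.mem_mk_left _ _)) (h.trans hle)
  have h4 := slots4 (M := N) hnd (fun e he => hl e (Multiset.mem_of_le hle he)) (v := v)
    (by rw [hdg v Relation.ReflTransGen.refl]; exact hv)
    (fun a l hc hr => hno a l ⟨hc.nodup, hc.len, fun e he => Multiset.mem_of_le hle (hc.sub e he)⟩
      (hre a hr))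
  rcases h4 with ⟨A, hA, h5⟩ | ⟨a, b, d, ha, hb, hd', h1, h2, h3, h6, h7, h8, h9, h10, h11⟩
  · left
    refine ⟨A, fun a ha => hre a (hA a ha), h5.trans (le_of_eq ?_)⟩
    exact Finset.sum_congr rfl fun a ha => by rw [hdg a (hre a (hA a ha))]
  · right
    exact ⟨a, b, d, hre a ha, hre b hb, hre d hd', Multiset.mem_of_le hle h1,
      Multiset.mem_of_le hle h2, Multiset.mem_of_le hle h3, h6, h7, h8,
      by rw [← hdg a (hre a ha)]; exact h9, by rw [← hdg b (hre b hb)]; exact h10,
      by rw [← hdg d (hre d hd')]; exact h11⟩

/-- three different edges at a vertex -/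
theorem three_le_dg {a x y z : V} (hx : s(a, x) ∈ M) (hy : s(a, y) ∈ M) (hz : s(a, z) ∈ M)
    (hxy : x ≠ y) (hxz : x ≠ z) (hyz : y ≠ z) : 3 ≤ dg M a := by
  classical
  have h1 : ({s(a, x), s(a, y), s(a, z)} : Multiset (Sym2 V)) ≤ M := by
    rw [Multiset.le_iff_subset]
    · intro e he
      simp only [Multiset.insert_eq_cons, Multiset.mem_cons, Multiset.mem_singleton] at he
      rcases he with rfl | rfl | rfl <;> assumption
    · simp only [Multiset.insert_eq_cons, Multiset.nodup_cons, Multiset.mem_cons,
        Multiset.mem_singleton, Multiset.nodup_singleton, and_true, not_or]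
      refine ⟨⟨?_, ?_⟩, ?_⟩ <;> intro h <;> rcases Sym2.eq_iff.mp h with ⟨_, h2⟩ | ⟨h2, h3⟩
      · exact hxy h2
      · exact hxy (h3.trans h2)
      · exact hxz h2
      · exact hxz (h3.trans h2)
      · exact hyz h2
      · exact hyz (h3.trans h2)
  have h2 := dg_le_of_le h1 a
  have h3 : dg ({s(a, x), s(a, y), s(a, z)} : Multiset (Sym2 V)) a = 3 := by
    rw [Multiset.insert_eq_cons, Multiset.insert_eq_cons, ← Multiset.cons_zero,
      dg_cons_pos (Sym2.mem_mk_left _ _), dg_cons_pos (Sym2.mem_mk_left _ _),
      dg_cons_pos (Sym2.mem_mk_left _ _)]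
    simp [dg]
  omega

/-- the component of a triangle whose vertices have degree two -/
theorem reach_tri {a b d : V} (h1 : s(a, b) ∈ M) (h2 : s(b, d) ∈ M) (h3 : s(a, d) ∈ M)
    (hab : a ≠ b) (hbd : b ≠ d) (had : a ≠ d) (da : dg M a = 2) (db : dg M b = 2)
    (dd : dg M d = 2) {w : V} (hr : Reach M a w) : w = a ∨ w = b ∨ w = d := by
  have h1' : s(b, a) ∈ M := by rw [Sym2.eq_swap]; exact h1
  have h2' : s(d, b) ∈ M := by rw [Sym2.eq_swap]; exact h2
  have h3' : s(d, a) ∈ M := by rw [Sym2.eq_swap]; exact h3
  induction hr with
  | refl => exact Or.inl rfl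
  | @tail x y _ hxy ih =>
    by_contra hcon
    push Not at hcon
    obtain ⟨n1, n2, n3⟩ := hcon
    rcases ih with rfl | rfl | rfl
    · have := three_le_dg hxy h1 h3 n2 n3 hbd; omega
    · have := three_le_dg hxy h1' h2 n1 n3 had; omega
    · have := three_le_dg hxy h3' h2' n1 n2 hab; omega

open Classical in
theorem sum_mU_le (U : Fin n → Prop) (L : List (Fin n × V)) (A : Finset V) (K : V → Prop)
    (hA : ∀ a ∈ A, K a) : ∑ a ∈ A, mU U L a ≤ L.countP fun e => U e.1 ∧ K e.2 := by
  induction L with
  | nil => simp [mU]
  | cons e L ih =>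
    by_cases hU : U e.1
    · by_cases hm : e.2 ∈ A
      · have e1 : ∑ a ∈ A, mU U (e :: L) a = ∑ a ∈ A, mU U L a + 1 := by
          have : ∀ a, mU U (e :: L) a = mU U L a + if a = e.2 then 1 else 0 := by
            intro a
            unfold mU
            by_cases h : a = e.2
            · rw [if_pos h, List.countP_cons_of_pos]
              simp only [decide_eq_true_eq]
              exact ⟨hU, h.symm⟩
            · rw [if_neg h, List.countP_cons_of_neg, add_zero]
              simp only [decide_eq_true_eq, not_and]
              exact fun _ h2 => h h2.symm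
          simp only [this]
          rw [Finset.sum_add_distrib, Finset.sum_ite_eq' A e.2 fun _ => 1, if_pos hm]
        rw [e1, List.countP_cons_of_pos]
        · omega
        · simp only [decide_eq_true_eq]
          exact ⟨hU, hA _ hm⟩
      · have e1 : ∑ a ∈ A, mU U (e :: L) a = ∑ a ∈ A, mU U L a := by
          refine Finset.sum_congr rfl fun a ha => ?_
          unfold mU
          rw [List.countP_cons_of_neg]
          simp only [decide_eq_true_eq, not_and]
          rintro _ rfl
          exact hm ha
        rw [e1]
        refine ih.trans ?_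
        by_cases hK : U e.1 ∧ K e.2
        · rw [List.countP_cons_of_pos (by simpa using hK)]; omega
        · rw [List.countP_cons_of_neg (by simpa using hK)]
    · have e1 : ∑ a ∈ A, mU U (e :: L) a = ∑ a ∈ A, mU U L a := by
        refine Finset.sum_congr rfl fun a ha => ?_
        unfold mU
        rw [List.countP_cons_of_neg]
        simp only [decide_eq_true_eq, not_and]
        exact fun h => absurd h hU
      rw [e1]
      refine ih.trans ?_
      by_cases hK : U e.1 ∧ K e.2
      · rw [List.countP_cons_of_pos (by simpa using hK)]; omega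
      · rw [List.countP_cons_of_neg (by simpa using hK)]

open Classical in
theorem countP_and_le (U : Fin n → Prop) (L : List (Fin n × V)) (K : V → Prop) :
    (L.countP fun e => U e.1 ∧ K e.2) ≤ L.countP fun e => K e.2 := by
  apply List.countP_mono_left
  intro e _ he
  simp only [decide_eq_true_eq] at he ⊢
  exact he.2

open Classical in
theorem mU_le {U U' : Fin n → Prop} (h : ∀ i, U i → U' i) (L : List (Fin n × V)) (v : V) :
    mU U L v ≤ mU U' L v := by
  unfold mU
  apply List.countP_mono_left
  intro e _ he
  simp only [decide_eq_true_eq] at he ⊢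
  exact ⟨h _ he.1, he.2⟩

/-- if all links at `v` are counted by `mU U`, they come from `U` -/
theorem all_U {U : Fin n → Prop} {L : List (Fin n × V)} {v : V}
    (h : mU (fun _ => True) L v ≤ mU U L v) : ∀ e ∈ L, e.2 = v → U e.1 := by
  classical
  induction L with
  | nil => intro e he; simp at he
  | cons e L ih =>
    intro e' he' hv
    have hle := mU_le (U := U) (U' := fun _ => True) (fun _ _ => trivial) L v
    unfold mU at h ih hle
    rcases List.mem_cons.mp he' with rfl | he'
    · by_contra hU
      rw [List.countP_cons_of_pos (by simpa using hv), List.countP_cons_of_neg (by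
        simp only [decide_eq_true_eq, not_and]; exact fun h => absurd h hU)] at h
      omega
    · refine ih ?_ e' he' hv
      by_cases he : e.2 = v
      · rw [List.countP_cons_of_pos (by simpa using he)] at h
        by_cases hU : U e.1
        · rw [List.countP_cons_of_pos (by simpa using ⟨hU, he⟩)] at h
          omega
        · rw [List.countP_cons_of_neg (by
            simp only [decide_eq_true_eq, not_and]; exact fun h => absurd h hU)] at h
          omega
      · rw [List.countP_cons_of_neg (by simpa using he), List.countP_cons_of_neg (by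
          simp only [decide_eq_true_eq, not_and]; exact fun _ => he)] at h
        exact h

/-- the hypotheses on the outside: `W` is the list of the vertices which are peeled first (after
the vertices `T` of the block), all others are cubic -/
structure Outer (g : Fin n → V) (T : Fin n → Prop) (W : List V) (L : List (Fin n × V))
    (N0 : Multiset (Sym2 V)) (c : V → ℕ) : Prop where
  hL : ∀ e ∈ L, ∀ i, g i ≠ e.2
  h0 : ∀ e ∈ N0, ∀ i, g i ∉ e
  loopless : ∀ e ∈ N0, ¬ e.IsDiag
  deg : ∀ v, (∀ i, g i ≠ v) → v ∉ W → dg N0 v + mU (fun _ => True) L v ≤ 3 ∧ 2 ≤ c v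
  peel : ∀ (l1 : List V) (w : V) (l2 : List V), W = l1 ++ w :: l2 →
    dg (outt (@List.toFinset V (Classical.decEq V) l1) N0) w + mU (fun i => ¬ T i) L w ≤ c w
  noK4 : NoK4 N0

/-- the outer graph without the peeled vertices -/
noncomputable def core (W : List V) (N0 : Multiset (Sym2 V)) : Multiset (Sym2 V) :=
  outt (@List.toFinset V (Classical.decEq V) W) N0

open Classical in
/-- **The outside cannot pay.** -/
theorem out_fail {g : Fin n → V} {T : Fin n → Prop} {W : List V} {L : List (Fin n × V)}
    {N0 : Multiset (Sym2 V)} (O : Outer g T W L N0 c) (U : Fin n → Prop) [DecidablePred U]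
    (hUT : ∀ i, U i → ¬ T i) (hn : ¬ Sup (out U L * gp N0) c) :
    ∃ v0, (∀ e ∈ L, Reach (core W N0) v0 e.2 → U e.1) ∧
      3 ≤ (L.countP fun e => Reach (core W N0) v0 e.2) ∧
      (4 ≤ (L.countP fun e => Reach (core W N0) v0 e.2) ∨
        ∀ a b, Reach (core W N0) v0 a → Reach (core W N0) v0 b → a ≠ b →
          s(a, b) ∈ core W N0) := by
  set M := core W N0 with hM
  have hMle : M ≤ N0 := outt_le _ _
  have hmz : ∀ i, mU U L (g i) = 0 := by
    intro i
    unfold mU
    rw [List.countP_eq_zero]
    intro e he
    simp only [decide_eq_true_eq, not_and]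
    exact fun _ h => O.hL e he i h.symm
  by_cases hbig : ∃ v, c v < mU U L v
  · obtain ⟨v, hv⟩ := hbig
    have hvg : ∀ i, g i ≠ v := by
      rintro i rfl
      rw [hmz] at hv; omega
    have hvW : v ∉ W := by
      intro hvW
      obtain ⟨l1, l2, rfl⟩ := List.append_of_mem hvW
      have h1 := O.peel l1 v l2 rfl
      have h2 := mU_le (U := U) (U' := fun i => ¬ T i) hUT L v
      omega
    obtain ⟨h1, h2⟩ := O.deg v hvg hvW
    have h3 := mU_le (U := U) (U' := fun _ => True) (fun _ _ => trivial) L v
    have h4 : dg N0 v = 0 := by omega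
    have h5 : dg M v = 0 := by
      have := dg_le_of_le hMle v
      omega
    refine ⟨v, ?_, ?_, Or.inr ?_⟩
    · intro e he hr
      exact all_U (by omega) e he (reach_iso h5 hr)
    · have h6 : mU U L v ≤ L.countP fun e => decide (Reach M v e.2) := by
        unfold mU
        apply List.countP_mono_left
        intro e _ he
        simp only [decide_eq_true_eq] at he ⊢
        rw [he.2]
        exact Relation.ReflTransGen.refl
      omega
    · intro a b ha hb hab
      exact absurd ((reach_iso h5 ha).trans (reach_iso h5 hb).symm) hab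
  · push Not at hbig
    have hAT : ¬ AT M (fun v => c v - mU U L v) := by
      intro hAT
      apply hn
      have h1 : AT N0 (fun v => c v - mU U L v) := by
        refine at_peel_list W N0 O.loopless ?_ hAT
        intro l1 w l2 hw
        have h1 := O.peel l1 w l2 hw
        have h2 := mU_le (U := U) (U' := fun i => ¬ T i) hUT L w
        show _ ≤ c w - mU U L w
        omega
      refine sup_out h1 L c fun v => ?_
      have := hbig v
      show c v - mU U L v + mU U L v ≤ c v
      omega
    have hMz : ∀ v, v ∈ W → dg M v = 0 := by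
      intro v hv
      rw [hM]
      unfold core
      exact Helper19.DN.dg_outt_mem (by simpa using hv)
    have hgz : ∀ i, dg M (g i) = 0 := by
      intro i
      have h1 := dg_zero_of_fr O.h0 i
      have := dg_le_of_le hMle (g i)
      omega
    have hMd : ∀ v, dg M v ≤ dg N0 v := dg_le_of_le hMle
    have hlM : ∀ e ∈ M, ¬ e.IsDiag := fun e he => O.loopless e (Multiset.mem_of_le hMle he)
    have h3M : ∀ v, dg M v ≤ 3 := by
      intro v
      by_cases hg : ∃ i, g i = v
      · obtain ⟨i, rfl⟩ := hg
        rw [hgz]; omega
      · push Not at hg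
        by_cases hW : v ∈ W
        · rw [hMz v hW]; omega
        · have := (O.deg v hg hW).1
          have := hMd v
          omega
    have hcM : ∀ v, dg M v ≤ (c v - mU U L v) + 1 := by
      intro v
      by_cases hg : ∃ i, g i = v
      · obtain ⟨i, rfl⟩ := hg
        rw [hgz]; omega
      · push Not at hg
        by_cases hW : v ∈ W
        · rw [hMz v hW]; omega
        · have h1 := (O.deg v hg hW)
          have h2 := hMd v
          have h3 := mU_le (U := U) (U' := fun _ => True) (fun _ _ => trivial) L v
          omega
    obtain ⟨v, hv0, htight, hev, hdb⟩ := tight_of_not_at (fun v => c v - mU U L v) M hlM h3M hcM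
      (O.noK4.of_le hMle) hAT
    have hnz : ∀ w, Reach M v w → dg M w ≠ 0 := by
      intro w hw
      have := htight w hw
      omega
    have key : ∀ w, Reach M v w → dg M w + mU U L w = 3 ∧
        mU (fun _ => True) L w ≤ mU U L w := by
      intro w hw
      have h1 := hnz w hw
      have h2 := htight w hw
      have hg : ∀ i, g i ≠ w := by
        rintro i rfl
        exact h1 (hgz i)
      have hW : w ∉ W := fun h => h1 (hMz w h)
      have h3 := O.deg w hg hW
      have h4 := hbig w
      have h5 := mU_le (U := U) (U' := fun _ => True) (fun _ _ => trivial) L w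
      have h6 := hMd w
      omega
    have hsum : ∀ A : Finset V, (∀ a ∈ A, Reach M v a) →
        ∑ a ∈ A, (3 - dg M a) ≤ L.countP fun e => decide (Reach M v e.2) := by
      intro A hA
      refine le_trans ?_ ((sum_mU_le U L A (Reach M v) hA).trans
        (countP_and_le U L (Reach M v)))
      refine Finset.sum_le_sum fun a ha => ?_
      have := (key a (hA a ha)).1
      omega
    refine ⟨v, fun e he hr => all_U (key e.2 hr).2 e he rfl, ?_⟩
    rcases slots4c hlM hv0 hev hdb with ⟨A, hA, h4⟩ |
      ⟨a, b, d, ha, hb, hd, h1, h2, h3, hab, hbd, had, da, db, dd⟩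
    · have := hsum A hA
      exact ⟨by omega, Or.inl (by omega)⟩
    · refine ⟨?_, Or.inr ?_⟩
      · have h5 := hsum {a, b, d} (by
          intro x hx
          simp only [Finset.mem_insert, Finset.mem_singleton] at hx
          rcases hx with rfl | rfl | rfl <;> assumption)
        rw [Finset.sum_insert (by simp [hab, had]), Finset.sum_insert (by simp [hbd]),
          Finset.sum_singleton, da, db, dd] at h5
        omega
      · intro x y hx hy hxy
        have hx' := reach_tri h1 h2 h3 hab hbd had da db dd (ha.symm.trans' hx)
        have hy' := reach_tri h1 h2 h3 hab hbd had da db dd (ha.symm.trans' hy)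
        have h1' : s(b, a) ∈ M := by rw [Sym2.eq_swap]; exact h1
        have h2' : s(d, b) ∈ M := by rw [Sym2.eq_swap]; exact h2
        have h3' : s(d, a) ∈ M := by rw [Sym2.eq_swap]; exact h3
        rcases hx' with rfl | rfl | rfl <;> rcases hy' with rfl | rfl | rfl <;>
          first | exact absurd rfl hxy | assumption

end Helper85.Bn
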