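import Pool.Agent.helper85.L9.BnZ

/-!
# Splitting the checks of tables into smaller computations
-/

set_option linter.unusedSimpArgs false

namespace Helper85.Bn

open MvPolynomial Finset Helper42.L9 Helper19.Gadget Helper19.Kill

variable {n : ℕ}

/-! ### parts of a table -/

/-- single entries -/
def bnFlt (tab : Tab) : Tab := tab.flatMap fun g => g.2.map fun u => (g.1, [u])

/-- no empty group -/
def bnNem (tab : Tab) : Bool := tab.all fun g => !g.2.isEmpty

/-- the entries with the given numbers -/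
def bnPk (l : Tab) (I : List ℕ) : Tab := I.filterMap fun i => l[i]?

theorem bn_tabOK_flt {cl sl : List ℕ} {T : List Bool} {E : List (Fin n × Fin n)} {tab : Tab}
    (h0 : bnNem tab = true) (h : TabOK n cl sl T E (bnFlt tab)) : TabOK n cl sl T E tab := by
  intro g hg
  have h1 : ∀ u ∈ g.2, (g.1, [u]) ∈ bnFlt tab := fun u hu =>
    List.mem_flatMap.mpr ⟨g, hg, List.mem_map.mpr ⟨u, hu, rfl⟩⟩
  unfold bnNem at h0
  rw [List.all_eq_true] at h0
  have h2 := h0 g hg
  obtain ⟨J, L⟩ := g
  cases L with
  | nil => simp at h2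
  | cons u L =>
    obtain ⟨J0, hJ0, _⟩ := h _ (h1 u List.mem_cons_self)
    refine ⟨J0, hJ0, fun w hw => ?_⟩
    obtain ⟨J1, hJ1, h3⟩ := h _ (h1 w hw)
    have e1 : J1 = J0 := List.map_injective_iff.mpr vE_inj (hJ1.trans hJ0.symm)
    rw [← e1]
    exact h3 w List.mem_cons_self

theorem bn_tabOK_pk {cl sl : List ℕ} {T : List Bool} {E : List (Fin n × Fin n)} {l : Tab}
    (I : List ℕ) (hI : (List.range l.length).all (fun i => I.contains i) = true)
    (h : TabOK n cl sl T E (bnPk l I)) : TabOK n cl sl T E l := by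
  intro g hg
  obtain ⟨i, hi, rfl⟩ := List.mem_iff_getElem.mp hg
  rw [List.all_eq_true] at hI
  have h1 := hI i (List.mem_range.mpr hi)
  rw [List.contains_iff_mem] at h1
  exact h _ (List.mem_filterMap.mpr ⟨i, h1, List.getElem?_eq_getElem hi⟩)

theorem bn_tabOK_pka {cl sl : List ℕ} {T : List Bool} {E : List (Fin n × Fin n)} {l : Tab}
    {I I' : List ℕ} (h : TabOK n cl sl T E (bnPk l I)) (h' : TabOK n cl sl T E (bnPk l I')) :
    TabOK n cl sl T E (bnPk l (I ++ I')) := by
  have e1 : bnPk l (I ++ I') = bnPk l I ++ bnPk l I' := by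
    unfold bnPk
    rw [List.filterMap_append]
  rw [e1]
  exact tabOK_append h h'

/-! ### parts of the enumeration -/

/-- a state of the enumeration -/
abbrev BnESt := ℕ × List (ℕ × ℕ) × List (ℕ × ℕ) × List ℕ

/-- the check of a state -/
def bnEnS (n : ℕ) (cl : List ℕ) (tab : Tab) (exc : List (List (ℕ × ℕ))) (s : BnESt) : Bool :=
  enP n cl tab exc s.1 s.2.1 s.2.2.1 [] s.2.2.2

/-- the states after `d` branchings -/
def bnFrt : ℕ → ℕ → List (ℕ × ℕ) → List (ℕ × ℕ) → List ℕ → List BnESt
  | 0, _, ps, J, r => [(0, ps, J, r)]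
  | f + 1, _, [], J, r => [(f + 1, [], J, r)]
  | f + 1, d, e :: ps, J, r =>
    if (Nat.ble 1 (r.getD e.1 0) && Nat.ble 1 (r.getD e.2 0)) = true then
      match d with
      | 0 => [(f + 1, e :: ps, J, r)]
      | d + 1 => bnFrt f d ps J r ++ bnFrt f d (e :: ps) (e :: J) (decAt (decAt r e.1) e.2)
    else bnFrt f d ps J r

theorem bnFrt_sound {cl : List ℕ} {tab : Tab} {exc : List (List (ℕ × ℕ))} :
    ∀ (f d : ℕ) (ps J : List (ℕ × ℕ)) (r : List ℕ),
    (bnFrt f d ps J r).all (bnEnS n cl tab exc) = true → enP n cl tab exc f ps J [] r = true := by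
  intro f
  induction f with
  | zero =>
    intro d ps J r h
    simpa [bnFrt, bnEnS] using h
  | succ f ih =>
    intro d ps J r h
    cases ps with
    | nil => simpa [bnFrt, bnEnS] using h
    | cons e ps =>
      cases d with
      | zero =>
        rw [bnFrt] at h
        split_ifs at h with h1
        · simpa [bnEnS] using h
        · rw [enP, Bool.and_eq_true]
          refine ⟨ih 0 ps J r h, ?_⟩
          rw [if_neg h1]
      | succ d =>
        rw [bnFrt] at h
        split_ifs at h with h1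
        · rw [List.all_append, Bool.and_eq_true] at h
          rw [enP, Bool.and_eq_true]
          refine ⟨ih d ps J r h.1, ?_⟩
          rw [if_pos h1, frcL_eq]
          have e1 : stp (cp cl) e ([] : PL) = [] := by simp [stp, sh, mrg]
          rw [e1]
          exact ih d _ _ _ h.2
        · rw [enP, Bool.and_eq_true]
          refine ⟨ih (d + 1) ps J r h, ?_⟩
          rw [if_neg h1]

theorem bn_all_td {α : Type*} {l : List α} {f : α → Bool} (k : ℕ) (h1 : (l.take k).all f = true)
    (h2 : (l.drop k).all f = true) : l.all f = true := by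
  rw [← List.take_append_drop k l, List.all_append, Bool.and_eq_true]
  exact ⟨h1, h2⟩

/-- the states after `d` branchings -/
def bnFrs (n : ℕ) (sl : List ℕ) (d : ℕ) : List BnESt := bnFrt (fu n sl) d (prs n) [] sl

/-- the first state after `d` branchings, after `d'` further ones -/
def bnFr2 (n : ℕ) (sl : List ℕ) (d d' : ℕ) : List BnESt :=
  ((bnFrs n sl d).take 1).flatMap fun s => bnFrt s.1 d' s.2.1 s.2.2.1 s.2.2.2

theorem bn_all_fr2 {cl sl : List ℕ} {tab : Tab} {exc : List (List (ℕ × ℕ))} {d d' : ℕ}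
    (h : (bnFr2 n sl d d').all (bnEnS n cl tab exc) = true) :
    ((bnFrs n sl d).take 1).all (bnEnS n cl tab exc) = true := by
  rw [bnFr2, List.all_flatMap] at h
  rw [List.all_eq_true] at h ⊢
  intro s hs
  exact bnFrt_sound _ _ _ _ _ (h s hs)

theorem bn_chkEn_frs {cl sl : List ℕ} {gE : List (ℕ × ℕ)} {tab : Tab} {exc : List (List (ℕ × ℕ))}
    (d : ℕ) (h : (bnFrs n sl d).all (bnEnS n cl tab exc) = true) :
    chkEn n cl gE sl tab exc false = true := by
  rw [chkEn, if_neg (by simp)]
  exact bnFrt_sound _ d _ _ _ h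

end Helper85.Bn
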