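import Pool.Agent.helper85.L9.BnFam
import Pool.Agent.helper85.L9.BnOut

/-!
# Tables of certificates for all patterns of inner links
-/

set_option linter.unusedSimpArgs false

namespace Helper85.Bn

open MvPolynomial Finset Helper42.L9 Helper19.Gadget Helper19.Kill

variable {V : Type*} {n : ℕ} {c : V → ℕ}

/-! ### lists of pairs -/

/-- degrees -/
def dj : List (ℕ × ℕ) → ℕ → ℕ
  | [], _ => 0
  | e :: J, i => dj J i + ((if e.1 = i then 1 else 0) + (if e.2 = i then 1 else 0))

/-- remaining slots -/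
def red (sl : List ℕ) : List (ℕ × ℕ) → List ℕ
  | [] => sl
  | e :: J => decAt (decAt (red sl J) e.1) e.2

theorem getD_red (sl : List ℕ) (J : List (ℕ × ℕ)) (i : ℕ) :
    (red sl J).getD i 0 = sl.getD i 0 - dj J i := by
  induction J with
  | nil => rfl
  | cons e J ih =>
    rw [red, getD_decAt, getD_decAt, ih, dj]
    split_ifs <;> omega

theorem length_decAt (sl : List ℕ) (i : ℕ) : (decAt sl i).length = sl.length := by
  unfold decAt; simp

theorem length_red (sl : List ℕ) (J : List (ℕ × ℕ)) : (red sl J).length = sl.length := by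
  induction J with
  | nil => rfl
  | cons e J ih => rw [red, length_decAt, length_decAt, ih]

theorem dj_append (J J' : List (ℕ × ℕ)) (i : ℕ) : dj (J ++ J') i = dj J i + dj J' i := by
  induction J with
  | nil => simp [dj]
  | cons e J ih => rw [List.cons_append, dj, dj, ih]; omega

theorem dj_perm {J J' : List (ℕ × ℕ)} (h : J.Perm J') (i : ℕ) : dj J i = dj J' i := by
  induction h with
  | nil => rfl
  | cons x _ ih => rw [dj, dj, ih]
  | swap x y l => simp only [dj]; omega
  | trans _ _ ih1 ih2 => rw [ih1, ih2]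

/-- remove one pair -/
def rm1 (e : ℕ × ℕ) : List (ℕ × ℕ) → Option (List (ℕ × ℕ))
  | [] => none
  | x :: J => if (Nat.beq x.1 e.1 && Nat.beq x.2 e.2) = true then some J
      else match rm1 e J with
        | none => none
        | some J' => some (x :: J')

/-- remove a list of pairs -/
def rmv : List (ℕ × ℕ) → List (ℕ × ℕ) → Option (List (ℕ × ℕ))
  | [], J => some J
  | e :: J0, J => match rm1 e J with
    | none => none
    | some J' => rmv J0 J'

theorem rm1_perm {e : ℕ × ℕ} : ∀ {J J' : List (ℕ × ℕ)}, rm1 e J = some J' → J.Perm (e :: J')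
  | [], _, h => by simp [rm1] at h
  | x :: J, J', h => by
    rw [rm1] at h
    split_ifs at h with h1
    · rw [Bool.and_eq_true, Nat.beq_eq, Nat.beq_eq] at h1
      simp only [Option.some.injEq] at h
      subst h
      have : x = e := Prod.ext h1.1 h1.2
      rw [this]
    · split at h
      · exact absurd h (by simp)
      · next K hK =>
        simp only [Option.some.injEq] at h
        subst h
        exact ((rm1_perm hK).cons x).trans (List.Perm.swap _ _ _)

theorem rmv_perm : ∀ {J0 J J' : List (ℕ × ℕ)}, rmv J0 J = some J' → J.Perm (J0 ++ J')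
  | [], J, J', h => by
    simp only [rmv, Option.some.injEq] at h
    subst h
    exact List.Perm.refl _
  | e :: J0, J, J', h => by
    rw [rmv] at h
    split at h
    · exact absurd h (by simp)
    · next K hK =>
      exact (rm1_perm hK).trans ((rmv_perm h).cons e)

/-! ### cuts -/

variable {Q : List (ℤ × (Fin n →₀ ℕ))} {P : MvPolynomial (Fin n) ℤ} {r : Fin n → ℕ}
  {U : Fin n → Prop} [DecidablePred U] {D : ℤ}

theorem Hp.neg (h : Hp Q P r U D) : Hp Q (-P) r U (-D) := by
  intro a ha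
  have e1 : -P * monomial a 1 = 0 - P * monomial a 1 := by ring
  rw [e1, fn_sub, h a ha]
  have e2 : fn Q (0 : MvPolynomial (Fin n) ℤ) = 0 := by
    unfold fn; simp
  rw [e2]
  split_ifs <;> ring

/-- value of a pair -/
def vE (e : Fin n × Fin n) : ℕ × ℕ := ((e.1 : ℕ), (e.2 : ℕ))

theorem Hp.cuts (hD : D ≠ 0) : ∀ (rest : List (Fin n × Fin n)) (P : MvPolynomial (Fin n) ℤ)
    (r r' : Fin n → ℕ), Hp Q P r U D →
    (∀ e ∈ rest, (U e.1 ∧ ¬ U e.2) ∨ (¬ U e.1 ∧ U e.2)) →
    (∀ i : Fin n, r' i + dj (rest.map vE) i = r i) →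
    ∃ D' : ℤ, D' ≠ 0 ∧ Hp Q (P * ep rest) r' U D' := by
  intro rest
  induction rest with
  | nil =>
    intro P r r' h _ hr
    refine ⟨D, hD, ?_⟩
    have e1 : ep ([] : List (Fin n × Fin n)) = 1 := by simp [ep]
    have e2 : r' = r := funext fun i => by simpa [dj] using hr i
    rw [e1, mul_one, e2]
    exact h
  | cons e rest ih =>
    intro P r r' h hcut hr
    have hr1 : ∀ i : Fin n, (r' i + ((if (e.1 : ℕ) = i then 1 else 0) +
        (if (e.2 : ℕ) = i then 1 else 0))) + dj (rest.map vE) i = r i := by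
      intro i
      have h1 : r' i + (dj (rest.map vE) i + ((if (e.1 : ℕ) = i then 1 else 0) +
        (if (e.2 : ℕ) = i then 1 else 0))) = r i := hr i
      rw [← h1]
      ring
    obtain ⟨D', hD', h'⟩ := ih P r _ h (fun e' he' => hcut e' (List.mem_cons_of_mem _ he')) hr1
    have e1 : P * ep (e :: rest) = P * ep rest * (X e.1 - X e.2) := by
      unfold ep
      rw [List.map_cons, List.prod_cons]; ring
    rcases hcut e List.mem_cons_self with ⟨h1, h2⟩ | ⟨h1, h2⟩
    · have hne : e.1 ≠ e.2 := fun hh => h2 (hh ▸ h1)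
      have hne' : (e.1 : ℕ) ≠ e.2 := fun hh => hne (Fin.ext hh)
      refine ⟨-D', neg_ne_zero.mpr hD', ?_⟩
      rw [e1]
      refine h'.cut e.1 e.2 h1 h2 r' (fun k hk1 hk2 => ?_) ?_ ?_
      · rw [if_neg fun hh => hk1 (Fin.ext hh.symm), if_neg fun hh => hk2 (Fin.ext hh.symm)]
        simp
      · rw [if_pos rfl, if_neg fun hh => hne' hh.symm]
      · rw [if_neg hne', if_pos rfl, zero_add]
    · have hne : e.1 ≠ e.2 := fun hh => h1 (hh ▸ h2)
      have hne' : (e.1 : ℕ) ≠ e.2 := fun hh => hne (Fin.ext hh)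
      refine ⟨D', hD', ?_⟩
      have e3 : P * ep rest * (X e.1 - X e.2) = -(P * ep rest * (X e.2 - X e.1)) := by ring
      rw [e1, e3]
      have := (h'.cut e.2 e.1 h2 h1 r' (fun k hk1 hk2 => ?_) ?_ ?_).neg
      · rw [neg_neg] at this; exact this
      · rw [if_neg fun hh => hk2 (Fin.ext hh.symm), if_neg fun hh => hk1 (Fin.ext hh.symm)]
        simp
      · rw [if_neg hne', if_pos rfl, zero_add]
      · rw [if_pos rfl, if_neg fun hh => hne' hh.symm]

/-! ### the table -/

/-- a table: groups with the same inner links, entries `(U, D, Q)` -/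
abbrev Tab := List (List (ℕ × ℕ) × List (List Bool × ℤ × List (ℤ × ℕ)))

/-- the pair is cut -/
def cutB (U : List Bool) (e : ℕ × ℕ) : Bool := xor (U.getD e.1 false) (U.getD e.2 false)

/-- applicable entries -/
def appU (tab : Tab) (J : List (ℕ × ℕ)) : List (List Bool) :=
  tab.flatMap fun grp => match rmv grp.1 J with
    | none => []
    | some rest => (grp.2.map Prod.fst).filter fun U => rest.all (cutB U)

/-- extension of a product -/
def extC (caps : ℕ → ℕ) : List (ℕ × ℕ) → PL → (PL → Bool) → Bool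
  | [], P, f => f P
  | e :: J, P, f => extC caps J P fun P' => frcL (stp caps e P') f

theorem extC_eq (caps : ℕ → ℕ) (J : List (ℕ × ℕ)) (P : PL) (f : PL → Bool) :
    extC caps J P f = f (J.foldr (stp caps) P) := by
  induction J generalizing f with
  | nil => rfl
  | cons e J ih => rw [extC, ih, frcL_eq]; rfl

theorem fst_append (caps : ℕ → ℕ) (J E : List (ℕ × ℕ)) :
    fst caps (J ++ E) = J.foldr (stp caps) (fst caps E) := by
  unfold fst
  rw [List.foldr_append]

/-- check of one group, `P0` is the product of the block edges -/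
def chkGrp (n : ℕ) (cl sl : List ℕ) (T : List Bool) (P0 : PL)
    (grp : List (ℕ × ℕ) × List (List Bool × ℤ × List (ℤ × ℕ))) : Bool :=
  grp.1.all (fun e => Nat.blt e.1 n && Nat.blt e.2 n) &&
  extC (cp cl) grp.1 P0 fun P => grp.2.all fun u =>
    (List.range n).all (fun i => !(u.1.getD i false && T.getD i false)) &&
    !decide (u.2.1 = 0) && okQ n cl u.2.2 &&
    totC n (cd (red sl grp.1)) P u.2.2 (finOK u.1 (red sl grp.1) u.2.1)

/-- the enumeration of all patterns; `exc`: exceptional patterns -/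
def enP (n : ℕ) (cl : List ℕ) (tab : Tab) (exc : List (List (ℕ × ℕ))) :
    ℕ → List (ℕ × ℕ) → List (ℕ × ℕ) → PL → List ℕ → Bool
  | 0, _, _, _, _ => false
  | _ + 1, [], J, P, r => leaf n cl r P || leafOK (appU tab J) r || exc.any fun X => decide (X = J)
  | f + 1, e :: ps, J, P, r =>
    enP n cl tab exc f ps J P r &&
    (if (Nat.ble 1 (r.getD e.1 0) && Nat.ble 1 (r.getD e.2 0)) = true then
      frcL (stp (cp cl) e P) fun P' =>
        enP n cl tab exc f (e :: ps) (e :: J) P' (decAt (decAt r e.1) e.2)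
      else true)

/-- the verified content of a table -/
def TabOK (n : ℕ) (cl sl : List ℕ) (T : List Bool) (E : List (Fin n × Fin n)) (tab : Tab) : Prop :=
  ∀ grp ∈ tab, ∃ J0 : List (Fin n × Fin n), J0.map vE = grp.1 ∧ ∀ u ∈ grp.2,
    (∀ i : Fin n, msk u.1 i → ¬ msk T i) ∧ u.2.1 ≠ 0 ∧
    (∀ q ∈ decQ n u.2.2, ∀ i : Fin n, q.2 i ≤ cp cl i) ∧
    Hp (decQ n u.2.2) (ep (J0 ++ E)) (fun i => (red sl grp.1).getD i 0) (msk u.1) u.2.1

theorem getD_le7 {l : List ℕ} (h : ∀ x ∈ l, x ≤ 7) (i : ℕ) : l.getD i 0 ≤ 7 := by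
  rw [List.getD_eq_getElem?_getD]
  rcases hi : l[i]? with _ | x
  · simp
  · exact h x (List.mem_of_getElem? hi)

theorem exists_fin : ∀ (J : List (ℕ × ℕ)), (∀ e ∈ J, e.1 < n ∧ e.2 < n) →
    ∃ J0 : List (Fin n × Fin n), J0.map vE = J
  | [], _ => ⟨[], rfl⟩
  | e :: J, h => by
    obtain ⟨J0, hJ0⟩ := exists_fin J fun e' he' => h e' (List.mem_cons_of_mem _ he')
    obtain ⟨h1, h2⟩ := h e List.mem_cons_self
    exact ⟨(⟨e.1, h1⟩, ⟨e.2, h2⟩) :: J0, by rw [List.map_cons, hJ0]; rfl⟩

theorem tabOK_of_chk (cl sl : List ℕ) (h7 : ∀ i, cp cl i ≤ 7) (hsl : sl.length = n)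
    (hsl7 : ∀ x ∈ sl, x ≤ 7) (T : List Bool) (E : List (Fin n × Fin n)) (tab : Tab)
    (h : ∀ grp ∈ tab, chkGrp n cl sl T (fst (cp cl) (E.map vE)) grp = true) :
    TabOK n cl sl T E tab := by
  intro grp hgrp
  have h1 := h grp hgrp
  rw [chkGrp, Bool.and_eq_true, extC_eq, List.all_eq_true, List.all_eq_true] at h1
  obtain ⟨h2, h3⟩ := h1
  obtain ⟨J0, hJ0⟩ := exists_fin (n := n) grp.1 fun e he => by
    have := h2 e he
    rw [Bool.and_eq_true, Nat.blt_eq, Nat.blt_eq] at this
    exact this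
  refine ⟨J0, hJ0, fun u hu => ?_⟩
  have h4 := h3 u hu
  rw [Bool.and_eq_true, Bool.and_eq_true, Bool.and_eq_true, List.all_eq_true, totC_eq] at h4
  obtain ⟨⟨⟨h5, h6⟩, h7'⟩, h8⟩ := h4
  have e1 : grp.1.foldr (stp (cp cl)) (fst (cp cl) (E.map vE)) =
      fst (cp cl) ((J0 ++ E).map fun e => ((e.1 : ℕ), (e.2 : ℕ))) := by
    have : ((J0 ++ E).map fun e => ((e.1 : ℕ), (e.2 : ℕ))) = grp.1 ++ E.map vE := by
      rw [List.map_append, ← hJ0]; rfl
    rw [this, fst_append]
  rw [e1] at h8
  refine ⟨fun i hi hT => ?_, ?_, ?_, ?_⟩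
  · have := h5 i (List.mem_range.mpr i.2)
    unfold msk at hi hT
    rw [hi, hT] at this
    simp at this
  · simpa using h6
  · intro q hq i
    obtain ⟨q', hq', rfl⟩ := List.mem_map.mp hq
    unfold okQ at h7'
    rw [List.all_eq_true] at h7'
    have := h7' q' hq'
    rw [Bool.and_eq_true] at this
    simp only
    rw [dec_apply]
    exact okc_spec this.2 i i.2
  · refine hp_of_num cl h7 (J0 ++ E) (red sl grp.1) (by rw [length_red, hsl]) ?_ u.1 u.2.1 u.2.2
      h7' h8
    intro x hx
    obtain ⟨i, hi, rfl⟩ := List.mem_iff_getElem.mp hx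
    have e2 : (red sl grp.1)[i] = (red sl grp.1).getD i 0 := by
      rw [List.getD_eq_getElem?_getD, List.getElem?_eq_getElem hi]; rfl
    rw [e2, getD_red]
    have := getD_le7 hsl7 i
    omega

theorem ep_perm {J J' : List (Fin n × Fin n)} (h : J.Perm J') : ep J = ep J' := by
  unfold ep
  exact (h.map _).prod_eq

theorem ep_append (J J' : List (Fin n × Fin n)) : ep (J ++ J') = ep J * ep J' := by
  unfold ep
  rw [List.map_append, List.prod_append]

theorem vE_inj : Function.Injective (vE (n := n)) := by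
  intro a b h
  unfold vE at h
  rw [Prod.mk.injEq] at h
  exact Prod.ext (Fin.ext h.1) (Fin.ext h.2)

/-- the certificate of an applicable entry for the pattern `J` -/
theorem hp_app {cl sl : List ℕ} {T : List Bool} {E : List (Fin n × Fin n)} {tab : Tab}
    (htab : TabOK n cl sl T E tab) (J : List (Fin n × Fin n)) (r : Fin n → ℕ)
    (hr : ∀ i : Fin n, r i + dj (J.map vE) i = sl.getD i 0) {U : List Bool}
    (hU : U ∈ appU tab (J.map vE)) :
    (∀ i : Fin n, msk U i → ¬ msk T i) ∧ ∃ (Q : List (ℤ × (Fin n →₀ ℕ))) (D : ℤ), D ≠ 0 ∧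
      (∀ q ∈ Q, ∀ i : Fin n, q.2 i ≤ cp cl i) ∧ Hp Q (ep (J ++ E)) r (msk U) D := by
  unfold appU at hU
  rw [List.mem_flatMap] at hU
  obtain ⟨grp, hgrp, hU⟩ := hU
  split at hU
  · exact absurd hU (by simp)
  · next rest hrest =>
    rw [List.mem_filter, List.mem_map] at hU
    obtain ⟨⟨u, hu, rfl⟩, hcut⟩ := hU
    obtain ⟨J0, hJ0, hall⟩ := htab grp hgrp
    obtain ⟨h1, h2, h3, h4⟩ := hall u hu
    have hperm := rmv_perm hrest
    -- the rest as a list in `Fin n`
    have hlt : ∀ e ∈ rest, e.1 < n ∧ e.2 < n := by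
      intro e he
      have : e ∈ J.map vE := hperm.symm.subset (List.mem_append_right _ he)
      obtain ⟨e', _, rfl⟩ := List.mem_map.mp this
      exact ⟨e'.1.2, e'.2.2⟩
    obtain ⟨restF, hrestF⟩ := exists_fin (n := n) rest hlt
    have hp : J.Perm (J0 ++ restF) := by
      rw [← List.map_perm_map_iff vE_inj, List.map_append, hJ0, hrestF]
      exact hperm
    refine ⟨h1, decQ n u.2.2, ?_⟩
    obtain ⟨D', hD', h5⟩ := Hp.cuts h2 restF _ _ r h4 (by
      intro e he
      rw [List.all_eq_true] at hcut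
      have h6 := hcut (vE e) (by rw [← hrestF]; exact List.mem_map.mpr ⟨e, he, rfl⟩)
      unfold cutB at h6
      simp only [vE] at h6
      unfold msk
      cases hA : u.1.getD (e.1 : ℕ) false <;> cases hB : u.1.getD (e.2 : ℕ) false <;>
        rw [hA, hB] at h6 <;> simp at h6 ⊢) (by
      intro i
      have h6 := hr i
      have h7 := dj_perm hperm i
      rw [dj_append] at h7
      rw [getD_red, hrestF]
      omega)
    refine ⟨D', hD', h3, ?_⟩
    have e1 : ep (J ++ E) = ep (J0 ++ E) * ep restF := by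
      rw [ep_append, ep_append, ep_perm hp, ep_append]; ring
    rw [e1]
    exact h5

end Helper85.Bn
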