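import Pool.Agent.helper85.L9.BnMain

/-!
# Tables where the exponents of the vertices without slots are fixed
-/

set_option linter.unusedSimpArgs false

namespace Helper85.Bn

open MvPolynomial Finset Helper42.L9 Helper19.Gadget Helper19.Kill

variable {V : Type*} {n : ℕ} {c : V → ℕ}

/-- the digits at `Z` are the given ones -/
def okZ (Z : List (ℕ × ℕ)) (p : ℕ) : Bool := Z.all fun z => Nat.beq (p / 8 ^ z.1 % 8) z.2

/-- the exponents at `Z` are the given ones -/
def Mt (Z : List (ℕ × ℕ)) (μ : Fin n →₀ ℕ) : Prop :=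
  ∀ z ∈ Z, ∀ h : z.1 < n, μ ⟨z.1, h⟩ = z.2

/-- the same coefficients at the matching monomials -/
def Agree (n : ℕ) (Z : List (ℕ × ℕ)) (P P' : PL) : Prop :=
  ∀ μ : Fin n →₀ ℕ, (∀ i, μ i ≤ 7) → Mt Z μ → cfL (enc μ) P = cfL (enc μ) P'

theorem cfL_filter {f : ℕ → Bool} {a : ℕ} (h : f a = true) (P : PL) :
    cfL a (P.filter fun p => f p.1) = cfL a P := by
  induction P with
  | nil => rfl
  | cons p P ih =>
    by_cases hp : f p.1 = true
    · rw [List.filter_cons_of_pos (p := fun p : ℕ × ℤ => f p.1) hp, cfL, cfL, ih]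
    · rw [List.filter_cons_of_neg (p := fun p : ℕ × ℤ => f p.1) hp, cfL, ih, if_neg, zero_add]
      rintro rfl
      exact hp h

theorem agree_filter {Z : List (ℕ × ℕ)} (hZ : ∀ z ∈ Z, z.1 < n) (P : PL) :
    Agree n Z P (P.filter fun p => okZ Z p.1) := by
  intro μ h7 hM
  rw [cfL_filter]
  unfold okZ
  rw [List.all_eq_true]
  intro z hz
  rw [Nat.beq_eq, enc_div μ h7 ⟨z.1, hZ z hz⟩]
  exact hM z hz (hZ z hz)

theorem cfL_sh_out {cap i a : ℕ} (s : ℤ) (P : PL) (h : ¬ a / 8 ^ i % 8 < cap) :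
    cfL (a + 8 ^ i) (sh cap i s P) = 0 := by
  induction P with
  | nil => simp [cfL, sh]
  | cons p P ih =>
    rw [sh]
    split_ifs with hp
    · rw [cfL, ih, if_neg, zero_add]
      simp only
      intro h2
      have : p.1 = a := by omega
      exact h (this ▸ hp)
    · exact ih

theorem agree_sh {Z : List (ℕ × ℕ)} {P P' : PL} (h : Agree n Z P P') {cap : ℕ} (hcap : cap ≤ 7)
    (i : Fin n) (hi : ∀ z ∈ Z, z.1 ≠ i) (s : ℤ) :
    Agree n Z (sh cap i s P) (sh cap i s P') := by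
  intro μ h7 hM
  by_cases h0 : μ i = 0
  · have h1 : enc μ / 8 ^ (i : ℕ) % 8 = 0 := by rw [enc_div μ h7 i, h0]
    rw [cfL_sh_zero hcap s P h1, cfL_sh_zero hcap s P' h1]
  · have e1 : μ = (μ - Finsupp.single i 1) + Finsupp.single i 1 := by
      rw [tsub_add_cancel_of_le]
      rw [Finsupp.single_le_iff]
      omega
    set ν := μ - Finsupp.single i 1 with hν
    have hν7 : ∀ j, ν j ≤ 7 := by
      intro j
      rw [hν, Finsupp.tsub_apply]
      have := h7 j
      omega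
    have hνM : Mt Z ν := by
      intro z hz hzn
      have h1 := hM z hz hzn
      rw [hν, Finsupp.tsub_apply, Finsupp.single_apply, if_neg, h1, Nat.sub_zero]
      intro h2
      exact hi z hz (congrArg Fin.val h2).symm
    rw [e1, enc_add_single]
    by_cases hc : enc ν / 8 ^ (i : ℕ) % 8 < cap
    · rw [cfL_sh_pos s P hc, cfL_sh_pos s P' hc, h ν hν7 hνM]
    · rw [cfL_sh_out s P hc, cfL_sh_out s P' hc]

theorem agree_stp {Z : List (ℕ × ℕ)} {P P' : PL} (h : Agree n Z P P') {caps : ℕ → ℕ}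
    (hcaps : ∀ i, caps i ≤ 7) (e : Fin n × Fin n) (h1 : ∀ z ∈ Z, z.1 ≠ e.1)
    (h2 : ∀ z ∈ Z, z.1 ≠ e.2) : Agree n Z (stp caps (vE e) P) (stp caps (vE e) P') := by
  intro μ h7 hM
  unfold stp
  rw [cfL_mrg, cfL_mrg]
  have a1 := agree_sh h (hcaps e.1) e.1 h1 1 μ h7 hM
  have a2 := agree_sh h (hcaps e.2) e.2 h2 (-1) μ h7 hM
  exact congrArg₂ _ a1 a2

theorem agree_foldr {Z : List (ℕ × ℕ)} {P P' : PL} (h : Agree n Z P P') {caps : ℕ → ℕ}
    (hcaps : ∀ i, caps i ≤ 7) : ∀ (J : List (Fin n × Fin n)),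
    (∀ e ∈ J, ∀ z ∈ Z, z.1 ≠ e.1 ∧ z.1 ≠ e.2) →
    Agree n Z ((J.map vE).foldr (stp caps) P) ((J.map vE).foldr (stp caps) P')
  | [], _ => h
  | e :: J, hJ => by
    have ih := agree_foldr h hcaps J fun e' he' => hJ e' (List.mem_cons_of_mem _ he')
    rw [List.map_cons, List.foldr_cons, List.foldr_cons]
    exact agree_stp ih hcaps e (fun z hz => (hJ e List.mem_cons_self z hz).1)
      (fun z hz => (hJ e List.mem_cons_self z hz).2)

theorem fn_decQ_Z (cl : List ℕ) (h7 : ∀ i, cp cl i ≤ 7) (E : List (Fin n × Fin n)) (r : ℕ)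
    {Z : List (ℕ × ℕ)} {P : PL}
    (hA : Agree n Z (fst (cp cl) (E.map fun e => ((e.1 : ℕ), (e.2 : ℕ)))) P)
    (Q : List (ℤ × ℕ)) (hQ : ∀ q ∈ Q, q.2 < 8 ^ n ∧ (∀ i : Fin n, dec n q.2 i ≤ cp cl i) ∧
      okZ Z q.2 = true)
    (a : Fin n →₀ ℕ) (ha : ∀ i, a i ≤ dec n r i) (haZ : ∀ z ∈ Z, ∀ h : z.1 < n, a ⟨z.1, h⟩ = 0) :
    fn (decQ n Q) (ep E * monomial a 1) = cfL (enc a) (tot n r P Q) := by
  rw [cfL_tot r _ Q (fun q hq => (hQ q hq).1) a ha]
  unfold fn decQ
  rw [List.map_map]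
  congr 1
  refine List.map_congr_left fun q hq => ?_
  simp only [Function.comp]
  rw [coeff_mul_monomial', mul_one]
  congr 1
  split_ifs with h
  · have hle : ∀ i, (dec n q.2 - a) i ≤ cp cl i := by
      intro i
      rw [Finsupp.tsub_apply]
      have := (hQ q hq).2.1 i
      omega
    rw [← cfL_fst (cp cl) h7 E _ hle]
    refine hA _ (fun i => (hle i).trans (h7 i)) fun z hz hzn => ?_
    have h1 := (hQ q hq).2.2
    unfold okZ at h1
    rw [List.all_eq_true] at h1
    have h2 := h1 z hz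
    rw [Nat.beq_eq] at h2
    rw [Finsupp.tsub_apply, haZ z hz hzn, Nat.sub_zero, dec_apply]
    exact h2
  · rfl

/-- evaluation of a checked list -/
theorem cfL_finOK {U : List Bool} {r : List ℕ} (hrl : r.length = n) (hr : ∀ x ∈ r, x ≤ 7)
    {D : ℤ} {F : PL} (h : finOK U r D F = true) (a : Fin n →₀ ℕ)
    (ha : ∀ i : Fin n, a i ≤ r.getD i 0) :
    cfL (enc a) F = if (∀ i, a i = a0 (fun i : Fin n => r.getD (i : ℕ) 0) (msk U) i) then D
      else 0 := by
  have hr7 : ∀ i : ℕ, r.getD i 0 ≤ 7 := getD_le7 hr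
  unfold finOK at h
  split at h
  · next p =>
    rw [Bool.and_eq_true, Nat.beq_eq, decide_eq_true_eq] at h
    obtain ⟨h1, h2⟩ := h
    have hz : ∀ x ∈ a0L U r, x ≤ 7 := by
      intro x hx
      obtain ⟨i, hi, rfl⟩ := List.mem_iff_getElem.mp hx
      have e1 : (a0L U r)[i] = (a0L U r).getD i 0 := by
        rw [List.getD_eq_getElem?_getD, List.getElem?_eq_getElem hi]; rfl
      rw [e1, getD_a0L]
      split_ifs
      · omega
      · exact hr7 i
    have ha7 : ∀ i, a i ≤ 7 := fun i => (ha i).trans (hr7 i)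
    have hlt : cd (a0L U r) < 8 ^ n := by
      have := cd_lt _ hz
      rw [length_a0L, hrl] at this
      exact this
    have key : (p.1 = enc a) ↔ (∀ i, a i = a0 (fun i => r.getD (i : ℕ) 0) (msk U) i) := by
      rw [h1]
      constructor
      · intro h3 i
        have h5 : dec n (cd (a0L U r)) = a := by rw [h3, dec_enc a ha7]
        rw [← h5, dec_apply, cd_div _ hz, getD_a0L]
        rfl
      · intro h3
        rw [← enc_dec n _ hlt]
        congr 1
        ext i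
        rw [h3 i, dec_apply, cd_div _ hz, getD_a0L]
        rfl
    rw [cfL, cfL, add_zero]
    by_cases h5 : p.1 = enc a
    · rw [if_pos h5, if_pos (key.mp h5), h2]
    · rw [if_neg h5, if_neg fun h6 => h5 (key.mpr h6)]
  · exact absurd h (by simp)

theorem ne_of_beq {a b c : ℕ} (h : (!Nat.beq a b && !Nat.beq a c) = true) : a ≠ b ∧ a ≠ c := by
  rw [Bool.and_eq_true, Bool.not_eq_true', Bool.not_eq_true'] at h
  refine ⟨fun hh => ?_, fun hh => ?_⟩
  · have h6 : Nat.beq a b = true := by rw [Nat.beq_eq]; exact hh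
    rw [h6] at h
    exact Bool.noConfusion h.1
  · have h6 : Nat.beq a c = true := by rw [Nat.beq_eq]; exact hh
    rw [h6] at h
    exact Bool.noConfusion h.2

/-- check of one group, `P0` is the filtered product of the block edges -/
def chkGrpZ (n : ℕ) (cl sl : List ℕ) (T : List Bool) (Z : List (ℕ × ℕ)) (P0 : PL)
    (grp : List (ℕ × ℕ) × List (List Bool × ℤ × List (ℤ × ℕ))) : Bool :=
  grp.1.all (fun e => Nat.blt e.1 n && Nat.blt e.2 n &&
    Z.all fun z => !Nat.beq z.1 e.1 && !Nat.beq z.1 e.2) &&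
  extC (cp cl) grp.1 P0 fun P => grp.2.all fun u =>
    (List.range n).all (fun i => !(u.1.getD i false && T.getD i false)) &&
    !decide (u.2.1 = 0) && okQ n cl u.2.2 && (u.2.2.all fun q => okZ Z q.2) &&
    totC n (cd (red sl grp.1)) P u.2.2 (finOK u.1 (red sl grp.1) u.2.1)

/-- the verified content from the groups, `P'` agrees with the product of the block edges -/
theorem tabOK_of_grp (cl sl : List ℕ) (h7 : ∀ i, cp cl i ≤ 7) (hsl : sl.length = n)
    (hsl7 : ∀ x ∈ sl, x ≤ 7) (T : List Bool) (E : List (Fin n × Fin n)) (Z : List (ℕ × ℕ))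
    (hZs : ∀ z ∈ Z, sl.getD z.1 0 = 0) {P' : PL}
    (hP : Agree n Z (fst (cp cl) (E.map vE)) P') (tab : Tab)
    (h : ∀ grp ∈ tab, chkGrpZ n cl sl T Z P' grp = true) : TabOK n cl sl T E tab := by
  intro grp hgrp
  have h1 := h grp hgrp
  rw [chkGrpZ, Bool.and_eq_true, extC_eq, List.all_eq_true, List.all_eq_true] at h1
  obtain ⟨h2, h3⟩ := h1
  obtain ⟨J0, hJ0⟩ := exists_fin (n := n) grp.1 fun e he => by
    have := h2 e he
    rw [Bool.and_eq_true, Bool.and_eq_true, Nat.blt_eq, Nat.blt_eq] at this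
    exact this.1
  have hJZ : ∀ e ∈ J0, ∀ z ∈ Z, z.1 ≠ e.1 ∧ z.1 ≠ e.2 := by
    intro e he z hz
    have := h2 (vE e) (by rw [← hJ0]; exact List.mem_map.mpr ⟨e, he, rfl⟩)
    rw [Bool.and_eq_true, List.all_eq_true] at this
    exact ne_of_beq (this.2 z hz)
  refine ⟨J0, hJ0, fun u hu => ?_⟩
  have h4 := h3 u hu
  rw [Bool.and_eq_true, Bool.and_eq_true, Bool.and_eq_true, Bool.and_eq_true, List.all_eq_true,
    List.all_eq_true, totC_eq] at h4
  obtain ⟨⟨⟨⟨h5, h6⟩, h7'⟩, hZQ⟩, h8⟩ := h4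
  have hA : Agree n Z (fst (cp cl) ((J0 ++ E).map fun e => ((e.1 : ℕ), (e.2 : ℕ))))
      (grp.1.foldr (stp (cp cl)) P') := by
    have e1 : ((J0 ++ E).map fun e => ((e.1 : ℕ), (e.2 : ℕ))) = J0.map vE ++ E.map vE := by
      rw [List.map_append]; rfl
    rw [e1, fst_append, ← hJ0]
    exact agree_foldr hP h7 J0 hJZ
  have hQ : ∀ q ∈ u.2.2, q.2 < 8 ^ n ∧ (∀ i : Fin n, dec n q.2 i ≤ cp cl i) ∧
      okZ Z q.2 = true := by
    intro q hq
    unfold okQ at h7'
    rw [List.all_eq_true] at h7'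
    have := h7' q hq
    rw [Bool.and_eq_true, decide_eq_true_eq] at this
    refine ⟨this.1, fun i => ?_, hZQ q hq⟩
    rw [dec_apply]
    exact okc_spec this.2 i i.2
  have hr7 : ∀ x ∈ red sl grp.1, x ≤ 7 := by
    intro x hx
    obtain ⟨i, hi, rfl⟩ := List.mem_iff_getElem.mp hx
    have e2 : (red sl grp.1)[i] = (red sl grp.1).getD i 0 := by
      rw [List.getD_eq_getElem?_getD, List.getElem?_eq_getElem hi]; rfl
    rw [e2, getD_red]
    have := getD_le7 hsl7 i
    omega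
  refine ⟨fun i hi hT => ?_, ?_, ?_, ?_⟩
  · have := h5 i (List.mem_range.mpr i.2)
    unfold msk at hi hT
    rw [hi, hT] at this
    simp at this
  · simpa using h6
  · intro q hq i
    obtain ⟨q', hq', rfl⟩ := List.mem_map.mp hq
    exact (hQ q' hq').2.1 i
  · intro a ha
    have hr' : ∀ i : Fin n, dec n (cd (red sl grp.1)) i = (red sl grp.1).getD i 0 := fun i => by
      rw [dec_apply, cd_div _ hr7]
    rw [fn_decQ_Z cl h7 (J0 ++ E) (cd (red sl grp.1)) hA u.2.2 hQ a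
      (fun i => by rw [hr']; exact ha i) ?_]
    · exact cfL_finOK (by rw [length_red, hsl]) hr7 h8 a ha
    · intro z hz hzn
      have h9 : a ⟨z.1, hzn⟩ ≤ (red sl grp.1).getD z.1 0 := ha ⟨z.1, hzn⟩
      rw [getD_red] at h9
      have h10 := hZs z hz
      omega

/-! ### stages -/

/-- stages (the first one is the last of the list): multiply by the edges, then keep the
monomials with the given exponents at `Z` -/
def stg (caps : ℕ → ℕ) : List (List (ℕ × ℕ) × List (ℕ × ℕ)) → PL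
  | [] => [(0, 1)]
  | s :: rest => (s.1.foldr (stp caps) (stg caps rest)).filter fun p => okZ s.2 p.1

def stgC (caps : ℕ → ℕ) : List (List (ℕ × ℕ) × List (ℕ × ℕ)) → (PL → Bool) → Bool
  | [], f => f [(0, 1)]
  | s :: rest, f => stgC caps rest fun P => extC caps s.1 P fun P' =>
    frcL (P'.filter fun p => okZ s.2 p.1) f

theorem stgC_eq (caps : ℕ → ℕ) : ∀ (st : List (List (ℕ × ℕ) × List (ℕ × ℕ))) (f : PL → Bool),
    stgC caps st f = f (stg caps st)
  | [], _ => rfl
  | s :: rest, f => by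
    rw [stgC, stgC_eq caps rest, extC_eq, frcL_eq]; rfl

/-- all fixed exponents -/
def stgZ : List (List (ℕ × ℕ) × List (ℕ × ℕ)) → List (ℕ × ℕ)
  | [] => []
  | s :: rest => s.2 ++ stgZ rest

/-- all edges -/
def stgE : List (List (ℕ × ℕ) × List (ℕ × ℕ)) → List (ℕ × ℕ)
  | [] => []
  | s :: rest => s.1 ++ stgE rest

/-- later edges do not meet fixed vertices -/
def stgOK (n : ℕ) : List (List (ℕ × ℕ) × List (ℕ × ℕ)) → Bool
  | [] => true
  | s :: rest => s.1.all (fun e => Nat.blt e.1 n && Nat.blt e.2 n &&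
      (stgZ rest).all fun z => !Nat.beq z.1 e.1 && !Nat.beq z.1 e.2) &&
    s.2.all (fun z => Nat.blt z.1 n) && stgOK n rest

theorem mt_append {Z Z' : List (ℕ × ℕ)} {μ : Fin n →₀ ℕ} (h : Mt (Z ++ Z') μ) :
    Mt Z μ ∧ Mt Z' μ :=
  ⟨fun z hz => h z (List.mem_append_left _ hz), fun z hz => h z (List.mem_append_right _ hz)⟩

theorem agree_stg {caps : ℕ → ℕ} (hcaps : ∀ i, caps i ≤ 7) :
    ∀ (st : List (List (ℕ × ℕ) × List (ℕ × ℕ))), stgOK n st = true →
    Agree n (stgZ st) (fst caps (stgE st)) (stg caps st)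
  | [], _ => fun _ _ _ => rfl
  | s :: rest, h => by
    rw [stgOK, Bool.and_eq_true, Bool.and_eq_true, List.all_eq_true, List.all_eq_true] at h
    obtain ⟨⟨h1, h2⟩, h3⟩ := h
    have ih := agree_stg hcaps rest h3
    obtain ⟨J0, hJ0⟩ := exists_fin (n := n) s.1 fun e he => by
      have := h1 e he
      rw [Bool.and_eq_true, Bool.and_eq_true, Nat.blt_eq, Nat.blt_eq] at this
      exact this.1
    have hJZ : ∀ e ∈ J0, ∀ z ∈ stgZ rest, z.1 ≠ e.1 ∧ z.1 ≠ e.2 := by
      intro e he z hz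
      have := h1 (vE e) (by rw [← hJ0]; exact List.mem_map.mpr ⟨e, he, rfl⟩)
      rw [Bool.and_eq_true, List.all_eq_true] at this
      exact ne_of_beq (this.2 z hz)
    intro μ h7 hM
    obtain ⟨m1, m2⟩ := mt_append hM
    rw [stgE, fst_append, ← hJ0, agree_foldr ih hcaps J0 hJZ μ h7 m2, hJ0, stg]
    exact agree_filter (fun z hz => by
      have := h2 z hz
      rwa [Nat.blt_eq] at this) _ μ h7 m1

/-- all groups of a table -/
def chkTabS (n : ℕ) (cl sl : List ℕ) (T : List Bool)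
    (st : List (List (ℕ × ℕ) × List (ℕ × ℕ))) (tab : Tab) : Bool :=
  stgOK n st && (stgZ st).all (fun z => Nat.beq (sl.getD z.1 0) 0) &&
  stgC (cp cl) st fun P => tab.all fun grp => chkGrpZ n cl sl T (stgZ st) P grp

theorem TabOK.perm {cl sl : List ℕ} {T : List Bool} {E E' : List (Fin n × Fin n)} {t : Tab}
    (h : TabOK n cl sl T E t) (hp : E.Perm E') : TabOK n cl sl T E' t := by
  intro grp hgrp
  obtain ⟨J0, hJ0, h1⟩ := h grp hgrp
  refine ⟨J0, hJ0, fun u hu => ?_⟩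
  rw [← ep_perm (hp.append_left J0)]
  exact h1 u hu

/-- a checked table -/
theorem tabOK_s {cl sl : List ℕ} {T : List Bool} {E : List (Fin n × Fin n)}
    {st : List (List (ℕ × ℕ) × List (ℕ × ℕ))} {tab : Tab}
    (h0 : chk0 n cl sl = true) (h1 : chkTabS n cl sl T st tab = true)
    (E' : List (Fin n × Fin n)) (hE : E'.map vE = stgE st) (hp : E'.Perm E) :
    TabOK n cl sl T E tab := by
  rw [chk0, Bool.and_eq_true, Bool.and_eq_true, Nat.beq_eq, List.all_eq_true] at h0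
  obtain ⟨⟨hsl, hs7⟩, h7⟩ := h0
  rw [chkTabS, Bool.and_eq_true, Bool.and_eq_true, stgC_eq, List.all_eq_true,
    List.all_eq_true] at h1
  obtain ⟨⟨h2, h3⟩, h4⟩ := h1
  refine (tabOK_of_grp cl sl (cp_le7 h7) hsl (fun x hx => by simpa using hs7 x hx) T E'
    (stgZ st) (fun z hz => ?_) (hE ▸ agree_stg (cp_le7 h7) st h2) tab h4).perm hp
  have := h3 z hz
  rwa [Nat.beq_eq] at this

theorem tabOK_append {cl sl : List ℕ} {T : List Bool} {E : List (Fin n × Fin n)} {t1 t2 : Tab}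
    (h1 : TabOK n cl sl T E t1) (h2 : TabOK n cl sl T E t2) : TabOK n cl sl T E (t1 ++ t2) := by
  intro grp hgrp
  rcases List.mem_append.mp hgrp with h | h
  · exact h1 grp h
  · exact h2 grp h

/-- **Root blocks**, with exceptional patterns, from the verified table. -/
theorem bn_ok_x {g : Fin n → V} (hg : Function.Injective g) {cl' sl : List ℕ} {T : List Bool}
    {E : List (Fin n × Fin n)} {gE : List (ℕ × ℕ)} {tab : Tab} {exc : List (List (ℕ × ℕ))}
    (h0 : chk0 n cl' sl = true) (htab : TabOK n cl' sl T E tab)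
    (h2 : chkEn n cl' gE sl tab exc false = true) (hc : ∀ i : Fin n, cp cl' i ≤ c (g i))
    {W : List V} {N : Multiset (Sym2 V)} (hd : ∀ i : Fin n, dg N (g i) ≤ sl.getD i 0)
    (C : Ctx g (msk T) W N c) (hx : ∀ (J : List (Fin n × Fin n)) (r : List ℕ)
      (N : Multiset (Sym2 V)), J.map vE ∈ exc → r.length = n →
      (∀ i : Fin n, r.getD i 0 + dj (J.map vE) i = sl.getD i 0) →
      (∀ i : Fin n, dg N (g i) ≤ r.getD i 0) → Ctx g (msk T) W N c →
      (∀ i j, s(g i, g j) ∉ N) → AT (emb g (J ++ E) + N) c) : AT (emb g E + N) c := by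
  rw [chk0, Bool.and_eq_true, Bool.and_eq_true, Nat.beq_eq, List.all_eq_true] at h0
  obtain ⟨⟨hsl, hs7⟩, h7⟩ := h0
  have h7' := cp_le7 h7
  have hz : ∀ i : Fin n, sl.getD i 0 + dj (([] : List (Fin n × Fin n)).map vE) i =
      sl.getD i 0 := fun i => rfl
  have hin : ∀ i j : Fin n, i < j → s(g i, g j) ∈ N → ((i : ℕ), (j : ℕ)) ∈ prs n :=
    fun i j hij _ => mem_prs hij j.2
  rw [chkEn, if_neg (by simp)] at h2
  exact enP_sound hg h7' hc htab hx (fu n sl) (prs n) [] [] sl N hsl hz hd C (Or.inr rfl)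
    prs_lt hin h2

/-- **Root blocks**, from the verified table. -/
theorem bn_ok {g : Fin n → V} (hg : Function.Injective g) {cl' sl : List ℕ} {T : List Bool}
    {E : List (Fin n × Fin n)} {gE : List (ℕ × ℕ)} {tab : Tab}
    (h0 : chk0 n cl' sl = true) (htab : TabOK n cl' sl T E tab)
    (h2 : chkEn n cl' gE sl tab [] false = true) (hc : ∀ i : Fin n, cp cl' i ≤ c (g i))
    {W : List V} {N : Multiset (Sym2 V)} (hd : ∀ i : Fin n, dg N (g i) ≤ sl.getD i 0)
    (C : Ctx g (msk T) W N c) : AT (emb g E + N) c :=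
  bn_ok_x hg h0 htab h2 hc hd C (fun J r N h => absurd h (by simp))

end Helper85.Bn
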