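import Pool.Agent.helper85.L9.Sys

/-!
# Coefficient identities for a unit `P5`
-/

set_option autoImplicit false
set_option linter.unusedSimpArgs false
set_option linter.unusedVariables false
set_option linter.unreachableTactic false
set_option linter.unusedTactic false

namespace Pool.Agent.helper85.L9

open Helper42.L9 MvPolynomial Finset

variable {V : Type*}

section expand

variable {v : V} {Q0 Q1 Q2 Q3 Q4 Q5 : MvPolynomial V ℤ}

theorem cfp_0 (h0 : Fr v Q0) :
    cf v 0 (Q0 + X v * Q1) = Q0 := by
  rw [map_add, cf_free_zero h0, cf_X_mul_zero]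
  ring

theorem cfp_1 (h0 : Fr v Q0) (h1 : Fr v Q1) :
    cf v 1 (Q0 + X v * (Q1 + X v * Q2)) = Q1 := by
  rw [map_add, cf_free_succ h0 0, cf_X_mul_succ v 0, cfp_0 h1]
  ring

theorem cfp_2 (h0 : Fr v Q0) (h1 : Fr v Q1) (h2 : Fr v Q2) (h3 : Fr v Q3) :
    cf v 2 (Q0 + X v * (Q1 + X v * (Q2 + X v * Q3))) = Q2 := by
  rw [map_add, cf_free_succ h0 1, cf_X_mul_succ v 1, cfp_1 h1 h2]
  ring

theorem cfp_3 (h0 : Fr v Q0) (h1 : Fr v Q1) (h2 : Fr v Q2) (h3 : Fr v Q3) (h4 : Fr v Q4) :
    cf v 3 (Q0 + X v * (Q1 + X v * (Q2 + X v * (Q3 + X v * Q4)))) = Q3 := by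
  rw [map_add, cf_free_succ h0 2, cf_X_mul_succ v 2, cfp_2 h1 h2 h3 h4]
  ring

end expand

/-- edges from ordered pairs -/
abbrev pe (K : List (V × V)) : Multiset (Sym2 V) := (K.map fun p => s(p.1, p.2) : List (Sym2 V))

theorem at_pe {K : List (V × V)} {N : Multiset (Sym2 V)} {c : V → ℕ}
    (h : Sup ((K.map fun p => (X p.1 - X p.2 : MvPolynomial V ℤ)).prod * gp N) c) :
    AT (pe K + N) c :=
  sup_congr_sign (gp_pairs K N) h

/-- reordering of the factors -/
theorem p5_e1 {R : Type*} [CommRing R] (d12 d13 d23 d42 d43 d35 d45 d1a d1b d2l d4l G : R) :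
    (d12 * (d13 * (d23 * (-d42 * (-d43 * (d35 * (d45 * (d1a * (d1b * (d2l *
      (d4l * 1))))))))))) * G =
    d12 * (d13 * (d1a * (d1b * (d42 * (d43 * (d45 * (d4l * (d23 * (d2l * (d35 * G)))))))))) := by
  ring

/-- reordering of the factors -/
theorem p5_e2 {R : Type*} [CommRing R] (K d23 d42 d43 d45 d4l H : R) :
    K * (d42 * (d43 * (d45 * (d4l * (d23 * H))))) =
    d42 * (d43 * (d45 * (d4l * (K * (d23 * H))))) := by
  ring

/-- two quadratics, a linear factor and a free vertex, by the powers of `x` -/
theorem p5_exp2 {R : Type*} [CommRing R] (x A l p1 q1 p2 q2 G : R) :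
    (x * p1 + q1) * ((x * p2 + q2) * ((x - A) * ((x - l) * G))) =
      (A * l * (q2 * q1) * G) + x * (((A * l) * (p2 * q1 + p1 * q2) - (A + l) * (q2 * q1)) * G +
      x * (((A * l) * (p2 * p1) - (A + l) * (p2 * q1 + p1 * q2) + q2 * q1) * G +
      x * (((p2 * q1 + p1 * q2) - (A + l) * (p2 * p1)) * G + x * ((p2 * p1) * G)))) := by
  ring

/-- the same for the vertex `A` -/
theorem p5_exp3 {R : Type*} [CommRing R] (A S P T W l v G : R) :
    ((((A + S) * (A * T + W) + (A + T) * (A * S + P)) - (A + l) * ((A + S) * (A + T))) *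
      ((A - v) * G)) =
      (-(v * ((S * W + T * P) - l * (S * T))) * G) + A * (((((S * W + T * P) - l * (S * T)) -
      v * (S * T + W + P - l * (S + T))) * G) + A * ((((S * T + W + P - l * (S + T)) -
      v * (-l)) * G) + A * (((v - l) * G) + A * ((-1 * G))))) := by
  ring

/-- plain `P5`: becomes the vertex `v5` with the additional neighbour `l2` -/
theorem at_p5_plain {v1 v2 v3 v4 v5 a b l2 l4 : V} {N : Multiset (Sym2 V)} {c : V → ℕ}
    (h12 : v1 ≠ v2) (h13 : v1 ≠ v3) (h14 : v1 ≠ v4) (h15 : v1 ≠ v5) (h23 : v2 ≠ v3) (h24 : v2 ≠ v4)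
    (h25 : v2 ≠ v5) (h34 : v3 ≠ v4) (h35 : v3 ≠ v5) (h45 : v4 ≠ v5)
    (ha1 : a ≠ v1) (ha2 : a ≠ v2) (ha3 : a ≠ v3) (ha4 : a ≠ v4)
    (hb1 : b ≠ v1) (hb2 : b ≠ v2) (hb3 : b ≠ v3) (hb4 : b ≠ v4)
    (hl1 : l2 ≠ v1) (hl2 : l2 ≠ v2) (hl3 : l2 ≠ v3) (hl4 : l2 ≠ v4)
    (hm1 : l4 ≠ v1) (hm2 : l4 ≠ v2) (hm3 : l4 ≠ v3) (hm4 : l4 ≠ v4)
    (hN1 : ∀ e ∈ N, v1 ∉ e) (hN2 : ∀ e ∈ N, v2 ∉ e) (hN3 : ∀ e ∈ N, v3 ∉ e)
    (hN4 : ∀ e ∈ N, v4 ∉ e)
    (h : AT (s(v5, l2) ::ₘ N) c)
    (c1 : 2 ≤ c v1) (c2 : 3 ≤ c v2) (c3 : 3 ≤ c v3) (c4 : 2 ≤ c v4) :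
    AT (pe [(v1, v2), (v1, v3), (v2, v3), (v2, v4), (v3, v4), (v3, v5), (v4, v5),
      (v1, a), (v1, b), (v2, l2), (v4, l4)] + N) c := by
  apply at_pe
  have f1 := fr_gp hN1
  have f2 := fr_gp hN2
  have f3 := fr_gp hN3
  have f4 := fr_gp hN4
  have e1 : (([(v1, v2), (v1, v3), (v2, v3), (v2, v4), (v3, v4), (v3, v5), (v4, v5),
      (v1, a), (v1, b), (v2, l2), (v4, l4)].map fun p => (X p.1 - X p.2 : MvPolynomial V ℤ)).prod
      * gp N) = (X v1 - X v2) * ((X v1 - X v3) * ((X v1 - X a) * ((X v1 - X b) *
      (((X v4 - X v2) * ((X v4 - X v3) * ((X v4 - X v5) * ((X v4 - X l4) * ((X v2 - X v3) * ((X v2 - X l2) * ((X v3 - X v5) * gp N))))))))))) := by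
    simp only [List.map_cons, List.map_nil, List.prod_cons, List.prod_nil]
    rw [← neg_sub (X v4 : MvPolynomial V ℤ) (X v2), ← neg_sub (X v4 : MvPolynomial V ℤ) (X v3)]
    exact p5_e1 _ _ _ _ _ _ _ _ _ _ _ _
  rw [e1]
  refine Sup.of_cf' (k := 2) (v := v1) ?_ c1
  rw [cf4_2 (fr_X h12.symm) (fr_X h13.symm) (fr_X ha1) (fr_X hb1) (by
    repeat' (first
      | with_reducible assumption
      | with_reducible apply Fr.add
      | with_reducible apply Fr.sub
      | with_reducible apply Fr.mul
      | with_reducible apply Fr.neg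
      | with_reducible apply Fr.pow
      | with_reducible exact fr_zero _
      | with_reducible exact fr_one _
      | with_reducible exact fr_ofNat _ _
      | with_reducible exact fr_X (by assumption)
      | with_reducible exact fr_X (Ne.symm (by assumption))))]
  have e2 : (X v2 * X v3 + X v2 * X a + X v2 * X b + X v3 * X a + X v3 * X b + X a * X b) *
      ((X v4 - X v2) * ((X v4 - X v3) * ((X v4 - X v5) * ((X v4 - X l4) * ((X v2 - X v3) * ((X v2 - X l2) * ((X v3 - X v5) * gp N))))))) = (X v4 - X v2) * ((X v4 - X v3) * ((X v4 - X v5) * ((X v4 - X l4) *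
      ((X v2 * X v3 + X v2 * X a + X v2 * X b + X v3 * X a + X v3 * X b + X a * X b) * ((X v2 - X v3) * ((X v2 - X l2) * ((X v3 - X v5) * gp N))))))) := p5_e2 _ _ _ _ _ _ _
  rw [e2]
  refine Sup.of_cf' (k := 2) (v := v4) ?_ c4
  rw [cf4_2 (fr_X h24) (fr_X h34) (fr_X h45.symm) (fr_X hm4) (by
    repeat' (first
      | with_reducible assumption
      | with_reducible apply Fr.add
      | with_reducible apply Fr.sub
      | with_reducible apply Fr.mul
      | with_reducible apply Fr.neg
      | with_reducible apply Fr.pow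
      | with_reducible exact fr_zero _
      | with_reducible exact fr_one _
      | with_reducible exact fr_ofNat _ _
      | with_reducible exact fr_X (by assumption)
      | with_reducible exact fr_X (Ne.symm (by assumption))))]
  have e3 : (X v2 * X v3 + X v2 * X v5 + X v2 * X l4 + X v3 * X v5 + X v3 * X l4 + X v5 * X l4) * ((X v2 * X v3 + X v2 * X a + X v2 * X b + X v3 * X a + X v3 * X b + X a * X b) * ((X v2 - X v3) * ((X v2 - X l2) * ((X v3 - X v5) * gp N)))) =
      (X v3 * X l2 * ((X v3 * (X a + X b) + (X a * X b)) * (X v3 * (X v5 + X l4) + (X v5 * X l4))) * ((X v3 - X v5) * gp N)) + X v2 * ((((X v3 * X l2) * ((X v3 + (X a + X b)) * (X v3 * (X v5 + X l4) + (X v5 * X l4)) + (X v3 + (X v5 + X l4)) * (X v3 * (X a + X b) + (X a * X b))) - (X v3 + X l2) * ((X v3 * (X a + X b) + (X a * X b)) * (X v3 * (X v5 + X l4) + (X v5 * X l4)))) * ((X v3 - X v5) * gp N)) + X v2 * ((((X v3 * X l2) * ((X v3 + (X a + X b)) * (X v3 + (X v5 + X l4))) - (X v3 + X l2) * ((X v3 + (X a + X b)) * (X v3 * (X v5 + X l4) + (X v5 * X l4)) + (X v3 + (X v5 + X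 l4)) * (X v3 * (X a + X b) + (X a * X b))) + (X v3 * (X a + X b) + (X a * X b)) * (X v3 * (X v5 + X l4) + (X v5 * X l4))) * ((X v3 - X v5) * gp N)) + X v2 * (((((X v3 + (X a + X b)) * (X v3 * (X v5 + X l4) + (X v5 * X l4)) + (X v3 + (X v5 + X l4)) * (X v3 * (X a + X b) + (X a * X b))) - (X v3 + X l2) * ((X v3 + (X a + X b)) * (X v3 + (X v5 + X l4)))) * ((X v3 - X v5) * gp N)) + X v2 * (((X v3 + (X a + X b)) * (X v3 + (X v5 + X l4)) * ((X v3 - X v5) * gp N)))))) := by
    have e5 : (X v2 * X v3 + X v2 * X v5 + X v2 * X l4 + X v3 * X v5 + X v3 * X l4 + X v5 * X l4 :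
        MvPolynomial V ℤ) =
        X v2 * (X v3 + (X v5 + X l4)) + (X v3 * (X v5 + X l4) + (X v5 * X l4)) := by ring
    have e6 : (X v2 * X v3 + X v2 * X a + X v2 * X b + X v3 * X a + X v3 * X b + X a * X b :
        MvPolynomial V ℤ) =
        X v2 * (X v3 + (X a + X b)) + (X v3 * (X a + X b) + (X a * X b)) := by ring
    rw [e5, e6]
    exact p5_exp2 _ _ _ _ _ _ _ _
  rw [e3]
  refine Sup.of_cf' (k := 3) (v := v2) ?_ c2
  rw [cfp_3 (by
    repeat' (first
      | with_reducible assumption
      | with_reducible apply Fr.add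
      | with_reducible apply Fr.sub
      | with_reducible apply Fr.mul
      | with_reducible apply Fr.neg
      | with_reducible apply Fr.pow
      | with_reducible exact fr_zero _
      | with_reducible exact fr_one _
      | with_reducible exact fr_ofNat _ _
      | with_reducible exact fr_X (by assumption)
      | with_reducible exact fr_X (Ne.symm (by assumption)))) (by
    repeat' (first
      | with_reducible assumption
      | with_reducible apply Fr.add
      | with_reducible apply Fr.sub
      | with_reducible apply Fr.mul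
      | with_reducible apply Fr.neg
      | with_reducible apply Fr.pow
      | with_reducible exact fr_zero _
      | with_reducible exact fr_one _
      | with_reducible exact fr_ofNat _ _
      | with_reducible exact fr_X (by assumption)
      | with_reducible exact fr_X (Ne.symm (by assumption)))) (by
    repeat' (first
      | with_reducible assumption
      | with_reducible apply Fr.add
      | with_reducible apply Fr.sub
      | with_reducible apply Fr.mul
      | with_reducible apply Fr.neg
      | with_reducible apply Fr.pow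
      | with_reducible exact fr_zero _
      | with_reducible exact fr_one _
      | with_reducible exact fr_ofNat _ _
      | with_reducible exact fr_X (by assumption)
      | with_reducible exact fr_X (Ne.symm (by assumption)))) (by
    repeat' (first
      | with_reducible assumption
      | with_reducible apply Fr.add
      | with_reducible apply Fr.sub
      | with_reducible apply Fr.mul
      | with_reducible apply Fr.neg
      | with_reducible apply Fr.pow
      | with_reducible exact fr_zero _
      | with_reducible exact fr_one _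
      | with_reducible exact fr_ofNat _ _
      | with_reducible exact fr_X (by assumption)
      | with_reducible exact fr_X (Ne.symm (by assumption)))) (by
    repeat' (first
      | with_reducible assumption
      | with_reducible apply Fr.add
      | with_reducible apply Fr.sub
      | with_reducible apply Fr.mul
      | with_reducible apply Fr.neg
      | with_reducible apply Fr.pow
      | with_reducible exact fr_zero _
      | with_reducible exact fr_one _
      | with_reducible exact fr_ofNat _ _
      | with_reducible exact fr_X (by assumption)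
      | with_reducible exact fr_X (Ne.symm (by assumption))))]
  have e4 : ((((X v3 + (X a + X b)) * (X v3 * (X v5 + X l4) + (X v5 * X l4)) + (X v3 + (X v5 + X l4)) * (X v3 * (X a + X b) + (X a * X b))) - (X v3 + X l2) * ((X v3 + (X a + X b)) * (X v3 + (X v5 + X l4)))) * ((X v3 - X v5) * gp N)) =
      (-(X v5 * (((X a + X b) * (X v5 * X l4) + (X v5 + X l4) * (X a * X b)) - X l2 * ((X a + X b) * (X v5 + X l4)))) * gp N) + X v3 * ((((((X a + X b) * (X v5 * X l4) + (X v5 + X l4) * (X a * X b)) - X l2 * ((X a + X b) * (X v5 + X l4))) - X v5 * ((X a + X b) * (X v5 + X l4) + (X v5 * X l4) + (X a * X b) - X l2 * ((X a + X b) + (X v5 + X l4)))) * gp N) + X v3 * (((((X a + X b) * (X v5 + X l4) + (X v5 * X l4) + (X a * X b) - X l2 * ((X a + X b) + (X v5 + X l4))) - X v5 * (-X l2)) * gp N) + X v3 * (((X v5 - X l2) * gp N) + X v3 * ((-1 * gp N))))) := p5_exp3 _ _ _ _ _ _ _ _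
  rw [e4]
  refine Sup.of_cf' (k := 3) (v := v3) ?_ c3
  rw [cfp_3 (by
    repeat' (first
      | with_reducible assumption
      | with_reducible apply Fr.add
      | with_reducible apply Fr.sub
      | with_reducible apply Fr.mul
      | with_reducible apply Fr.neg
      | with_reducible apply Fr.pow
      | with_reducible exact fr_zero _
      | with_reducible exact fr_one _
      | with_reducible exact fr_ofNat _ _
      | with_reducible exact fr_X (by assumption)
      | with_reducible exact fr_X (Ne.symm (by assumption)))) (by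
    repeat' (first
      | with_reducible assumption
      | with_reducible apply Fr.add
      | with_reducible apply Fr.sub
      | with_reducible apply Fr.mul
      | with_reducible apply Fr.neg
      | with_reducible apply Fr.pow
      | with_reducible exact fr_zero _
      | with_reducible exact fr_one _
      | with_reducible exact fr_ofNat _ _
      | with_reducible exact fr_X (by assumption)
      | with_reducible exact fr_X (Ne.symm (by assumption)))) (by
    repeat' (first
      | with_reducible assumption
      | with_reducible apply Fr.add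
      | with_reducible apply Fr.sub
      | with_reducible apply Fr.mul
      | with_reducible apply Fr.neg
      | with_reducible apply Fr.pow
      | with_reducible exact fr_zero _
      | with_reducible exact fr_one _
      | with_reducible exact fr_ofNat _ _
      | with_reducible exact fr_X (by assumption)
      | with_reducible exact fr_X (Ne.symm (by assumption)))) (by
    repeat' (first
      | with_reducible assumption
      | with_reducible apply Fr.add
      | with_reducible apply Fr.sub
      | with_reducible apply Fr.mul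
      | with_reducible apply Fr.neg
      | with_reducible apply Fr.pow
      | with_reducible exact fr_zero _
      | with_reducible exact fr_one _
      | with_reducible exact fr_ofNat _ _
      | with_reducible exact fr_X (by assumption)
      | with_reducible exact fr_X (Ne.symm (by assumption)))) (by
    repeat' (first
      | with_reducible assumption
      | with_reducible apply Fr.add
      | with_reducible apply Fr.sub
      | with_reducible apply Fr.mul
      | with_reducible apply Fr.neg
      | with_reducible apply Fr.pow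
      | with_reducible exact fr_zero _
      | with_reducible exact fr_one _
      | with_reducible exact fr_ofNat _ _
      | with_reducible exact fr_X (by assumption)
      | with_reducible exact fr_X (Ne.symm (by assumption))))]
  unfold AT at h
  rcases gp_cons_mk v5 l2 N with h1 | h1
  · rw [h1] at h; exact h
  · rw [h1] at h; exact sup_neg_iff.mp h

end Pool.Agent.helper85.L9
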