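import Pool.Agent.helper42.L9.Cubic3

/-!
# Unit systems: definitions

One side of the cut, seen as a multigraph: ordinary vertices of degree at most three, units `P4`
(four vertices `p u v q` in a row) and units `P5` (`v1 .. v5` in a row), and a multiset `L` of links
(cross links and the own edges of `P2`'s and of peeled `P3`'s).  `δ` is one special vertex which may
have a small cap (dead slots are links to `δ`).
-/

set_option autoImplicit false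

namespace Pool.Agent.helper85.L9

open Helper42.L9

/-- a unit with four vertices in a row -/
structure P4u (V : Type*) where
  (p u v q : V)

/-- a unit with five vertices in a row -/
structure P5u (V : Type*) where
  (v1 v2 v3 v4 v5 : V)

variable {V : Type*}

namespace P4u

def verts (U : P4u V) : List V := [U.p, U.u, U.v, U.q]

def rev (U : P4u V) : P4u V := ⟨U.q, U.v, U.u, U.p⟩

/-- conflicts inside the unit -/
def edges (U : P4u V) : Multiset (Sym2 V) :=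
  {s(U.p, U.u), s(U.p, U.v), s(U.u, U.v), s(U.u, U.q), s(U.v, U.q)}

end P4u

namespace P5u

def verts (P : P5u V) : List V := [P.v1, P.v2, P.v3, P.v4, P.v5]

def rev (P : P5u V) : P5u V := ⟨P.v5, P.v4, P.v3, P.v2, P.v1⟩

/-- conflicts inside the unit -/
def edges (P : P5u V) : Multiset (Sym2 V) :=
  {s(P.v1, P.v2), s(P.v1, P.v3), s(P.v2, P.v3), s(P.v2, P.v4), s(P.v3, P.v4), s(P.v3, P.v5),
    s(P.v4, P.v5)}

end P5u

/-- `Chain Us L a l b`: `a` is joined to `b` by links and the units of the list `l` -/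
def Chain (Us : List (P4u V)) (L : Multiset (Sym2 V)) : V → List (P4u V) → V → Prop
  | a, [], b => s(a, b) ∈ L
  | a, U :: l, b => s(a, U.u) ∈ L ∧ (U ∈ Us ∨ U.rev ∈ Us) ∧ Chain Us L U.v l b

/-- a system with only `P5` units -/
structure Sys5 (Ps : List (P5u V)) (L : Multiset (Sym2 V)) (δ : V) : Prop where
  nodup : (Ps.flatMap P5u.verts).Nodup
  fresh : δ ∉ Ps.flatMap P5u.verts
  loopless : ∀ e ∈ L, ¬ e.IsDiag
  deg : ∀ v, dg L v ≤ 3
  degE : ∀ P ∈ Ps, dg L P.v1 ≤ 2 ∧ dg L P.v2 ≤ 1 ∧ dg L P.v3 = 0 ∧ dg L P.v4 ≤ 1 ∧ dg L P.v5 ≤ 2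
  noU5 : ∀ P ∈ Ps, ¬ (s(P.v1, P.v4) ∈ L ∧ s(P.v2, P.v5) ∈ L)
  noK4 : NoK4 L

/-- a system with units `P4` and `P5` -/
structure Sys (Us : List (P4u V)) (Ps : List (P5u V)) (L : Multiset (Sym2 V)) (δ : V) : Prop where
  nodup : (Us.flatMap P4u.verts ++ Ps.flatMap P5u.verts).Nodup
  fresh : δ ∉ Us.flatMap P4u.verts ++ Ps.flatMap P5u.verts
  loopless : ∀ e ∈ L, ¬ e.IsDiag
  deg : ∀ v, dg L v ≤ 3
  degU : ∀ U ∈ Us, dg L U.p ≤ 2 ∧ dg L U.u ≤ 1 ∧ dg L U.v ≤ 1 ∧ dg L U.q ≤ 2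
  degE : ∀ P ∈ Ps, dg L P.v1 ≤ 2 ∧ dg L P.v2 ≤ 1 ∧ dg L P.v3 = 0 ∧ dg L P.v4 ≤ 1 ∧ dg L P.v5 ≤ 2
  noLoop : ∀ t l, Chain Us L t l t → ∃ U ∈ l, t = U.p ∨ t = U.q
  noU5 : ∀ P ∈ Ps, ∀ l l', Chain Us L P.v1 l P.v4 → ¬ Chain Us L P.v2 l' P.v5
  noK4 : NoK4 L

/-- caps -/
structure Caps (Us : List (P4u V)) (Ps : List (P5u V)) (δ : V) (c : V → ℕ) : Prop where
  two : ∀ v, v ≠ δ → 2 ≤ c v
  u3 : ∀ U ∈ Us, 3 ≤ c U.u ∧ 3 ≤ c U.v
  m3 : ∀ P ∈ Ps, 3 ≤ c P.v2 ∧ 3 ≤ c P.v3 ∧ 3 ≤ c P.v4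

/-- the statement of Brooks and Alon-Tarsi for maximum degree three with one special vertex -/
def CubicAT (V : Type*) : Prop :=
  ∀ (M : Multiset (Sym2 V)) (δ : V) (c : V → ℕ), (∀ e ∈ M, ¬ e.IsDiag) → (∀ v, dg M v ≤ 3) →
    NoK4 M → (∀ v, v ≠ δ → 2 ≤ c v) → (2 ≤ c δ ∨ dg M δ ≤ 2) → AT M c

end Pool.Agent.helper85.L9
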